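import Pool.Agent.H721Light.P_core

set_option autoImplicit false

open MeasureTheory Set Filter Topology

namespace Pool.Light

variable {n : ℕ}

/-- the core theorem: some ray from `x` escapes after finitely many proper reflections. -/
theorem core_dense (C : Cfg n) (x₁ x₂ : ℝ)
    (hx : ∀ k, (C.r k) ^ 2 < (C.cx k - x₁) ^ 2 + (C.cy k - x₂) ^ 2) (θa θb : ℝ) (hab : θa < θb) :
    ∃ θ ∈ Ioo θa θb, (∀ k, 0 < dvx C x₁ x₂ k θ → C.r k < |bx C x₁ x₂ k θ|) ∨
      ∃ j, HitsX C x₁ x₂ j θ ∧ ∃ m, stX C x₁ x₂ j θ ∈ C.Om m ∧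
        (C.T^[m]) (stX C x₁ x₂ j θ) ∈ C.E0 := by
  by_contra hcon
  push Not at hcon
  obtain ⟨θ0, hθI, hne⟩ : ∃ θ0 ∈ Ioo θa θb, ∀ k, |bx C x₁ x₂ k θ0| ≠ C.r k := by
    have hc : (⋃ k, ({θ | bx C x₁ x₂ k θ = C.r k} ∪ {θ | bx C x₁ x₂ k θ = -C.r k})).Countable := by
      apply countable_iUnion
      intro k
      exact (core_ctble C x₁ x₂ k (hx k) _ rfl).union (core_ctble C x₁ x₂ k (hx k) _ (by ring))
    obtain ⟨θ0, hθ0, hθI⟩ := (hc.dense_compl ℝ).exists_between hab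
    refine ⟨θ0, hθI, fun k hk => ?_⟩
    apply hθ0
    rw [mem_iUnion]
    refine ⟨k, ?_⟩
    rcases (abs_eq (C.hr k).le).mp hk with h | h
    · exact Or.inl h
    · exact Or.inr h
  obtain ⟨j, hj⟩ := core_min C x₁ x₂ θ0 hne (hcon θ0 hθI).1
  have hopen := core_open C x₁ x₂ hx j θ0 hj hne
  set b0 := bx C x₁ x₂ j θ0 with hb0
  set r := C.r j with hr
  have hr0 : 0 < r := C.hr j
  have hb0r : |b0| < r := hj.2.1
  set D := Real.sqrt ((C.cx j - x₁) ^ 2 + (C.cy j - x₂) ^ 2) with hD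
  have hD2 : D ^ 2 = (C.cx j - x₁) ^ 2 + (C.cy j - x₂) ^ 2 := Real.sq_sqrt (by positivity)
  have hrD : r < D := (Real.lt_sqrt hr0.le).mpr (hx j)
  have hD0 : 0 < D := hr0.trans hrD
  set a0 := Real.arcsin (b0 / D) with ha0
  have hs0 : D * Real.sin a0 = b0 := by
    have h1 := abs_lt.mp (hb0r.trans hrD)
    rw [ha0, Real.sin_arcsin]
    · field_simp
    · rw [le_div_iff₀ hD0]
      linarith
    · rw [div_le_iff₀ hD0]
      linarith
  have hc0 : D * Real.cos a0 = dvx C x₁ x₂ j θ0 := by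
    have h1 : 0 ≤ Real.cos a0 := Real.cos_arcsin_nonneg _
    have h2 := core_sq C x₁ x₂ j θ0
    have h3 := Real.sin_sq_add_cos_sq a0
    have h4 : (D * Real.cos a0 - dvx C x₁ x₂ j θ0) * (D * Real.cos a0 + dvx C x₁ x₂ j θ0) = 0 := by
      have h5 : dvx C x₁ x₂ j θ0 ^ 2 = D ^ 2 - (D * Real.sin a0) ^ 2 := by
        rw [hs0, hD2]
        linarith
      have h6 : (D * Real.cos a0 - dvx C x₁ x₂ j θ0) * (D * Real.cos a0 + dvx C x₁ x₂ j θ0) =
          (D * Real.cos a0) ^ 2 - dvx C x₁ x₂ j θ0 ^ 2 := by ring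
      rw [h6, h5]
      linear_combination D ^ 2 * h3
    have h7 : 0 < D * Real.cos a0 + dvx C x₁ x₂ j θ0 :=
      add_pos_of_nonneg_of_pos (mul_nonneg hD0.le h1) hj.1
    rcases mul_eq_zero.mp h4 with h8 | h8
    · linarith
    · linarith
  set tb : ℝ → ℝ := fun b => θ0 + (Real.arcsin (b / D) - a0) with htb
  have htbx : ∀ b, |b| < r → bx C x₁ x₂ j (tb b) = b := by
    intro b hb
    have h1 := abs_lt.mp (hb.trans hrD)
    rw [htb]
    simp only
    rw [core_add, ← hc0, ← hb0, ← hs0]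
    have h2 : Real.cos (Real.arcsin (b / D) - a0) * (D * Real.sin a0) +
        Real.sin (Real.arcsin (b / D) - a0) * (D * Real.cos a0) =
        D * Real.sin ((Real.arcsin (b / D) - a0) + a0) := by
      rw [Real.sin_add]
      ring
    rw [h2, sub_add_cancel, Real.sin_arcsin]
    · field_simp
    · rw [le_div_iff₀ hD0]
      linarith
    · rw [div_le_iff₀ hD0]
      linarith
  have htbc : Continuous tb := by
    rw [htb]
    exact continuous_const.add ((Real.continuous_arcsin.comp (continuous_id.div_const D)).sub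
      continuous_const)
  have htb0 : tb b0 = θ0 := by
    rw [htb]
    simp only
    rw [← ha0]
    ring
  have ev1 : ∀ᶠ b in 𝓝 b0, HitsX C x₁ x₂ j (tb b) := by
    have h1 := htbc.tendsto b0
    rw [htb0] at h1
    exact h1.eventually hopen
  have ev0 : ∀ᶠ b in 𝓝 b0, tb b ∈ Ioo θa θb := by
    have h1 := htbc.tendsto b0
    rw [htb0] at h1
    exact h1.eventually (isOpen_Ioo.mem_nhds hθI)
  have ev2 : ∀ᶠ b in 𝓝 b0, |b| < r := (continuous_abs.tendsto b0).eventually (gt_mem_nhds hb0r)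
  obtain ⟨ε, hε, hball⟩ := Metric.eventually_nhds_iff.mp ((ev1.and ev2).and ev0)
  set b₁ := b0 - ε / 2 with hb1
  set b₂ := b0 + ε / 2 with hb2
  have hball'' : ∀ b, b₁ ≤ b → b ≤ b₂ → (HitsX C x₁ x₂ j (tb b) ∧ |b| < r) ∧ tb b ∈ Ioo θa θb := by
    intro b h1 h2
    apply hball
    rw [Real.dist_eq, abs_lt]
    constructor <;> linarith
  have hball' : ∀ b, b₁ ≤ b → b ≤ b₂ → HitsX C x₁ x₂ j (tb b) ∧ |b| < r :=
    fun b h1 h2 => (hball'' b h1 h2).1
  set th : ℝ → ℝ := fun b => tb b + Real.pi - 2 * Real.arcsin (b / r) with hth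
  set th' : ℝ → ℝ := fun b => 1 / Real.sqrt (D ^ 2 - b ^ 2) - 2 * (1 / Real.sqrt (r ^ 2 - b ^ 2))
    with hth'
  have hpos : ∀ b, |b| < r → 0 < Real.sqrt (r ^ 2 - b ^ 2) ∧
      Real.sqrt (r ^ 2 - b ^ 2) ≤ Real.sqrt (D ^ 2 - b ^ 2) := by
    intro b hb
    have h1 : b ^ 2 < r ^ 2 := by
      rw [← sq_abs]
      exact pow_lt_pow_left₀ hb (abs_nonneg _) (by norm_num)
    have h2 : r ^ 2 ≤ D ^ 2 := pow_le_pow_left₀ hr0.le hrD.le 2
    exact ⟨Real.sqrt_pos.mpr (by linarith), Real.sqrt_le_sqrt (by linarith)⟩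
  have hst : ∀ b, |b| < r → stX C x₁ x₂ j (tb b) = (j, th b, b) := by
    intro b hb
    unfold stX
    rw [htbx b hb]
  have hderiv : ∀ b, |b| < r → HasDerivAt th (th' b) b := by
    intro b hb
    have h1 := core_arcsin D b hD0 (hb.trans hrD)
    have h2 := core_arcsin r b hr0 hb
    have h3 : HasDerivAt tb (1 / Real.sqrt (D ^ 2 - b ^ 2)) b := by
      have h4 := (h1.sub_const a0).const_add θ0
      exact h4
    have h5 := (h3.add_const Real.pi).sub (h2.const_mul 2)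
    exact h5
  have hbounds : ∀ b, |b| < r → -2 / C.hc j b ≤ th' b ∧ th' b ≤ -1 / C.hc j b := by
    intro b hb
    obtain ⟨h1, h2⟩ := hpos b hb
    have h3 : C.hc j b = Real.sqrt (r ^ 2 - b ^ 2) := rfl
    rw [h3, hth']
    simp only
    have h4 : 0 < Real.sqrt (D ^ 2 - b ^ 2) := lt_of_lt_of_le h1 h2
    have h5 : 1 / Real.sqrt (D ^ 2 - b ^ 2) ≤ 1 / Real.sqrt (r ^ 2 - b ^ 2) :=
      one_div_le_one_div_of_le h1 h2
    have h6 : 0 < 1 / Real.sqrt (D ^ 2 - b ^ 2) := by positivity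
    have h7 : -2 / Real.sqrt (r ^ 2 - b ^ 2) = -2 * (1 / Real.sqrt (r ^ 2 - b ^ 2)) := by ring
    have h8 : -1 / Real.sqrt (r ^ 2 - b ^ 2) = -1 * (1 / Real.sqrt (r ^ 2 - b ^ 2)) := by ring
    rw [h7, h8]
    constructor <;> linarith
  have hUC : ∀ b, |b| < r → UC (C.hc j b) (th' b) 1 := by
    intro b hb
    obtain ⟨h1, h2⟩ := hpos b hb
    obtain ⟨h3, h4⟩ := hbounds b hb
    have h5 : 0 < C.hc j b := h1
    refine ⟨one_ne_zero, Or.inr ⟨?_, ?_⟩⟩
    · rw [div_le_iff₀ h5] at h3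
      linarith
    · rw [le_div_iff₀ h5] at h4
      linarith
  have hctb := transv C j (Ioo b₁ b₂) isOpen_Ioo th (fun b => b) th' (fun _ => 1) (by
    intro b hb
    have h1 := (hball' b hb.1.le hb.2.le).2
    exact ⟨hderiv b h1, hasDerivAt_id b, h1, hUC b h1⟩)
  have hlt : b₁ < b₂ := by
    rw [hb1, hb2]
    linarith
  refine source C j b₁ b₂ hlt ?_ ?_ th th' ?_ ?_ ?_ ?_
  · have h1 := abs_lt.mp (hball' b₁ le_rfl hlt.le).2
    exact h1.1
  · have h1 := abs_lt.mp (hball' b₂ hlt.le le_rfl).2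
    exact h1.2
  · intro b hb
    exact hderiv b (hball' b hb.1.le hb.2.le).2
  · intro b hb
    have h1 := (hball' b hb.1.le hb.2.le).2
    obtain ⟨h2, h3⟩ := hpos b h1
    apply ContinuousAt.continuousWithinAt
    rw [hth']
    apply ContinuousAt.sub
    · exact continuousAt_const.div (by fun_prop) (lt_of_lt_of_le h2 h3).ne'
    · exact continuousAt_const.mul (continuousAt_const.div (by fun_prop) h2.ne')
  · intro b hb
    exact hbounds b (hball' b hb.1.le hb.2.le).2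
  · have h1 : ∀ᵐ b : ℝ, b ∉ {s | s ∈ Ioo b₁ b₂ ∧ ((j, th s, s) : St n) ∈ C.SS} :=
      measure_eq_zero_iff_ae_notMem.mp (hctb.measure_zero volume)
    filter_upwards [h1] with b hb hbI
    obtain ⟨h2, h3⟩ := hball' b hbI.1.le hbI.2.le
    apply core_trap C
    · exact h3
    · intro h4
      exact hb ⟨hbI, h4⟩
    · intro m hm
      have h4 := (hcon (tb b) (hball'' b hbI.1.le hbI.2.le).2).2 j h2 m
      rw [hst b h3] at h4
      exact h4 hm


end Pool.Light
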