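import Mathlib

set_option autoImplicit false

open MeasureTheory Set Filter Topology

namespace Pool.Light

/-- `n` discs with centres `(cx i, cy i)` and radii `r i`, pairwise separated by a gap `tau`;
`K` is a large constant. -/
structure Cfg (n : ℕ) where
  cx : Fin n → ℝ
  cy : Fin n → ℝ
  r : Fin n → ℝ
  tau : ℝ
  K : ℝ
  hr : ∀ i, 0 < r i
  htau : 0 < tau
  hsep : ∀ i j, i ≠ j → r i + r j + tau ≤ Real.sqrt ((cx j - cx i) ^ 2 + (cy j - cy i) ^ 2)
  hK1 : ∀ i j, Real.sqrt ((cx j - cx i) ^ 2 + (cy j - cy i) ^ 2) ≤ K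
  hK2 : ∀ i, r i + tau ≤ K

/-- A state: disc index `i`, direction angle `θ`, signed impact parameter `b` about the centre
of disc `i`.  It stands for the ray `C_i + b n(θ) + s v(θ)`, `s > √(r_i²-b²)`, leaving disc `i`,
with `v(θ) = (cos θ, sin θ)`, `n(θ) = (-sin θ, cos θ)`. -/
abbrev St (n : ℕ) := Fin n × ℝ × ℝ

namespace Cfg

variable {n : ℕ} (C : Cfg n)

/-- `(C_j - C_i) · v(θ)` -/
noncomputable def dv (i j : Fin n) (θ : ℝ) : ℝ :=
  (C.cx j - C.cx i) * Real.cos θ + (C.cy j - C.cy i) * Real.sin θ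

/-- `(C_j - C_i) · n(θ)` -/
noncomputable def dn (i j : Fin n) (θ : ℝ) : ℝ :=
  -(C.cx j - C.cx i) * Real.sin θ + (C.cy j - C.cy i) * Real.cos θ

/-- half chord length `√(r_j² - b²)` -/
noncomputable def hc (j : Fin n) (b : ℝ) : ℝ := Real.sqrt ((C.r j) ^ 2 - b ^ 2)

/-- impact parameter about disc `k` of the line with data `(θ, b)` about disc `i` -/
noncomputable def bp (i k : Fin n) (θ b : ℝ) : ℝ := b - C.dn i k θ

/-- the ray leaving disc `i` with data `(θ,b)` hits disc `j` first, transversally, and touches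
no other closed disc before. -/
def Hits (i j : Fin n) (θ b : ℝ) : Prop :=
  i ≠ j ∧ 0 < C.dv i j θ ∧ |C.bp i j θ b| < C.r j ∧
    ∀ k, k ≠ i → k ≠ j → 0 < C.dv i k θ → |C.bp i k θ b| ≤ C.r k → C.dv i j θ < C.dv i k θ

/-- phase space -/
def M : Set (St n) := {l | |l.2.2| < C.r l.1}

/-- data after reflection from disc `j` -/
noncomputable def Tj (i j : Fin n) (θ b : ℝ) : ℝ × ℝ :=
  (θ + Real.pi - 2 * Real.arcsin (C.bp i j θ b / C.r j), C.bp i j θ b)

open Classical in
/-- the first hit map (identity if nothing is hit properly) -/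
noncomputable def T (l : St n) : St n :=
  if h : ∃ j, C.Hits l.1 j l.2.1 l.2.2 then (h.choose, C.Tj l.1 h.choose l.2.1 l.2.2) else l

/-- states with at least `m` proper reflections to come -/
def Om : ℕ → Set (St n)
  | 0 => C.M
  | (m + 1) => {l | l ∈ C.M ∧ (∃ j, C.Hits l.1 j l.2.1 l.2.2) ∧ C.T l ∈ Om m}

/-- trapped states -/
def Trap : Set (St n) := {l | ∀ m, l ∈ C.Om m}

/-- states whose forward line is tangent to some disc in front (possibly a hidden one) -/
def S1 : Set (St n) :=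
  {l | l ∈ C.M ∧ ∃ k, k ≠ l.1 ∧ 0 < C.dv l.1 k l.2.1 ∧ |C.bp l.1 k l.2.1 l.2.2| = C.r k}

/-- escaping states: the forward ray touches no closed disc -/
def E0 : Set (St n) :=
  {l | l ∈ C.M ∧ ∀ k, k ≠ l.1 → 0 < C.dv l.1 k l.2.1 → C.r k < |C.bp l.1 k l.2.1 l.2.2|}

/-- states that reach `S1` after finitely many proper reflections -/
def SS : Set (St n) := {l | ∃ m, l ∈ C.Om m ∧ (C.T^[m]) l ∈ C.S1}

/-- time reversal -/
noncomputable def rho (l : St n) : St n :=
  (l.1, l.2.1 + 2 * Real.arcsin (l.2.2 / C.r l.1), -l.2.2)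

/-- shift of the angle by `2π m`, `m : ℤ` -/
noncomputable def sh (m : ℤ) (l : St n) : St n := (l.1, l.2.1 + 2 * Real.pi * m, l.2.2)

/-- the inverse of `T^[m]`, where defined -/
noncomputable def inv (m : ℕ) (l : St n) : St n :=
  sh (-(m : ℤ)) (C.rho ((C.T^[m]) (C.rho l)))

/-- `g(σ,c) = σ c / (2σ - c)` -/
noncomputable def gf (s c : ℝ) : ℝ := s * c / (2 * s - c)

open Classical in
/-- the `N`-th approximation to the slope field of stable curves -/
noncomputable def sig : ℕ → St n → ℝ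
  | 0 => fun _ => C.K
  | (m + 1) => fun l =>
      if ∃ j, C.Hits l.1 j l.2.1 l.2.2 then
        C.dv l.1 (C.T l).1 l.2.1 - gf (sig m (C.T l)) (C.hc (C.T l).1 (C.T l).2.2)
      else C.K

/-- contraction constant -/
noncomputable def lam : ℝ := C.K / (C.K + 2 * C.tau)

/-- the measure `dθ db` on all states -/
noncomputable def vol (n : ℕ) : Measure (St n) := (Measure.count : Measure (Fin n)).prod volume

open Classical in
/-- indicator of `Om N` as a real function -/
noncomputable def ZN (N : ℕ) (l : St n) : ℝ := if l ∈ C.Om N then 1 else 0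

open Classical in
/-- indicator of the trapped set -/
noncomputable def Z (l : St n) : ℝ := if l ∈ C.Trap then 1 else 0

/-- limit slope field -/
noncomputable def sigInf (l : St n) : ℝ := Filter.limsup (fun N => C.sig N l) atTop

/-- the slope field of the time reversed system -/
noncomputable def sigU (l : St n) : ℝ := gf (C.sigInf (C.rho l)) (C.hc l.1 l.2.2)

/-- smooth cutoff: `0` for `|u| ≤ 1/2`, `1` for `|u| ≥ 1` -/
noncomputable def Qf (u : ℝ) : ℝ := Real.smoothTransition (4 * u ^ 2 - 1)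

open Classical in
/-- cutoff near lines tangent to a disc in front -/
noncomputable def kap (ε : ℝ) (l : St n) : ℝ :=
  ∏ k, if k ≠ l.1 ∧ 0 < C.dv l.1 k l.2.1 then
    Qf ((C.bp l.1 k l.2.1 l.2.2 - C.r k) / ε) * Qf ((C.bp l.1 k l.2.1 l.2.2 + C.r k) / ε) else 1

open Classical in
/-- smooth approximation of the indicator of `Om N` -/
noncomputable def cut (ε : ℝ) : ℕ → St n → ℝ
  | 0 => fun _ => 1
  | (m + 1) => fun l =>
      if ∃ j, C.Hits l.1 j l.2.1 l.2.2 then kap C ε l * cut ε m (C.T l) else 0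

/-- states almost tangent to a disc in front -/
def Strip (ε : ℝ) : Set (St n) :=
  {l | l ∈ C.M ∧ ∃ k, k ≠ l.1 ∧ 0 < C.dv l.1 k l.2.1 ∧
    (|C.bp l.1 k l.2.1 l.2.2 - C.r k| < ε ∨ |C.bp l.1 k l.2.1 l.2.2 + C.r k| < ε)}

/-- weight: `1` or `c/(2σ-c)` -/
noncomputable def gw (e : Bool) (s c : ℝ) : ℝ := if e then c / (2 * s - c) else 1

/-- the state leaving disc `i` in direction `θ` whose line is tangent to disc `k`
(`s = ±1` is the side) -/
noncomputable def tang (i k : Fin n) (s θ : ℝ) : St n := (i, θ, C.dn i k θ + s * C.r k)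

/-- parameters of tangent states which can be traced back `m` steps -/
def nuSet (m : ℕ) (i k : Fin n) (s : ℝ) : Set ℝ :=
  {θ | k ≠ i ∧ 0 < C.dv i k θ ∧ C.tang i k s θ ∈ C.M ∧ C.rho (C.tang i k s θ) ∈ C.Om m}

/-- `dθ` on the tangent curves pulled back by `T^m` -/
noncomputable def num (m : ℕ) : Measure (St n) :=
  ∑ i, ∑ k, (Measure.map (fun θ => C.inv m (C.tang i k 1 θ)) (volume.restrict (C.nuSet m i k 1)) +
    Measure.map (fun θ => C.inv m (C.tang i k (-1) θ)) (volume.restrict (C.nuSet m i k (-1))))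

/-- `∑_m A λ^m ν_m` -/
noncomputable def nu (A : ℝ) : Measure (St n) :=
  Measure.sum (fun m : ℕ => ENNReal.ofReal (A * C.lam ^ m) • C.num m)

/-- its part on disc `i` -/
noncomputable def nui (A : ℝ) (i : Fin n) : Measure (ℝ × ℝ) :=
  Measure.comap (fun p : ℝ × ℝ => ((i, p) : St n)) (C.nu A)

open Classical in
/-- the density `∑_m A λ^m 1_{Om m} (1 + 1/c(T^m l))` -/
noncomputable def Sr (A : ℝ) (l : St n) : ℝ :=
  (∑' m : ℕ, ENNReal.ofReal (A * C.lam ^ m *
    (if l ∈ C.Om m then 1 + 1 / C.hc ((C.T^[m]) l).1 ((C.T^[m]) l).2.2 else 0))).toReal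

end Cfg

/-- admissible test functions: `C¹` with compact support inside `{|b| < r}` -/
def TF (r : ℝ) (φ : ℝ × ℝ → ℝ) : Prop :=
  ContDiff ℝ 1 φ ∧ HasCompactSupport φ ∧ tsupport φ ⊆ {p | |p.2| < r}

/-- `Z(θ,·)` is not a.e. constant near `b` -/
def Jump (Z : ℝ × ℝ → ℝ) (θ b : ℝ) : Prop :=
  ¬ ∃ δ > 0, ∃ z : ℝ, ∀ᵐ b' ∂(volume.restrict (Ioo (b - δ) (b + δ))), Z (θ, b') = z

/-- unstable cone at half chord `c` -/
def UC (c p q : ℝ) : Prop := q ≠ 0 ∧ (p = 0 ∨ (-2 * q ^ 2 ≤ c * p * q ∧ c * p * q ≤ -q ^ 2))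

end Pool.Light
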