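import Pool.Agent.H721Light.Defs

set_option autoImplicit false

open MeasureTheory Set Filter Topology

namespace Pool.Light


variable {n : ℕ}

theorem gap_aux_le_of_sq {a b : ℝ} (h : a ^ 2 ≤ b ^ 2) (hb : 0 ≤ b) : a ≤ b := by
  by_contra hc
  push Not at hc
  nlinarith

/-- gap estimate: a line leaving disc `i` (impact `b`) and touching disc `k` (in front or behind). -/
theorem gap (C : Cfg n) {i k : Fin n} (hik : k ≠ i) {θ b : ℝ} (hb : |b| ≤ C.r i)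
    (hk : |C.bp i k θ b| ≤ C.r k) :
    C.hc i b + C.hc k (C.bp i k θ b) + C.tau ≤ |C.dv i k θ| := by
  have hri := C.hr i
  have hrk := C.hr k
  have htau := C.htau
  have hsep := C.hsep i k (Ne.symm hik)
  obtain ⟨b', hb'⟩ : ∃ b', b' = C.bp i k θ b := ⟨_, rfl⟩
  rw [← hb'] at hk ⊢
  have hdn : C.dn i k θ = b - b' := by rw [hb']; unfold Cfg.bp; ring
  obtain ⟨ci, hci⟩ : ∃ ci, ci = C.hc i b := ⟨_, rfl⟩
  obtain ⟨ck, hck⟩ : ∃ ck, ck = C.hc k b' := ⟨_, rfl⟩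
  rw [← hci, ← hck]
  have hb2 : b ^ 2 ≤ C.r i ^ 2 := by
    rw [← sq_abs b]; exact pow_le_pow_left₀ (abs_nonneg b) hb 2
  have hb2' : b' ^ 2 ≤ C.r k ^ 2 := by
    rw [← sq_abs b']; exact pow_le_pow_left₀ (abs_nonneg b') hk 2
  have hci0 : 0 ≤ ci := by rw [hci]; exact Real.sqrt_nonneg _
  have hck0 : 0 ≤ ck := by rw [hck]; exact Real.sqrt_nonneg _
  have hci2 : ci ^ 2 = C.r i ^ 2 - b ^ 2 := by
    rw [hci]; unfold Cfg.hc; exact Real.sq_sqrt (by linarith)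
  have hck2 : ck ^ 2 = C.r k ^ 2 - b' ^ 2 := by
    rw [hck]; unfold Cfg.hc; exact Real.sq_sqrt (by linarith)
  have hD : (C.cx k - C.cx i) ^ 2 + (C.cy k - C.cy i) ^ 2 = (C.dv i k θ) ^ 2 + (b - b') ^ 2 := by
    rw [← hdn]
    unfold Cfg.dv Cfg.dn
    have h := Real.sin_sq_add_cos_sq θ
    linear_combination (-(C.cx k - C.cx i) ^ 2 - (C.cy k - C.cy i) ^ 2) * h
  rw [hD] at hsep
  have hsq : (C.r i + C.r k + C.tau) ^ 2 ≤ (C.dv i k θ) ^ 2 + (b - b') ^ 2 := by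
    have h1 := pow_le_pow_left₀ (by linarith : 0 ≤ C.r i + C.r k + C.tau) hsep 2
    rwa [Real.sq_sqrt (by positivity)] at h1
  by_contra hcon
  push Not at hcon
  have hx : (C.dv i k θ) ^ 2 < (ci + ck + C.tau) ^ 2 := by
    rw [← sq_abs (C.dv i k θ)]
    exact pow_lt_pow_left₀ hcon (abs_nonneg _) two_ne_zero
  -- Cauchy
  have hcir : ci ≤ C.r i := by
    apply gap_aux_le_of_sq _ hri.le
    rw [hci2]; nlinarith [sq_nonneg b]
  have hckr : ck ≤ C.r k := by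
    apply gap_aux_le_of_sq _ hrk.le
    rw [hck2]; nlinarith [sq_nonneg b']
  have hC : ci * ck - b * b' ≤ C.r i * C.r k := by
    apply gap_aux_le_of_sq _ (by positivity)
    have h1 : (C.r i * C.r k) ^ 2 = (ci ^ 2 + b ^ 2) * (ck ^ 2 + b' ^ 2) := by
      rw [hci2, hck2]; ring
    rw [h1]
    nlinarith [sq_nonneg (ci * b' + ck * b)]
  have h3 : C.tau * (ci + ck) ≤ C.tau * (C.r i + C.r k) :=
    mul_le_mul_of_nonneg_left (by linarith) htau.le
  nlinarith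

end Pool.Light
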