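import Pool.Agent.H721Light.Defs
import Pool.Agent.H721Light.P_gap
import Pool.Agent.H721Light.P_basics
import Pool.Agent.H721Light.P_hits_unique
import Pool.Agent.H721Light.P_T_of_hits
import Pool.Agent.H721Light.P_isOpen_hits

set_option autoImplicit false

open MeasureTheory Set Filter Topology

namespace Pool.Light


variable {n : ℕ}

theorem meas_prod {β : Type*} [MeasurableSpace β] {E : Type*} [MeasurableSpace E] (f : Fin n → E → β)
    (hf : ∀ i, Measurable (f i)) : Measurable (fun l : Fin n × E => f l.1 l.2) := by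
  intro S hS
  have : (fun l : Fin n × E => f l.1 l.2) ⁻¹' S = ⋃ i : Fin n, ({i} : Set (Fin n)) ×ˢ ((f i) ⁻¹' S) := by
    ext l
    simp only [mem_preimage, mem_iUnion, mem_prod, mem_singleton_iff]
    constructor
    · intro h; exact ⟨l.1, rfl, h⟩
    · rintro ⟨i, hi, h⟩; rw [hi]; exact h
  rw [this]
  exact MeasurableSet.iUnion fun i => (MeasurableSet.singleton i).prod (hf i hS)

theorem meas_dv (C : Cfg n) (i j : Fin n) : Measurable (fun θ : ℝ => C.dv i j θ) := by
  unfold Cfg.dv
  fun_prop

theorem meas_dn (C : Cfg n) (i j : Fin n) : Measurable (fun θ : ℝ => C.dn i j θ) := by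
  unfold Cfg.dn
  fun_prop

theorem meas_bp (C : Cfg n) (i j : Fin n) : Measurable (fun p : ℝ × ℝ => C.bp i j p.1 p.2) := by
  unfold Cfg.bp
  exact measurable_snd.sub ((meas_dn C i j).comp measurable_fst)

theorem meas_hits (C : Cfg n) (i j : Fin n) : MeasurableSet {p : ℝ × ℝ | C.Hits i j p.1 p.2} := by
  unfold Cfg.Hits
  refine (MeasurableSet.const _).inter (MeasurableSet.inter ?_ (MeasurableSet.inter ?_ ?_))
  · exact measurableSet_lt measurable_const ((meas_dv C i j).comp measurable_fst)
  · exact measurableSet_lt (meas_bp C i j).abs measurable_const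
  · have : {p : ℝ × ℝ | ∀ k, k ≠ i → k ≠ j → 0 < C.dv i k p.1 → |C.bp i k p.1 p.2| ≤ C.r k → C.dv i j p.1 < C.dv i k p.1} =
        ⋂ k : Fin n, ({p : ℝ × ℝ | k ≠ i}ᶜ ∪ ({p : ℝ × ℝ | k ≠ j}ᶜ ∪ ({p : ℝ × ℝ | 0 < C.dv i k p.1}ᶜ ∪
          ({p : ℝ × ℝ | |C.bp i k p.1 p.2| ≤ C.r k}ᶜ ∪ {p : ℝ × ℝ | C.dv i j p.1 < C.dv i k p.1})))) := by
      ext p
      simp only [mem_iInter, mem_union, mem_compl_iff]
      constructor
      · intro h k
        have := h k
        simp only [Set.mem_ofPred_eq]
        tauto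
      · intro h k
        have := h k
        simp only [Set.mem_ofPred_eq] at this
        tauto
    change MeasurableSet {p : ℝ × ℝ | ∀ k, k ≠ i → k ≠ j → 0 < C.dv i k p.1 → |C.bp i k p.1 p.2| ≤ C.r k → C.dv i j p.1 < C.dv i k p.1}
    rw [this]
    refine MeasurableSet.iInter fun k => ?_
    refine (MeasurableSet.const _).compl.union ((MeasurableSet.const _).compl.union (MeasurableSet.union ?_ (MeasurableSet.union ?_ ?_)))
    · exact (measurableSet_lt measurable_const ((meas_dv C i k).comp measurable_fst)).compl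
    · exact (measurableSet_le (meas_bp C i k).abs measurable_const).compl
    · exact measurableSet_lt ((meas_dv C i j).comp measurable_fst) ((meas_dv C i k).comp measurable_fst)

theorem meas_Tj (C : Cfg n) (i j : Fin n) : Measurable (fun p : ℝ × ℝ => C.Tj i j p.1 p.2) := by
  unfold Cfg.Tj
  refine Measurable.prodMk ?_ (meas_bp C i j)
  refine (measurable_fst.add measurable_const).sub (measurable_const.mul ?_)
  exact Real.measurable_arcsin.comp ((meas_bp C i j).div_const _)

theorem meas_T (C : Cfg n) : Measurable C.T := by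
  refine meas_prod (fun i p => C.T (i, p)) fun i => ?_
  intro S hS
  have e : (fun p : ℝ × ℝ => C.T (i, p)) ⁻¹' S =
      (⋃ j : Fin n, ({p : ℝ × ℝ | C.Hits i j p.1 p.2} ∩ (fun p : ℝ × ℝ => (j, C.Tj i j p.1 p.2)) ⁻¹' S)) ∪
      ((⋃ j : Fin n, {p : ℝ × ℝ | C.Hits i j p.1 p.2})ᶜ ∩ (fun p : ℝ × ℝ => (i, p)) ⁻¹' S) := by
    ext p
    simp only [mem_preimage, mem_union, mem_iUnion, mem_inter_iff, mem_compl_iff]
    by_cases h : ∃ j, C.Hits i j p.1 p.2
    · obtain ⟨j, hj⟩ := h
      have h1 : C.T (i, p) = (j, C.Tj i j p.1 p.2) := T_of_hits C hj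
      rw [h1]
      constructor
      · intro hS'
        exact Or.inl ⟨j, hj, hS'⟩
      · rintro (⟨j', hj', hS'⟩ | ⟨hno, -⟩)
        · have := hits_unique C hj hj'
          subst this
          exact hS'
        · exact absurd ⟨j, hj⟩ hno
    · have h1 : C.T (i, p) = (i, p) := by
        unfold Cfg.T
        rw [dif_neg h]
      rw [h1]
      constructor
      · intro hS'
        exact Or.inr ⟨h, hS'⟩
      · rintro (⟨j', hj', hS'⟩ | ⟨-, hS'⟩)
        · exact absurd ⟨j', hj'⟩ h
        · exact hS'
  rw [e]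
  refine MeasurableSet.union (MeasurableSet.iUnion fun j => ?_) (MeasurableSet.inter ?_ ?_)
  · exact (meas_hits C i j).inter ((measurable_const.prodMk (meas_Tj C i j)) hS)
  · exact (MeasurableSet.iUnion fun j => meas_hits C i j).compl
  · exact measurable_prodMk_left hS

theorem meas_M (C : Cfg n) : MeasurableSet C.M := by
  unfold Cfg.M
  refine measurableSet_lt ?_ ?_
  · exact (measurable_snd.comp measurable_snd).abs
  · exact (Measurable.of_discrete (f := C.r)).comp measurable_fst

theorem meas_H (C : Cfg n) : MeasurableSet {l : St n | ∃ j, C.Hits l.1 j l.2.1 l.2.2} := by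
  have h := meas_prod (n := n) (β := Prop) (E := ℝ × ℝ) (fun i p => ∃ j, C.Hits i j p.1 p.2) (fun i => by
    refine measurableSet_setOfPred.1 ?_
    have : {p : ℝ × ℝ | ∃ j, C.Hits i j p.1 p.2} = ⋃ j, {p : ℝ × ℝ | C.Hits i j p.1 p.2} := by
      ext p; simp
    rw [this]
    exact MeasurableSet.iUnion fun j => meas_hits C i j)
  exact measurableSet_setOfPred.2 h

theorem meas_Om (C : Cfg n) (m : ℕ) : MeasurableSet (C.Om m) := by
  induction m with
  | zero => exact meas_M C
  | succ m ih => exact (meas_M C).inter ((meas_H C).inter ((meas_T C) ih))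

theorem meas_Trap (C : Cfg n) : MeasurableSet C.Trap := by
  have : C.Trap = ⋂ m, C.Om m := by
    ext l
    simp only [mem_iInter]
    rfl
  rw [this]
  exact MeasurableSet.iInter fun m => meas_Om C m

theorem meas_S1 (C : Cfg n) : MeasurableSet C.S1 := by
  have h := meas_prod (n := n) (β := Prop) (E := ℝ × ℝ)
    (fun i p => ∃ k, k ≠ i ∧ 0 < C.dv i k p.1 ∧ |C.bp i k p.1 p.2| = C.r k) (fun i => by
    refine measurableSet_setOfPred.1 ?_
    have : {p : ℝ × ℝ | ∃ k, k ≠ i ∧ 0 < C.dv i k p.1 ∧ |C.bp i k p.1 p.2| = C.r k} =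
        ⋃ k, ({p : ℝ × ℝ | k ≠ i} ∩ ({p : ℝ × ℝ | 0 < C.dv i k p.1} ∩ {p : ℝ × ℝ | |C.bp i k p.1 p.2| = C.r k})) := by
      ext p; simp
    rw [this]
    refine MeasurableSet.iUnion fun k => (MeasurableSet.const _).inter (MeasurableSet.inter ?_ ?_)
    · exact measurableSet_lt measurable_const ((meas_dv C i k).comp measurable_fst)
    · exact measurableSet_eq_fun (meas_bp C i k).abs measurable_const)
  exact (meas_M C).inter (measurableSet_setOfPred.2 h)

theorem meas_SS (C : Cfg n) : MeasurableSet C.SS := by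
  have : C.SS = ⋃ m, (C.Om m ∩ (C.T^[m]) ⁻¹' C.S1) := by
    ext l
    simp only [mem_iUnion]
    rfl
  rw [this]
  exact MeasurableSet.iUnion fun m => (meas_Om C m).inter (((meas_T C).iterate m) (meas_S1 C))

theorem meas_rho (C : Cfg n) : Measurable C.rho := by
  unfold Cfg.rho
  refine measurable_fst.prodMk (Measurable.prodMk ?_ (measurable_snd.comp measurable_snd).neg)
  refine (measurable_fst.comp measurable_snd).add (measurable_const.mul (Real.measurable_arcsin.comp ?_))
  exact (measurable_snd.comp measurable_snd).div ((Measurable.of_discrete (f := C.r)).comp measurable_fst)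

theorem meas_sh (m : ℤ) : Measurable (Cfg.sh (n := n) m) := by
  unfold Cfg.sh
  exact measurable_fst.prodMk (Measurable.prodMk ((measurable_fst.comp measurable_snd).add measurable_const)
    (measurable_snd.comp measurable_snd))

theorem meas_inv (C : Cfg n) (m : ℕ) : Measurable (C.inv m) := by
  unfold Cfg.inv
  exact (meas_sh _).comp ((meas_rho C).comp (((meas_T C).iterate m).comp (meas_rho C)))

theorem meas_gf {E : Type*} [MeasurableSpace E] {s c : E → ℝ} (hs : Measurable s) (hc : Measurable c) :
    Measurable (fun x => Cfg.gf (s x) (c x)) := by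
  unfold Cfg.gf
  exact (hs.mul hc).div ((measurable_const.mul hs).sub hc)

theorem meas_hc (C : Cfg n) {E : Type*} [MeasurableSpace E] {j : E → Fin n} {b : E → ℝ} (hj : Measurable j) (hb : Measurable b) :
    Measurable (fun x => C.hc (j x) (b x)) := by
  unfold Cfg.hc
  exact ((((Measurable.of_discrete (f := C.r)).comp hj).pow_const 2).sub (hb.pow_const 2)).sqrt

theorem meas_sig (C : Cfg n) (N : ℕ) : Measurable (C.sig N) := by
  classical
  induction N with
  | zero => exact measurable_const
  | succ m ih =>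
    have hTf : Measurable (fun l => (C.T l).1) := measurable_fst.comp (meas_T C)
    have hTs : Measurable (fun l => (C.T l).2.2) := (measurable_snd.comp measurable_snd).comp (meas_T C)
    have h1 : Measurable (fun l : St n => C.dv l.1 (C.T l).1 l.2.1) := by
      have h2 : Measurable (fun q : Fin n × (Fin n × ℝ) => C.dv q.1 q.2.1 q.2.2) :=
        meas_prod (fun i (q : Fin n × ℝ) => C.dv i q.1 q.2) fun i =>
          meas_prod (fun j (θ : ℝ) => C.dv i j θ) fun j => meas_dv C i j
      exact h2.comp (measurable_fst.prodMk (hTf.prodMk (measurable_fst.comp measurable_snd)))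
    show Measurable (fun l : St n => if ∃ j, C.Hits l.1 j l.2.1 l.2.2 then
        C.dv l.1 (C.T l).1 l.2.1 - Cfg.gf (C.sig m (C.T l)) (C.hc (C.T l).1 (C.T l).2.2) else C.K)
    refine Measurable.ite (meas_H C) ?_ measurable_const
    exact h1.sub (meas_gf (ih.comp (meas_T C)) (meas_hc C hTf hTs))

/-- measurability of everything. -/
theorem meas (C : Cfg n) :
    Measurable C.T ∧ (∀ m, MeasurableSet (C.Om m)) ∧ MeasurableSet C.Trap ∧ MeasurableSet C.M ∧
    MeasurableSet C.S1 ∧ MeasurableSet C.SS ∧ Measurable C.rho ∧ (∀ m, Measurable (C.inv m)) ∧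
    (∀ N, Measurable (C.sig N)) ∧ Measurable C.sigInf ∧ Measurable C.sigU ∧
    (∀ N, Measurable (C.ZN N)) ∧ Measurable C.Z := by
  classical
  have hI : Measurable C.sigInf := Measurable.limsup (fun N => meas_sig C N)
  refine ⟨meas_T C, meas_Om C, meas_Trap C, meas_M C, meas_S1 C, meas_SS C, meas_rho C, meas_inv C, meas_sig C,
    hI, ?_, ?_, ?_⟩
  · unfold Cfg.sigU
    exact meas_gf (hI.comp (meas_rho C)) (meas_hc C measurable_fst (measurable_snd.comp measurable_snd))
  · intro N
    unfold Cfg.ZN
    exact Measurable.ite (meas_Om C N) measurable_const measurable_const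
  · unfold Cfg.Z
    exact Measurable.ite (meas_Trap C) measurable_const measurable_const

end Pool.Light
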