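import Pool.Agent.H721Light.Defs

set_option autoImplicit false

open MeasureTheory Set Filter Topology

namespace Pool.Light


variable {n : ℕ}

theorem volSum (g : St n → ENNReal) (hg : Measurable g) :
    ∫⁻ l, g l ∂(Cfg.vol n) = ∑ i, ∫⁻ p : ℝ × ℝ, g (i, p) := by
  unfold Cfg.vol
  rw [lintegral_prod _ hg.aemeasurable, lintegral_count, tsum_fintype]

end Pool.Light
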