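import Pool.Agent.H721Light.Defs
import Pool.Agent.H721Light.P_gap
import Pool.Agent.H721Light.P_basics
import Pool.Agent.H721Light.P_hits_unique
import Pool.Agent.H721Light.P_T_of_hits
import Pool.Agent.H721Light.P_isOpen_hits
import Pool.Agent.H721Light.P_meas
import Pool.Agent.H721Light.P_volSum

set_option autoImplicit false

open MeasureTheory Set Filter Topology

namespace Pool.Light


variable {n : ℕ}

/-! ### helper lemmas -/

theorem invMeas1_unique (C : Cfg n) {i i' j : Fin n} {θ c : ℝ}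
    (h1 : |c + C.dn i j θ| < C.r i) (h2 : C.Hits i j θ (c + C.dn i j θ))
    (h1' : |c + C.dn i' j θ| < C.r i') (h2' : C.Hits i' j θ (c + C.dn i' j θ)) : i = i' := by
  by_contra hne
  wlog hle : C.dv i j θ ≤ C.dv i' j θ generalizing i i'
  · exact this h1' h2' h1 h2 (fun h => hne h.symm) (le_of_lt (not_le.1 hle))
  obtain ⟨-, -, -, -, -, -, -, -, b9, b10, -⟩ := basics C i' i θ 0
  have e1 : C.dv i' j θ = C.dv i' i θ + C.dv i j θ := b9 j
  have e2 : C.dn i' j θ = C.dn i' i θ + C.dn i j θ := b10 j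
  have e3 : C.bp i' i θ (c + C.dn i' j θ) = c + C.dn i j θ := by
    unfold Cfg.bp; rw [e2]; ring
  obtain ⟨a1, a2, a3, a4⟩ := h2
  obtain ⟨a1', a2', a3', a4'⟩ := h2'
  have hb : |C.bp i' i θ (c + C.dn i' j θ)| ≤ C.r i := by rw [e3]; exact h1.le
  have hgap := gap C (i := i') (k := i) hne (θ := θ) (b := c + C.dn i' j θ) h1'.le hb
  have hc1 : 0 ≤ C.hc i' (c + C.dn i' j θ) := Real.sqrt_nonneg _
  have hc2 : 0 ≤ C.hc i (C.bp i' i θ (c + C.dn i' j θ)) := Real.sqrt_nonneg _
  have htau := C.htau
  have h0 : 0 ≤ C.dv i' i θ := by linarith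
  rw [abs_of_nonneg h0] at hgap
  have h3 := a4' i hne a1 (by linarith) hb
  linarith

theorem invMeas1_dn_cont (C : Cfg n) (i j : Fin n) : Continuous (fun θ => C.dn i j θ) := by
  unfold Cfg.dn; fun_prop

theorem invMeas1_tau (C : Cfg n) (i j : Fin n) :
    MeasurePreserving (fun p : ℝ × ℝ => (p.1, p.2 - C.dn i j p.1)) volume volume := by
  have hc := invMeas1_dn_cont C i j
  have h := (MeasurePreserving.id (volume : Measure ℝ)).skew_product
    (μc := (volume : Measure ℝ)) (μd := (volume : Measure ℝ))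
    (g := fun θ b => b - C.dn i j θ)
    (by
      have : Continuous (Function.uncurry fun θ b => b - C.dn i j θ) :=
        continuous_snd.sub (hc.comp continuous_fst)
      exact this.measurable)
    (Filter.Eventually.of_forall fun θ => (measurePreserving_sub_right volume (C.dn i j θ)).map_eq)
  exact h

theorem invMeas1_rho (r : ℝ) :
    MeasurePreserving (fun p : ℝ × ℝ => (p.1 + Real.pi - 2 * Real.arcsin (p.2 / r), p.2))
      volume volume := by
  have h := (MeasurePreserving.id (volume : Measure ℝ)).skew_product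
    (μc := (volume : Measure ℝ)) (μd := (volume : Measure ℝ))
    (g := fun b θ => θ + (Real.pi - 2 * Real.arcsin (b / r)))
    (by
      have : Continuous (Function.uncurry fun b θ => θ + (Real.pi - 2 * Real.arcsin (b / r))) := by
        have h1 : Continuous (fun p : ℝ × ℝ => Real.arcsin (p.1 / r)) :=
          Real.continuous_arcsin.comp (continuous_fst.div_const r)
        exact continuous_snd.add (continuous_const.sub (continuous_const.mul h1))
      exact this.measurable)
    (Filter.Eventually.of_forall fun b =>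
      (measurePreserving_add_right volume (Real.pi - 2 * Real.arcsin (b / r))).map_eq)
  have hs : MeasurePreserving (Prod.swap : ℝ × ℝ → ℝ × ℝ) (volume.prod volume) (volume.prod volume) :=
    Measure.measurePreserving_swap
  have h2 := (hs.comp h).comp hs
  have e : (fun p : ℝ × ℝ => (p.1 + Real.pi - 2 * Real.arcsin (p.2 / r), p.2)) =
      (Prod.swap ∘ fun p : ℝ × ℝ => (id p.1, p.2 + (Real.pi - 2 * Real.arcsin (p.1 / r)))) ∘
        Prod.swap := by
    funext p
    simp only [Function.comp_apply, Prod.swap, id, Prod.mk.injEq, and_true]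
    ring
  rw [e]
  exact h2

/-- `T` does not increase the measure `dθ db`. -/
theorem invMeas1 (C : Cfg n) (g : St n → ENNReal) (hg : Measurable g) :
    ∫⁻ l in C.Om 1, g (C.T l) ∂(Cfg.vol n) ≤ ∫⁻ l in C.M, g l ∂(Cfg.vol n) := by
  obtain ⟨mT, mOm, -, mM, -⟩ := meas C
  have mOm1 := mOm 1
  rw [← lintegral_indicator mOm1, ← lintegral_indicator mM]
  have hgT : Measurable (fun l => g (C.T l)) := hg.comp mT
  rw [volSum _ (hgT.indicator mOm1), volSum _ (hg.indicator mM)]
  -- the sets
  obtain ⟨H, hH⟩ : ∃ H : Fin n → Fin n → Set (ℝ × ℝ),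
    H = fun i j => {p : ℝ × ℝ | |p.2| < C.r i ∧ C.Hits i j p.1 p.2} := ⟨_, rfl⟩
  have oH : ∀ i j, IsOpen (H i j) := fun i j => by rw [hH]; exact isOpen_hits C i j
  obtain ⟨H', hH'⟩ : ∃ H' : Fin n → Fin n → Set (ℝ × ℝ),
    H' = fun i j => {p : ℝ × ℝ | (p.1, p.2 + C.dn i j p.1) ∈ H i j} := ⟨_, rfl⟩
  have mH' : ∀ i j, MeasurableSet (H' i j) := by
    intro i j
    rw [hH']
    have hc := invMeas1_dn_cont C i j
    have hcont : Continuous (fun p : ℝ × ℝ => (p.1, p.2 + C.dn i j p.1)) :=
      continuous_fst.prodMk (continuous_snd.add (hc.comp continuous_fst))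
    exact ((oH i j).preimage hcont).measurableSet
  obtain ⟨G, hG⟩ : ∃ G : Fin n → ℝ × ℝ → ENNReal, G = fun j p =>
    g (j, (p.1 + Real.pi - 2 * Real.arcsin (p.2 / C.r j), p.2)) := ⟨_, rfl⟩
  have mG : ∀ j, Measurable (G j) := by
    intro j
    rw [hG]
    exact hg.comp (measurable_const.prodMk (invMeas1_rho (C.r j)).measurable)
  -- pointwise bound
  have hpt : ∀ i (p : ℝ × ℝ), (C.Om 1).indicator (fun l => g (C.T l)) (i, p) ≤
      ∑ j, (H' i j).indicator (G j) (p.1, p.2 - C.dn i j p.1) := by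
    intro i p
    by_cases hp : (i, p) ∈ C.Om 1
    · rw [Set.indicator_of_mem hp]
      obtain ⟨h1, ⟨j, hj⟩, -⟩ := hp
      have hT : C.T (i, p) = (j, C.Tj i j p.1 p.2) := T_of_hits C hj
      have hmem : (p.1, p.2 - C.dn i j p.1) ∈ H' i j := by
        rw [hH', hH]
        show |p.2 - C.dn i j p.1 + C.dn i j p.1| < C.r i ∧
          C.Hits i j p.1 (p.2 - C.dn i j p.1 + C.dn i j p.1)
        rw [sub_add_cancel]
        exact ⟨h1, hj⟩
      have h3 : g (C.T (i, p)) = (H' i j).indicator (G j) (p.1, p.2 - C.dn i j p.1) := by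
        rw [Set.indicator_of_mem hmem, hT, hG]
        rfl
      rw [h3]
      exact Finset.single_le_sum (f := fun j => (H' i j).indicator (G j) (p.1, p.2 - C.dn i j p.1))
        (fun _ _ => zero_le) (Finset.mem_univ j)
    · rw [Set.indicator_of_notMem hp]
      exact zero_le
  have hstep1 : ∀ i, ∫⁻ p : ℝ × ℝ, (C.Om 1).indicator (fun l => g (C.T l)) (i, p) ≤
      ∑ j, ∫⁻ p : ℝ × ℝ, (H' i j).indicator (G j) p := by
    intro i
    refine (lintegral_mono (hpt i)).trans ?_
    rw [lintegral_finsetSum]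
    · apply le_of_eq
      apply Finset.sum_congr rfl
      intro j _
      exact (invMeas1_tau C i j).lintegral_comp ((mG j).indicator (mH' i j))
    · intro j _
      exact ((mG j).indicator (mH' i j)).comp (invMeas1_tau C i j).measurable
  have hstep2 : ∀ j, ∑ i, ∫⁻ p : ℝ × ℝ, (H' i j).indicator (G j) p ≤
      ∫⁻ p : ℝ × ℝ, (C.M).indicator g (j, p) := by
    intro j
    rw [← lintegral_finsetSum _ (fun i _ => (mG j).indicator (mH' i j))]
    have e1 : ∫⁻ p : ℝ × ℝ, (C.M).indicator g (j, p) =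
        ∫⁻ p : ℝ × ℝ, (C.M).indicator g
          (j, (p.1 + Real.pi - 2 * Real.arcsin (p.2 / C.r j), p.2)) := by
      symm
      exact (invMeas1_rho (C.r j)).lintegral_comp
        (f := fun p : ℝ × ℝ => (C.M).indicator g (j, p))
        ((hg.indicator mM).comp (measurable_const.prodMk measurable_id))
    rw [e1]
    apply lintegral_mono
    intro p
    show ∑ i, (H' i j).indicator (G j) p ≤ (C.M).indicator g
          (j, (p.1 + Real.pi - 2 * Real.arcsin (p.2 / C.r j), p.2))
    by_cases hex : ∃ i, p ∈ H' i j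
    · obtain ⟨i, hi⟩ := hex
      have hi' := hi
      rw [hH', hH] at hi'
      have hi1 : |p.2 + C.dn i j p.1| < C.r i ∧ C.Hits i j p.1 (p.2 + C.dn i j p.1) := hi'
      rw [Finset.sum_eq_single i]
      · rw [Set.indicator_of_mem hi]
        have hm : ((j, (p.1 + Real.pi - 2 * Real.arcsin (p.2 / C.r j), p.2)) : St n) ∈ C.M := by
          show |p.2| < C.r j
          have h4 := hi1.2.2.2.1
          have h5 : C.bp i j p.1 (p.2 + C.dn i j p.1) = p.2 := by unfold Cfg.bp; ring
          rw [h5] at h4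
          exact h4
        rw [Set.indicator_of_mem hm, hG]
      · intro i' _ hne
        apply Set.indicator_of_notMem
        intro hi2
        rw [hH', hH] at hi2
        have hi3 : |p.2 + C.dn i' j p.1| < C.r i' ∧ C.Hits i' j p.1 (p.2 + C.dn i' j p.1) := hi2
        exact hne (invMeas1_unique C hi3.1 hi3.2 hi1.1 hi1.2)
      · intro h
        exact absurd (Finset.mem_univ i) h
    · push Not at hex
      rw [Finset.sum_eq_zero]
      · exact zero_le
      · intro i _
        exact Set.indicator_of_notMem (hex i) _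
  calc ∑ i, ∫⁻ p : ℝ × ℝ, (C.Om 1).indicator (fun l => g (C.T l)) (i, p)
      ≤ ∑ i, ∑ j, ∫⁻ p : ℝ × ℝ, (H' i j).indicator (G j) p :=
        Finset.sum_le_sum (fun i _ => hstep1 i)
    _ = ∑ j, ∑ i, ∫⁻ p : ℝ × ℝ, (H' i j).indicator (G j) p := Finset.sum_comm
    _ ≤ ∑ j, ∫⁻ p : ℝ × ℝ, (C.M).indicator g (j, p) :=
        Finset.sum_le_sum (fun j _ => hstep2 j)

end Pool.Light
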