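import Pool.Agent.H721Light.Defs
import Pool.Agent.H721Light.P_gap
import Pool.Agent.H721Light.P_basics
import Pool.Agent.H721Light.P_hits_unique
import Pool.Agent.H721Light.P_T_of_hits
import Pool.Agent.H721Light.P_isOpen_hits

set_option autoImplicit false

open MeasureTheory Set Filter Topology

namespace Pool.Light


variable {n : ℕ}

theorem om_facts_sub (C : Cfg n) (m : ℕ) : C.Om m ⊆ C.M := by
  cases m with
  | zero => exact subset_rfl
  | succ m => exact fun l hl => hl.1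

theorem om_facts_mono (C : Cfg n) (m : ℕ) : C.Om (m + 1) ⊆ C.Om m := by
  induction m with
  | zero => exact fun l hl => hl.1
  | succ m ih => exact fun l hl => ⟨hl.1, hl.2.1, ih hl.2.2⟩

theorem om_facts_iter (C : Cfg n) (m : ℕ) : ∀ k l, l ∈ C.Om (m + k) ↔
    l ∈ C.Om m ∧ (C.T^[m]) l ∈ C.Om k := by
  induction m with
  | zero =>
    intro k l
    rw [Nat.zero_add, Function.iterate_zero, id]
    exact ⟨fun h => ⟨om_facts_sub C k h, h⟩, fun h => h.2⟩
  | succ m ih =>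
    intro k l
    rw [Function.iterate_succ_apply]
    have e : m + 1 + k = (m + k) + 1 := by omega
    rw [e]
    constructor
    · rintro ⟨h1, h2, h3⟩
      rw [ih] at h3
      exact ⟨⟨h1, h2, h3.1⟩, h3.2⟩
    · rintro ⟨⟨h1, h2, h3⟩, h4⟩
      exact ⟨h1, h2, (ih k (C.T l)).2 ⟨h3, h4⟩⟩

theorem om_facts_cont (C : Cfg n) (i j : Fin n) :
    Continuous (fun p : ℝ × ℝ => C.Tj i j p.1 p.2) := by
  have hbp : Continuous (fun p : ℝ × ℝ => C.bp i j p.1 p.2) := by
    unfold Cfg.bp Cfg.dn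
    fun_prop
  unfold Cfg.Tj
  refine Continuous.prodMk ?_ hbp
  exact (continuous_fst.add continuous_const).sub
    (continuous_const.mul (Real.continuous_arcsin.comp (hbp.div_const _)))

theorem om_facts_open (C : Cfg n) (m : ℕ) :
    ∀ i, IsOpen {p : ℝ × ℝ | ((i, p) : St n) ∈ C.Om m} := by
  induction m with
  | zero =>
    intro i
    have : {p : ℝ × ℝ | ((i, p) : St n) ∈ C.Om 0} = {p : ℝ × ℝ | |p.2| < C.r i} := rfl
    rw [this]
    exact isOpen_lt (continuous_snd.abs) continuous_const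
  | succ m ih =>
    intro i
    have : {p : ℝ × ℝ | ((i, p) : St n) ∈ C.Om (m + 1)} =
        ⋃ j, ({p : ℝ × ℝ | |p.2| < C.r i ∧ C.Hits i j p.1 p.2} ∩
          (fun p : ℝ × ℝ => C.Tj i j p.1 p.2) ⁻¹' {q : ℝ × ℝ | ((j, q) : St n) ∈ C.Om m}) := by
      ext ⟨θ, b⟩
      rw [mem_iUnion]
      constructor
      · rintro ⟨h1, ⟨j, h2⟩, h3⟩
        have h4 := T_of_hits C h2
        refine ⟨j, ⟨h1, h2⟩, ?_⟩
        show ((j, C.Tj i j θ b) : St n) ∈ C.Om m
        rw [← h4]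
        exact h3
      · rintro ⟨j, ⟨h1, h2⟩, h3⟩
        have h4 := T_of_hits C h2
        refine ⟨h1, ⟨j, h2⟩, ?_⟩
        have h5 : ((j, C.Tj i j θ b) : St n) ∈ C.Om m := h3
        rw [← h4] at h5
        exact h5
    rw [this]
    exact isOpen_iUnion fun j => (isOpen_hits C i j).inter ((ih j).preimage (om_facts_cont C i j))

theorem om_facts (C : Cfg n) (m : ℕ) :
    C.Om (m + 1) ⊆ C.Om m ∧ C.Om m ⊆ C.M ∧
    (∀ k l, l ∈ C.Om (m + k) ↔ l ∈ C.Om m ∧ (C.T^[m]) l ∈ C.Om k) ∧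
    (∀ i, IsOpen {p : ℝ × ℝ | ((i, p) : St n) ∈ C.Om m}) ∧
    (∀ l, l ∈ C.Trap → C.T l ∈ C.Trap) :=
  ⟨om_facts_mono C m, om_facts_sub C m, om_facts_iter C m, om_facts_open C m,
    fun l hl k => (hl (k + 1)).2.2⟩

end Pool.Light
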