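import Pool.Agent.H721Light.Defs
import Pool.Agent.H721Light.P_om_facts
import Pool.Agent.H721Light.P_meas
import Pool.Agent.H721Light.P_invMeas1

set_option autoImplicit false

open MeasureTheory Set Filter Topology

namespace Pool.Light


variable {n : ℕ}

theorem invMeas (C : Cfg n) (m : ℕ) (g : St n → ENNReal) (hg : Measurable g) :
    ∫⁻ l in C.Om m, g ((C.T^[m]) l) ∂(Cfg.vol n) ≤ ∫⁻ l in C.M, g l ∂(Cfg.vol n) := by
  obtain ⟨hT, hOm, _⟩ := meas C
  induction m generalizing g with
  | zero => exact le_rfl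
  | succ m ih =>
    classical
    set h : St n → ENNReal := (C.Om 1).indicator (fun l => g (C.T l)) with hh
    have hhm : Measurable h := (hg.comp hT).indicator (hOm 1)
    have h1 : ∫⁻ l in C.Om (m + 1), g ((C.T^[m + 1]) l) ∂(Cfg.vol n) =
        ∫⁻ l in C.Om m, h ((C.T^[m]) l) ∂(Cfg.vol n) := by
      rw [← lintegral_indicator (hOm (m + 1)), ← lintegral_indicator (hOm m)]
      refine lintegral_congr fun l => ?_
      have hiff := (om_facts C m).2.2.1 1 l
      by_cases c1 : l ∈ C.Om (m + 1)
      · obtain ⟨c2, c3⟩ := hiff.1 c1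
        rw [Set.indicator_of_mem c1, Set.indicator_of_mem c2, hh, Set.indicator_of_mem c3,
          Function.iterate_succ_apply']
      · rw [Set.indicator_of_notMem c1]
        by_cases c2 : l ∈ C.Om m
        · have c3 : (C.T^[m]) l ∉ C.Om 1 := fun c3 => c1 (hiff.2 ⟨c2, c3⟩)
          rw [Set.indicator_of_mem c2, hh, Set.indicator_of_notMem c3]
        · rw [Set.indicator_of_notMem c2]
    rw [h1]
    refine (ih h hhm).trans ?_
    have h2 : ∫⁻ l in C.M, h l ∂(Cfg.vol n) ≤ ∫⁻ l in C.Om 1, g (C.T l) ∂(Cfg.vol n) := by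
      rw [← lintegral_indicator (hOm 1)]
      exact setLIntegral_le_lintegral _ _
    exact h2.trans (invMeas1 C g hg)

end Pool.Light
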