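import Pool.Agent.H721Light.Defs
import Pool.Agent.H721Light.P_meas
import Pool.Agent.H721Light.P_volSum

set_option autoImplicit false

open MeasureTheory Set Filter Topology

namespace Pool.Light


variable {n : ℕ}

theorem rhoMeas_plane (G : ℝ × ℝ → ENNReal) (hG : Measurable G) (h : ℝ → ℝ) (hh : Measurable h) :
    ∫⁻ p : ℝ × ℝ, G (p.1 + h p.2, -p.2) = ∫⁻ p : ℝ × ℝ, G p := by
  have hm : Measurable (fun p : ℝ × ℝ => (p.1 + h p.2, -p.2)) :=
    (measurable_fst.add (hh.comp measurable_snd)).prodMk measurable_snd.neg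
  have hGm : Measurable (fun p : ℝ × ℝ => G (p.1 + h p.2, -p.2)) := hG.comp hm
  rw [Measure.volume_eq_prod, lintegral_prod_symm _ hGm.aemeasurable,
    lintegral_prod_symm _ hG.aemeasurable]
  have h1 : ∀ b : ℝ, ∫⁻ x : ℝ, G (x + h b, -b) = ∫⁻ x : ℝ, G (x, -b) := by
    intro b
    exact lintegral_add_right_eq_self (fun x => G (x, -b)) (h b)
  simp only [h1]
  exact lintegral_neg_eq_self (fun b => ∫⁻ x : ℝ, G (x, b))

theorem rhoMeas (C : Cfg n) (g : St n → ENNReal) (hg : Measurable g) :
    ∫⁻ l in C.M, g (C.rho l) ∂(Cfg.vol n) = ∫⁻ l in C.M, g l ∂(Cfg.vol n) := by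
  obtain ⟨_, _, _, hM, _, _, hrho, _⟩ := meas C
  rw [← lintegral_indicator hM, ← lintegral_indicator hM]
  have hind : (C.M.indicator (fun l => g (C.rho l))) = fun l => (C.M.indicator g) (C.rho l) := by
    funext l
    by_cases hl : l ∈ C.M
    · have hl' : C.rho l ∈ C.M := by
        show |-l.2.2| < C.r l.1
        rw [abs_neg]; exact hl
      rw [Set.indicator_of_mem hl, Set.indicator_of_mem hl']
    · have hl' : C.rho l ∉ C.M := by
        intro h
        apply hl
        have h' : |-l.2.2| < C.r l.1 := h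
        rw [abs_neg] at h'; exact h'
      rw [Set.indicator_of_notMem hl, Set.indicator_of_notMem hl']
  rw [hind]
  have hF : Measurable (C.M.indicator g) := hg.indicator hM
  have hFr : Measurable (fun l => C.M.indicator g (C.rho l)) := hF.comp hrho
  rw [volSum _ hFr, volSum _ hF]
  refine Finset.sum_congr rfl fun i _ => ?_
  have hG : Measurable (fun p : ℝ × ℝ => (C.M.indicator g) (i, p)) := hF.comp (measurable_const.prodMk measurable_id)
  exact rhoMeas_plane (fun p => (C.M.indicator g) (i, p)) hG (fun b => 2 * Real.arcsin (b / C.r i))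
    ((Real.measurable_arcsin.comp (measurable_id.div_const _)).const_mul 2)

end Pool.Light
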