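import Pool.Agent.H721Light.Defs
import Pool.Agent.H721Light.P_basics
import Pool.Agent.H721Light.P_hits_unique
import Pool.Agent.H721Light.P_T_of_hits

set_option autoImplicit false

open MeasureTheory Set Filter Topology

namespace Pool.Light


variable {n : ℕ}

theorem shift_dv (C : Cfg n) (m : ℤ) (i k : Fin n) (θ : ℝ) :
    C.dv i k (θ + 2 * Real.pi * m) = C.dv i k θ := (basics C i k θ 0).2.2.2.2.2.2.1 m

theorem shift_dn (C : Cfg n) (m : ℤ) (i k : Fin n) (θ : ℝ) :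
    C.dn i k (θ + 2 * Real.pi * m) = C.dn i k θ := (basics C i k θ 0).2.2.2.2.2.2.2.1 m

theorem shift_bp (C : Cfg n) (m : ℤ) (i k : Fin n) (θ b : ℝ) :
    C.bp i k (θ + 2 * Real.pi * m) b = C.bp i k θ b := by
  unfold Cfg.bp
  rw [shift_dn]

theorem shift_hits (C : Cfg n) (m : ℤ) (i j : Fin n) (θ b : ℝ) :
    C.Hits i j (θ + 2 * Real.pi * m) b ↔ C.Hits i j θ b := by
  unfold Cfg.Hits
  simp only [shift_dv, shift_bp]

theorem shift_T (C : Cfg n) (k : ℤ) (l : St n) : C.T (Cfg.sh k l) = Cfg.sh k (C.T l) := by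
  obtain ⟨i, θ, b⟩ := l
  by_cases h : ∃ j, C.Hits i j θ b
  · obtain ⟨j, hj⟩ := h
    rw [T_of_hits C hj]
    have h1 : C.Hits i j (θ + 2 * Real.pi * k) b := (shift_hits C k i j θ b).2 hj
    show C.T (i, θ + 2 * Real.pi * k, b) = _
    rw [T_of_hits C h1]
    unfold Cfg.Tj Cfg.sh
    rw [shift_bp]
    refine Prod.ext rfl (Prod.ext ?_ rfl)
    show θ + 2 * Real.pi * k + Real.pi - 2 * Real.arcsin (C.bp i j θ b / C.r j) =
      θ + Real.pi - 2 * Real.arcsin (C.bp i j θ b / C.r j) + 2 * Real.pi * k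
    ring
  · have h1 : ¬ ∃ j, C.Hits i j (θ + 2 * Real.pi * k) b := by
      rintro ⟨j, hj⟩
      exact h ⟨j, (shift_hits C k i j θ b).1 hj⟩
    have h2 : C.T (i, θ, b) = (i, θ, b) := by
      unfold Cfg.T
      exact dif_neg h
    have h3 : C.T (i, θ + 2 * Real.pi * k, b) = (i, θ + 2 * Real.pi * k, b) := by
      unfold Cfg.T
      exact dif_neg h1
    rw [h2]
    exact h3

theorem shift_exHits (C : Cfg n) (k : ℤ) (l : St n) :
    (∃ j, C.Hits (Cfg.sh k l).1 j (Cfg.sh k l).2.1 (Cfg.sh k l).2.2) ↔ ∃ j, C.Hits l.1 j l.2.1 l.2.2 := by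
  constructor
  · rintro ⟨j, hj⟩
    exact ⟨j, (shift_hits C k _ _ _ _).1 hj⟩
  · rintro ⟨j, hj⟩
    exact ⟨j, (shift_hits C k _ _ _ _).2 hj⟩

theorem shift_Om (C : Cfg n) (k : ℤ) (m : ℕ) : ∀ l : St n, Cfg.sh k l ∈ C.Om m ↔ l ∈ C.Om m := by
  induction m with
  | zero => intro l; exact Iff.rfl
  | succ m ih =>
    intro l
    show (Cfg.sh k l ∈ C.M ∧ (∃ j, C.Hits (Cfg.sh k l).1 j (Cfg.sh k l).2.1 (Cfg.sh k l).2.2) ∧
      C.T (Cfg.sh k l) ∈ C.Om m) ↔ (l ∈ C.M ∧ (∃ j, C.Hits l.1 j l.2.1 l.2.2) ∧ C.T l ∈ C.Om m)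
    rw [shift_T, ih, shift_exHits]
    exact Iff.rfl

theorem shift_S1 (C : Cfg n) (k : ℤ) (l : St n) : Cfg.sh k l ∈ C.S1 ↔ l ∈ C.S1 := by
  show (Cfg.sh k l ∈ C.M ∧ ∃ k', k' ≠ l.1 ∧ 0 < C.dv l.1 k' (l.2.1 + 2 * Real.pi * k) ∧
    |C.bp l.1 k' (l.2.1 + 2 * Real.pi * k) l.2.2| = C.r k') ↔ _
  simp only [shift_dv, shift_bp]
  exact Iff.rfl

theorem shift_iter (C : Cfg n) (k : ℤ) (m : ℕ) : ∀ l : St n,
    (C.T^[m]) (Cfg.sh k l) = Cfg.sh k ((C.T^[m]) l) := by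
  induction m with
  | zero => intro l; rfl
  | succ m ih =>
    intro l
    rw [Function.iterate_succ_apply, Function.iterate_succ_apply, shift_T, ih]

theorem shift_sig (C : Cfg n) (k : ℤ) (N : ℕ) : ∀ l : St n, C.sig N (Cfg.sh k l) = C.sig N l := by
  induction N with
  | zero => intro l; rfl
  | succ N ih =>
    intro l
    unfold Cfg.sig
    by_cases h : ∃ j, C.Hits l.1 j l.2.1 l.2.2
    · rw [if_pos h, if_pos ((shift_exHits C k l).2 h), shift_T, ih]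
      show C.dv l.1 (C.T l).1 (l.2.1 + 2 * Real.pi * k) -
        Cfg.gf (C.sig N (C.T l)) (C.hc (C.T l).1 (C.T l).2.2) = _
      rw [shift_dv]
    · rw [if_neg h, if_neg (fun h' => h ((shift_exHits C k l).1 h'))]

/-- equivariance under the shift by `2π k`. -/
theorem shift (C : Cfg n) (k : ℤ) (l : St n) :
    C.T (Cfg.sh k l) = Cfg.sh k (C.T l) ∧ C.rho (Cfg.sh k l) = Cfg.sh k (C.rho l) ∧
    (∀ m, Cfg.sh k l ∈ C.Om m ↔ l ∈ C.Om m) ∧ (Cfg.sh k l ∈ C.S1 ↔ l ∈ C.S1) ∧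
    (Cfg.sh k l ∈ C.SS ↔ l ∈ C.SS) ∧ (Cfg.sh k l ∈ C.Trap ↔ l ∈ C.Trap) ∧
    (∀ N, C.sig N (Cfg.sh k l) = C.sig N l) ∧ C.rho (C.rho l) = l ∧
    (l ∈ C.M ↔ C.rho l ∈ C.M) ∧
    (l ∈ C.M → l.2.1 ≤ (C.T l).2.1 ∧ (C.T l).2.1 ≤ l.2.1 + 2 * Real.pi) ∧
    l.2.1 - Real.pi ≤ (C.rho l).2.1 ∧ (C.rho l).2.1 ≤ l.2.1 + Real.pi := by
  refine ⟨shift_T C k l, ?_, fun m => shift_Om C k m l, shift_S1 C k l, ?_, ?_,
    fun N => shift_sig C k N l, ?_, ?_, ?_, ?_, ?_⟩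
  · refine Prod.ext rfl (Prod.ext ?_ rfl)
    show l.2.1 + 2 * Real.pi * k + 2 * Real.arcsin (l.2.2 / C.r l.1) =
      l.2.1 + 2 * Real.arcsin (l.2.2 / C.r l.1) + 2 * Real.pi * k
    ring
  · constructor
    · rintro ⟨m, h1, h2⟩
      refine ⟨m, (shift_Om C k m l).1 h1, ?_⟩
      rw [shift_iter] at h2
      exact (shift_S1 C k _).1 h2
    · rintro ⟨m, h1, h2⟩
      refine ⟨m, (shift_Om C k m l).2 h1, ?_⟩
      rw [shift_iter]
      exact (shift_S1 C k _).2 h2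
  · exact ⟨fun h m => (shift_Om C k m l).1 (h m), fun h m => (shift_Om C k m l).2 (h m)⟩
  · refine Prod.ext rfl (Prod.ext ?_ ?_)
    · show l.2.1 + 2 * Real.arcsin (l.2.2 / C.r l.1) + 2 * Real.arcsin (-l.2.2 / C.r l.1) = l.2.1
      rw [neg_div, Real.arcsin_neg]
      ring
    · show - -l.2.2 = l.2.2
      ring
  · show |l.2.2| < C.r l.1 ↔ |-l.2.2| < C.r l.1
    rw [abs_neg]
  · intro _
    obtain ⟨i, θ, b⟩ := l
    have hpi := Real.pi_pos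
    by_cases h : ∃ j, C.Hits i j θ b
    · obtain ⟨j, hj⟩ := h
      rw [T_of_hits C hj]
      show θ ≤ θ + Real.pi - 2 * Real.arcsin (C.bp i j θ b / C.r j) ∧
        θ + Real.pi - 2 * Real.arcsin (C.bp i j θ b / C.r j) ≤ θ + 2 * Real.pi
      have h1 := Real.arcsin_le_pi_div_two (C.bp i j θ b / C.r j)
      have h2 := Real.neg_pi_div_two_le_arcsin (C.bp i j θ b / C.r j)
      constructor <;> linarith
    · have h2 : C.T (i, θ, b) = (i, θ, b) := by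
        unfold Cfg.T
        exact dif_neg h
      rw [h2]
      show θ ≤ θ ∧ θ ≤ θ + 2 * Real.pi
      constructor <;> linarith
  · show l.2.1 - Real.pi ≤ l.2.1 + 2 * Real.arcsin (l.2.2 / C.r l.1)
    have h2 := Real.neg_pi_div_two_le_arcsin (l.2.2 / C.r l.1)
    linarith
  · show l.2.1 + 2 * Real.arcsin (l.2.2 / C.r l.1) ≤ l.2.1 + Real.pi
    have h1 := Real.arcsin_le_pi_div_two (l.2.2 / C.r l.1)
    linarith

end Pool.Light
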