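import Pool.Agent.H721Light.Defs
import Pool.Agent.H721Light.P_at0

set_option autoImplicit false

open MeasureTheory Set Filter Topology

namespace Pool.Light


/-! auxiliary lemmas for `at1` -/

noncomputable def at1_w (k : ℕ) : ℝ := 1 / ((k : ℝ) + 1)

theorem at1_w_pos (k : ℕ) : 0 < at1_w k := by unfold at1_w; positivity

theorem at1_w_le (k : ℕ) : at1_w k ≤ 1 := by
  unfold at1_w
  rw [div_le_one (by positivity)]
  have : (0 : ℝ) ≤ k := by positivity
  linarith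

noncomputable def at1_bump (k : ℕ) : ContDiffBump (0 : ℝ) where
  rIn := at1_w k / 2
  rOut := at1_w k
  rIn_pos := by have := at1_w_pos k; positivity
  rIn_lt_rOut := by have := at1_w_pos k; linarith

noncomputable def at1_ph (k : ℕ) (t : ℝ) : ℝ := (at1_bump k).normed volume t

theorem at1_ph_cont (k : ℕ) : Continuous (at1_ph k) := (at1_bump k).continuous_normed

theorem at1_ph_nonneg (k : ℕ) (t : ℝ) : 0 ≤ at1_ph k t := (at1_bump k).nonneg_normed t

theorem at1_ph_supp (k : ℕ) : Function.support (at1_ph k) = Metric.ball 0 (at1_w k) :=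
  (at1_bump k).support_normed_eq

theorem at1_ph_zero (k : ℕ) {t : ℝ} (ht : at1_w k ≤ |t|) : at1_ph k t = 0 := by
  by_contra h
  have h1 : t ∈ Function.support (at1_ph k) := h
  rw [at1_ph_supp, Metric.mem_ball, dist_zero_right, Real.norm_eq_abs] at h1
  linarith

theorem at1_ph_int (k : ℕ) : ∫ t, at1_ph k t = 1 := (at1_bump k).integral_normed

noncomputable def at1_Ph (k : ℕ) (x : ℝ) : ℝ := ∫ t in (-1 : ℝ)..x, at1_ph k t

theorem at1_Ph_deriv (k : ℕ) (x : ℝ) : HasDerivAt (at1_Ph k) (at1_ph k x) x :=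
  intervalIntegral.integral_hasDerivAt_right ((at1_ph_cont k).intervalIntegrable _ _)
    ((at1_ph_cont k).stronglyMeasurableAtFilter _ _) (at1_ph_cont k).continuousAt

theorem at1_Ph_contDiff (k : ℕ) : ContDiff ℝ 1 (at1_Ph k) := by
  rw [contDiff_one_iff_deriv]
  refine ⟨fun x => (at1_Ph_deriv k x).differentiableAt, ?_⟩
  have : deriv (at1_Ph k) = at1_ph k := funext fun x => (at1_Ph_deriv k x).deriv
  rw [this]
  exact at1_ph_cont k

theorem at1_Ph_mono (k : ℕ) : Monotone (at1_Ph k) :=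
  monotone_of_deriv_nonneg (fun x => (at1_Ph_deriv k x).differentiableAt) fun x => by
    rw [(at1_Ph_deriv k x).deriv]; exact at1_ph_nonneg k x

theorem at1_Ph_zero (k : ℕ) {x : ℝ} (hx : x ≤ -at1_w k) : at1_Ph k x = 0 := by
  unfold at1_Ph
  have h1 := at1_w_le k
  have h0 := at1_w_pos k
  rw [intervalIntegral.integral_congr (g := fun _ => (0 : ℝ))]
  · simp
  · intro t ht
    have h2 : t ≤ max (-1) x := ht.2
    have h3 : t ≤ -at1_w k := h2.trans (max_le (by linarith) hx)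
    refine at1_ph_zero k ?_
    rw [abs_of_neg (by linarith)]
    linarith

theorem at1_Ph_one (k : ℕ) {x : ℝ} (hx : at1_w k ≤ x) : at1_Ph k x = 1 := by
  unfold at1_Ph
  have h1 := at1_w_le k
  rw [intervalIntegral.integral_eq_integral_of_support_subset, at1_ph_int]
  rw [at1_ph_supp]
  intro t ht
  rw [Metric.mem_ball, dist_zero_right, Real.norm_eq_abs, abs_lt] at ht
  exact ⟨by linarith, by linarith⟩

theorem at1_Ph_nonneg (k : ℕ) (x : ℝ) : 0 ≤ at1_Ph k x := by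
  rw [← at1_Ph_zero k (min_le_right x (-at1_w k))]
  exact at1_Ph_mono k (min_le_left _ _)

theorem at1_Ph_le_one (k : ℕ) (x : ℝ) : at1_Ph k x ≤ 1 := by
  rw [← at1_Ph_one k (le_max_right x (at1_w k))]
  exact at1_Ph_mono k (le_max_left _ _)

/-- the trapezoid -/
noncomputable def at1_chi (q0 q1 : ℝ) (k : ℕ) (b : ℝ) : ℝ :=
  at1_Ph k (b - q0) - at1_Ph k (b - q1)

theorem at1_chi_contDiff (q0 q1 : ℝ) (k : ℕ) : ContDiff ℝ 1 (at1_chi q0 q1 k) := by
  unfold at1_chi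
  exact ((at1_Ph_contDiff k).comp (contDiff_id.sub contDiff_const)).sub
    ((at1_Ph_contDiff k).comp (contDiff_id.sub contDiff_const))

theorem at1_chi_deriv (q0 q1 : ℝ) (k : ℕ) (b : ℝ) :
    HasDerivAt (at1_chi q0 q1 k) (at1_ph k (b - q0) - at1_ph k (b - q1)) b := by
  unfold at1_chi
  have h1 := (at1_Ph_deriv k (b - q0)).comp_sub_const b q0
  have h2 := (at1_Ph_deriv k (b - q1)).comp_sub_const b q1
  exact h1.sub h2

theorem at1_chi_nonneg {q0 q1 : ℝ} (h : q0 ≤ q1) (k : ℕ) (b : ℝ) : 0 ≤ at1_chi q0 q1 k b := by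
  unfold at1_chi
  have := at1_Ph_mono k (show b - q1 ≤ b - q0 by linarith)
  linarith

theorem at1_chi_le_one (q0 q1 : ℝ) (k : ℕ) (b : ℝ) : at1_chi q0 q1 k b ≤ 1 := by
  unfold at1_chi
  have h1 := at1_Ph_le_one k (b - q0)
  have h2 := at1_Ph_nonneg k (b - q1)
  linarith

theorem at1_chi_zero {q0 q1 : ℝ} (h : q0 ≤ q1) (k : ℕ) {b : ℝ}
    (hb : b ≤ q0 - at1_w k ∨ q1 + at1_w k ≤ b) : at1_chi q0 q1 k b = 0 := by
  unfold at1_chi
  rcases hb with hb | hb
  · rw [at1_Ph_zero k (by linarith), at1_Ph_zero k (by linarith), sub_zero]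
  · rw [at1_Ph_one k (by linarith), at1_Ph_one k (by linarith), sub_self]

/-- the average of `g` near `x` -/
noncomputable def at1_av (g : ℝ → ℝ) (k : ℕ) (x : ℝ) : ℝ := ∫ b, g b * at1_ph k (b - x)

open scoped Convolution in
theorem at1_av_eq (g : ℝ → ℝ) (k : ℕ) (x : ℝ) :
    at1_av g k x = ((at1_bump k).normed volume ⋆[ContinuousLinearMap.lsmul ℝ ℝ, volume] g) x := by
  rw [MeasureTheory.convolution_eq_swap]
  unfold at1_av
  congr 1
  funext t
  have h1 : at1_ph k (t - x) = (at1_bump k).normed volume (x - t) := by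
    unfold at1_ph
    rw [← ContDiffBump.normed_neg, neg_sub]
  rw [h1, ContinuousLinearMap.lsmul_apply, smul_eq_mul, mul_comm]

theorem at1_av_cont {g : ℝ → ℝ} (hg : LocallyIntegrable g) (k : ℕ) : Continuous (at1_av g k) := by
  have h1 : at1_av g k = MeasureTheory.convolution ((at1_bump k).normed volume) g
      (ContinuousLinearMap.lsmul ℝ ℝ) volume := funext fun x => at1_av_eq g k x
  rw [h1]
  exact (at1_bump k).hasCompactSupport_normed.continuous_convolution_left _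
    (at1_bump k).continuous_normed hg

theorem at1_av_lim {g : ℝ → ℝ} (hg : LocallyIntegrable g) :
    ∀ᵐ x : ℝ, Tendsto (fun k => at1_av g k x) atTop (𝓝 (g x)) := by
  have h1 : Tendsto (fun k => (at1_bump k).rOut) atTop (𝓝 0) :=
    tendsto_one_div_add_atTop_nhds_zero_nat
  have h2 : ∀ᶠ k in atTop, (at1_bump k).rOut ≤ 2 * (at1_bump k).rIn := by
    filter_upwards with k
    show at1_w k ≤ 2 * (at1_w k / 2)
    linarith
  filter_upwards [ContDiffBump.ae_convolution_tendsto_right_of_locallyIntegrable h1 h2 hg]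
    with x hx
  refine hx.congr fun k => ?_
  exact (at1_av_eq g k x).symm

theorem at1_pair {g : ℝ → ℝ} (hg : LocallyIntegrable g) {τ α β y y' l l' : ℝ} (hτ : 0 < τ)
    (hαy : α < y) (hyy : y < y') (hyβ : y' < β)
    (h1 : Tendsto (fun k => at1_av g k y) atTop (𝓝 l))
    (h2 : Tendsto (fun k => at1_av g k y') atTop (𝓝 l')) (hl : τ ≤ |l - l'|) :
    ∃ (q0 q1 : ℚ) (k : ℕ), (q0 : ℝ) ≤ q1 ∧ α < q0 - at1_w k ∧ q1 + at1_w k < β ∧
      τ / 2 ≤ |at1_av g k q0 - at1_av g k q1| := by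
  have h3 : Tendsto (fun k => |at1_av g k y - at1_av g k y'|) atTop (𝓝 |l - l'|) :=
    (h1.sub h2).abs
  have e1 : ∀ᶠ k in atTop, τ / 2 < |at1_av g k y - at1_av g k y'| :=
    h3.eventually_const_lt (by linarith)
  have hw : Tendsto at1_w atTop (𝓝 0) := tendsto_one_div_add_atTop_nhds_zero_nat
  have e2 : ∀ᶠ k in atTop, at1_w k < y - α := hw.eventually_lt_const (by linarith)
  have e3 : ∀ᶠ k in atTop, at1_w k < β - y' := hw.eventually_lt_const (by linarith)
  obtain ⟨k, hk1, hk2, hk3⟩ := (e1.and (e2.and e3)).exists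
  have hc := at1_av_cont hg k
  have hopen : IsOpen {p : ℝ × ℝ | τ / 2 < |at1_av g k p.1 - at1_av g k p.2| ∧
      α + at1_w k < p.1 ∧ p.1 < p.2 ∧ p.2 < β - at1_w k} := by
    refine IsOpen.and (isOpen_lt continuous_const ?_) (IsOpen.and ?_ (IsOpen.and ?_ ?_))
    · exact ((hc.comp continuous_fst).sub (hc.comp continuous_snd)).abs
    · exact isOpen_lt continuous_const continuous_fst
    · exact isOpen_lt continuous_fst continuous_snd
    · exact isOpen_lt continuous_snd continuous_const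
  have hdense : DenseRange (Prod.map (fun q : ℚ => (q : ℝ)) (fun q : ℚ => (q : ℝ))) :=
    Rat.denseRange_cast.prodMap Rat.denseRange_cast
  obtain ⟨⟨q0, q1⟩, hq⟩ := hdense.exists_mem_open hopen
    ⟨(y, y'), hk1, by simp only; linarith, hyy, by simp only; linarith⟩
  obtain ⟨hq1, hq2, hq3, hq4⟩ := hq
  simp only [Prod.map_apply] at hq1 hq2 hq3 hq4
  exact ⟨q0, q1, k, hq3.le, by linarith, by linarith, hq1.le⟩

theorem at1_exists_of_pos {P : ℝ → Prop} (hP : ∀ᵐ x : ℝ, P x) {A : Set ℝ} (hA : volume A ≠ 0) :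
    ∃ x ∈ A, P x := by
  by_contra h
  push Not at h
  apply hA
  refine measure_mono_null (fun x hx => h x hx) hP

theorem at1_point {g : ℝ → ℝ} (hg : LocallyIntegrable g) {τ α β : ℝ} (hτ : 0 < τ)
    {G0 G1 : Set ℝ} (h0 : volume G0 ≠ 0) (h1 : volume G1 ≠ 0) (hG0 : G0 ⊆ Ioo α β)
    (hG1 : G1 ⊆ Ioo α β) (hg0 : ∀ x ∈ G0, g x = 0) (hg1 : ∀ x ∈ G1, τ ≤ g x) :
    ∃ (q0 q1 : ℚ) (k : ℕ), (q0 : ℝ) ≤ q1 ∧ α < q0 - at1_w k ∧ q1 + at1_w k < β ∧
      τ / 2 ≤ |at1_av g k q0 - at1_av g k q1| := by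
  obtain ⟨y, hy, hy'⟩ := at1_exists_of_pos (at1_av_lim hg) h0
  obtain ⟨z, hz, hz'⟩ := at1_exists_of_pos (at1_av_lim hg) h1
  have e0 := hg0 y hy
  have e1 := hg1 z hz
  rcases lt_trichotomy y z with h | h | h
  · refine at1_pair hg hτ (hG0 hy).1 h (hG1 hz).2 hy' hz' ?_
    rw [e0, zero_sub, abs_neg]
    exact e1.trans (le_abs_self _)
  · rw [h] at e0; linarith
  · refine at1_pair hg hτ (hG1 hz).1 h (hG0 hy).2 hz' hy' ?_
    rw [e0, sub_zero]
    exact e1.trans (le_abs_self _)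

open Classical in
/-- the countable family -/
noncomputable def at1_X (η : ℝ) (i : ℚ × ℚ × ℕ) : ℝ → ℝ :=
  if ((i.1 : ℝ) ≤ i.2.1 ∧ (i.2.1 : ℝ) - i.1 + 2 * at1_w i.2.2 ≤ η) then
    at1_chi i.1 i.2.1 i.2.2 else fun _ => 0

theorem at1_X_contDiff (η : ℝ) (i : ℚ × ℚ × ℕ) : ContDiff ℝ 1 (at1_X η i) := by
  unfold at1_X
  split_ifs
  · exact at1_chi_contDiff _ _ _
  · exact contDiff_const

theorem at1_X_nonneg (η : ℝ) (i : ℚ × ℚ × ℕ) (b : ℝ) : 0 ≤ at1_X η i b := by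
  unfold at1_X
  split_ifs with h
  · exact at1_chi_nonneg h.1 _ _
  · exact le_rfl

theorem at1_X_le_one (η : ℝ) (i : ℚ × ℚ × ℕ) (b : ℝ) : at1_X η i b ≤ 1 := by
  unfold at1_X
  split_ifs with h
  · exact at1_chi_le_one _ _ _ _
  · exact zero_le_one

theorem at1_X_supp (η : ℝ) (i : ℚ × ℚ × ℕ) (b : ℝ) (hb : at1_X η i b ≠ 0) :
    (i.1 : ℝ) - at1_w i.2.2 ≤ b ∧ b ≤ ((i.1 : ℝ) - at1_w i.2.2) + η := by
  unfold at1_X at hb
  split_ifs at hb with h
  · constructor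
    · by_contra h1
      push Not at h1
      exact hb (at1_chi_zero h.1 _ (Or.inl h1.le))
    · by_contra h1
      push Not at h1
      exact hb (at1_chi_zero h.1 _ (Or.inr (by linarith [h.2])))
  · exact absurd rfl hb

theorem at1_locInt {g : ℝ → ℝ} (hg : Measurable g) {K : ℝ} (hK : ∀ b, |g b| ≤ K) :
    LocallyIntegrable g := by
  have h1 : MemLp g ⊤ volume :=
    memLp_top_of_bound hg.aestronglyMeasurable K (Eventually.of_forall hK)
  exact h1.locallyIntegrable le_top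

theorem at1_int {g : ℝ → ℝ} (hg : Measurable g) {K : ℝ} (hK : ∀ b, |g b| ≤ K) (k : ℕ) (q : ℝ) :
    Integrable (fun b => g b * at1_ph k (b - q)) := by
  have h1 : Integrable (at1_ph k) := (at1_bump k).integrable_normed
  exact (h1.comp_sub_right q).bdd_mul hg.aestronglyMeasurable (Eventually.of_forall hK)

/-- compute the pairing -/
theorem at1_v {f : ℝ × ℝ → ℝ} (hf : Measurable f) {K : ℝ} (hK : ∀ p, |f p| ≤ K)
    {ψ : ℝ × ℝ → ℝ} {θ α β q0 q1 : ℝ} {k : ℕ}
    (hψ : ∀ b ∈ Ioo α β, ∀ᶠ p in 𝓝 (θ, b), ψ p = 1)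
    (hq : q0 ≤ q1) (h0 : α < q0 - at1_w k) (h1 : q1 + at1_w k < β) :
    ∫ b, f (θ, b) * fderiv ℝ (fun p : ℝ × ℝ => ψ p * at1_chi q0 q1 k p.2) (θ, b) (0, 1) =
      at1_av (fun b => f (θ, b)) k q0 - at1_av (fun b => f (θ, b)) k q1 := by
  have hwp := at1_w_pos k
  have key : ∀ b, fderiv ℝ (fun p : ℝ × ℝ => ψ p * at1_chi q0 q1 k p.2) (θ, b) (0, 1) =
      at1_ph k (b - q0) - at1_ph k (b - q1) := by
    intro b
    by_cases hb : b ∈ Ioo α β
    · have e1 : (fun p : ℝ × ℝ => ψ p * at1_chi q0 q1 k p.2) =ᶠ[𝓝 (θ, b)]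
          fun p : ℝ × ℝ => at1_chi q0 q1 k p.2 := by
        filter_upwards [hψ b hb] with p hp
        rw [hp, one_mul]
      rw [e1.fderiv_eq]
      have e3 := (at1_chi_deriv q0 q1 k b).hasFDerivAt
      have e4 : HasFDerivAt (fun p : ℝ × ℝ => p.2) (ContinuousLinearMap.snd ℝ ℝ ℝ) (θ, b) :=
        hasFDerivAt_snd
      have e2 := HasFDerivAt.comp (𝕜 := ℝ) (g := at1_chi q0 q1 k) (f := fun p : ℝ × ℝ => p.2)
        (θ, b) e3 e4
      have e5 : (fun p : ℝ × ℝ => at1_chi q0 q1 k p.2) =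
          at1_chi q0 q1 k ∘ (fun p : ℝ × ℝ => p.2) := rfl
      rw [e5, e2.fderiv]
      simp
    · have hb' : b < q0 - at1_w k ∨ q1 + at1_w k < b := by
        by_contra h
        push Not at h
        exact hb ⟨by linarith [h.1], by linarith [h.2]⟩
      have e1 : (fun p : ℝ × ℝ => ψ p * at1_chi q0 q1 k p.2) =ᶠ[𝓝 (θ, b)]
          fun _ : ℝ × ℝ => (0 : ℝ) := by
        have hopen : IsOpen {p : ℝ × ℝ | p.2 < q0 - at1_w k ∨ q1 + at1_w k < p.2} :=
          (isOpen_lt continuous_snd continuous_const).union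
            (isOpen_lt continuous_const continuous_snd)
        filter_upwards [hopen.mem_nhds (show (θ, b) ∈ _ from hb')] with p hp
        rw [at1_chi_zero hq k (hp.imp le_of_lt le_of_lt), mul_zero]
      rw [e1.fderiv_eq]
      rw [at1_ph_zero, at1_ph_zero]
      · simp
      · rcases hb' with h | h
        · rw [abs_of_neg (by linarith)]; linarith
        · rw [abs_of_pos (by linarith)]; linarith
      · rcases hb' with h | h
        · rw [abs_of_neg (by linarith)]; linarith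
        · rw [abs_of_pos (by linarith)]; linarith
  simp only [key, mul_sub]
  have hfm : Measurable (fun b => f (θ, b)) := hf.comp measurable_prodMk_left
  rw [integral_sub (at1_int hfm (fun b => hK _) k q0) (at1_int hfm (fun b => hK _) k q1)]
  rfl

/-- smooth cut off -/
theorem at1_urysohn {K0 O : Set (ℝ × ℝ)} (hK0 : IsCompact K0) (hO : IsOpen O) (h : K0 ⊆ O) :
    ∃ ψ : ℝ × ℝ → ℝ, ContDiff ℝ 1 ψ ∧ HasCompactSupport ψ ∧ tsupport ψ ⊆ O ∧
      (∀ p ∈ K0, ∀ᶠ x in 𝓝 p, ψ x = 1) ∧ (∀ p, 0 ≤ ψ p) ∧ (∀ p, ψ p ≤ 1) := by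
  obtain ⟨L, hL, hKL, hLO⟩ := exists_compact_between hK0 hO h
  obtain ⟨f, hf0, hf1, hf⟩ := exists_contMDiffMap_zero_one_nhds_of_isClosed
    (n := 1) (modelWithCornersSelf ℝ (ℝ × ℝ))
    (isOpen_interior.isClosed_compl : IsClosed (interior L)ᶜ) hK0.isClosed
    (by rw [Set.disjoint_left]; intro x hx hx'; exact hx (hKL hx'))
  have hts : tsupport (f : ℝ × ℝ → ℝ) ⊆ interior L := by
    intro x hx
    by_contra hx'
    rw [Filter.Eventually, mem_nhdsSet_iff_forall] at hf0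
    have h1 := hf0 x hx'
    exact (notMem_tsupport_iff_eventuallyEq.2 h1) hx
  refine ⟨f, f.contMDiff.contDiff, ?_, hts.trans (interior_subset.trans hLO), ?_,
    fun p => (hf p).1, fun p => (hf p).2⟩
  · exact hL.of_isClosed_subset (isClosed_tsupport _) (hts.trans interior_subset)
  · intro p hp
    exact hf1.filter_mono (nhds_le_nhdsSet hp)

theorem at1_core (r τ K : ℝ) (hr : 0 < r) (hτ : 0 < τ)
    (Z : ℝ × ℝ → ℝ) (hZm : Measurable Z) (hZ : ∀ p, Z p = 0 ∨ Z p = 1)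
    (a : ℝ × ℝ → ℝ) (ham : Measurable a) (ha : ∀ p : ℝ × ℝ, |p.2| < r → τ ≤ a p ∧ a p ≤ K)
    (S : ℝ × ℝ → ℝ) (hS0 : ∀ p, 0 ≤ S p) (hSm : Measurable S) (hS : LocallyIntegrable S)
    (ν : Measure (ℝ × ℝ)) [IsFiniteMeasureOnCompacts ν]
    (h : ∀ φ, TF r φ →
      |∫ p, Z p * a p * fderiv ℝ φ p (0, 1)| ≤ (∫ p, |φ p| * S p) + ∫ p, |φ p| ∂ν)
    (O : Set (ℝ × ℝ)) (hO : IsOpen O) (hOU : O ⊆ {p | |p.2| < r})
    (K0 : Set (ℝ × ℝ)) (hK0 : IsCompact K0) (hKO : K0 ⊆ O) :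
    volume {θ : ℝ | ∃ b, (θ, b) ∈ K0 ∧ Jump Z θ b} ≤ ENNReal.ofReal (2 / τ) * ν O := by
  classical
  have hK : 0 ≤ K := by
    have := ha (0, 0) (by simpa using hr)
    linarith
  obtain ⟨f, hfdef⟩ : ∃ f : ℝ × ℝ → ℝ, f = fun p => if |p.2| < r then Z p * a p else 0 := ⟨_, rfl⟩
  have hfm : Measurable f := by
    rw [hfdef]
    exact Measurable.ite (measurableSet_lt (measurable_snd.abs) measurable_const)
      (hZm.mul ham) measurable_const
  have hfb : ∀ p, |f p| ≤ K := by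
    intro p
    rw [hfdef]
    simp only
    split_ifs with hp
    · obtain ⟨h1, h2⟩ := ha p hp
      rcases hZ p with hz | hz
      · rw [hz]; simpa using hK
      · rw [hz, one_mul, abs_of_nonneg (by linarith)]; exact h2
    · simpa using hK
  have hfh : ∀ φ, TF r φ →
      |∫ p, f p * fderiv ℝ φ p (0, 1)| ≤ (∫ p, |φ p| * S p) + ∫ p, |φ p| ∂ν := by
    intro φ hφ
    have e1 : ∫ p, f p * fderiv ℝ φ p (0, 1) = ∫ p, Z p * a p * fderiv ℝ φ p (0, 1) := by
      congr 1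
      funext p
      rw [hfdef]
      simp only
      split_ifs with hp
      · rfl
      · have h1 : p ∉ tsupport φ := fun h2 => hp (hφ.2.2 h2)
        rw [fderiv_of_notMem_tsupport ℝ h1]
        simp
    rw [e1]
    exact h φ hφ
  obtain ⟨ψ, hψc, hψs, hψO, hψ1, hψ0, hψle⟩ := at1_urysohn hK0 hO hKO
  have hψT : TF r ψ := ⟨hψc, hψs, hψO.trans hOU⟩
  have hψν : ∫⁻ p, ENNReal.ofReal (ψ p) ∂ν ≤ ν O := by
    rw [← lintegral_indicator_one hO.measurableSet]
    refine lintegral_mono fun p => ?_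
    by_cases hp : p ∈ O
    · rw [Set.indicator_of_mem hp]
      simpa using hψle p
    · have h1 : ψ p = 0 := by
        by_contra h2
        exact hp (hψO (subset_tsupport _ h2))
      rw [h1]; simp
  have hone : ENNReal.ofReal (2 / τ) * ENNReal.ofReal (τ / 2) = 1 := by
    rw [← ENNReal.ofReal_mul (by positivity)]
    have : 2 / τ * (τ / 2) = 1 := by field_simp
    rw [this, ENNReal.ofReal_one]
  have hmain : ∀ κ > 0, volume {θ : ℝ | ∃ b, (θ, b) ∈ K0 ∧ Jump Z θ b} ≤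
      ENNReal.ofReal (2 / τ) * (∫⁻ p, ENNReal.ofReal (ψ p) ∂ν + ENNReal.ofReal κ) := by
    intro κ hκ
    obtain ⟨η, hη, hat⟩ := at0 r K hr f hfm hfb S hS0 hSm hS ν hfh ψ hψT hψ0 κ hκ
    obtain ⟨e, he⟩ := exists_surjective_nat (ℚ × ℚ × ℕ)
    obtain ⟨v, hv⟩ : ∃ v : ℚ × ℚ × ℕ → ℝ → ℝ, v = fun i θ => ∫ b, f (θ, b) *
      fderiv ℝ (fun p : ℝ × ℝ => ψ p * at1_X η i p.2) (θ, b) (0, 1) := ⟨_, rfl⟩
    have hvm : ∀ i, Measurable (v i) := by
      intro i
      have hc : ContDiff ℝ 1 (fun p : ℝ × ℝ => ψ p * at1_X η i p.2) :=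
        hψc.mul ((at1_X_contDiff η i).comp contDiff_snd)
      have hc1 : Continuous (fun p : ℝ × ℝ =>
          fderiv ℝ (fun p : ℝ × ℝ => ψ p * at1_X η i p.2) p (0, 1)) :=
        (hc.continuous_fderiv one_ne_zero).clm_apply continuous_const
      have hm : Measurable (fun p : ℝ × ℝ => f p *
          fderiv ℝ (fun p : ℝ × ℝ => ψ p * at1_X η i p.2) p (0, 1)) := hfm.mul hc1.measurable
      rw [hv]
      exact (hm.stronglyMeasurable.integral_prod_right' (ν := volume)).measurable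
    have hfam : ∀ m : ℕ, ∫⁻ θ, ⨆ q : Fin m, ENNReal.ofReal |v (e q) θ| ≤
        ∫⁻ p, ENNReal.ofReal (ψ p) ∂ν + ENNReal.ofReal κ := by
      intro m
      have := hat m (fun q => at1_X η (e q)) (fun q => ((e q).1 : ℝ) - at1_w (e q).2.2)
        (fun q => at1_X_contDiff η _) (fun q b => at1_X_nonneg η _ b)
        (fun q b => at1_X_le_one η _ b) (fun q b hb => at1_X_supp η _ b hb)
      rw [hv]
      exact this
    obtain ⟨A, hA⟩ : ∃ A : ℕ → Set ℝ, A = fun m => {θ | ∃ q : Fin m, τ / 2 ≤ |v (e q) θ|} :=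
      ⟨_, rfl⟩
    have hAm : ∀ m, volume (A m) ≤
        ENNReal.ofReal (2 / τ) * (∫⁻ p, ENNReal.ofReal (ψ p) ∂ν + ENNReal.ofReal κ) := by
      intro m
      have h1 : Measurable (fun θ => ⨆ q : Fin m, ENNReal.ofReal |v (e q) θ|) :=
        Measurable.iSup fun q => (hvm (e q)).abs.ennreal_ofReal
      have h2 := (mul_meas_ge_le_lintegral (μ := volume) h1 (ENNReal.ofReal (τ / 2))).trans (hfam m)
      have h3 : A m ⊆ {θ | ENNReal.ofReal (τ / 2) ≤ ⨆ q : Fin m, ENNReal.ofReal |v (e q) θ|} := by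
        intro θ hθ
        rw [hA] at hθ
        obtain ⟨q, hq⟩ := hθ
        exact le_trans (ENNReal.ofReal_le_ofReal hq)
          (le_iSup (fun q : Fin m => ENNReal.ofReal |v (e q) θ|) q)
      calc volume (A m) = ENNReal.ofReal (2 / τ) * (ENNReal.ofReal (τ / 2) * volume (A m)) := by
            rw [← mul_assoc, hone, one_mul]
        _ ≤ _ := by
            gcongr
            exact (mul_le_mul_right (measure_mono h3) _).trans h2
    have hmonoA : Monotone A := by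
      intro m m' hmm θ hθ
      rw [hA] at hθ ⊢
      obtain ⟨q, hq⟩ := hθ
      exact ⟨⟨q, lt_of_lt_of_le q.2 hmm⟩, hq⟩
    have hsub : {θ : ℝ | ∃ b, (θ, b) ∈ K0 ∧ Jump Z θ b} ⊆ ⋃ m, A m := by
      rintro θ ⟨b0, hb0, hJ⟩
      -- a small interval
      have hev : ∀ᶠ b in 𝓝 b0, (∀ᶠ x in 𝓝 (θ, b), ψ x = 1) ∧ (θ, b) ∈ O := by
        have hcont : Tendsto (fun b : ℝ => (θ, b)) (𝓝 b0) (𝓝 (θ, b0)) :=
          (Continuous.prodMk_right θ).tendsto b0
        have h1 : ∀ᶠ p in 𝓝 (θ, b0), ∀ᶠ x in 𝓝 p, ψ x = 1 :=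
          eventually_eventually_nhds.2 (hψ1 _ hb0)
        have h2 : ∀ᶠ p in 𝓝 (θ, b0), p ∈ O := hO.mem_nhds (hKO hb0)
        exact hcont.eventually (h1.and h2)
      rw [Metric.eventually_nhds_iff_ball] at hev
      obtain ⟨δ0, hδ0, hδ⟩ := hev
      obtain ⟨δ, hδdef⟩ : ∃ δ, δ = min δ0 (η / 2) := ⟨_, rfl⟩
      have hδpos : 0 < δ := by rw [hδdef]; exact lt_min hδ0 (by linarith)
      have hδ1 : δ ≤ δ0 := by rw [hδdef]; exact min_le_left _ _
      have hδ2 : δ ≤ η / 2 := by rw [hδdef]; exact min_le_right _ _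
      have hJin : ∀ b ∈ Ioo (b0 - δ) (b0 + δ), (∀ᶠ x in 𝓝 (θ, b), ψ x = 1) ∧ (θ, b) ∈ O := by
        intro b hb
        refine hδ b ?_
        rw [Metric.mem_ball, Real.dist_eq, abs_lt]
        exact ⟨by linarith [hb.1], by linarith [hb.2]⟩
      have hG : ∀ z : ℝ, (∀ b, Z (θ, b) = z ∨ Z (θ, b) = 1 - z) →
          volume {b | b ∈ Ioo (b0 - δ) (b0 + δ) ∧ Z (θ, b) = 1 - z} ≠ 0 := by
        intro z hz h0
        apply hJ
        refine ⟨δ, hδpos, z, ?_⟩
        rw [ae_restrict_iff' measurableSet_Ioo]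
        have h1 : ∀ᵐ b : ℝ, b ∉ {b | b ∈ Ioo (b0 - δ) (b0 + δ) ∧ Z (θ, b) = 1 - z} :=
          measure_eq_zero_iff_ae_notMem.1 h0
        filter_upwards [h1] with b hb hbJ
        rcases hz b with h2 | h2
        · exact h2
        · exact absurd ⟨hbJ, h2⟩ hb
      have hG1 := hG 0 (fun b => by simpa using hZ (θ, b))
      have hG0 := hG 1 (fun b => by simpa using (hZ (θ, b)).symm)
      have hgm : Measurable (fun b => f (θ, b)) := hfm.comp measurable_prodMk_left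
      obtain ⟨q0, q1, k, hq, hα, hβ, hlow⟩ := at1_point (g := fun b => f (θ, b))
        (at1_locInt hgm (fun b => hfb _)) hτ hG0 hG1 (fun b hb => hb.1) (fun b hb => hb.1)
        (fun b hb => by
          have h1 : |b| < r := hOU (hJin b hb.1).2
          have h2 : Z (θ, b) = 0 := by have := hb.2; simpa using this
          rw [hfdef]
          simp only
          rw [if_pos h1, h2, zero_mul])
        (fun b hb => by
          have h1 : |b| < r := hOU (hJin b hb.1).2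
          have h2 : Z (θ, b) = 1 := by have := hb.2; simpa using this
          rw [hfdef]
          simp only
          rw [if_pos h1, h2, one_mul]
          exact (ha (θ, b) h1).1)
      have hX : at1_X η (q0, q1, k) = at1_chi q0 q1 k := by
        unfold at1_X
        rw [if_pos]
        exact ⟨hq, by simp only; linarith⟩
      have hvv : v (q0, q1, k) θ = at1_av (fun b => f (θ, b)) k q0 -
          at1_av (fun b => f (θ, b)) k q1 := by
        rw [hv]
        simp only [hX]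
        exact at1_v hfm hfb (fun b hb => (hJin b hb).1) hq hα hβ
      obtain ⟨j, hj⟩ := he (q0, q1, k)
      rw [Set.mem_iUnion]
      refine ⟨j + 1, ?_⟩
      rw [hA]
      refine ⟨⟨j, Nat.lt_succ_self j⟩, ?_⟩
      simp only [hj]
      rw [hvv]
      exact hlow
    calc volume {θ : ℝ | ∃ b, (θ, b) ∈ K0 ∧ Jump Z θ b} ≤ volume (⋃ m, A m) := measure_mono hsub
      _ = ⨆ m, volume (A m) := hmonoA.measure_iUnion
      _ ≤ _ := iSup_le hAm
  refine ENNReal.le_of_forall_pos_le_add fun ε hε _ => ?_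
  have hκ : 0 < (ε : ℝ) * (τ / 2) := by positivity
  refine (hmain _ hκ).trans ?_
  rw [mul_add]
  refine add_le_add (by gcongr) ?_
  rw [← ENNReal.ofReal_mul (by positivity)]
  have : 2 / τ * ((ε : ℝ) * (τ / 2)) = ε := by field_simp
  rw [this, ENNReal.ofReal_coe_nnreal]

/-- AT1: essential jumps of `Z(θ,·)` are controlled by `ν` only. -/
theorem at1 (r τ K : ℝ) (hr : 0 < r) (hτ : 0 < τ)
    (Z : ℝ × ℝ → ℝ) (hZm : Measurable Z) (hZ : ∀ p, Z p = 0 ∨ Z p = 1)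
    (a : ℝ × ℝ → ℝ) (ham : Measurable a) (ha : ∀ p : ℝ × ℝ, |p.2| < r → τ ≤ a p ∧ a p ≤ K)
    (S : ℝ × ℝ → ℝ) (hS0 : ∀ p, 0 ≤ S p) (hSm : Measurable S) (hS : LocallyIntegrable S)
    (ν : Measure (ℝ × ℝ)) [IsFiniteMeasureOnCompacts ν]
    (h : ∀ φ, TF r φ →
      |∫ p, Z p * a p * fderiv ℝ φ p (0, 1)| ≤ (∫ p, |φ p| * S p) + ∫ p, |φ p| ∂ν)
    (O : Set (ℝ × ℝ)) (hO : IsOpen O) (hOU : O ⊆ {p | |p.2| < r}) :
    volume {θ : ℝ | ∃ b, (θ, b) ∈ O ∧ Jump Z θ b} ≤ ENNReal.ofReal (2 / τ) * ν O := by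
  have hne : (Oᶜ : Set (ℝ × ℝ)).Nonempty := by
    refine ⟨(0, r), fun h1 => ?_⟩
    have h2 := hOU h1
    rw [Set.mem_setOf_eq] at h2
    simp only at h2
    rw [abs_of_pos hr] at h2
    exact lt_irrefl _ h2
  obtain ⟨Kn, hKn⟩ : ∃ Kn : ℕ → Set (ℝ × ℝ), Kn = fun n : ℕ =>
      {p | 1 / ((n : ℝ) + 1) ≤ Metric.infDist p Oᶜ} ∩ Metric.closedBall 0 (n : ℝ) := ⟨_, rfl⟩
  have hKc : ∀ n, IsCompact (Kn n) := by
    intro n
    rw [hKn]
    refine (isCompact_closedBall (0 : ℝ × ℝ) (n : ℝ)).inter_left ?_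
    exact isClosed_le continuous_const (Metric.continuous_infDist_pt _)
  have hKO : ∀ n, Kn n ⊆ O := by
    intro n p hp
    rw [hKn] at hp
    by_contra h1
    have h2 : Metric.infDist p Oᶜ = 0 := Metric.infDist_zero_of_mem h1
    have h3 := hp.1
    rw [Set.mem_setOf_eq, h2] at h3
    have h4 : (0 : ℝ) < 1 / ((n : ℝ) + 1) := by positivity
    linarith
  have hKm : Monotone Kn := by
    intro m n hmn p hp
    rw [hKn] at hp ⊢
    have hmn' : (m : ℝ) ≤ n := by exact_mod_cast hmn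
    refine ⟨?_, Metric.closedBall_subset_closedBall hmn' hp.2⟩
    have h1 : 1 / ((m : ℝ) + 1) ≤ Metric.infDist p Oᶜ := hp.1
    have h2 : 1 / ((n : ℝ) + 1) ≤ 1 / ((m : ℝ) + 1) :=
      one_div_le_one_div_of_le (by positivity) (by linarith)
    exact h2.trans h1
  have hKU : ∀ p ∈ O, ∃ n, p ∈ Kn n := by
    intro p hp
    have h1 : 0 < Metric.infDist p Oᶜ :=
      (hO.isClosed_compl.notMem_iff_infDist_pos hne).1 (fun h => h hp)
    obtain ⟨n1, hn1⟩ := exists_nat_one_div_lt h1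
    obtain ⟨n2, hn2⟩ := exists_nat_ge ‖p‖
    refine ⟨max n1 n2, ?_⟩
    rw [hKn]
    constructor
    · refine le_trans ?_ hn1.le
      refine one_div_le_one_div_of_le (by positivity) ?_
      have : (n1 : ℝ) ≤ ((max n1 n2 : ℕ) : ℝ) := by exact_mod_cast le_max_left _ _
      linarith
    · rw [mem_closedBall_zero_iff]
      refine hn2.trans ?_
      exact_mod_cast le_max_right _ _
  have hunion : {θ : ℝ | ∃ b, (θ, b) ∈ O ∧ Jump Z θ b} =
      ⋃ n, {θ : ℝ | ∃ b, (θ, b) ∈ Kn n ∧ Jump Z θ b} := by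
    ext θ
    simp only [Set.mem_setOf_eq, Set.mem_iUnion]
    constructor
    · rintro ⟨b, hb, hJ⟩
      obtain ⟨n, hn⟩ := hKU _ hb
      exact ⟨n, b, hn, hJ⟩
    · rintro ⟨n, b, hb, hJ⟩
      exact ⟨b, hKO n hb, hJ⟩
  have hmono : Monotone (fun n => {θ : ℝ | ∃ b, (θ, b) ∈ Kn n ∧ Jump Z θ b}) := by
    rintro m n hmn θ ⟨b, hb, hJ⟩
    exact ⟨b, hKm hmn hb, hJ⟩
  rw [hunion, hmono.measure_iUnion]
  exact iSup_le fun n => at1_core r τ K hr hτ Z hZm hZ a ham ha S hS0 hSm hS ν h O hO hOU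
    (Kn n) (hKc n) (hKO n)

end Pool.Light
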