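import Pool.Agent.H721Light.Defs

set_option autoImplicit false

open MeasureTheory Set Filter Topology

namespace Pool.Light


theorem at2_core_profile : ∃ P p : ℝ → ℝ, Continuous p ∧ (∀ u, HasDerivAt P (p u) u) ∧
    (∀ u, 0 ≤ p u) ∧ (∀ u, u ≤ -1 → P u = 0) ∧ (∀ u, u ≤ -1 → p u = 0) ∧
    (∀ u, 0 ≤ u → P u = 1) ∧ (∀ u, 0 ≤ u → p u = 0) ∧ (∀ u, 0 ≤ P u) ∧ (∀ u, P u ≤ 1) := by
  have hc : ContDiff ℝ 1 (fun u : ℝ => Real.smoothTransition (1 + u)) :=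
    Real.smoothTransition.contDiff.comp (contDiff_const.add contDiff_id)
  have hmono : Monotone (fun u : ℝ => Real.smoothTransition (1 + u)) := fun x y hxy =>
    Real.smoothTransition.monotone (by linarith)
  have h0 : ∀ u : ℝ, 0 ≤ Real.smoothTransition (1 + u) := fun u =>
    Real.smoothTransition.nonneg _
  have h1 : ∀ u : ℝ, Real.smoothTransition (1 + u) ≤ 1 := fun u =>
    Real.smoothTransition.le_one _
  have hz : ∀ u : ℝ, u ≤ -1 → Real.smoothTransition (1 + u) = 0 := fun u hu =>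
    Real.smoothTransition.zero_of_nonpos (by linarith)
  have ho : ∀ u : ℝ, 0 ≤ u → Real.smoothTransition (1 + u) = 1 := fun u hu =>
    Real.smoothTransition.one_of_one_le (by linarith)
  refine ⟨fun u => Real.smoothTransition (1 + u),
    deriv (fun u : ℝ => Real.smoothTransition (1 + u)),
    hc.continuous_deriv le_rfl, fun u => (hc.differentiable one_ne_zero u).hasDerivAt, ?_, hz,
    ?_, ho, ?_, h0, h1⟩
  · intro u
    exact hmono.deriv_nonneg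
  · intro u hu
    apply IsLocalMin.deriv_eq_zero
    exact Filter.Eventually.of_forall fun x => by
      simp only [hz u hu]; exact h0 x
  · intro u hu
    apply IsLocalMax.deriv_eq_zero
    exact Filter.Eventually.of_forall fun x => by
      simp only [ho u hu]; exact h1 x

theorem at2_core_eta (θ₁ θ₂ : ℝ) (Θ : Set ℝ) (hΘm : MeasurableSet Θ) (hΘ : Θ ⊆ Ioo θ₁ θ₂)
    (κ : ℝ) (hκ : 0 < κ) :
    ∃ η : ℝ → ℝ, ContDiff ℝ 1 η ∧ tsupport η ⊆ Ioo θ₁ θ₂ ∧ (∀ x, 0 ≤ η x) ∧ (∀ x, η x ≤ 1) ∧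
      ∫ x in Icc θ₁ θ₂, |η x - Θ.indicator (fun _ => (1 : ℝ)) x| ≤ κ := by
  have hfin : volume Θ ≠ ⊤ :=
    ne_top_of_le_ne_top (by simp) (measure_mono hΘ)
  obtain ⟨V, hVΘ, hVo, hV⟩ := Set.exists_isOpen_lt_add (μ := volume) Θ hfin
    (ε := ENNReal.ofReal (κ / 2)) (by simpa using hκ)
  obtain ⟨L, hLΘ, hLc, hL⟩ := MeasurableSet.exists_isCompact_lt_add (μ := volume) hΘm hfin
    (ε := ENNReal.ofReal (κ / 2)) (by simpa using hκ)
  set U := V ∩ Ioo θ₁ θ₂ with hU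
  have hUo : IsOpen U := hVo.inter isOpen_Ioo
  have hLU : L ⊆ U := fun x hx => ⟨hVΘ (hLΘ hx), hΘ (hLΘ hx)⟩
  obtain ⟨t, htc, hLt, htU⟩ := exists_compact_between hLc hUo hLU
  obtain ⟨f, hf1, hf0, hf01⟩ := exists_contMDiffMap_one_nhds_of_subset_interior
    (n := 1) (modelWithCornersSelf ℝ ℝ) hLc.isClosed hLt
  have hfL : ∀ x ∈ L, f x = 1 := fun x hx => hf1.self_of_nhdsSet x hx
  refine ⟨f, ?_, ?_, fun x => (hf01 x).1, fun x => (hf01 x).2, ?_⟩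
  · exact f.contMDiff.contDiff
  · have : tsupport (f : ℝ → ℝ) ⊆ t := by
      apply closure_minimal _ htc.isClosed
      intro x hx
      by_contra hxt
      exact hx (hf0 x hxt)
    exact fun x hx => (htU (this hx)).2
  · have hbound : ∀ x, |f x - Θ.indicator (fun _ => (1 : ℝ)) x|
        ≤ (U \ L).indicator (fun _ => (1 : ℝ)) x := by
      intro x
      by_cases hxU : x ∈ U
      · by_cases hxL : x ∈ L
        · have : x ∈ Θ := hLΘ hxL
          simp [hfL x hxL, this, hxL]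
        · have h3 : x ∈ U \ L := ⟨hxU, hxL⟩
          rw [indicator_of_mem h3]
          by_cases hxΘ : x ∈ Θ
          · rw [indicator_of_mem hxΘ, abs_le]
            have := hf01 x
            constructor <;> linarith [this.1, this.2]
          · rw [indicator_of_notMem hxΘ, abs_le]
            have := hf01 x
            constructor <;> linarith [this.1, this.2]
      · have hxΘ : x ∉ Θ := fun h => hxU ⟨hVΘ h, hΘ h⟩
        have hxt : x ∉ t := fun h => hxU (htU h)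
        rw [indicator_of_notMem hxΘ, hf0 x hxt]
        simp only [sub_zero, abs_zero]
        apply indicator_nonneg
        intro _ _; exact zero_le_one
    have hUL : MeasurableSet (U \ L) := hUo.measurableSet.diff hLc.measurableSet
    have hULfin : volume (U \ L) ≠ ⊤ := ne_top_of_le_ne_top (b := volume (Ioo θ₁ θ₂)) (by simp)
      (measure_mono fun x hx => hx.1.2)
    have hmeas : volume (U \ L) ≤ ENNReal.ofReal κ := by
      have h1 : volume L ≠ ⊤ := ne_top_of_le_ne_top hfin (measure_mono hLΘ)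
      rw [measure_sdiff hLU hLc.measurableSet.nullMeasurableSet h1]
      rw [tsub_le_iff_left]
      calc volume U ≤ volume V := measure_mono inter_subset_left
        _ ≤ volume Θ + ENNReal.ofReal (κ / 2) := hV.le
        _ ≤ (volume L + ENNReal.ofReal (κ / 2)) + ENNReal.ofReal (κ / 2) := by gcongr
        _ = volume L + ENNReal.ofReal κ := by
          rw [add_assoc, ← ENNReal.ofReal_add (by linarith) (by linarith)]
          congr 2; ring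
    have hint : IntegrableOn ((U \ L).indicator (fun _ => (1 : ℝ))) (Icc θ₁ θ₂) volume := by
      rw [IntegrableOn, integrable_indicator_iff hUL]
      have e1 : (volume.restrict (Icc θ₁ θ₂)) (U \ L) ≠ ⊤ :=
        ne_top_of_le_ne_top hULfin (Measure.restrict_apply_le _ _)
      have e2 : ‖(1 : ℝ)‖ₑ ≠ ⊤ := enorm_ne_top
      exact integrableOn_const e1 e2
    calc ∫ x in Icc θ₁ θ₂, |f x - Θ.indicator (fun _ => (1 : ℝ)) x|
        ≤ ∫ x in Icc θ₁ θ₂, (U \ L).indicator (fun _ => (1 : ℝ)) x := by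
          apply integral_mono_of_nonneg _ hint (Filter.Eventually.of_forall hbound)
          exact Filter.Eventually.of_forall fun x => abs_nonneg _
      _ ≤ ∫ x, (U \ L).indicator (fun _ => (1 : ℝ)) x := by
          apply setIntegral_le_integral
          · rw [integrable_indicator_iff hUL]
            exact integrableOn_const hULfin (enorm_ne_top (x := (1 : ℝ)))
          · exact Filter.Eventually.of_forall fun x => indicator_nonneg (fun _ _ => zero_le_one) x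
      _ = (volume (U \ L)).toReal := by
          rw [integral_indicator hUL]; simp [Measure.real]
      _ ≤ κ := ENNReal.toReal_le_of_le_ofReal hκ.le hmeas

/-- the substitution `u = f(b)/δ` -/
theorem at2_core_ftc (P p : ℝ → ℝ) (hpc : Continuous p) (hPp : ∀ u, HasDerivAt P (p u) u)
    (hP0 : ∀ u, u ≤ -1 → P u = 0) (hP1 : ∀ u, 0 ≤ u → P u = 1)
    (b₁ b₂ δ : ℝ) (hb : b₁ < b₂) (hδ : 0 < δ) (f f' : ℝ → ℝ)
    (hf : ∀ b ∈ Icc b₁ b₂, HasDerivAt f (f' b) b) (hf' : ContinuousOn f' (Icc b₁ b₂))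
    (h1 : f b₁ ≤ -δ) (h2 : δ ≤ f b₂) :
    (∫ b in Icc b₁ b₂, p (f b / δ) / δ * f' b = 1) ∧
    (∫ b in Icc b₁ b₂, p (-(f b / δ)) / δ * f' b = 1) := by
  have hfc : ContinuousOn f (Icc b₁ b₂) := fun b hb => (hf b hb).continuousAt.continuousWithinAt
  have h1' : f b₁ / δ ≤ -1 := by rw [div_le_iff₀ hδ]; linarith
  have h2' : 1 ≤ f b₂ / δ := by rw [le_div_iff₀ hδ]; linarith
  constructor
  · rw [integral_Icc_eq_integral_Ioc, ← intervalIntegral.integral_of_le hb.le]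
    rw [intervalIntegral.integral_eq_sub_of_hasDerivAt (f := fun b => P (f b / δ))]
    · rw [hP0 _ h1', hP1 _ (by linarith)]; norm_num
    · intro b hbb
      rw [uIcc_of_le hb.le] at hbb
      have := (hPp (f b / δ)).comp b ((hf b hbb).div_const δ)
      have h5 : HasDerivAt (fun b => P (f b / δ)) (p (f b / δ) * (f' b / δ)) b := this
      exact h5.congr_deriv (by ring)
    · apply ContinuousOn.intervalIntegrable
      rw [uIcc_of_le hb.le]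
      exact ((hpc.comp_continuousOn (hfc.div_const δ)).div_const δ).mul hf'
  · rw [integral_Icc_eq_integral_Ioc, ← intervalIntegral.integral_of_le hb.le]
    rw [intervalIntegral.integral_eq_sub_of_hasDerivAt (f := fun b => -P (-(f b / δ)))]
    · rw [hP1 (-(f b₁ / δ)) (by linarith), hP0 (-(f b₂ / δ)) (by linarith)]; norm_num
    · intro b hbb
      rw [uIcc_of_le hb.le] at hbb
      have := ((hPp (-(f b / δ))).comp b ((hf b hbb).div_const δ).neg).neg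
      have h5 : HasDerivAt (fun b => -P (-(f b / δ))) (-(p (-(f b / δ)) * -(f' b / δ))) b := this
      exact h5.congr_deriv (by ring)
    · apply ContinuousOn.intervalIntegrable
      rw [uIcc_of_le hb.le]
      exact ((hpc.comp_continuousOn (hfc.div_const δ).neg).div_const δ).mul hf'

open Classical in
/-- the test function -/
noncomputable def at2_core_phi (θ₁ θ₂ b₁ b₂ δ : ℝ) (η χ : ℝ → ℝ) (F : ℝ × ℝ → ℝ)
    (q : ℝ × ℝ) : ℝ :=
  if q ∈ Icc θ₁ θ₂ ×ˢ Icc b₁ b₂ then η q.1 * χ (F q / δ) else 0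

theorem at2_core_phi_zero (W : Set (ℝ × ℝ)) (hW : IsOpen W)
    (F : ℝ × ℝ → ℝ) (hF : ContDiffOn ℝ 1 F W)
    (θ₁ θ₂ b₁ b₂ δ₀ δ : ℝ) (hδ : 0 < δ) (hδδ : δ < δ₀)
    (hB : Icc θ₁ θ₂ ×ˢ Icc b₁ b₂ ⊆ W)
    (hm : ∀ θ ∈ Icc θ₁ θ₂, F (θ, b₁) ≤ -δ₀ ∧ δ₀ ≤ F (θ, b₂))
    (η χ : ℝ → ℝ) (hηs : tsupport η ⊆ Ioo θ₁ θ₂)
    (hχ : ∀ u, 1 ≤ |u| → χ u = 0) (q : ℝ × ℝ) (hq : q ∉ Ioo θ₁ θ₂ ×ˢ Ioo b₁ b₂) :
    at2_core_phi θ₁ θ₂ b₁ b₂ δ η χ F =ᶠ[𝓝 q] fun _ => 0 := by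
  by_cases hqB : q ∈ Icc θ₁ θ₂ ×ˢ Icc b₁ b₂
  · have hqW := hB hqB
    have hFc : ContinuousAt F q := (hF.contDiffAt (hW.mem_nhds hqW)).continuousAt
    by_cases hq1 : q.1 ∈ Ioo θ₁ θ₂
    · -- q.2 = b₁ or b₂
      have hq2 : q.2 = b₁ ∨ q.2 = b₂ := by
        by_contra hne
        push Not at hne
        apply hq
        refine ⟨hq1, lt_of_le_of_ne hqB.2.1 (Ne.symm hne.1), lt_of_le_of_ne hqB.2.2 hne.2⟩
      have habs : δ < |F q| := by
        rcases hq2 with h | h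
        · have := (hm q.1 hqB.1).1
          rw [← h] at this
          have h3 : F q ≤ -δ₀ := this
          rw [lt_abs]; right; linarith
        · have := (hm q.1 hqB.1).2
          rw [← h] at this
          have h3 : δ₀ ≤ F q := this
          rw [lt_abs]; left; linarith
      have : ∀ᶠ x in 𝓝 q, δ < |F x| := hFc.abs.eventually (lt_mem_nhds habs)
      filter_upwards [this] with x hx
      unfold at2_core_phi
      split_ifs
      · rw [hχ (F x / δ), mul_zero]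
        rw [abs_div, abs_of_pos hδ, le_div_iff₀ hδ]; linarith
      · rfl
    · have hq1' : q.1 ∉ tsupport η := fun h => hq1 (hηs h)
      have h0 : ∀ᶠ x in 𝓝 q.1, η x = 0 := by
        have := notMem_tsupport_iff_eventuallyEq.1 hq1'
        filter_upwards [this] with x hx using hx
      have := (continuousAt_fst (p := q)).eventually h0
      filter_upwards [this] with x hx
      unfold at2_core_phi
      split_ifs
      · rw [hx, zero_mul]
      · rfl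
  · have hcl : IsClosed (Icc θ₁ θ₂ ×ˢ Icc b₁ b₂) := isClosed_Icc.prod isClosed_Icc
    filter_upwards [hcl.isOpen_compl.mem_nhds hqB] with x hx
    unfold at2_core_phi
    rw [if_neg hx]

theorem at2_core_phi_in (F : ℝ × ℝ → ℝ)
    (θ₁ θ₂ b₁ b₂ δ : ℝ) (η χ : ℝ → ℝ) (q : ℝ × ℝ) (hq : q ∈ Ioo θ₁ θ₂ ×ˢ Ioo b₁ b₂) :
    at2_core_phi θ₁ θ₂ b₁ b₂ δ η χ F =ᶠ[𝓝 q] fun q => η q.1 * χ (F q / δ) := by
  have ho : IsOpen (Ioo θ₁ θ₂ ×ˢ Ioo b₁ b₂) := isOpen_Ioo.prod isOpen_Ioo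
  filter_upwards [ho.mem_nhds hq] with x hx
  unfold at2_core_phi
  rw [if_pos]
  exact ⟨Ioo_subset_Icc_self hx.1, Ioo_subset_Icc_self hx.2⟩

theorem at2_core_phi_TF (r : ℝ) (W : Set (ℝ × ℝ)) (hW : IsOpen W) (hWU : W ⊆ {p | |p.2| < r})
    (F : ℝ × ℝ → ℝ) (hF : ContDiffOn ℝ 1 F W)
    (θ₁ θ₂ b₁ b₂ δ₀ δ : ℝ) (hδ : 0 < δ) (hδδ : δ < δ₀)
    (hB : Icc θ₁ θ₂ ×ˢ Icc b₁ b₂ ⊆ W)
    (hm : ∀ θ ∈ Icc θ₁ θ₂, F (θ, b₁) ≤ -δ₀ ∧ δ₀ ≤ F (θ, b₂))
    (η χ : ℝ → ℝ) (hη : ContDiff ℝ 1 η) (hηs : tsupport η ⊆ Ioo θ₁ θ₂)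
    (hχc : ContDiff ℝ 1 χ)
    (hχ : ∀ u, 1 ≤ |u| → χ u = 0) :
    TF r (at2_core_phi θ₁ θ₂ b₁ b₂ δ η χ F) := by
  have hcl : IsClosed (Icc θ₁ θ₂ ×ˢ Icc b₁ b₂) := isClosed_Icc.prod isClosed_Icc
  have hco : IsCompact (Icc θ₁ θ₂ ×ˢ Icc b₁ b₂) := isCompact_Icc.prod isCompact_Icc
  have hsup : tsupport (at2_core_phi θ₁ θ₂ b₁ b₂ δ η χ F) ⊆ Icc θ₁ θ₂ ×ˢ Icc b₁ b₂ := by
    apply closure_minimal _ hcl
    intro x hx
    by_contra hxt
    apply hx
    unfold at2_core_phi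
    rw [if_neg hxt]
  refine ⟨?_, ?_, fun q hq => hWU (hB (hsup hq))⟩
  · rw [contDiff_iff_contDiffAt]
    intro q
    by_cases hq : q ∈ Ioo θ₁ θ₂ ×ˢ Ioo b₁ b₂
    · apply ContDiffAt.congr_of_eventuallyEq _ (at2_core_phi_in F θ₁ θ₂ b₁ b₂ δ η χ q hq)
      have hqW : q ∈ W := hB ⟨Ioo_subset_Icc_self hq.1, Ioo_subset_Icc_self hq.2⟩
      have hFa := hF.contDiffAt (hW.mem_nhds hqW)
      exact (hη.contDiffAt.comp q contDiffAt_fst).mul
        (hχc.contDiffAt.comp q (hFa.div_const δ))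
    · exact contDiffAt_const.congr_of_eventuallyEq
        (at2_core_phi_zero W hW F hF θ₁ θ₂ b₁ b₂ δ₀ δ hδ hδδ hB hm η χ hηs hχ q hq)
  · exact HasCompactSupport.of_support_subset_isCompact hco (subset_tsupport _ |>.trans hsup)

theorem at2_core_phi_fderiv_in (W : Set (ℝ × ℝ)) (hW : IsOpen W)
    (F : ℝ × ℝ → ℝ) (hF : ContDiffOn ℝ 1 F W)
    (θ₁ θ₂ b₁ b₂ δ₀ δ : ℝ) (hδ : 0 < δ) (hδδ : δ < δ₀)
    (hB : Icc θ₁ θ₂ ×ˢ Icc b₁ b₂ ⊆ W)
    (hm : ∀ θ ∈ Icc θ₁ θ₂, F (θ, b₁) ≤ -δ₀ ∧ δ₀ ≤ F (θ, b₂))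
    (η χ χ' : ℝ → ℝ) (hη : ContDiff ℝ 1 η) (hηs : tsupport η ⊆ Ioo θ₁ θ₂)
    (hχd : ∀ u, HasDerivAt χ (χ' u) u)
    (hχ : ∀ u, 1 ≤ |u| → χ u = 0) (hχ' : ∀ u, 1 ≤ |u| → χ' u = 0) (q : ℝ × ℝ)
    (hq : q ∈ Icc θ₁ θ₂ ×ˢ Icc b₁ b₂) (v : ℝ × ℝ) :
    fderiv ℝ (at2_core_phi θ₁ θ₂ b₁ b₂ δ η χ F) q v =
      deriv η q.1 * v.1 * χ (F q / δ) + η q.1 * (χ' (F q / δ) / δ * fderiv ℝ F q v) := by
  by_cases hqo : q ∈ Ioo θ₁ θ₂ ×ˢ Ioo b₁ b₂
  · rw [(at2_core_phi_in F θ₁ θ₂ b₁ b₂ δ η χ q hqo).fderiv_eq]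
    have hFa : DifferentiableAt ℝ F q :=
      (hF.contDiffAt (hW.mem_nhds (hB hq))).differentiableAt one_ne_zero
    have h1 : HasFDerivAt (fun q : ℝ × ℝ => η q.1)
        ((deriv η q.1) • (ContinuousLinearMap.fst ℝ ℝ ℝ)) q := by
      have := ((hη.differentiable one_ne_zero) q.1).hasDerivAt
      exact this.comp_hasFDerivAt q hasFDerivAt_fst
    have h2 : HasFDerivAt (fun q : ℝ × ℝ => χ (F q / δ))
        ((χ' (F q / δ)) • (δ⁻¹ • fderiv ℝ F q)) q := by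
      have h3 : HasFDerivAt (fun q => F q / δ) (δ⁻¹ • fderiv ℝ F q) q := by
        simpa [div_eq_mul_inv] using hFa.hasFDerivAt.mul_const (δ⁻¹)
      exact (hχd (F q / δ)).comp_hasFDerivAt q h3
    have h12 : HasFDerivAt (fun q : ℝ × ℝ => η q.1 * χ (F q / δ)) _ q := h1.mul h2
    rw [h12.fderiv]
    simp only [add_apply, smul_apply, smul_eq_mul,
      ContinuousLinearMap.coe_fst']
    ring
  · rw [(at2_core_phi_zero W hW F hF θ₁ θ₂ b₁ b₂ δ₀ δ hδ hδδ hB hm η χ hηs hχ q hqo).fderiv_eq]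
    rw [fderiv_const_apply]
    by_cases hq1 : q.1 ∈ tsupport η
    · have hq1' := hηs hq1
      have hq2 : q.2 = b₁ ∨ q.2 = b₂ := by
        by_contra hne
        push Not at hne
        apply hqo
        refine ⟨hq1', lt_of_le_of_ne hq.2.1 (Ne.symm hne.1), lt_of_le_of_ne hq.2.2 hne.2⟩
      have habs : 1 ≤ |F q / δ| := by
        rw [abs_div, abs_of_pos hδ, le_div_iff₀ hδ]
        rcases hq2 with h | h
        · have := (hm q.1 hq.1).1
          rw [← h] at this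
          have h3 : F q ≤ -δ₀ := this
          rw [le_abs]; right; linarith
        · have := (hm q.1 hq.1).2
          rw [← h] at this
          have h3 : δ₀ ≤ F q := this
          rw [le_abs]; left; linarith
      rw [hχ _ habs, hχ' _ habs]
      simp
    · have h0 : η =ᶠ[𝓝 q.1] fun _ => 0 := notMem_tsupport_iff_eventuallyEq.1 hq1
      rw [h0.deriv_eq, h0.self_of_nhds]
      simp

theorem at2_core_phi_fderiv_out 
    (F : ℝ × ℝ → ℝ) (θ₁ θ₂ b₁ b₂ δ : ℝ) 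
    (η χ : ℝ → ℝ) (q : ℝ × ℝ)
    (hq : q ∉ Icc θ₁ θ₂ ×ˢ Icc b₁ b₂) (v : ℝ × ℝ) :
    fderiv ℝ (at2_core_phi θ₁ θ₂ b₁ b₂ δ η χ F) q v = 0 := by
  have hcl : IsClosed (Icc θ₁ θ₂ ×ˢ Icc b₁ b₂) := isClosed_Icc.prod isClosed_Icc
  have : at2_core_phi θ₁ θ₂ b₁ b₂ δ η χ F =ᶠ[𝓝 q] fun _ => 0 := by
    filter_upwards [hcl.isOpen_compl.mem_nhds hq] with x hx
    unfold at2_core_phi
    rw [if_neg hx]
  rw [this.fderiv_eq]
  simp

theorem at2_core_null (W : Set (ℝ × ℝ)) (hW : IsOpen W)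
    (F : ℝ × ℝ → ℝ) (hF : ContDiffOn ℝ 1 F W) (hFb : ∀ q ∈ W, 0 < fderiv ℝ F q (0, 1))
    (θ₁ θ₂ b₁ b₂ : ℝ) (hB : Icc θ₁ θ₂ ×ˢ Icc b₁ b₂ ⊆ W) :
    volume ((Icc θ₁ θ₂ ×ˢ Icc b₁ b₂) ∩ {q | F q = 0}) = 0 := by
  have hcl : IsClosed (Icc θ₁ θ₂ ×ˢ Icc b₁ b₂) := isClosed_Icc.prod isClosed_Icc
  have hFc : ContinuousOn F (Icc θ₁ θ₂ ×ˢ Icc b₁ b₂) := hF.continuousOn.mono hB
  have hms : MeasurableSet ((Icc θ₁ θ₂ ×ˢ Icc b₁ b₂) ∩ {q | F q = 0}) := by
    have : IsClosed ((Icc θ₁ θ₂ ×ˢ Icc b₁ b₂) ∩ F ⁻¹' {0}) :=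
      hFc.preimage_isClosed_of_isClosed hcl isClosed_singleton
    exact this.measurableSet
  rw [Measure.volume_eq_prod, Measure.measure_prod_null hms]
  refine Filter.Eventually.of_forall fun θ => ?_
  apply Set.Subsingleton.measure_zero
  intro b hb b' hb'
  have hb1 : θ ∈ Icc θ₁ θ₂ := hb.1.1
  have hmono : StrictMonoOn (fun b => F (θ, b)) (Icc b₁ b₂) := by
    have hd : ∀ b ∈ Icc b₁ b₂, HasDerivAt (fun b => F (θ, b)) (fderiv ℝ F (θ, b) (0, 1)) b := by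
      intro b hb
      have hFa : DifferentiableAt ℝ F (θ, b) :=
        (hF.contDiffAt (hW.mem_nhds (hB ⟨hb1, hb⟩))).differentiableAt one_ne_zero
      exact hFa.hasFDerivAt.comp_hasDerivAt b ((hasDerivAt_const b θ).prodMk (hasDerivAt_id b))
    apply strictMonoOn_of_deriv_pos (convex_Icc _ _)
    · exact fun b hb => (hd b hb).continuousAt.continuousWithinAt
    · intro b hb
      have hb2 := interior_subset hb
      rw [(hd b hb2).deriv]
      exact hFb _ (hB ⟨hb1, hb2⟩)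
  apply hmono.injOn hb.1.2 hb'.1.2
  have h1 : F (θ, b) = 0 := hb.2
  have h2 : F (θ, b') = 0 := hb'.2
  simp only [h1, h2]

theorem at2_core_tendsto (μ : Measure (ℝ × ℝ)) (B : Set (ℝ × ℝ)) (hBm : MeasurableSet B)
    (F : ℝ × ℝ → ℝ) (hF : ContinuousOn F B) (χ : ℝ → ℝ) (hχc : Continuous χ)
    (hχ : ∀ u, 1 ≤ |u| → χ u = 0) (hχ1 : ∀ u, |χ u| ≤ 1)
    (hμ : μ (B ∩ {q | F q = 0}) = 0) (g : ℝ × ℝ → ℝ) (hg : IntegrableOn g B μ)
    (δ₀ : ℝ) (hδ : 0 < δ₀) :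
    Tendsto (fun n : ℕ => ∫ q in B, |χ (F q / (δ₀ / (n + 2)))| * g q ∂μ) atTop (𝓝 0) := by
  have h0 : (0 : ℝ) = ∫ q in B, (0 : ℝ) ∂μ := by simp
  rw [h0]
  apply tendsto_integral_of_dominated_convergence (fun q => ‖g q‖)
  · intro n
    apply AEStronglyMeasurable.mul _ hg.aestronglyMeasurable
    apply ContinuousOn.aestronglyMeasurable _ hBm
    exact (hχc.comp_continuousOn (hF.div_const _)).abs
  · exact hg.norm
  · intro n
    refine Filter.Eventually.of_forall fun q => ?_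
    rw [norm_mul]
    calc ‖|χ (F q / (δ₀ / (n + 2)))|‖ * ‖g q‖ ≤ 1 * ‖g q‖ := by
          gcongr
          rw [Real.norm_eq_abs, abs_abs]
          exact hχ1 _
      _ = ‖g q‖ := one_mul _
  · have h1 : ∀ᵐ q ∂(μ.restrict B), F q ≠ 0 := by
      rw [ae_iff, Measure.restrict_apply₀']
      · convert hμ using 2
        ext q
        simp [and_comm]
      · exact hBm.nullMeasurableSet
    filter_upwards [h1] with q hq
    apply tendsto_const_nhds.congr'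
    obtain ⟨N, hN⟩ := exists_nat_gt (δ₀ / |F q|)
    filter_upwards [eventually_ge_atTop N] with n hn
    rw [hχ, abs_zero, zero_mul]
    have hFq : 0 < |F q| := abs_pos.2 hq
    have hn2 : (0 : ℝ) < (n : ℝ) + 2 := by positivity
    rw [abs_div, abs_of_pos (div_pos hδ hn2), le_div_iff₀ (div_pos hδ hn2), one_mul,
      div_le_iff₀ hn2]
    have h3 : (N : ℝ) ≤ n := by exact_mod_cast hn
    rw [div_lt_iff₀ hFq] at hN
    nlinarith

/-- the flux density -/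
noncomputable def at2_core_j (δ : ℝ) (Z a F : ℝ × ℝ → ℝ) (p : ℝ → ℝ) (q : ℝ × ℝ) : ℝ :=
  Z q * ((p (F q / δ) - p (-(F q / δ))) / δ * fderiv ℝ F q (1, -a q))

theorem at2_core_G (F a : ℝ × ℝ → ℝ) (q : ℝ × ℝ) :
    fderiv ℝ F q (1, -a q) = fderiv ℝ F q (1, 0) - a q * fderiv ℝ F q (0, 1) := by
  have : ((1 : ℝ), -a q) = (1, 0) - a q • ((0 : ℝ), (1 : ℝ)) := by
    ext <;> simp
  rw [this, map_sub, map_smul, smul_eq_mul]

theorem at2_core_A0 (r K : ℝ)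
    (a : ℝ × ℝ → ℝ) (ha : ∀ p : ℝ × ℝ, |p.2| < r → |a p| ≤ K)
    (W : Set (ℝ × ℝ)) (hW : IsOpen W) (hWU : W ⊆ {p | |p.2| < r})
    (F : ℝ × ℝ → ℝ) (hF : ContDiffOn ℝ 1 F W) (hFb : ∀ q ∈ W, 0 < fderiv ℝ F q (0, 1))
    (θ₁ θ₂ b₁ b₂ : ℝ) (hθ : θ₁ < θ₂) (hb : b₁ < b₂) 
    (hB : Icc θ₁ θ₂ ×ˢ Icc b₁ b₂ ⊆ W) :
    ∃ A0 : ℝ, 0 ≤ A0 ∧ ∀ q ∈ Icc θ₁ θ₂ ×ˢ Icc b₁ b₂,
      |fderiv ℝ F q (1, -a q)| ≤ A0 * fderiv ℝ F q (0, 1) := by
  have hco : IsCompact (Icc θ₁ θ₂ ×ˢ Icc b₁ b₂) := isCompact_Icc.prod isCompact_Icc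
  have hne : (Icc θ₁ θ₂ ×ˢ Icc b₁ b₂).Nonempty :=
    ⟨(θ₁, b₁), left_mem_Icc.2 hθ.le, left_mem_Icc.2 hb.le⟩
  have hfc : ContinuousOn (fderiv ℝ F) (Icc θ₁ θ₂ ×ˢ Icc b₁ b₂) :=
    (hF.continuousOn_fderiv_of_isOpen hW le_rfl).mono hB
  have hc1 : ContinuousOn (fun q => fderiv ℝ F q (0, 1)) (Icc θ₁ θ₂ ×ˢ Icc b₁ b₂) :=
    hfc.clm_apply continuousOn_const
  have hc2 : ContinuousOn (fun q => fderiv ℝ F q (1, 0)) (Icc θ₁ θ₂ ×ˢ Icc b₁ b₂) :=
    hfc.clm_apply continuousOn_const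
  obtain ⟨q0, hq0, hmin⟩ := hco.exists_isMinOn hne hc1
  obtain ⟨C1, hC1⟩ := hco.exists_bound_of_continuousOn hc2
  have hα : 0 < fderiv ℝ F q0 (0, 1) := hFb _ (hB hq0)
  set α := fderiv ℝ F q0 (0, 1) with hαdef
  have hC1' : 0 ≤ C1 := (norm_nonneg _).trans (hC1 q0 hq0)
  refine ⟨C1 / α + |K|, by positivity, ?_⟩
  intro q hq
  rw [at2_core_G]
  have h1 : |fderiv ℝ F q (1, 0)| ≤ C1 := hC1 q hq
  have h2 : |a q| ≤ |K| := (ha q (hWU (hB hq))).trans (le_abs_self K)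
  have h3 : α ≤ fderiv ℝ F q (0, 1) := hmin hq
  have h4 : 0 < fderiv ℝ F q (0, 1) := hFb _ (hB hq)
  calc |fderiv ℝ F q (1, 0) - a q * fderiv ℝ F q (0, 1)|
      ≤ |fderiv ℝ F q (1, 0)| + |a q * fderiv ℝ F q (0, 1)| := abs_sub _ _
    _ ≤ C1 + |K| * fderiv ℝ F q (0, 1) := by
        rw [abs_mul, abs_of_pos h4]; gcongr
    _ ≤ C1 / α * fderiv ℝ F q (0, 1) + |K| * fderiv ℝ F q (0, 1) := by
        gcongr
        calc C1 = C1 / α * α := by field_simp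
          _ ≤ C1 / α * fderiv ℝ F q (0, 1) := by gcongr
    _ = _ := by ring

theorem at2_core_j_int (P p : ℝ → ℝ) (hpc : Continuous p) (hp0 : ∀ u, 0 ≤ p u)
    (Z : ℝ × ℝ → ℝ) (hZm : Measurable Z) (hZ : ∀ p, Z p = 0 ∨ Z p = 1)
    (a : ℝ × ℝ → ℝ) (ham : Measurable a) 
    (W : Set (ℝ × ℝ)) (hW : IsOpen W) 
    (F : ℝ × ℝ → ℝ) (hF : ContDiffOn ℝ 1 F W) 
    (θ₁ θ₂ b₁ b₂ δ : ℝ) (hδ : 0 < δ)
    (hB : Icc θ₁ θ₂ ×ˢ Icc b₁ b₂ ⊆ W) (A0 : ℝ) (hA0 : 0 ≤ A0)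
    (hA : ∀ q ∈ Icc θ₁ θ₂ ×ˢ Icc b₁ b₂,
      |fderiv ℝ F q (1, -a q)| ≤ A0 * fderiv ℝ F q (0, 1)) :
    (∀ q ∈ Icc θ₁ θ₂ ×ˢ Icc b₁ b₂, |at2_core_j δ Z a F p q| ≤
      (p (F q / δ) / δ * fderiv ℝ F q (0, 1) + p (-(F q / δ)) / δ * fderiv ℝ F q (0, 1)) * A0) ∧
    IntegrableOn (at2_core_j δ Z a F p) (Icc θ₁ θ₂ ×ˢ Icc b₁ b₂) ∧
    ∀ θ ∈ Icc θ₁ θ₂, IntegrableOn (fun b => at2_core_j δ Z a F p (θ, b)) (Icc b₁ b₂) := by
  have hco : IsCompact (Icc θ₁ θ₂ ×ˢ Icc b₁ b₂) := isCompact_Icc.prod isCompact_Icc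
  have hcl : MeasurableSet (Icc θ₁ θ₂ ×ˢ Icc b₁ b₂) := measurableSet_Icc.prod measurableSet_Icc
  have hfc : ContinuousOn (fderiv ℝ F) (Icc θ₁ θ₂ ×ˢ Icc b₁ b₂) :=
    (hF.continuousOn_fderiv_of_isOpen hW le_rfl).mono hB
  have hFc : ContinuousOn F (Icc θ₁ θ₂ ×ˢ Icc b₁ b₂) := hF.continuousOn.mono hB
  have hc1 : ContinuousOn (fun q => fderiv ℝ F q (0, 1)) (Icc θ₁ θ₂ ×ˢ Icc b₁ b₂) :=
    hfc.clm_apply continuousOn_const
  have hbd : ∀ q ∈ Icc θ₁ θ₂ ×ˢ Icc b₁ b₂, |at2_core_j δ Z a F p q| ≤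
      (p (F q / δ) / δ * fderiv ℝ F q (0, 1) + p (-(F q / δ)) / δ * fderiv ℝ F q (0, 1)) * A0 := by
    intro q hq
    unfold at2_core_j
    have h1 : |Z q| ≤ 1 := by rcases hZ q with h | h <;> simp [h]
    have h2 : |p (F q / δ) - p (-(F q / δ))| ≤ p (F q / δ) + p (-(F q / δ)) := by
      rw [abs_le]; constructor <;> linarith [hp0 (F q / δ), hp0 (-(F q / δ))]
    rw [abs_mul, abs_mul, abs_div, abs_of_pos hδ]
    calc |Z q| * (|p (F q / δ) - p (-(F q / δ))| / δ * |fderiv ℝ F q (1, -a q)|)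
        ≤ 1 * ((p (F q / δ) + p (-(F q / δ))) / δ * (A0 * fderiv ℝ F q (0, 1))) := by
          have := hA q hq
          have h5 := hp0 (F q / δ)
          have h6 := hp0 (-(F q / δ))
          gcongr
      _ = _ := by ring
  have hdom : ContinuousOn (fun q => (p (F q / δ) / δ * fderiv ℝ F q (0, 1) +
      p (-(F q / δ)) / δ * fderiv ℝ F q (0, 1)) * A0) (Icc θ₁ θ₂ ×ˢ Icc b₁ b₂) := by
    apply ContinuousOn.mul _ continuousOn_const
    apply ContinuousOn.add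
    · exact ((hpc.comp_continuousOn (hFc.div_const δ)).div_const δ).mul hc1
    · exact ((hpc.comp_continuousOn (hFc.div_const δ).neg).div_const δ).mul hc1
  have hpp : ContinuousOn (fun q => (p (F q / δ) - p (-(F q / δ))) / δ)
      (Icc θ₁ θ₂ ×ˢ Icc b₁ b₂) :=
    ((hpc.comp_continuousOn (hFc.div_const δ)).sub
      (hpc.comp_continuousOn (hFc.div_const δ).neg)).div_const δ
  have hGm : Measurable (fun q => fderiv ℝ F q (1, -a q)) := by
    have : (fun q => fderiv ℝ F q (1, -a q)) =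
      fun q => fderiv ℝ F q (1, 0) - a q * fderiv ℝ F q (0, 1) := funext fun q => at2_core_G F a q
    rw [this]
    exact (measurable_fderiv_apply_const ℝ F _).sub
      (ham.mul (measurable_fderiv_apply_const ℝ F _))
  refine ⟨hbd, ?_, ?_⟩
  · apply Integrable.mono' (hdom.integrableOn_compact hco)
    · apply AEStronglyMeasurable.mul hZm.aestronglyMeasurable
      exact (hpp.aestronglyMeasurable hcl).mul hGm.aestronglyMeasurable
    · rw [ae_restrict_iff' hcl]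
      exact Filter.Eventually.of_forall fun q hq => hbd q hq
  · intro θ hθ
    have hmaps : MapsTo (fun b : ℝ => (θ, b)) (Icc b₁ b₂) (Icc θ₁ θ₂ ×ˢ Icc b₁ b₂) :=
      fun b hb => ⟨hθ, hb⟩
    have hcont : ContinuousOn (fun b : ℝ => (θ, b)) (Icc b₁ b₂) :=
      (Continuous.prodMk continuous_const continuous_id).continuousOn
    apply Integrable.mono' ((hdom.comp hcont hmaps).integrableOn_compact isCompact_Icc)
    · apply AEStronglyMeasurable.mul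
      · exact (hZm.comp measurable_prodMk_left).aestronglyMeasurable
      · apply AEStronglyMeasurable.mul
        · exact (hpp.comp hcont hmaps).aestronglyMeasurable measurableSet_Icc
        · exact (hGm.comp measurable_prodMk_left).aestronglyMeasurable
    · rw [ae_restrict_iff' measurableSet_Icc]
      exact Filter.Eventually.of_forall fun b hb => hbd (θ, b) ⟨hθ, hb⟩

/-- bounds for the inner integral -/
theorem at2_core_J (P p : ℝ → ℝ) (hpc : Continuous p) (hPp : ∀ u, HasDerivAt P (p u) u)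
    (hp0 : ∀ u, 0 ≤ p u)
    (hP0 : ∀ u, u ≤ -1 → P u = 0) (hpz : ∀ u, u ≤ -1 → p u = 0)
    (hP1 : ∀ u, 0 ≤ u → P u = 1) (hpz' : ∀ u, 0 ≤ u → p u = 0)
    (τ : ℝ) (hτ : 0 < τ)
    (Z : ℝ × ℝ → ℝ) (hZm : Measurable Z) (hZ : ∀ p, Z p = 0 ∨ Z p = 1)
    (a : ℝ × ℝ → ℝ) (ham : Measurable a) 
    (W : Set (ℝ × ℝ)) (hW : IsOpen W) 
    (F : ℝ × ℝ → ℝ) (hF : ContDiffOn ℝ 1 F W) 
    (s : ℝ)
    (hFa : ∀ q ∈ W, τ * fderiv ℝ F q (0, 1) ≤ s * fderiv ℝ F q (1, -a q))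
    (θ₁ θ₂ b₁ b₂ δ₀ δ : ℝ) (hb : b₁ < b₂) (hδ : 0 < δ) (hδδ : δ < δ₀)
    (hB : Icc θ₁ θ₂ ×ˢ Icc b₁ b₂ ⊆ W)
    (hm : ∀ θ ∈ Icc θ₁ θ₂, F (θ, b₁) ≤ -δ₀ ∧ δ₀ ≤ F (θ, b₂))
    (A0 : ℝ) (hA0 : 0 ≤ A0)
    (hA : ∀ q ∈ Icc θ₁ θ₂ ×ˢ Icc b₁ b₂,
      |fderiv ℝ F q (1, -a q)| ≤ A0 * fderiv ℝ F q (0, 1))
    (Θ : Set ℝ) (hΘ : Θ ⊆ Ioo θ₁ θ₂)
    (zm zp : ℝ) (hz : (zm = 0 ∧ zp = 1) ∨ (zm = 1 ∧ zp = 0))
    (hm1 : ∀ θ ∈ Θ, ∀ᵐ b ∂(volume.restrict (Ioo b₁ b₂)),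
      (-δ₀ < F (θ, b) → F (θ, b) < 0 → Z (θ, b) = zm) ∧
      (0 < F (θ, b) → F (θ, b) < δ₀ → Z (θ, b) = zp)) :
    (∀ θ ∈ Icc θ₁ θ₂, |∫ b in Icc b₁ b₂, at2_core_j δ Z a F p (θ, b)| ≤ 2 * A0) ∧
    (∀ θ ∈ Θ, τ ≤ (s * (zm - zp)) * ∫ b in Icc b₁ b₂, at2_core_j δ Z a F p (θ, b)) := by
  obtain ⟨hbd, -, hint⟩ := at2_core_j_int P p hpc hp0 Z hZm hZ a ham W hW F hF θ₁ θ₂ b₁ b₂ δ hδ hB
    A0 hA0 hA
  have hfc : ContinuousOn (fderiv ℝ F) (Icc θ₁ θ₂ ×ˢ Icc b₁ b₂) :=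
    (hF.continuousOn_fderiv_of_isOpen hW le_rfl).mono hB
  have hFc : ContinuousOn F (Icc θ₁ θ₂ ×ˢ Icc b₁ b₂) := hF.continuousOn.mono hB
  have hc1 : ContinuousOn (fun q => fderiv ℝ F q (0, 1)) (Icc θ₁ θ₂ ×ˢ Icc b₁ b₂) :=
    hfc.clm_apply continuousOn_const
  have hcs : ∀ θ ∈ Icc θ₁ θ₂, ContinuousOn (fun b => fderiv ℝ F (θ, b) (0, 1)) (Icc b₁ b₂) := by
    intro θ hθ
    exact hc1.comp (Continuous.prodMk continuous_const continuous_id).continuousOn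
      (fun b hb => ⟨hθ, hb⟩)
  have hFs : ∀ θ ∈ Icc θ₁ θ₂, ContinuousOn (fun b => F (θ, b)) (Icc b₁ b₂) := by
    intro θ hθ
    exact hFc.comp (Continuous.prodMk continuous_const continuous_id).continuousOn
      (fun b hb => ⟨hθ, hb⟩)
  have hftc : ∀ θ ∈ Icc θ₁ θ₂,
      (∫ b in Icc b₁ b₂, p (F (θ, b) / δ) / δ * fderiv ℝ F (θ, b) (0, 1) = 1) ∧
      (∫ b in Icc b₁ b₂, p (-(F (θ, b) / δ)) / δ * fderiv ℝ F (θ, b) (0, 1) = 1) := by
    intro θ hθ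
    apply at2_core_ftc P p hpc hPp hP0 hP1 b₁ b₂ δ hb hδ (fun b => F (θ, b))
      (fun b => fderiv ℝ F (θ, b) (0, 1)) _ (hcs θ hθ)
    · have := (hm θ hθ).1
      show F (θ, b₁) ≤ -δ
      linarith
    · have := (hm θ hθ).2
      show δ ≤ F (θ, b₂)
      linarith
    · intro b hb
      have hFa : DifferentiableAt ℝ F (θ, b) :=
        (hF.contDiffAt (hW.mem_nhds (hB ⟨hθ, hb⟩))).differentiableAt one_ne_zero
      exact hFa.hasFDerivAt.comp_hasDerivAt b ((hasDerivAt_const b θ).prodMk (hasDerivAt_id b))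
  have hi1 : ∀ θ ∈ Icc θ₁ θ₂, IntegrableOn
      (fun b => p (F (θ, b) / δ) / δ * fderiv ℝ F (θ, b) (0, 1)) (Icc b₁ b₂) := by
    intro θ hθ
    have h5 : ContinuousOn (fun b => p (F (θ, b) / δ) / δ * fderiv ℝ F (θ, b) (0, 1))
        (Icc b₁ b₂) :=
      ((hpc.comp_continuousOn ((hFs θ hθ).div_const δ)).div_const δ).mul (hcs θ hθ)
    exact h5.integrableOn_compact isCompact_Icc
  have hi2 : ∀ θ ∈ Icc θ₁ θ₂, IntegrableOn
      (fun b => p (-(F (θ, b) / δ)) / δ * fderiv ℝ F (θ, b) (0, 1)) (Icc b₁ b₂) := by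
    intro θ hθ
    have h5 : ContinuousOn (fun b => p (-(F (θ, b) / δ)) / δ * fderiv ℝ F (θ, b) (0, 1))
        (Icc b₁ b₂) :=
      ((hpc.comp_continuousOn ((hFs θ hθ).div_const δ).neg).div_const δ).mul (hcs θ hθ)
    exact h5.integrableOn_compact isCompact_Icc
  constructor
  · intro θ hθ
    obtain ⟨e1, e2⟩ := hftc θ hθ
    have : |∫ b in Icc b₁ b₂, at2_core_j δ Z a F p (θ, b)| ≤
        ∫ b in Icc b₁ b₂, (p (F (θ, b) / δ) / δ * fderiv ℝ F (θ, b) (0, 1) +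
          p (-(F (θ, b) / δ)) / δ * fderiv ℝ F (θ, b) (0, 1)) * A0 := by
      have h5 : Integrable (fun b => (p (F (θ, b) / δ) / δ * fderiv ℝ F (θ, b) (0, 1) +
          p (-(F (θ, b) / δ)) / δ * fderiv ℝ F (θ, b) (0, 1)) * A0)
          (volume.restrict (Icc b₁ b₂)) := ((hi1 θ hθ).add (hi2 θ hθ)).mul_const A0
      rw [← Real.norm_eq_abs]
      refine norm_integral_le_of_norm_le h5 ?_
      rw [ae_restrict_iff' measurableSet_Icc]
      exact Filter.Eventually.of_forall fun b hb => hbd (θ, b) ⟨hθ, hb⟩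
    rw [integral_mul_const, integral_add (hi1 θ hθ) (hi2 θ hθ), e1, e2] at this
    linarith
  · intro θ hθΘ
    have hθ : θ ∈ Icc θ₁ θ₂ := Ioo_subset_Icc_self (hΘ hθΘ)
    obtain ⟨e1, e2⟩ := hftc θ hθ
    have hae := hm1 θ hθΘ
    rw [Measure.restrict_congr_set Ioo_ae_eq_Icc] at hae
    rw [← integral_const_mul]
    rcases hz with ⟨hzm, hzp⟩ | ⟨hzm, hzp⟩
    · -- Z = 1 above
      calc τ = ∫ b in Icc b₁ b₂, τ * (p (-(F (θ, b) / δ)) / δ * fderiv ℝ F (θ, b) (0, 1)) := by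
            rw [integral_const_mul, e2, mul_one]
        _ ≤ _ := by
            apply integral_mono_ae ((hi2 θ hθ).const_mul τ) ((hint θ hθ).const_mul _)
            rw [Filter.EventuallyLE, ae_restrict_iff' measurableSet_Icc]
            rw [ae_restrict_iff' measurableSet_Icc] at hae
            filter_upwards [hae] with b hb hbI
            obtain ⟨h1, h2⟩ := hb hbI
            have hG := hFa (θ, b) (hB ⟨hθ, hbI⟩)
            unfold at2_core_j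
            rw [hzm, hzp]
            rw [hzp] at h2
            rw [hzm] at h1
            set u := F (θ, b) / δ with hu
            have hFu : F (θ, b) = u * δ := by rw [hu]; field_simp
            rcases lt_or_ge u 0 with hneg | hpos
            · have hp2 : p (-u) = 0 := hpz' _ (by linarith)
              rw [hp2]
              rcases le_or_gt u (-1) with hle | hgt
              · rw [hpz u hle]; simp
              · have : Z (θ, b) = 0 := by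
                  apply h1
                  · rw [hFu]; nlinarith
                  · rw [hFu]; nlinarith
                rw [this]; simp
            · have hp1 : p u = 0 := hpz' _ hpos
              rw [hp1]
              rcases le_or_gt 1 u with hge | hlt
              · rw [hpz (-u) (by linarith)]; simp
              · rcases hpos.eq_or_lt with h0 | h0
                · rw [← h0]; simp [hpz' 0 le_rfl]
                · have : Z (θ, b) = 1 := by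
                    apply h2
                    · rw [hFu]; positivity
                    · rw [hFu]; nlinarith
                  rw [this]
                  have h7 : 0 ≤ p (-u) / δ := div_nonneg (hp0 _) hδ.le
                  calc τ * (p (-u) / δ * fderiv ℝ F (θ, b) (0, 1))
                      = p (-u) / δ * (τ * fderiv ℝ F (θ, b) (0, 1)) := by ring
                    _ ≤ p (-u) / δ * (s * fderiv ℝ F (θ, b) (1, -a (θ, b))) :=
                        mul_le_mul_of_nonneg_left hG h7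
                    _ = _ := by ring
    · calc τ = ∫ b in Icc b₁ b₂, τ * (p (F (θ, b) / δ) / δ * fderiv ℝ F (θ, b) (0, 1)) := by
            rw [integral_const_mul, e1, mul_one]
        _ ≤ _ := by
            apply integral_mono_ae ((hi1 θ hθ).const_mul τ) ((hint θ hθ).const_mul _)
            rw [Filter.EventuallyLE, ae_restrict_iff' measurableSet_Icc]
            rw [ae_restrict_iff' measurableSet_Icc] at hae
            filter_upwards [hae] with b hb hbI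
            obtain ⟨h1, h2⟩ := hb hbI
            have hG := hFa (θ, b) (hB ⟨hθ, hbI⟩)
            unfold at2_core_j
            rw [hzm, hzp]
            rw [hzp] at h2
            rw [hzm] at h1
            set u := F (θ, b) / δ with hu
            have hFu : F (θ, b) = u * δ := by rw [hu]; field_simp
            rcases lt_or_ge u 0 with hneg | hpos
            · have hp2 : p (-u) = 0 := hpz' _ (by linarith)
              rw [hp2]
              rcases le_or_gt u (-1) with hle | hgt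
              · rw [hpz u hle]; simp
              · have : Z (θ, b) = 1 := by
                  apply h1
                  · rw [hFu]; nlinarith
                  · rw [hFu]; nlinarith
                rw [this]
                have h7 : 0 ≤ p u / δ := div_nonneg (hp0 _) hδ.le
                calc τ * (p u / δ * fderiv ℝ F (θ, b) (0, 1))
                    = p u / δ * (τ * fderiv ℝ F (θ, b) (0, 1)) := by ring
                  _ ≤ p u / δ * (s * fderiv ℝ F (θ, b) (1, -a (θ, b))) :=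
                      mul_le_mul_of_nonneg_left hG h7
                  _ = _ := by ring
            · have hp1 : p u = 0 := hpz' _ hpos
              rw [hp1]
              rcases le_or_gt 1 u with hge | hlt
              · rw [hpz (-u) (by linarith)]; simp
              · rcases hpos.eq_or_lt with h0 | h0
                · rw [← h0]; simp [hpz' 0 le_rfl]
                · have : Z (θ, b) = 0 := by
                    apply h2
                    · rw [hFu]; positivity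
                    · rw [hFu]; nlinarith
                  rw [this]
                  simp

/-- upper bound for the flux, from the hypothesis on test functions -/
theorem at2_core_up (r : ℝ)
    (Z : ℝ × ℝ → ℝ) (hZm : Measurable Z) (hZ : ∀ p, Z p = 0 ∨ Z p = 1)
    (a : ℝ × ℝ → ℝ)
    (S : ℝ × ℝ → ℝ) (hS0 : ∀ p, 0 ≤ S p) (hS : LocallyIntegrable S)
    (ν : Measure (ℝ × ℝ)) [IsFiniteMeasureOnCompacts ν]
    (h : ∀ φ, TF r φ →
      |∫ p, Z p * fderiv ℝ φ p (1, -a p)| ≤ (∫ p, |φ p| * S p) + ∫ p, |φ p| ∂ν)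
    (W : Set (ℝ × ℝ)) (hW : IsOpen W) (hWU : W ⊆ {p | |p.2| < r})
    (F : ℝ × ℝ → ℝ) (hF : ContDiffOn ℝ 1 F W)
    (θ₁ θ₂ b₁ b₂ δ₀ δ : ℝ) (hδ : 0 < δ) (hδδ : δ < δ₀)
    (hB : Icc θ₁ θ₂ ×ˢ Icc b₁ b₂ ⊆ W)
    (hm : ∀ θ ∈ Icc θ₁ θ₂, F (θ, b₁) ≤ -δ₀ ∧ δ₀ ≤ F (θ, b₂))
    (p χ : ℝ → ℝ) (hpc : Continuous p) (hχc : ContDiff ℝ 1 χ)
    (hχd : ∀ u, HasDerivAt χ (p u - p (-u)) u) (hχ : ∀ u, 1 ≤ |u| → χ u = 0)
    (hχ' : ∀ u, 1 ≤ |u| → p u - p (-u) = 0)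
    (hj : IntegrableOn (at2_core_j δ Z a F p) (Icc θ₁ θ₂ ×ˢ Icc b₁ b₂))
    (η : ℝ → ℝ) (hη : ContDiff ℝ 1 η) (hηs : tsupport η ⊆ Ioo θ₁ θ₂)
    (hη0 : ∀ x, 0 ≤ η x) (hη1 : ∀ x, η x ≤ 1) (M : ℝ) (hM : ∀ x ∈ Icc θ₁ θ₂, |deriv η x| ≤ M) :
    |∫ q in Icc θ₁ θ₂ ×ˢ Icc b₁ b₂, η q.1 * at2_core_j δ Z a F p q| ≤
      M * (∫ q in Icc θ₁ θ₂ ×ˢ Icc b₁ b₂, |χ (F q / δ)|) +
      (∫ q in Icc θ₁ θ₂ ×ˢ Icc b₁ b₂, |χ (F q / δ)| * S q) +
      ∫ q in Icc θ₁ θ₂ ×ˢ Icc b₁ b₂, |χ (F q / δ)| ∂ν := by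
  have hco : IsCompact (Icc θ₁ θ₂ ×ˢ Icc b₁ b₂) := isCompact_Icc.prod isCompact_Icc
  have hcl : MeasurableSet (Icc θ₁ θ₂ ×ˢ Icc b₁ b₂) := measurableSet_Icc.prod measurableSet_Icc
  have hFc : ContinuousOn F (Icc θ₁ θ₂ ×ˢ Icc b₁ b₂) := hF.continuousOn.mono hB
  have hχF : ContinuousOn (fun q => χ (F q / δ)) (Icc θ₁ θ₂ ×ˢ Icc b₁ b₂) :=
    hχc.continuous.comp_continuousOn (hFc.div_const δ)
  have hχF' : ContinuousOn (fun q => |χ (F q / δ)|) (Icc θ₁ θ₂ ×ˢ Icc b₁ b₂) := hχF.abs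
  set φ := at2_core_phi θ₁ θ₂ b₁ b₂ δ η χ F with hφ
  have hTF : TF r φ := at2_core_phi_TF r W hW hWU F hF θ₁ θ₂ b₁ b₂ δ₀ δ hδ hδδ hB hm η χ hη hηs
    hχc hχ
  have hmain := h φ hTF
  -- LHS
  have hL : ∫ q, Z q * fderiv ℝ φ q (1, -a q) =
      (∫ q in Icc θ₁ θ₂ ×ˢ Icc b₁ b₂, Z q * (deriv η q.1 * χ (F q / δ))) +
      ∫ q in Icc θ₁ θ₂ ×ˢ Icc b₁ b₂, η q.1 * at2_core_j δ Z a F p q := by
    rw [← setIntegral_eq_integral_of_forall_compl_eq_zero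
      (s := Icc θ₁ θ₂ ×ˢ Icc b₁ b₂)]
    · rw [← integral_add]
      · apply setIntegral_congr_fun hcl
        intro q hq
        simp only
        rw [hφ, at2_core_phi_fderiv_in W hW F hF θ₁ θ₂ b₁ b₂ δ₀ δ hδ hδδ hB hm η χ
          (fun u => p u - p (-u)) hη hηs hχd hχ hχ' q hq]
        unfold at2_core_j
        ring
      · have hc : ContinuousOn (fun q : ℝ × ℝ => M * |χ (F q / δ)|)
            (Icc θ₁ θ₂ ×ˢ Icc b₁ b₂) := continuousOn_const.mul hχF'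
        apply Integrable.mono' (hc.integrableOn_compact hco)
        · apply AEStronglyMeasurable.mul hZm.aestronglyMeasurable
          apply AEStronglyMeasurable.mul
          · exact ((hη.continuous_deriv le_rfl).comp continuous_fst).aestronglyMeasurable
          · exact hχF.aestronglyMeasurable hcl
        · rw [ae_restrict_iff' hcl]
          refine Filter.Eventually.of_forall fun q hq => ?_
          rw [norm_mul, norm_mul]
          have h1 : ‖Z q‖ ≤ 1 := by rcases hZ q with h | h <;> simp [h]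
          have h2 : ‖deriv η q.1‖ ≤ M := hM q.1 hq.1
          calc ‖Z q‖ * (‖deriv η q.1‖ * ‖χ (F q / δ)‖) ≤ 1 * (M * ‖χ (F q / δ)‖) := by gcongr
            _ = _ := by rw [one_mul]; rfl
      · apply Integrable.mono' hj.norm
        · apply AEStronglyMeasurable.mul
          · exact (hη.continuous.comp continuous_fst).aestronglyMeasurable
          · exact hj.aestronglyMeasurable
        · refine Filter.Eventually.of_forall fun q => ?_
          rw [norm_mul]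
          have h2 : ‖η q.1‖ ≤ 1 := by
            rw [Real.norm_eq_abs, abs_of_nonneg (hη0 _)]; exact hη1 _
          calc ‖η q.1‖ * ‖at2_core_j δ Z a F p q‖ ≤ 1 * ‖at2_core_j δ Z a F p q‖ := by gcongr
            _ = _ := one_mul _
    · intro q hq
      rw [hφ, at2_core_phi_fderiv_out F θ₁ θ₂ b₁ b₂ δ η χ q hq, mul_zero]
  -- RHS
  have hφb : ∀ q, |φ q| ≤ (Icc θ₁ θ₂ ×ˢ Icc b₁ b₂).indicator (fun q => |χ (F q / δ)|) q := by
    intro q
    by_cases hq : q ∈ Icc θ₁ θ₂ ×ˢ Icc b₁ b₂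
    · rw [indicator_of_mem hq, hφ]
      unfold at2_core_phi
      rw [if_pos hq, abs_mul, abs_of_nonneg (hη0 _)]
      calc η q.1 * |χ (F q / δ)| ≤ 1 * |χ (F q / δ)| := by
            have := hη1 q.1
            gcongr
        _ = _ := one_mul _
    · rw [indicator_of_notMem hq, hφ]
      unfold at2_core_phi
      rw [if_neg hq, abs_zero]
  have hSB : IntegrableOn S (Icc θ₁ θ₂ ×ˢ Icc b₁ b₂) := hS.integrableOn_isCompact hco
  have hR1 : (∫ q, |φ q| * S q) ≤ ∫ q in Icc θ₁ θ₂ ×ˢ Icc b₁ b₂, |χ (F q / δ)| * S q := by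
    rw [← integral_indicator hcl]
    apply integral_mono_of_nonneg
    · exact Filter.Eventually.of_forall fun q => mul_nonneg (abs_nonneg _) (hS0 q)
    · rw [integrable_indicator_iff hcl]
      have := hSB.continuousOn_mul hχF' hco
      exact this
    · refine Filter.Eventually.of_forall fun q => ?_
      simp only
      by_cases hq : q ∈ Icc θ₁ θ₂ ×ˢ Icc b₁ b₂
      · have := hφb q
        rw [indicator_of_mem hq] at this ⊢
        exact mul_le_mul_of_nonneg_right this (hS0 q)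
      · have := hφb q
        rw [indicator_of_notMem hq] at this ⊢
        have h3 : |φ q| = 0 := le_antisymm this (abs_nonneg _)
        rw [h3, zero_mul]
  have hR2 : (∫ q, |φ q| ∂ν) ≤ ∫ q in Icc θ₁ θ₂ ×ˢ Icc b₁ b₂, |χ (F q / δ)| ∂ν := by
    rw [← integral_indicator hcl]
    apply integral_mono_of_nonneg
    · exact Filter.Eventually.of_forall fun q => abs_nonneg _
    · rw [integrable_indicator_iff hcl]
      exact hχF'.integrableOn_compact hco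
    · exact Filter.Eventually.of_forall hφb
  have hX : |∫ q in Icc θ₁ θ₂ ×ˢ Icc b₁ b₂, Z q * (deriv η q.1 * χ (F q / δ))| ≤
      M * (∫ q in Icc θ₁ θ₂ ×ˢ Icc b₁ b₂, |χ (F q / δ)|) := by
    rw [← integral_const_mul, ← Real.norm_eq_abs]
    have hc : ContinuousOn (fun q : ℝ × ℝ => M * |χ (F q / δ)|)
        (Icc θ₁ θ₂ ×ˢ Icc b₁ b₂) := continuousOn_const.mul hχF'
    refine norm_integral_le_of_norm_le (hc.integrableOn_compact hco) ?_
    rw [ae_restrict_iff' hcl]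
    refine Filter.Eventually.of_forall fun q hq => ?_
    rw [norm_mul, norm_mul]
    have h1 : ‖Z q‖ ≤ 1 := by rcases hZ q with h | h <;> simp [h]
    have h2 : ‖deriv η q.1‖ ≤ M := hM q.1 hq.1
    calc ‖Z q‖ * (‖deriv η q.1‖ * ‖χ (F q / δ)‖) ≤ 1 * (M * ‖χ (F q / δ)‖) := by gcongr
      _ = _ := by rw [one_mul]; rfl
  rw [hL] at hmain
  have e1 := abs_le.1 hX
  have e2 := abs_le.1 hmain
  rw [abs_le]
  constructor <;> linarith [e1.1, e1.2, e2.1, e2.2]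

/-- lower bound for the flux -/
theorem at2_core_low (τ A0 κ s' : ℝ) (hs' : s' = 1 ∨ s' = -1)
    (θ₁ θ₂ b₁ b₂ : ℝ) (j : ℝ × ℝ → ℝ)
    (hj : IntegrableOn j (Icc θ₁ θ₂ ×ˢ Icc b₁ b₂))
    (hJ : ∀ θ ∈ Icc θ₁ θ₂, |∫ b in Icc b₁ b₂, j (θ, b)| ≤ 2 * A0)
    (Θ : Set ℝ) (hΘm : MeasurableSet Θ) (hΘ : Θ ⊆ Ioo θ₁ θ₂)
    (hJ' : ∀ θ ∈ Θ, τ ≤ s' * ∫ b in Icc b₁ b₂, j (θ, b))
    (η : ℝ → ℝ) (hη : Continuous η)
    (hη0 : ∀ x, 0 ≤ η x) (hη1 : ∀ x, η x ≤ 1)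
    (hκ : ∫ x in Icc θ₁ θ₂, |η x - Θ.indicator (fun _ => (1 : ℝ)) x| ≤ κ) (hA0 : 0 ≤ A0) :
    τ * (volume Θ).toReal ≤ |∫ q in Icc θ₁ θ₂ ×ˢ Icc b₁ b₂, η q.1 * j q| + 2 * A0 * κ := by
  have hηj : IntegrableOn (fun q : ℝ × ℝ => η q.1 * j q) (Icc θ₁ θ₂ ×ˢ Icc b₁ b₂) := by
    apply Integrable.mono' hj.norm
    · apply AEStronglyMeasurable.mul
      · exact (hη.comp continuous_fst).aestronglyMeasurable
      · exact hj.aestronglyMeasurable
    · refine Filter.Eventually.of_forall fun q => ?_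
      rw [norm_mul]
      have h2 : ‖η q.1‖ ≤ 1 := by
        rw [Real.norm_eq_abs, abs_of_nonneg (hη0 _)]; exact hη1 _
      calc ‖η q.1‖ * ‖j q‖ ≤ 1 * ‖j q‖ := by gcongr
        _ = _ := one_mul _
  have hfub : ∫ q in Icc θ₁ θ₂ ×ˢ Icc b₁ b₂, η q.1 * j q =
      ∫ θ in Icc θ₁ θ₂, η θ * ∫ b in Icc b₁ b₂, j (θ, b) := by
    rw [Measure.volume_eq_prod, setIntegral_prod _ (by rwa [← Measure.volume_eq_prod])]
    simp only [integral_const_mul]
  set J : ℝ → ℝ := fun θ => ∫ b in Icc b₁ b₂, j (θ, b) with hJdef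
  have hJi : IntegrableOn J (Icc θ₁ θ₂) := by
    have h1 : Integrable j ((volume.restrict (Icc θ₁ θ₂)).prod (volume.restrict (Icc b₁ b₂))) := by
      rw [Measure.prod_restrict]; exact hj
    exact h1.integral_prod_left
  have hηJ : IntegrableOn (fun θ => η θ * J θ) (Icc θ₁ θ₂) := by
    apply Integrable.mono' hJi.norm
    · exact hη.aestronglyMeasurable.mul hJi.aestronglyMeasurable
    · refine Filter.Eventually.of_forall fun q => ?_
      rw [norm_mul]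
      have h2 : ‖η q‖ ≤ 1 := by
        rw [Real.norm_eq_abs, abs_of_nonneg (hη0 _)]; exact hη1 _
      calc ‖η q‖ * ‖J q‖ ≤ 1 * ‖J q‖ := by gcongr
        _ = _ := one_mul _
  have hind : Measurable (Θ.indicator (fun _ => (1 : ℝ))) := measurable_const.indicator hΘm
  have hdi : IntegrableOn (fun θ => |η θ - Θ.indicator (fun _ => (1 : ℝ)) θ|) (Icc θ₁ θ₂) := by
    have hfin : IntegrableOn (fun _ : ℝ => (1 : ℝ)) (Icc θ₁ θ₂) := by
      have e1 : volume (Icc θ₁ θ₂) ≠ ⊤ := by simp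
      have e2 : ‖(1 : ℝ)‖ₑ ≠ ⊤ := enorm_ne_top
      exact integrableOn_const e1 e2
    apply Integrable.mono' hfin
    · exact (hη.measurable.sub hind).norm.aestronglyMeasurable
    · refine Filter.Eventually.of_forall fun q => ?_
      rw [Real.norm_eq_abs, abs_abs, abs_le]
      by_cases hq : q ∈ Θ
      · rw [indicator_of_mem hq]; constructor <;> linarith [hη0 q, hη1 q]
      · rw [indicator_of_notMem hq]; constructor <;> linarith [hη0 q, hη1 q]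
  have hs1 : |s'| = 1 := by rcases hs' with h | h <;> simp [h]
  -- the comparison
  have key : ∀ θ ∈ Icc θ₁ θ₂, Θ.indicator (fun _ => τ) θ ≤
      s' * (η θ * J θ) + |η θ - Θ.indicator (fun _ => (1 : ℝ)) θ| * (2 * A0) := by
    intro θ hθ
    have h1 : |s' * J θ| ≤ 2 * A0 := by
      rw [abs_mul, hs1, one_mul]; exact hJ θ hθ
    have h2 := abs_le.1 h1
    by_cases hq : θ ∈ Θ
    · rw [indicator_of_mem hq, indicator_of_mem hq]
      have h3 := hJ' θ hq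
      have h4 : |η θ - 1| = 1 - η θ := by
        rw [abs_of_nonpos (by linarith [hη1 θ])]; ring
      rw [h4]
      have h5 : (1 - η θ) * (s' * J θ) ≤ (1 - η θ) * (2 * A0) :=
        mul_le_mul_of_nonneg_left h2.2 (by linarith [hη1 θ])
      nlinarith
    · rw [indicator_of_notMem hq, indicator_of_notMem hq, sub_zero, abs_of_nonneg (hη0 θ)]
      have h5 : η θ * (-(2 * A0)) ≤ η θ * (s' * J θ) :=
        mul_le_mul_of_nonneg_left h2.1 (hη0 θ)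
      nlinarith
  have hint1 : ∫ θ in Icc θ₁ θ₂, Θ.indicator (fun _ => τ) θ = τ * (volume Θ).toReal := by
    rw [integral_indicator hΘm, Measure.restrict_restrict hΘm,
      inter_eq_left.2 (hΘ.trans Ioo_subset_Icc_self)]
    simp [Measure.real, mul_comm]
  have hR : IntegrableOn (fun θ => s' * (η θ * J θ) +
      |η θ - Θ.indicator (fun _ => (1 : ℝ)) θ| * (2 * A0)) (Icc θ₁ θ₂) :=
    (hηJ.const_mul s').add (hdi.mul_const _)
  have hLi : IntegrableOn (Θ.indicator (fun _ => τ)) (Icc θ₁ θ₂) := by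
    rw [IntegrableOn, integrable_indicator_iff hΘm]
    have e1 : (volume.restrict (Icc θ₁ θ₂)) Θ ≠ ⊤ :=
      ne_top_of_le_ne_top (b := volume (Ioo θ₁ θ₂)) (by simp)
        ((Measure.restrict_apply_le _ _).trans (measure_mono hΘ))
    have e2 : ‖τ‖ₑ ≠ ⊤ := enorm_ne_top
    exact integrableOn_const e1 e2
  have hfin : τ * (volume Θ).toReal ≤ s' * (∫ θ in Icc θ₁ θ₂, η θ * J θ) +
      (∫ θ in Icc θ₁ θ₂, |η θ - Θ.indicator (fun _ => (1 : ℝ)) θ|) * (2 * A0) := by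
    rw [← hint1, ← integral_const_mul, ← integral_mul_const,
      ← integral_add (hηJ.const_mul s') (hdi.mul_const _)]
    exact setIntegral_mono_on hLi hR measurableSet_Icc key
  rw [hfub]
  have h6 : s' * (∫ θ in Icc θ₁ θ₂, η θ * J θ) ≤ |∫ θ in Icc θ₁ θ₂, η θ * J θ| := by
    calc _ ≤ |s' * (∫ θ in Icc θ₁ θ₂, η θ * J θ)| := le_abs_self _
      _ = _ := by rw [abs_mul, hs1, one_mul]
  have h7 : (∫ θ in Icc θ₁ θ₂, |η θ - Θ.indicator (fun _ => (1 : ℝ)) θ|) * (2 * A0) ≤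
      κ * (2 * A0) := mul_le_mul_of_nonneg_right hκ (by linarith)
  linarith

/-- the correctly bracketed version of `at2_core` -/
theorem at2_core_brack (r τ K : ℝ) (hτ : 0 < τ)
    (Z : ℝ × ℝ → ℝ) (hZm : Measurable Z) (hZ : ∀ p, Z p = 0 ∨ Z p = 1)
    (a : ℝ × ℝ → ℝ) (ham : Measurable a) (ha : ∀ p : ℝ × ℝ, |p.2| < r → |a p| ≤ K)
    (S : ℝ × ℝ → ℝ) (hS0 : ∀ p, 0 ≤ S p) (hS : LocallyIntegrable S)
    (ν : Measure (ℝ × ℝ)) [IsFiniteMeasureOnCompacts ν]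
    (h : ∀ φ, TF r φ →
      |∫ p, Z p * fderiv ℝ φ p (1, -a p)| ≤ (∫ p, |φ p| * S p) + ∫ p, |φ p| ∂ν)
    (W : Set (ℝ × ℝ)) (hW : IsOpen W) (hWU : W ⊆ {p | |p.2| < r})
    (F : ℝ × ℝ → ℝ) (hF : ContDiffOn ℝ 1 F W) (hFb : ∀ q ∈ W, 0 < fderiv ℝ F q (0, 1))
    (s : ℝ) (hs : s = 1 ∨ s = -1)
    (hFa : ∀ q ∈ W, τ * fderiv ℝ F q (0, 1) ≤ s * fderiv ℝ F q (1, -a q))
    (hν : ν (W ∩ {q | F q = 0}) = 0)
    (θ₁ θ₂ b₁ b₂ δ₀ : ℝ) (hθ : θ₁ < θ₂) (hb : b₁ < b₂) (hδ : 0 < δ₀)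
    (hB : Icc θ₁ θ₂ ×ˢ Icc b₁ b₂ ⊆ W)
    (hm : ∀ θ ∈ Icc θ₁ θ₂, F (θ, b₁) ≤ -δ₀ ∧ δ₀ ≤ F (θ, b₂))
    (Θ : Set ℝ) (hΘm : MeasurableSet Θ) (hΘ : Θ ⊆ Ioo θ₁ θ₂)
    (zm zp : ℝ) (hz : (zm = 0 ∧ zp = 1) ∨ (zm = 1 ∧ zp = 0))
    (hm1 : ∀ θ ∈ Θ, ∀ᵐ b ∂(volume.restrict (Ioo b₁ b₂)),
      (-δ₀ < F (θ, b) → F (θ, b) < 0 → Z (θ, b) = zm) ∧
      (0 < F (θ, b) → F (θ, b) < δ₀ → Z (θ, b) = zp)) :
    volume Θ = 0 := by
  obtain ⟨P, p, hpc, hPp, hp0, hP0, hpz, hP1, hpz', hPn, hPl⟩ := at2_core_profile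
  set χ : ℝ → ℝ := fun u => P u + P (-u) - 1 with hχdef
  have hχd : ∀ u, HasDerivAt χ (p u - p (-u)) u := by
    intro u
    have h1 : HasDerivAt (fun u => P (-u)) (p (-u) * (-1)) u :=
      (hPp (-u)).comp u (hasDerivAt_neg u)
    have h2 : HasDerivAt (fun u => P u + P (-u) - 1) (p u + p (-u) * (-1)) u :=
      ((hPp u).add h1).sub_const 1
    exact h2.congr_deriv (by ring)
  have hχc : ContDiff ℝ 1 χ := by
    rw [contDiff_one_iff_deriv]
    refine ⟨fun u => (hχd u).differentiableAt, ?_⟩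
    have : deriv χ = fun u => p u - p (-u) := funext fun u => (hχd u).deriv
    rw [this]
    exact hpc.sub (hpc.comp continuous_neg)
  have hχz : ∀ u, 1 ≤ |u| → χ u = 0 := by
    intro u hu
    rcases le_abs.1 hu with h | h
    · simp only [hχdef, hP1 u (by linarith), hP0 (-u) (by linarith)]; norm_num
    · simp only [hχdef, hP1 (-u) (by linarith), hP0 u (by linarith)]; norm_num
  have hχ'z : ∀ u, 1 ≤ |u| → p u - p (-u) = 0 := by
    intro u hu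
    rcases le_abs.1 hu with h | h
    · rw [hpz' u (by linarith), hpz (-u) (by linarith)]; norm_num
    · rw [hpz' (-u) (by linarith), hpz u (by linarith)]; norm_num
  have hχ1 : ∀ u, |χ u| ≤ 1 := by
    intro u
    rw [abs_le]
    rcases le_total 0 u with h | h
    · simp only [hχdef, hP1 u h]; constructor <;> linarith [hPn (-u), hPl (-u)]
    · simp only [hχdef, hP1 (-u) (by linarith)]; constructor <;> linarith [hPn u, hPl u]
  obtain ⟨A0, hA0, hA⟩ := at2_core_A0 r K a ha W hW hWU F hF hFb θ₁ θ₂ b₁ b₂ hθ hb hB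
  have hco : IsCompact (Icc θ₁ θ₂ ×ˢ Icc b₁ b₂) := isCompact_Icc.prod isCompact_Icc
  have hcl : MeasurableSet (Icc θ₁ θ₂ ×ˢ Icc b₁ b₂) := measurableSet_Icc.prod measurableSet_Icc
  have hFc : ContinuousOn F (Icc θ₁ θ₂ ×ˢ Icc b₁ b₂) := hF.continuousOn.mono hB
  have hnull := at2_core_null W hW F hF hFb θ₁ θ₂ b₁ b₂ hB
  have hnullν : ν ((Icc θ₁ θ₂ ×ˢ Icc b₁ b₂) ∩ {q | F q = 0}) = 0 :=
    measure_mono_null (inter_subset_inter_left _ hB) hν
  have hc1 : IntegrableOn (fun _ : ℝ × ℝ => (1 : ℝ)) (Icc θ₁ θ₂ ×ˢ Icc b₁ b₂) :=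
    continuousOn_const.integrableOn_compact hco
  have hc1ν : IntegrableOn (fun _ : ℝ × ℝ => (1 : ℝ)) (Icc θ₁ θ₂ ×ˢ Icc b₁ b₂) ν :=
    continuousOn_const.integrableOn_compact hco
  have t1 := at2_core_tendsto volume (Icc θ₁ θ₂ ×ˢ Icc b₁ b₂) hcl F hFc χ hχc.continuous hχz hχ1
    hnull (fun _ => 1) hc1 δ₀ hδ
  have t2 := at2_core_tendsto volume (Icc θ₁ θ₂ ×ˢ Icc b₁ b₂) hcl F hFc χ hχc.continuous hχz hχ1
    hnull S (hS.integrableOn_isCompact hco) δ₀ hδ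
  have t3 := at2_core_tendsto ν (Icc θ₁ θ₂ ×ˢ Icc b₁ b₂) hcl F hFc χ hχc.continuous hχz hχ1
    hnullν (fun _ => 1) hc1ν δ₀ hδ
  simp only [mul_one] at t1 t3
  have hs' : s * (zm - zp) = 1 ∨ s * (zm - zp) = -1 := by
    rcases hs with h | h <;> rcases hz with ⟨h1, h2⟩ | ⟨h1, h2⟩ <;> rw [h, h1, h2] <;> norm_num
  -- for every κ
  have hκ : ∀ κ : ℝ, 0 < κ → τ * (volume Θ).toReal ≤ 2 * A0 * κ := by
    intro κ hκ0
    obtain ⟨η, hη, hηs, hη0, hη1, hηκ⟩ := at2_core_eta θ₁ θ₂ Θ hΘm hΘ κ hκ0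
    obtain ⟨M, hM⟩ := isCompact_Icc.exists_bound_of_continuousOn
      (hη.continuous_deriv le_rfl).continuousOn (s := Icc θ₁ θ₂)
    have hlim : Tendsto (fun n : ℕ =>
        (M * (∫ q in Icc θ₁ θ₂ ×ˢ Icc b₁ b₂, |χ (F q / (δ₀ / (n + 2)))|) +
        (∫ q in Icc θ₁ θ₂ ×ˢ Icc b₁ b₂, |χ (F q / (δ₀ / (n + 2)))| * S q) +
        ∫ q in Icc θ₁ θ₂ ×ˢ Icc b₁ b₂, |χ (F q / (δ₀ / (n + 2)))| ∂ν) + 2 * A0 * κ) atTop
        (𝓝 ((M * 0 + 0 + 0) + 2 * A0 * κ)) :=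
      (((t1.const_mul M).add t2).add t3).add_const _
    simp only [mul_zero, add_zero, zero_add] at hlim
    apply ge_of_tendsto' hlim
    intro n
    have hn2 : (0 : ℝ) < (n : ℝ) + 2 := by positivity
    have hδn : 0 < δ₀ / ((n : ℝ) + 2) := div_pos hδ hn2
    have hδn' : δ₀ / ((n : ℝ) + 2) < δ₀ := by
      rw [div_lt_iff₀ hn2]
      nlinarith [(Nat.cast_nonneg n : (0 : ℝ) ≤ n)]
    obtain ⟨hbd, hji, -⟩ := at2_core_j_int P p hpc hp0 Z hZm hZ a ham W hW F hF θ₁ θ₂ b₁ b₂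
      _ hδn hB A0 hA0 hA
    obtain ⟨hJ, hJ'⟩ := at2_core_J P p hpc hPp hp0 hP0 hpz hP1 hpz' τ hτ Z hZm hZ a ham W hW F hF
      s hFa θ₁ θ₂ b₁ b₂ δ₀ _ hb hδn hδn' hB hm A0 hA0 hA Θ hΘ zm zp hz hm1
    have hup := at2_core_up r Z hZm hZ a S hS0 hS ν h W hW hWU F hF θ₁ θ₂ b₁ b₂ δ₀ _ hδn hδn' hB
      hm p χ hpc hχc hχd hχz hχ'z hji η hη hηs hη0 hη1 M hM
    have hlow := at2_core_low τ A0 κ (s * (zm - zp)) hs' θ₁ θ₂ b₁ b₂ _ hji hJ Θ hΘm hΘ hJ' η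
      hη.continuous hη0 hη1 hηκ hA0
    linarith
  have hfin : volume Θ ≠ ⊤ := ne_top_of_le_ne_top (by simp) (measure_mono hΘ)
  have h0 : τ * (volume Θ).toReal ≤ 0 := by
    have hlim : Tendsto (fun n : ℕ => 2 * A0 * (1 / ((n : ℝ) + 1))) atTop (𝓝 (2 * A0 * 0)) :=
      tendsto_one_div_add_atTop_nhds_zero_nat.const_mul _
    rw [mul_zero] at hlim
    exact ge_of_tendsto' hlim fun n => hκ _ (by positivity)
  have h1 : (volume Θ).toReal = 0 := by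
    have := ENNReal.toReal_nonneg (a := volume Θ)
    by_contra hne
    have h2 : 0 < (volume Θ).toReal := lt_of_le_of_ne this (Ne.symm hne)
    nlinarith [mul_pos hτ h2]
  rcases (ENNReal.toReal_eq_zero_iff _).1 h1 with h | h
  · exact h
  · exact absurd h hfin

theorem at2_core_rhs (φ S : ℝ × ℝ → ℝ) (c : ℝ) (hc : 0 ≤ c)
    (hi : Integrable fun p => |φ p| * S p) (h0 : 0 ≤ ∫ p, |φ p| * S p) :
    (∫ p, (|φ p| * S p + c)) ≤ (∫ p, |φ p| * S p) + c := by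
  rcases hc.eq_or_lt with h | h
  · rw [← h]; simp
  · have hni : ¬ Integrable (fun p => |φ p| * S p + c) := by
      intro hint
      have h1 : Integrable (fun _ : ℝ × ℝ => c) := by
        have := hint.sub hi
        refine this.congr (Filter.Eventually.of_forall fun p => ?_)
        simp
      rw [integrable_const_iff] at h1
      rcases h1 with h1 | h1
      · exact h.ne' h1
      · have h2 := h1.measure_univ_lt_top
        simp at h2
    rw [integral_undef hni]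
    linarith

theorem at2_core_int (r : ℝ) (φ S : ℝ × ℝ → ℝ) (hφ : TF r φ) (hS : LocallyIntegrable S) :
    Integrable fun p => |φ p| * S p := by
  have h1 : IntegrableOn (fun p => |φ p| * S p) (tsupport φ) := by
    exact (hS.integrableOn_isCompact hφ.2.1).continuousOn_mul
      (hφ.1.continuous.abs.continuousOn) hφ.2.1
  rw [← integrableOn_iff_integrable_of_support_subset (s := tsupport φ)]
  · exact h1
  · intro p hp
    by_contra hpt
    apply hp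
    simp only
    rw [image_eq_zero_of_notMem_tsupport hpt, abs_zero, zero_mul]

/-- AT2 core: with `F = 0` a transversal curve crossing the box, the set of `θ` for which
`Z(θ,·)` has a genuine jump at the curve is null. -/
theorem at2_core (r τ K : ℝ) (hr : 0 < r) (hτ : 0 < τ)
    (Z : ℝ × ℝ → ℝ) (hZm : Measurable Z) (hZ : ∀ p, Z p = 0 ∨ Z p = 1)
    (a : ℝ × ℝ → ℝ) (ham : Measurable a) (ha : ∀ p : ℝ × ℝ, |p.2| < r → |a p| ≤ K)
    (S : ℝ × ℝ → ℝ) (hS0 : ∀ p, 0 ≤ S p) (hSm : Measurable S) (hS : LocallyIntegrable S)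
    (ν : Measure (ℝ × ℝ)) [IsFiniteMeasureOnCompacts ν]
    (h : ∀ φ, TF r φ →
      |∫ p, Z p * fderiv ℝ φ p (1, -a p)| ≤ (∫ p, |φ p| * S p) + ∫ p, |φ p| ∂ν)
    (W : Set (ℝ × ℝ)) (hW : IsOpen W) (hWU : W ⊆ {p | |p.2| < r})
    (F : ℝ × ℝ → ℝ) (hF : ContDiffOn ℝ 1 F W) (hFb : ∀ q ∈ W, 0 < fderiv ℝ F q (0, 1))
    (s : ℝ) (hs : s = 1 ∨ s = -1)
    (hFa : ∀ q ∈ W, τ * fderiv ℝ F q (0, 1) ≤ s * fderiv ℝ F q (1, -a q))
    (hν : ν (W ∩ {q | F q = 0}) = 0)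
    (θ₁ θ₂ b₁ b₂ δ₀ : ℝ) (hθ : θ₁ < θ₂) (hb : b₁ < b₂) (hδ : 0 < δ₀)
    (hB : Icc θ₁ θ₂ ×ˢ Icc b₁ b₂ ⊆ W)
    (hm : ∀ θ ∈ Icc θ₁ θ₂, F (θ, b₁) ≤ -δ₀ ∧ δ₀ ≤ F (θ, b₂))
    (Θ : Set ℝ) (hΘm : MeasurableSet Θ) (hΘ : Θ ⊆ Ioo θ₁ θ₂)
    (zm zp : ℝ) (hz : (zm = 0 ∧ zp = 1) ∨ (zm = 1 ∧ zp = 0))
    (hm1 : ∀ θ ∈ Θ, ∀ᵐ b ∂(volume.restrict (Ioo b₁ b₂)),
      (-δ₀ < F (θ, b) → F (θ, b) < 0 → Z (θ, b) = zm) ∧
      (0 < F (θ, b) → F (θ, b) < δ₀ → Z (θ, b) = zp)) :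
    volume Θ = 0 := by
  exact at2_core_brack r τ K hτ Z hZm hZ a ham ha S hS0 hS ν h W hW hWU F hF hFb s hs hFa hν
    θ₁ θ₂ b₁ b₂ δ₀ hθ hb hδ hB hm Θ hΘm hΘ zm zp hz hm1

end Pool.Light
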