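import Pool.Agent.H721Light.Defs

set_option autoImplicit false

open MeasureTheory Set Filter Topology

namespace Pool.Light


/-- AT4: no essential jump implies a.e. constant. -/
theorem at4 (r : ℝ) (hr : 0 < r) (Z : ℝ × ℝ → ℝ) (θ : ℝ)
    (h : ∀ b, |b| < r → ¬ Jump Z θ b) :
    ∃ z, ∀ᵐ b ∂(volume.restrict (Ioo (-r) r)), Z (θ, b) = z := by
  have h1 : ∀ b, ∃ δ, ∃ z : ℝ, b ∈ Ioo (-r) r → 0 < δ ∧
      ∀ᵐ b' : ℝ, b' ∈ Ioo (b - δ) (b + δ) → Z (θ, b') = z := by
    intro b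
    by_cases hb : b ∈ Ioo (-r) r
    · have h2 := h b (abs_lt.2 hb)
      unfold Jump at h2
      rw [not_not] at h2
      obtain ⟨δ, hδ, z, hz⟩ := h2
      rw [ae_restrict_iff' measurableSet_Ioo] at hz
      exact ⟨δ, z, fun _ => ⟨hδ, hz⟩⟩
    · exact ⟨0, 0, fun hb' => absurd hb' hb⟩
  choose δ z hz using h1
  have hI : IsPreconnected (Ioo (-r) r) := isPreconnected_Ioo
  have hconst : ∀ x ∈ Ioo (-r) r, ∀ y ∈ Ioo (-r) r, z x = z y := by
    intro x hx y hy
    refine hI.induction₂ (fun x y => z x = z y) ?_ ?_ ?_ hx hy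
    · intro x hx
      have hδ := (hz x hx).1
      have hn : Ioo (x - δ x) (x + δ x) ∈ 𝓝[Ioo (-r) r] x :=
        mem_nhdsWithin_of_mem_nhds (Ioo_mem_nhds (by linarith) (by linarith))
      filter_upwards [hn, self_mem_nhdsWithin] with y hy hy'
      have hδy := (hz y hy').1
      by_contra hne
      have e1 := (hz x hx).2
      have e2 := (hz y hy').2
      have e3 : ∀ᵐ b' : ℝ, b' ∉ Ioo (x - δ x) (x + δ x) ∩ Ioo (y - δ y) (y + δ y) := by
        filter_upwards [e1, e2] with b' f1 f2 hb'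
        exact hne ((f1 hb'.1).symm.trans (f2 hb'.2))
      have hopen : IsOpen (Ioo (x - δ x) (x + δ x) ∩ Ioo (y - δ y) (y + δ y)) :=
        isOpen_Ioo.inter isOpen_Ioo
      have hne' : (Ioo (x - δ x) (x + δ x) ∩ Ioo (y - δ y) (y + δ y)).Nonempty :=
        ⟨y, hy, by constructor <;> linarith⟩
      have hpos := hopen.measure_pos (volume : Measure ℝ) hne'
      have hzero : volume (Ioo (x - δ x) (x + δ x) ∩ Ioo (y - δ y) (y + δ y)) = 0 :=
        measure_eq_zero_iff_ae_notMem.2 e3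
      exact absurd hzero hpos.ne'
    · intro x y w _ _ _ h1 h2
      exact h1.trans h2
    · intro x y _ _ h1
      exact h1.symm
  have h0 : (0 : ℝ) ∈ Ioo (-r) r := by constructor <;> linarith
  refine ⟨z 0, ?_⟩
  rw [ae_restrict_iff' measurableSet_Ioo, ae_iff]
  refine measure_null_of_locally_null _ (fun x hx => ?_)
  have hx' : x ∈ Ioo (-r) r := by
    by_contra hcon
    exact hx (fun h => absurd h hcon)
  have hδ := (hz x hx').1
  refine ⟨Ioo (x - δ x) (x + δ x) ∩ {a | ¬(a ∈ Ioo (-r) r → Z (θ, a) = z 0)}, ?_, ?_⟩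
  · rw [inter_comm]
    exact inter_mem_nhdsWithin _ (Ioo_mem_nhds (by linarith) (by linarith))
  · have e1 := (hz x hx').2
    rw [hconst x hx' 0 h0] at e1
    refine measure_eq_zero_iff_ae_notMem.2 ?_
    filter_upwards [e1] with b' f1 hb'
    exact hb'.2 (fun _ => f1 hb'.1)

end Pool.Light
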