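import Pool.Agent.H721Light.Defs
import Pool.Agent.H721Light.P_at1
import Pool.Agent.H721Light.P_at2
import Pool.Agent.H721Light.P_at4

/- NOTE by helper389: the original statements wrote `(∫ p, |φ p| * S p) + ∫ p, |φ p| ∂ν`, which Lean parses as
`∫ p, (|φ p| * S p + (∫ p, |φ p| ∂ν))` (a non-integrable constant).  In this file at1, at2 and absThm are stated
with brackets `(∫ p, |φ p| * S p) + ∫ p, |φ p| ∂ν`; nothing else is changed. -/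


set_option autoImplicit false

open MeasureTheory Set Filter Topology

namespace Pool.Light




theorem absThm_fd (φ : ℝ × ℝ → ℝ) (p : ℝ × ℝ) (a : ℝ) :
    fderiv ℝ φ p (1, -a) = fderiv ℝ φ p (1, 0) - a * fderiv ℝ φ p (0, 1) := by
  have e : ((1 : ℝ), -a) = (1, 0) + (-a) • ((0 : ℝ), (1 : ℝ)) := by
    ext <;> simp
  rw [e, map_add, map_smul, smul_eq_mul]
  ring

theorem absThm_integrable (r K : ℝ) (Z : ℝ × ℝ → ℝ) (hZm : Measurable Z)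
    (hZ : ∀ p, Z p = 0 ∨ Z p = 1) (a : ℝ × ℝ → ℝ) (ham : Measurable a)
    (ha : ∀ p : ℝ × ℝ, |p.2| < r → |a p| ≤ K) (φ : ℝ × ℝ → ℝ) (hφ : TF r φ) :
    Integrable fun p => Z p * fderiv ℝ φ p (1, -a p) := by
  obtain ⟨h1, h2, h3⟩ := hφ
  have hc : Continuous (fderiv ℝ φ) := h1.continuous_fderiv one_ne_zero
  have hc1 : Continuous fun p => fderiv ℝ φ p (1, 0) := hc.clm_apply continuous_const
  have hc2 : Continuous fun p => fderiv ℝ φ p (0, 1) := hc.clm_apply continuous_const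
  have hs1 : HasCompactSupport fun p => fderiv ℝ φ p (1, 0) :=
    (h2.fderiv ℝ).comp_left (g := fun L : ℝ × ℝ →L[ℝ] ℝ => L (1, 0)) rfl
  have hs2 : HasCompactSupport fun p => fderiv ℝ φ p (0, 1) :=
    (h2.fderiv ℝ).comp_left (g := fun L : ℝ × ℝ →L[ℝ] ℝ => L (0, 1)) rfl
  have i1 : Integrable fun p => |fderiv ℝ φ p (1, 0)| :=
    (hc1.integrable_of_hasCompactSupport hs1).abs
  have i2 : Integrable fun p => |fderiv ℝ φ p (0, 1)| :=
    (hc2.integrable_of_hasCompactSupport hs2).abs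
  have i3 : Integrable fun p => |fderiv ℝ φ p (1, 0)| + K * |fderiv ℝ φ p (0, 1)| :=
    i1.add (i2.const_mul K)
  refine i3.mono ?_ ?_
  · have e : (fun p => Z p * fderiv ℝ φ p (1, -a p)) =
        fun p => Z p * (fderiv ℝ φ p (1, 0) - a p * fderiv ℝ φ p (0, 1)) := by
      funext p
      rw [absThm_fd]
    rw [e]
    exact (hZm.mul (hc1.measurable.sub (ham.mul hc2.measurable))).aestronglyMeasurable
  · refine Filter.Eventually.of_forall fun p => ?_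
    rw [Real.norm_eq_abs, Real.norm_eq_abs]
    refine le_trans ?_ (le_abs_self _)
    have hZ1 : |Z p| ≤ 1 := by
      rcases hZ p with h | h <;> rw [h] <;> simp
    rw [abs_mul, absThm_fd]
    by_cases hp : |p.2| < r
    · have h4 := ha p hp
      calc |Z p| * |fderiv ℝ φ p (1, 0) - a p * fderiv ℝ φ p (0, 1)|
          ≤ 1 * |fderiv ℝ φ p (1, 0) - a p * fderiv ℝ φ p (0, 1)| :=
            mul_le_mul_of_nonneg_right hZ1 (abs_nonneg _)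
        _ ≤ |fderiv ℝ φ p (1, 0)| + |a p * fderiv ℝ φ p (0, 1)| := by
            rw [one_mul]
            exact abs_sub _ _
        _ ≤ |fderiv ℝ φ p (1, 0)| + K * |fderiv ℝ φ p (0, 1)| := by
            rw [abs_mul]
            gcongr
    · have h5 : p ∉ tsupport φ := fun h => hp (h3 h)
      have h6 : fderiv ℝ φ p = 0 := by
        have h7 : p ∉ tsupport (fderiv ℝ φ) := fun h => h5 (tsupport_fderiv_subset ℝ h)
        exact image_eq_zero_of_notMem_tsupport h7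
      rw [h6]
      simp

/-- finiteness on compacts of a sum -/
theorem absThm_fin (νS νU : Measure (ℝ × ℝ)) [IsFiniteMeasureOnCompacts νS]
    [IsFiniteMeasureOnCompacts νU] : IsFiniteMeasureOnCompacts (νS + νU) :=
  ⟨fun K hK => by
    rw [Measure.add_apply]
    exact ENNReal.add_lt_top.2 ⟨hK.measure_lt_top, hK.measure_lt_top⟩⟩

theorem absThm_diff (r K : ℝ) (Z : ℝ × ℝ → ℝ) (hZm : Measurable Z)
    (hZ : ∀ p, Z p = 0 ∨ Z p = 1)
    (aS aU : ℝ × ℝ → ℝ) (haSm : Measurable aS) (haUm : Measurable aU)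
    (haS : ∀ p : ℝ × ℝ, |p.2| < r → |aS p| ≤ K) (haU : ∀ p : ℝ × ℝ, |p.2| < r → |aU p| ≤ K)
    (SS SU : ℝ × ℝ → ℝ) (hSS : LocallyIntegrable SS) (hSU : LocallyIntegrable SU)
    (νS νU : Measure (ℝ × ℝ)) [IsFiniteMeasureOnCompacts νS] [IsFiniteMeasureOnCompacts νU]
    (φ : ℝ × ℝ → ℝ) (hφ : TF r φ)
    (hs : |∫ p, Z p * fderiv ℝ φ p (1, -aS p)| ≤ (∫ p, |φ p| * SS p) + ∫ p, |φ p| ∂νS)
    (hu : |∫ p, Z p * fderiv ℝ φ p (1, -aU p)| ≤ (∫ p, |φ p| * SU p) + ∫ p, |φ p| ∂νU) :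
    |∫ p, Z p * (aS p - aU p) * fderiv ℝ φ p (0, 1)| ≤
      (∫ p, |φ p| * (SS p + SU p)) + ∫ p, |φ p| ∂(νS + νU) := by
  have i1 := absThm_integrable r K Z hZm hZ aS haSm haS φ hφ
  have i2 := absThm_integrable r K Z hZm hZ aU haUm haU φ hφ
  have hφc : Continuous fun p => |φ p| := hφ.1.continuous.abs
  have hφs : HasCompactSupport fun p => |φ p| := hφ.2.1.comp_left (g := fun x : ℝ => |x|) (by simp)
  have e1 : ∫ p, Z p * (aS p - aU p) * fderiv ℝ φ p (0, 1) =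
      (∫ p, Z p * fderiv ℝ φ p (1, -aU p)) - ∫ p, Z p * fderiv ℝ φ p (1, -aS p) := by
    rw [← integral_sub i2 i1]
    congr 1
    funext p
    rw [absThm_fd, absThm_fd]
    ring
  have j1 : Integrable fun p => |φ p| * SS p := by
    have := hSS.integrable_smul_left_of_hasCompactSupport hφc hφs
    simpa only [smul_eq_mul] using this
  have j2 : Integrable fun p => |φ p| * SU p := by
    have := hSU.integrable_smul_left_of_hasCompactSupport hφc hφs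
    simpa only [smul_eq_mul] using this
  have e2 : ∫ p, |φ p| * (SS p + SU p) = (∫ p, |φ p| * SS p) + ∫ p, |φ p| * SU p := by
    rw [← integral_add j1 j2]
    congr 1
    funext p
    ring
  have k1 : Integrable (fun p => |φ p|) νS := hφc.integrable_of_hasCompactSupport hφs
  have k2 : Integrable (fun p => |φ p|) νU := hφc.integrable_of_hasCompactSupport hφs
  have e3 : ∫ p, |φ p| ∂(νS + νU) = (∫ p, |φ p| ∂νS) + ∫ p, |φ p| ∂νU :=
    integral_add_measure k1 k2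
  rw [e1, e2, e3]
  have := abs_sub (∫ p, Z p * fderiv ℝ φ p (1, -aU p)) (∫ p, Z p * fderiv ℝ φ p (1, -aS p))
  linarith

theorem absThm_nojump (r τ : ℝ) (Z : ℝ × ℝ → ℝ) (ν : Measure (ℝ × ℝ))
    [IsFiniteMeasureOnCompacts ν]
    (hJ : ∀ O : Set (ℝ × ℝ), IsOpen O → O ⊆ {p | |p.2| < r} →
      volume {θ : ℝ | ∃ b, (θ, b) ∈ O ∧ Jump Z θ b} ≤ ENNReal.ofReal (2 / τ) * ν O)
    (A : Set (ℝ × ℝ)) (hA : A ⊆ {p | |p.2| < r}) (hνA : ν A = 0) :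
    ∀ᵐ θ : ℝ, ∀ b, (θ, b) ∈ A → ¬ Jump Z θ b := by
  have hU : IsOpen {p : ℝ × ℝ | |p.2| < r} :=
    isOpen_lt continuous_snd.abs continuous_const
  have h0 : volume {θ : ℝ | ∃ b, (θ, b) ∈ A ∧ Jump Z θ b} = 0 := by
    refine le_antisymm ?_ bot_le
    refine ENNReal.le_of_forall_pos_le_add fun ε hε _ => ?_
    rw [zero_add]
    have hc : ENNReal.ofReal (2 / τ) ≠ ⊤ := ENNReal.ofReal_ne_top
    obtain ⟨δ, hδ0, hδ⟩ : ∃ δ : ENNReal, 0 < δ ∧ ENNReal.ofReal (2 / τ) * δ ≤ ε := by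
      refine ⟨(ε : ENNReal) / (ENNReal.ofReal (2 / τ) + 1), ?_, ?_⟩
      · exact ENNReal.div_pos (by exact_mod_cast hε.ne') (by simp)
      · rw [← mul_div_assoc]
        refine ENNReal.div_le_of_le_mul ?_
        rw [mul_comm]
        gcongr
        exact le_self_add
    obtain ⟨O, hAO, hOo, hOν⟩ := A.exists_isOpen_lt_of_lt δ (by rw [hνA]; exact hδ0)
    refine le_trans (measure_mono ?_) ((hJ (O ∩ {p | |p.2| < r}) (hOo.inter hU)
      inter_subset_right).trans ?_)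
    · rintro θ ⟨b, hb, hj⟩
      exact ⟨b, ⟨hAO hb, hA hb⟩, hj⟩
    · refine le_trans ?_ hδ
      gcongr
      exact (measure_mono inter_subset_left).trans hOν.le
  have h1 : ∀ᵐ θ : ℝ, θ ∉ {θ : ℝ | ∃ b, (θ, b) ∈ A ∧ Jump Z θ b} := measure_eq_zero_iff_ae_notMem.1 h0
  filter_upwards [h1] with θ hθ b hb hj
  exact hθ ⟨b, hb, hj⟩

/-- AT: the abstract constancy theorem. -/
theorem absThm (r τ K : ℝ) (hr : 0 < r) (hτ : 0 < τ)
    (Z : ℝ × ℝ → ℝ) (hZm : Measurable Z) (hZ : ∀ p, Z p = 0 ∨ Z p = 1)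
    (aS aU : ℝ × ℝ → ℝ) (haSm : Measurable aS) (haUm : Measurable aU)
    (ha : ∀ p : ℝ × ℝ, |p.2| < r → |aS p| ≤ K ∧ |aU p| ≤ K ∧ τ ≤ aS p - aU p)
    (SS SU : ℝ × ℝ → ℝ) (hSS0 : ∀ p, 0 ≤ SS p) (hSSm : Measurable SS) (hSS : LocallyIntegrable SS)
    (hSU0 : ∀ p, 0 ≤ SU p) (hSUm : Measurable SU) (hSU : LocallyIntegrable SU)
    (νS νU : Measure (ℝ × ℝ)) [IsFiniteMeasureOnCompacts νS] [IsFiniteMeasureOnCompacts νU]
    (hs : ∀ φ, TF r φ →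
      |∫ p, Z p * fderiv ℝ φ p (1, -aS p)| ≤ (∫ p, |φ p| * SS p) + ∫ p, |φ p| ∂νS)
    (hu : ∀ φ, TF r φ →
      |∫ p, Z p * fderiv ℝ φ p (1, -aU p)| ≤ (∫ p, |φ p| * SU p) + ∫ p, |φ p| ∂νU)
    (WS WU : ℕ → Set (ℝ × ℝ)) (FS FU : ℕ → ℝ × ℝ → ℝ)
    (hWS : ∀ l, IsOpen (WS l) ∧ WS l ⊆ {p | |p.2| < r} ∧ ContDiffOn ℝ 1 (FS l) (WS l) ∧
      (∀ q ∈ WS l, 0 < fderiv ℝ (FS l) q (0, 1) ∧
        τ * fderiv ℝ (FS l) q (0, 1) ≤ fderiv ℝ (FS l) q (1, -aU q)) ∧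
      νU (WS l ∩ {q | FS l q = 0}) = 0)
    (hWU : ∀ l, IsOpen (WU l) ∧ WU l ⊆ {p | |p.2| < r} ∧ ContDiffOn ℝ 1 (FU l) (WU l) ∧
      (∀ q ∈ WU l, 0 < fderiv ℝ (FU l) q (0, 1) ∧
        τ * fderiv ℝ (FU l) q (0, 1) ≤ -fderiv ℝ (FU l) q (1, -aS q)) ∧
      νS (WU l ∩ {q | FU l q = 0}) = 0)
    (hcS : νS ({p | |p.2| < r} \ ⋃ l, (WS l ∩ {q | FS l q = 0})) = 0)
    (hcU : νU ({p | |p.2| < r} \ ⋃ l, (WU l ∩ {q | FU l q = 0})) = 0) :
    ∀ᵐ θ : ℝ, ∃ z, ∀ᵐ b ∂(volume.restrict (Ioo (-r) r)), Z (θ, b) = z := by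
  have : IsFiniteMeasureOnCompacts (νS + νU) := absThm_fin νS νU
  have hJ : ∀ O : Set (ℝ × ℝ), IsOpen O → O ⊆ {p | |p.2| < r} →
      volume {θ : ℝ | ∃ b, (θ, b) ∈ O ∧ Jump Z θ b} ≤ ENNReal.ofReal (2 / τ) * (νS + νU) O := by
    intro O hO hOU
    refine at1 r τ (2 * K) hr hτ Z hZm hZ (fun p => aS p - aU p) (haSm.sub haUm) ?_
      (fun p => SS p + SU p) (fun p => add_nonneg (hSS0 p) (hSU0 p)) (hSSm.add hSUm)
      (hSS.add hSU) (νS + νU) ?_ O hO hOU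
    · intro p hp
      obtain ⟨h1, h2, h3⟩ := ha p hp
      refine ⟨h3, ?_⟩
      have := abs_le.1 h1
      have := abs_le.1 h2
      show aS p - aU p ≤ 2 * K
      linarith
    · intro φ hφ
      exact absThm_diff r K Z hZm hZ aS aU haSm haUm (fun p hp => (ha p hp).1)
        (fun p hp => (ha p hp).2.1) SS SU hSS hSU νS νU φ hφ (hs φ hφ) (hu φ hφ)
  have h1 : ∀ᵐ θ : ℝ, ∀ l, ∀ b, (θ, b) ∈ WS l → FS l (θ, b) = 0 → ¬ Jump Z θ b := by
    rw [ae_all_iff]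
    intro l
    obtain ⟨w1, w2, w3, w4, w5⟩ := hWS l
    exact at2 r τ K hr hτ Z hZm hZ aU haUm (fun p hp => (ha p hp).2.1) SU hSU0 hSUm hSU νU hu
      (νS + νU) _ ENNReal.ofReal_ne_top hJ (WS l) w1 w2 (FS l) w3 (fun q hq => (w4 q hq).1)
      1 (Or.inl rfl) (fun q hq => by rw [one_mul]; exact (w4 q hq).2) w5
  have h2 : ∀ᵐ θ : ℝ, ∀ l, ∀ b, (θ, b) ∈ WU l → FU l (θ, b) = 0 → ¬ Jump Z θ b := by
    rw [ae_all_iff]
    intro l
    obtain ⟨w1, w2, w3, w4, w5⟩ := hWU l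
    exact at2 r τ K hr hτ Z hZm hZ aS haSm (fun p hp => (ha p hp).1) SS hSS0 hSSm hSS νS hs
      (νS + νU) _ ENNReal.ofReal_ne_top hJ (WU l) w1 w2 (FU l) w3 (fun q hq => (w4 q hq).1)
      (-1) (Or.inr rfl) (fun q hq => by rw [neg_one_mul]; exact (w4 q hq).2) w5
  have h3 : ∀ᵐ θ : ℝ, ∀ b, (θ, b) ∈ ({p : ℝ × ℝ | |p.2| < r} \ ⋃ l, (WS l ∩ {q | FS l q = 0})) \
      ⋃ l, (WU l ∩ {q | FU l q = 0}) → ¬ Jump Z θ b := by
    refine absThm_nojump r τ Z (νS + νU) hJ _ (fun p hp => hp.1.1) ?_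
    rw [Measure.add_apply]
    have e1 : νS (({p : ℝ × ℝ | |p.2| < r} \ ⋃ l, (WS l ∩ {q | FS l q = 0})) \
      ⋃ l, (WU l ∩ {q | FU l q = 0})) = 0 := measure_mono_null sdiff_subset hcS
    have e2 : νU (({p : ℝ × ℝ | |p.2| < r} \ ⋃ l, (WS l ∩ {q | FS l q = 0})) \
      ⋃ l, (WU l ∩ {q | FU l q = 0})) = 0 := measure_mono_null (sdiff_subset_sdiff_left sdiff_subset) hcU
    rw [e1, e2, add_zero]
  filter_upwards [h1, h2, h3] with θ t1 t2 t3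
  refine at4 r hr Z θ fun b hb => ?_
  by_cases c1 : (θ, b) ∈ ⋃ l, (WS l ∩ {q | FS l q = 0})
  · obtain ⟨l, hl1, hl2⟩ := mem_iUnion.1 c1
    exact t1 l b hl1 hl2
  by_cases c2 : (θ, b) ∈ ⋃ l, (WU l ∩ {q | FU l q = 0})
  · obtain ⟨l, hl1, hl2⟩ := mem_iUnion.1 c2
    exact t2 l b hl1 hl2
  exact t3 b ⟨⟨hb, c1⟩, c2⟩

end Pool.Light
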