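import Pool.Agent.H721Light.Defs
import Pool.Agent.H721Light.P_gap
import Pool.Agent.H721Light.P_basics
import Pool.Agent.H721Light.P_hits_unique
import Pool.Agent.H721Light.P_T_of_hits
import Pool.Agent.H721Light.P_Tsmooth

set_option autoImplicit false

open MeasureTheory Set Filter Topology

namespace Pool.Light


variable {n : ℕ}

theorem chainT_lin (L : ℝ × ℝ →L[ℝ] ℝ) (s a b : ℝ) :
    L (a, b) = a * L (1, -s) + (b + a * s) * L (0, 1) := by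
  have h1 : ((a, b) : ℝ × ℝ) = a • ((1, -s) : ℝ × ℝ) + (b + a * s) • ((0, 1) : ℝ × ℝ) := by
    ext
    · simp
    · simp
  rw [h1, map_add, map_smul, map_smul, smul_eq_mul, smul_eq_mul]

/-- chain rule for `T` in the frame (stable direction, `∂_b`). -/
theorem chainT (C : Cfg n) {i j : Fin n} {p : ℝ × ℝ} (hp : |p.2| < C.r i)
    (h : C.Hits i j p.1 p.2) (f : ℝ × ℝ → ℝ)
    (hf : DifferentiableAt ℝ f (C.Tj i j p.1 p.2)) (s' : ℝ)
    (hs' : C.hc j (C.bp i j p.1 p.2) < 2 * s') :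
    fderiv ℝ (fun q : ℝ × ℝ => f (C.Tj i j q.1 q.2)) p
        (1, -(C.dv i j p.1 - Cfg.gf s' (C.hc j (C.bp i j p.1 p.2)))) =
      -(C.hc j (C.bp i j p.1 p.2) / (2 * s' - C.hc j (C.bp i j p.1 p.2))) *
        fderiv ℝ f (C.Tj i j p.1 p.2) (1, -s') ∧
    fderiv ℝ (fun q : ℝ × ℝ => f (C.Tj i j q.1 q.2)) p (0, 1) =
      -(2 / C.hc j (C.bp i j p.1 p.2)) * fderiv ℝ f (C.Tj i j p.1 p.2) (1, -s') -
      ((2 * s' - C.hc j (C.bp i j p.1 p.2)) / C.hc j (C.bp i j p.1 p.2)) *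
        fderiv ℝ f (C.Tj i j p.1 p.2) (0, 1) := by
  obtain ⟨-, hT1, hT2⟩ := Tsmooth C hp h
  have hTd : DifferentiableAt ℝ (fun q : ℝ × ℝ => C.Tj i j q.1 q.2) p :=
    hT1.differentiableAt one_ne_zero
  have hcp : 0 < C.hc j (C.bp i j p.1 p.2) := by
    unfold Cfg.hc
    rw [Real.sqrt_pos]
    have h1 := h.2.2.1
    have h2 := sq_lt_sq' (abs_lt.1 h1).1 (abs_lt.1 h1).2
    linarith
  have hcomp : fderiv ℝ (fun q : ℝ × ℝ => f (C.Tj i j q.1 q.2)) p =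
      (fderiv ℝ f (C.Tj i j p.1 p.2)).comp (fderiv ℝ (fun q : ℝ × ℝ => C.Tj i j q.1 q.2) p) :=
    fderiv_comp (g := f) (f := fun q : ℝ × ℝ => C.Tj i j q.1 q.2) p hf hTd
  obtain ⟨c, hc⟩ : ∃ c, c = C.hc j (C.bp i j p.1 p.2) := ⟨_, rfl⟩
  obtain ⟨L, hL⟩ : ∃ L, L = fderiv ℝ f (C.Tj i j p.1 p.2) := ⟨_, rfl⟩
  rw [hcomp, ContinuousLinearMap.comp_apply, ContinuousLinearMap.comp_apply, hT2, hT2, ← hc, ← hL]
  rw [← hc] at hcp hs'
  have h2s : 0 < 2 * s' - c := by linarith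
  have e1 := chainT_lin L s' (1 - 2 / c * (-(C.dv i j p.1 - Cfg.gf s' c) + C.dv i j p.1 * 1))
    (-(C.dv i j p.1 - Cfg.gf s' c) + C.dv i j p.1 * 1)
  have e2 := chainT_lin L s' (0 - 2 / c * (1 + C.dv i j p.1 * 0)) (1 + C.dv i j p.1 * 0)
  constructor
  · refine e1.trans ?_
    have h3 : 1 - 2 / c * (-(C.dv i j p.1 - Cfg.gf s' c) + C.dv i j p.1 * 1) = -(c / (2 * s' - c)) := by
      unfold Cfg.gf
      field_simp
      ring
    have h4 : -(C.dv i j p.1 - Cfg.gf s' c) + C.dv i j p.1 * 1 + -(c / (2 * s' - c)) * s' = 0 := by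
      unfold Cfg.gf
      field_simp
      ring
    rw [h3, h4]
    ring
  · refine e2.trans ?_
    field_simp
    ring

end Pool.Light
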