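import Pool.Agent.H721Light.Defs
import Pool.Agent.H721Light.P_gap
import Pool.Agent.H721Light.P_basics
import Pool.Agent.H721Light.P_hits_unique
import Pool.Agent.H721Light.P_T_of_hits

set_option autoImplicit false

open MeasureTheory Set Filter Topology

namespace Pool.Light


variable {n : ℕ}

theorem kap_facts_Qf_contDiff : ContDiff ℝ 1 Cfg.Qf := by
  have h : ContDiff ℝ 1 (fun u : ℝ => 4 * u ^ 2 - 1) := by fun_prop
  exact Real.smoothTransition.contDiff.comp h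

theorem kap_facts_Qf_zero {u : ℝ} (hu : |u| ≤ 1 / 2) : Cfg.Qf u = 0 := by
  unfold Cfg.Qf
  apply Real.smoothTransition.zero_of_nonpos
  have h := sq_abs u
  have h0 := abs_nonneg u
  nlinarith

theorem kap_facts_Qf_one {u : ℝ} (hu : 1 / 2 ≤ u ^ 2) : Cfg.Qf u = 1 := by
  unfold Cfg.Qf
  apply Real.smoothTransition.one_of_one_le
  linarith

theorem kap_facts_Qf_mem (u : ℝ) : 0 ≤ Cfg.Qf u ∧ Cfg.Qf u ≤ 1 :=
  ⟨Real.smoothTransition.nonneg _, Real.smoothTransition.le_one _⟩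

theorem kap_facts_Qf_deriv {u : ℝ} (hu : 1 ≤ |u|) : deriv Cfg.Qf u = 0 := by
  have h1 : Cfg.Qf =ᶠ[𝓝 u] fun _ => (1 : ℝ) := by
    have h2 : ∀ᶠ v in 𝓝 u, 1 / 2 < v ^ 2 := by
      have hc : Continuous fun v : ℝ => v ^ 2 := by fun_prop
      apply hc.tendsto u |>.eventually_const_lt
      have := sq_abs u
      nlinarith
    filter_upwards [h2] with v hv
    exact kap_facts_Qf_one hv.le
  rw [h1.deriv_eq]
  simp

theorem kap_facts_bound : ∃ q0 : ℝ, 0 ≤ q0 ∧ ∀ u, |deriv Cfg.Qf u| ≤ q0 := by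
  have hc : Continuous (deriv Cfg.Qf) := kap_facts_Qf_contDiff.continuous_deriv le_rfl
  obtain ⟨q, hq⟩ := (isCompact_Icc (a := (-1 : ℝ)) (b := 1)).exists_bound_of_continuousOn
    hc.continuousOn
  refine ⟨max q 0, le_max_right _ _, fun u => ?_⟩
  by_cases hu : 1 ≤ |u|
  · rw [kap_facts_Qf_deriv hu, abs_zero]; exact le_max_right _ _
  · push Not at hu
    rw [abs_lt] at hu
    have := hq u ⟨hu.1.le, hu.2.le⟩
    rw [Real.norm_eq_abs] at this
    exact this.trans (le_max_left _ _)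

open Classical in
/-- one factor of the cutoff -/
noncomputable def kap_facts_F (C : Cfg n) (ε : ℝ) (i k : Fin n) (q : ℝ × ℝ) : ℝ :=
  if k ≠ i ∧ 0 < C.dv i k q.1 then
    Cfg.Qf ((C.bp i k q.1 q.2 - C.r k) / ε) * Cfg.Qf ((C.bp i k q.1 q.2 + C.r k) / ε) else 1

theorem kap_facts_prod (C : Cfg n) (ε : ℝ) (i : Fin n) (q : ℝ × ℝ) :
    C.kap ε (i, q) = ∏ k, kap_facts_F C ε i k q := rfl

/-- the smooth branch -/
noncomputable def kap_facts_G (C : Cfg n) (ε : ℝ) (i k : Fin n) (q : ℝ × ℝ) : ℝ :=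
  Cfg.Qf ((C.bp i k q.1 q.2 - C.r k) / ε) * Cfg.Qf ((C.bp i k q.1 q.2 + C.r k) / ε)

theorem kap_facts_bp_contDiff (C : Cfg n) (i k : Fin n) :
    ContDiff ℝ 1 (fun q : ℝ × ℝ => C.bp i k q.1 q.2) := by
  unfold Cfg.bp Cfg.dn
  fun_prop

theorem kap_facts_dv_cont (C : Cfg n) (i k : Fin n) :
    Continuous (fun q : ℝ × ℝ => C.dv i k q.1) := by
  unfold Cfg.dv
  fun_prop

theorem kap_facts_bp_deriv (C : Cfg n) (i k : Fin n) (p : ℝ × ℝ) :
    HasFDerivAt (fun q : ℝ × ℝ => C.bp i k q.1 q.2)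
      (ContinuousLinearMap.snd ℝ ℝ ℝ - (-C.dv i k p.1) • ContinuousLinearMap.fst ℝ ℝ ℝ) p := by
  unfold Cfg.bp
  obtain ⟨-, -, -, -, -, -, -, -, -, -, -, h, -⟩ := basics C i k p.1 0
  have h1 : HasFDerivAt (fun q : ℝ × ℝ => C.dn i k q.1)
      ((-C.dv i k p.1) • ContinuousLinearMap.fst ℝ ℝ ℝ) p :=
    h.comp_hasFDerivAt p hasFDerivAt_fst
  exact hasFDerivAt_snd.sub h1

theorem kap_facts_G_contDiff (C : Cfg n) (ε : ℝ) (i k : Fin n) :
    ContDiff ℝ 1 (kap_facts_G C ε i k) := by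
  unfold kap_facts_G
  have h := kap_facts_bp_contDiff C i k
  exact (kap_facts_Qf_contDiff.comp ((h.sub contDiff_const).div_const ε)).mul
    (kap_facts_Qf_contDiff.comp ((h.add contDiff_const).div_const ε))

theorem kap_facts_Q_deriv (C : Cfg n) (ε : ℝ) (i k : Fin n) (a : ℝ) (p : ℝ × ℝ) :
    HasFDerivAt (fun q : ℝ × ℝ => Cfg.Qf ((C.bp i k q.1 q.2 + a) / ε))
      (deriv Cfg.Qf ((C.bp i k p.1 p.2 + a) / ε) • (ε⁻¹ •
        (ContinuousLinearMap.snd ℝ ℝ ℝ - (-C.dv i k p.1) • ContinuousLinearMap.fst ℝ ℝ ℝ))) p := by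
  have h1 : HasFDerivAt (fun q : ℝ × ℝ => (C.bp i k q.1 q.2 + a) / ε) (ε⁻¹ •
        (ContinuousLinearMap.snd ℝ ℝ ℝ - (-C.dv i k p.1) • ContinuousLinearMap.fst ℝ ℝ ℝ)) p := by
    have h2 := ((kap_facts_bp_deriv C i k p).add_const a).const_smul ε⁻¹
    refine h2.congr_of_eventuallyEq (Filter.Eventually.of_forall fun q => ?_)
    simp only [Pi.smul_apply, smul_eq_mul]
    ring
  have h3 : HasDerivAt Cfg.Qf (deriv Cfg.Qf ((C.bp i k p.1 p.2 + a) / ε))
      ((C.bp i k p.1 p.2 + a) / ε) :=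
    (kap_facts_Qf_contDiff.differentiable one_ne_zero _).hasDerivAt
  have h5 : HasFDerivAt (Cfg.Qf ∘ fun q : ℝ × ℝ => (C.bp i k q.1 q.2 + a) / ε) _ p :=
    h3.comp_hasFDerivAt p h1
  exact h5

/-- derivative of the smooth branch in the direction `(1,-s)` -/
theorem kap_facts_G_deriv (C : Cfg n) {q0 : ℝ} (hq0 : 0 ≤ q0) (hq : ∀ u, |deriv Cfg.Qf u| ≤ q0)
    {ε : ℝ} (hε : 0 < ε) (i k : Fin n) (p : ℝ × ℝ) (s : ℝ) (hs : |s| ≤ C.K) :
    |fderiv ℝ (kap_facts_G C ε i k) p (1, -s)| ≤ 4 * q0 * C.K / ε ∧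
    (ε ≤ |C.bp i k p.1 p.2 - C.r k| → ε ≤ |C.bp i k p.1 p.2 + C.r k| →
      fderiv ℝ (kap_facts_G C ε i k) p (1, -s) = 0) := by
  have h1 := kap_facts_Q_deriv C ε i k (-C.r k) p
  have h2 := kap_facts_Q_deriv C ε i k (C.r k) p
  have h3 := h1.mul h2
  have h4 : kap_facts_G C ε i k = (fun q : ℝ × ℝ => Cfg.Qf ((C.bp i k q.1 q.2 + -C.r k) / ε)) *
      fun q : ℝ × ℝ => Cfg.Qf ((C.bp i k q.1 q.2 + C.r k) / ε) := by
    funext q
    simp only [kap_facts_G, Pi.mul_apply, sub_eq_add_neg]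
  have hdv := (basics C i k p.1 0).1
  obtain ⟨-, -, -, -, -, -, -, -, -, -, -, -, hK, -, -⟩ := basics C i k p.1 0
  rw [h4, h3.fderiv]
  simp only [ContinuousLinearMap.add_apply, ContinuousLinearMap.smul_apply, smul_eq_mul,
    ContinuousLinearMap.sub_apply, ContinuousLinearMap.coe_snd', ContinuousLinearMap.coe_fst']
  set u1 := (C.bp i k p.1 p.2 + -C.r k) / ε with hu1
  set u2 := (C.bp i k p.1 p.2 + C.r k) / ε with hu2
  set D := ε⁻¹ * (-s - -C.dv i k p.1 * 1) with hD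
  have hDb : |D| ≤ ε⁻¹ * (2 * C.K) := by
    rw [hD, abs_mul, abs_of_pos (inv_pos.2 hε)]
    refine mul_le_mul_of_nonneg_left ?_ (inv_pos.2 hε).le
    have h5 : -s - -C.dv i k p.1 * 1 = C.dv i k p.1 - s := by ring
    rw [h5]
    calc |C.dv i k p.1 - s| ≤ |C.dv i k p.1| + |s| := abs_sub _ _
      _ ≤ 2 * C.K := by linarith
  have hone : ∀ u v, |Cfg.Qf u * (deriv Cfg.Qf v * D)| ≤ q0 * (ε⁻¹ * (2 * C.K)) := by
    intro u v
    rw [abs_mul, abs_mul]
    have h6 := kap_facts_Qf_mem u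
    rw [abs_of_nonneg h6.1]
    calc Cfg.Qf u * (|deriv Cfg.Qf v| * |D|) ≤ 1 * (q0 * (ε⁻¹ * (2 * C.K))) := by
          refine mul_le_mul h6.2 (mul_le_mul (hq v) hDb (abs_nonneg _) hq0)
            (by positivity) zero_le_one
      _ = _ := one_mul _
  refine ⟨?_, fun ha hb => ?_⟩
  · refine (abs_add_le _ _).trans ?_
    have h7 := hone u1 u2
    have h8 := hone u2 u1
    calc _ ≤ q0 * (ε⁻¹ * (2 * C.K)) + q0 * (ε⁻¹ * (2 * C.K)) := add_le_add h7 h8
      _ = _ := by field_simp; ring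
  · have e1 : deriv Cfg.Qf u1 = 0 := by
      apply kap_facts_Qf_deriv
      rw [hu1, abs_div, abs_of_pos hε, le_div_iff₀ hε, one_mul, ← sub_eq_add_neg]
      exact ha
    have e2 : deriv Cfg.Qf u2 = 0 := by
      apply kap_facts_Qf_deriv
      rw [hu2, abs_div, abs_of_pos hε, le_div_iff₀ hε, one_mul]
      exact hb
    rw [e1, e2]; ring

/-- local structure of a factor -/
theorem kap_facts_local (C : Cfg n) {ε : ℝ} (hε : 0 < ε) (hετ : ε < C.tau / 2)
    (i k : Fin n) (p : ℝ × ℝ) (hp : |p.2| < C.r i) :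
    (k ≠ i ∧ 0 < C.dv i k p.1 ∧ kap_facts_F C ε i k =ᶠ[𝓝 p] kap_facts_G C ε i k) ∨
    kap_facts_F C ε i k =ᶠ[𝓝 p] fun _ => 1 := by
  by_cases hki : k = i
  · right
    refine Filter.Eventually.of_forall fun q => ?_
    unfold kap_facts_F
    rw [if_neg]
    exact fun h => h.1 hki
  have hcont := kap_facts_dv_cont C i k
  rcases lt_trichotomy (C.dv i k p.1) 0 with h | h | h
  · right
    have h1 : ∀ᶠ q in 𝓝 p, C.dv i k q.1 < 0 := (hcont.tendsto p).eventually_lt_const h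
    filter_upwards [h1] with q hq
    unfold kap_facts_F
    rw [if_neg]
    exact fun h' => absurd h'.2 (not_lt.2 hq.le)
  · right
    -- here `|bp| > r k + tau`
    have hsep := C.hsep i k (fun h => hki h.symm)
    have hd : (C.cx k - C.cx i) ^ 2 + (C.cy k - C.cy i) ^ 2 = (C.dn i k p.1) ^ 2 := by
      have h2 : (C.dv i k p.1) ^ 2 + (C.dn i k p.1) ^ 2 =
          ((C.cx k - C.cx i) ^ 2 + (C.cy k - C.cy i) ^ 2) *
            (Real.sin p.1 ^ 2 + Real.cos p.1 ^ 2) := by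
        unfold Cfg.dv Cfg.dn; ring
      rw [Real.sin_sq_add_cos_sq, mul_one, h] at h2
      linarith
    rw [hd, Real.sqrt_sq_eq_abs] at hsep
    have hbp : C.r k + C.tau < |C.bp i k p.1 p.2| := by
      have h3 : |C.dn i k p.1| ≤ |C.bp i k p.1 p.2| + |p.2| := by
        have h4 : C.dn i k p.1 = p.2 - C.bp i k p.1 p.2 := by unfold Cfg.bp; ring
        rw [h4]
        calc |p.2 - C.bp i k p.1 p.2| ≤ |p.2| + |C.bp i k p.1 p.2| := abs_sub _ _
          _ = _ := add_comm _ _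
      linarith
    have hbc : Continuous (fun q : ℝ × ℝ => C.bp i k q.1 q.2) :=
      (kap_facts_bp_contDiff C i k).continuous
    have h5 : ∀ᶠ q : ℝ × ℝ in 𝓝 p, C.r k + C.tau < |C.bp i k q.1 q.2| :=
      (hbc.abs.tendsto p).eventually_const_lt hbp
    filter_upwards [h5] with q hq
    unfold kap_facts_F
    split_ifs with hc
    · have hr := C.hr k
      have hτ := C.htau
      have key : ∀ a : ℝ, |a| = C.r k → Cfg.Qf ((C.bp i k q.1 q.2 + a) / ε) = 1 := by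
        intro a ha
        apply kap_facts_Qf_one
        have h6 : C.tau < |C.bp i k q.1 q.2 + a| := by
          have h7 : |C.bp i k q.1 q.2| ≤ |C.bp i k q.1 q.2 + a| + |a| := by
            calc |C.bp i k q.1 q.2| = |(C.bp i k q.1 q.2 + a) - a| := by ring_nf
              _ ≤ _ := abs_sub _ _
          linarith
        have h8 : 1 ≤ |(C.bp i k q.1 q.2 + a) / ε| := by
          rw [abs_div, abs_of_pos hε, le_div_iff₀ hε]
          linarith
        rw [← sq_abs]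
        nlinarith
      have e1 := key (-C.r k) (by rw [abs_neg, abs_of_pos hr])
      have e2 := key (C.r k) (by rw [abs_of_pos hr])
      rw [sub_eq_add_neg, e1, e2, one_mul]
    · rfl
  · left
    refine ⟨hki, h, ?_⟩
    have h1 : ∀ᶠ q in 𝓝 p, 0 < C.dv i k q.1 := (hcont.tendsto p).eventually_const_lt h
    filter_upwards [h1] with q hq
    unfold kap_facts_F kap_facts_G
    rw [if_pos ⟨hki, hq⟩]

theorem kap_facts_F_mem (C : Cfg n) (ε : ℝ) (i k : Fin n) (q : ℝ × ℝ) :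
    0 ≤ kap_facts_F C ε i k q ∧ kap_facts_F C ε i k q ≤ 1 := by
  unfold kap_facts_F
  split_ifs
  · have h1 := kap_facts_Qf_mem ((C.bp i k q.1 q.2 - C.r k) / ε)
    have h2 := kap_facts_Qf_mem ((C.bp i k q.1 q.2 + C.r k) / ε)
    exact ⟨mul_nonneg h1.1 h2.1, mul_le_one₀ h1.2 h2.1 h2.2⟩
  · exact ⟨zero_le_one, le_rfl⟩

theorem kap_facts_F_deriv (C : Cfg n) {q0 : ℝ} (hq0 : 0 ≤ q0)
    (hq : ∀ u, |deriv Cfg.Qf u| ≤ q0) {ε : ℝ} (hε : 0 < ε) (hετ : ε < C.tau / 2)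
    (i k : Fin n) (p : ℝ × ℝ) (hp : |p.2| < C.r i) :
    ContDiffAt ℝ 1 (kap_facts_F C ε i k) p ∧
    ∀ s : ℝ, |s| ≤ C.K → |fderiv ℝ (kap_facts_F C ε i k) p (1, -s)| ≤ 4 * q0 * C.K / ε ∧
      (((i, p) : St n) ∉ C.Strip ε → fderiv ℝ (kap_facts_F C ε i k) p (1, -s) = 0) := by
  obtain ⟨-, -, -, -, -, -, -, -, -, -, -, -, hK, -, -⟩ := basics C i k p.1 0
  rcases kap_facts_local C hε hετ i k p hp with ⟨hki, hdv, heq⟩ | heq
  · refine ⟨(kap_facts_G_contDiff C ε i k).contDiffAt.congr_of_eventuallyEq heq, fun s hs => ?_⟩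
    rw [heq.fderiv_eq]
    obtain ⟨h1, h2⟩ := kap_facts_G_deriv C hq0 hq hε i k p s hs
    refine ⟨h1, fun hS => h2 ?_ ?_⟩
    · by_contra h
      push Not at h
      exact hS ⟨hp, k, hki, hdv, Or.inl h⟩
    · by_contra h
      push Not at h
      exact hS ⟨hp, k, hki, hdv, Or.inr h⟩
  · refine ⟨contDiffAt_const.congr_of_eventuallyEq heq, fun s hs => ?_⟩
    rw [heq.fderiv_eq]
    simp only [fderiv_fun_const, Pi.zero_apply, ContinuousLinearMap.zero_apply, abs_zero,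
      implies_true, and_true]
    positivity

/-- the one-step cutoff. -/
theorem kap_facts (C : Cfg n) : ∃ ε₀ > 0, ∃ B > 0, ∀ ε, 0 < ε → ε < ε₀ →
    ∀ (i : Fin n) (p : ℝ × ℝ), |p.2| < C.r i →
      (0 ≤ C.kap ε (i, p) ∧ C.kap ε (i, p) ≤ 1) ∧
      ContDiffAt ℝ 1 (fun q : ℝ × ℝ => C.kap ε (i, q)) p ∧
      (((i, p) : St n) ∈ C.S1 → ∀ᶠ q in 𝓝 p, C.kap ε (i, q) = 0) ∧
      (∀ s : ℝ, |s| ≤ C.K → |fderiv ℝ (fun q : ℝ × ℝ => C.kap ε (i, q)) p (1, -s)| ≤
        B / ε * (C.Strip ε).indicator 1 ((i, p) : St n)) := by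
  obtain ⟨q0, hq0, hq⟩ := kap_facts_bound
  have hτ := C.htau
  rcases Nat.eq_zero_or_pos n with hn | hn
  · subst hn
    exact ⟨1, one_pos, 1, one_pos, fun ε _ _ i => i.elim0⟩
  obtain ⟨-, -, -, -, -, -, -, -, -, -, -, -, hK, -, -⟩ := basics C ⟨0, hn⟩ ⟨0, hn⟩ 0 0
  refine ⟨C.tau / 2, by positivity, n * (4 * q0 * C.K) + 1, by positivity,
    fun ε hε hετ i p hp => ?_⟩
  have hfun : (fun q : ℝ × ℝ => C.kap ε (i, q)) = fun q => ∏ k, kap_facts_F C ε i k q := by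
    funext q; exact kap_facts_prod C ε i q
  have hF := fun k => kap_facts_F_deriv C hq0 hq hε hετ i k p hp
  refine ⟨⟨?_, ?_⟩, ?_, ?_, ?_⟩
  · rw [kap_facts_prod]
    exact Finset.prod_nonneg fun k _ => (kap_facts_F_mem C ε i k p).1
  · rw [kap_facts_prod]
    exact Finset.prod_le_one (fun k _ => (kap_facts_F_mem C ε i k p).1)
      fun k _ => (kap_facts_F_mem C ε i k p).2
  · rw [hfun]
    exact contDiffAt_prod fun k _ => (hF k).1
  · rintro ⟨-, k, hki, hdv, hbp⟩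
    have hbc : Continuous (fun q : ℝ × ℝ => C.bp i k q.1 q.2) :=
      (kap_facts_bp_contDiff C i k).continuous
    have h1 : ∀ᶠ q in 𝓝 p, 0 < C.dv i k q.1 :=
      ((kap_facts_dv_cont C i k).tendsto p).eventually_const_lt hdv
    have hr := C.hr k
    have key : ∀ a : ℝ, C.bp i k p.1 p.2 + a = 0 →
        ∀ᶠ q : ℝ × ℝ in 𝓝 p, Cfg.Qf ((C.bp i k q.1 q.2 + a) / ε) = 0 := by
      intro a ha
      have h2 : ∀ᶠ q : ℝ × ℝ in 𝓝 p, |(C.bp i k q.1 q.2 + a) / ε| < 1 / 2 := by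
        have hc : Continuous (fun q : ℝ × ℝ => |(C.bp i k q.1 q.2 + a) / ε|) :=
          ((hbc.add continuous_const).div_const ε).abs
        apply (hc.tendsto p).eventually_lt_const
        rw [ha]; norm_num
      filter_upwards [h2] with q hq
      exact kap_facts_Qf_zero hq.le
    have hb : C.bp i k p.1 p.2 = C.r k ∨ C.bp i k p.1 p.2 = -C.r k := by
      have h3 : |C.bp i k p.1 p.2| = C.r k := hbp
      rcases abs_eq (hr.le) |>.1 h3 with h4 | h4
      · exact Or.inl h4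
      · exact Or.inr h4
    have hz : ∀ᶠ q : ℝ × ℝ in 𝓝 p, kap_facts_F C ε i k q = 0 := by
      rcases hb with hb | hb
      · filter_upwards [h1, key (-C.r k) (by rw [hb]; ring)] with q hq1 hq2
        unfold kap_facts_F
        rw [if_pos ⟨hki, hq1⟩, sub_eq_add_neg, hq2, zero_mul]
      · filter_upwards [h1, key (C.r k) (by rw [hb]; ring)] with q hq1 hq2
        unfold kap_facts_F
        rw [if_pos ⟨hki, hq1⟩, hq2, mul_zero]
    filter_upwards [hz] with q hq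
    rw [kap_facts_prod]
    exact Finset.prod_eq_zero (Finset.mem_univ k) hq
  · intro s hs
    rw [hfun]
    have hprod := HasFDerivAt.finsetProd (u := Finset.univ) (g := fun k => kap_facts_F C ε i k)
      (g' := fun k => fderiv ℝ (kap_facts_F C ε i k) p) (x := p)
      (fun k _ => ((hF k).1.differentiableAt one_ne_zero).hasFDerivAt)
    rw [hprod.fderiv]
    have hsum : |(∑ k, (∏ j ∈ Finset.univ.erase k, kap_facts_F C ε i j p) •
        fderiv ℝ (kap_facts_F C ε i k) p) (1, -s)| ≤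
        ∑ k, |fderiv ℝ (kap_facts_F C ε i k) p (1, -s)| := by
      rw [ContinuousLinearMap.sum_apply]
      refine (Finset.abs_sum_le_sum_abs _ _).trans (Finset.sum_le_sum fun k _ => ?_)
      rw [ContinuousLinearMap.smul_apply, smul_eq_mul, abs_mul]
      have h1 : |∏ j ∈ Finset.univ.erase k, kap_facts_F C ε i j p| ≤ 1 := by
        rw [abs_of_nonneg (Finset.prod_nonneg fun k _ => (kap_facts_F_mem C ε i k p).1)]
        exact Finset.prod_le_one (fun k _ => (kap_facts_F_mem C ε i k p).1)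
          fun k _ => (kap_facts_F_mem C ε i k p).2
      calc _ ≤ 1 * _ := mul_le_mul_of_nonneg_right h1 (abs_nonneg _)
        _ = _ := one_mul _
    refine hsum.trans ?_
    by_cases hS : ((i, p) : St n) ∈ C.Strip ε
    · rw [Set.indicator_of_mem hS]
      simp only [Pi.one_apply, mul_one]
      calc ∑ k, |fderiv ℝ (kap_facts_F C ε i k) p (1, -s)|
          ≤ ∑ k : Fin n, 4 * q0 * C.K / ε := Finset.sum_le_sum fun k _ => ((hF k).2 s hs).1
        _ = n * (4 * q0 * C.K / ε) := by simp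
        _ ≤ (n * (4 * q0 * C.K) + 1) / ε := by
          rw [le_div_iff₀ hε]
          have : n * (4 * q0 * C.K / ε) * ε = n * (4 * q0 * C.K) := by field_simp
          linarith
    · rw [Set.indicator_of_notMem hS, mul_zero]
      refine le_of_eq (Finset.sum_eq_zero fun k _ => ?_)
      rw [((hF k).2 s hs).2 hS, abs_zero]

end Pool.Light
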