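import Pool.Agent.H721Light.Defs
import Pool.Agent.H721Light.P_gap
import Pool.Agent.H721Light.P_basics

set_option autoImplicit false

open MeasureTheory Set Filter Topology

namespace Pool.Light


variable {n : ℕ}

theorem trichotomy_aux (C : Cfg n) (j k : Fin n) (hjk : j ≠ k) (θ : ℝ) (h0 : C.dv j k θ = 0) :
    C.r j + C.r k + C.tau ≤ |C.dn j k θ| := by
  have h1 := C.hsep j k hjk
  have h2 : (C.cx k - C.cx j) ^ 2 + (C.cy k - C.cy j) ^ 2 = (C.dn j k θ) ^ 2 := by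
    have h3 : (C.cx k - C.cx j) ^ 2 + (C.cy k - C.cy j) ^ 2 =
        (C.dv j k θ) ^ 2 + (C.dn j k θ) ^ 2 := by
      unfold Cfg.dv Cfg.dn
      have hcs := Real.sin_sq_add_cos_sq θ
      linear_combination (-((C.cx k - C.cx j) ^ 2 + (C.cy k - C.cy j) ^ 2)) * hcs
    rw [h3, h0]
    ring
  rw [h2, Real.sqrt_sq_eq_abs] at h1
  exact h1

theorem trichotomy (C : Cfg n) {l : St n} (hl : l ∈ C.M) :
    (∃ j, C.Hits l.1 j l.2.1 l.2.2) ∨ l ∈ C.E0 ∨ l ∈ C.S1 := by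
  classical
  obtain ⟨i, θ, b⟩ := l
  by_cases hE : (i, θ, b) ∈ C.E0
  · exact Or.inr (Or.inl hE)
  by_cases hS : (i, θ, b) ∈ C.S1
  · exact Or.inr (Or.inr hS)
  left
  show ∃ j, C.Hits i j θ b
  have hne : ∃ k, k ≠ i ∧ 0 < C.dv i k θ ∧ |C.bp i k θ b| ≤ C.r k := by
    by_contra hcon
    apply hE
    refine ⟨hl, ?_⟩
    intro k hk hdv
    by_contra hle
    exact hcon ⟨k, hk, hdv, not_lt.1 hle⟩
  have hlt : ∀ k, k ≠ i → 0 < C.dv i k θ → |C.bp i k θ b| ≤ C.r k → |C.bp i k θ b| < C.r k := by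
    intro k hk hdv hle
    rcases lt_or_eq_of_le hle with h | h
    · exact h
    · exact absurd ⟨hl, k, hk, hdv, h⟩ hS
  set F : Finset (Fin n) := Finset.univ.filter
    (fun k => k ≠ i ∧ 0 < C.dv i k θ ∧ |C.bp i k θ b| ≤ C.r k) with hF
  have hFne : F.Nonempty := by
    obtain ⟨k, hk⟩ := hne
    exact ⟨k, Finset.mem_filter.2 ⟨Finset.mem_univ _, hk⟩⟩
  obtain ⟨j, hj, hmin⟩ := F.exists_min_image (fun k => C.dv i k θ) hFne
  obtain ⟨_, hj1, hj2, hj3⟩ := Finset.mem_filter.1 hj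
  refine ⟨j, hj1.symm, hj2, hlt j hj1 hj2 hj3, ?_⟩
  intro k hk1 hk2 hk3 hk4
  have hkF : k ∈ F := Finset.mem_filter.2 ⟨Finset.mem_univ _, hk1, hk3, hk4⟩
  have hle := hmin k hkF
  rcases lt_or_eq_of_le hle with h | h
  · exact h
  · exfalso
    obtain ⟨_, _, _, _, _, _, _, _, hdv, hdn, _⟩ := basics C i j θ b
    have e1 := hdv k
    have e2 := hdn k
    have h0 : C.dv j k θ = 0 := by
      have h' : C.dv i j θ = C.dv i k θ := h
      linarith
    have h1 := trichotomy_aux C j k hk2.symm θ h0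
    have h2 : C.dn j k θ = C.bp i j θ b - C.bp i k θ b := by
      unfold Cfg.bp
      linarith
    have h3 : |C.dn j k θ| ≤ |C.bp i j θ b| + |C.bp i k θ b| := by
      rw [h2]
      exact abs_sub _ _
    have h4 := C.htau
    linarith

end Pool.Light
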