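import Pool.Agent.H721Light.Defs
import Pool.Agent.H721Light.P_gap
import Pool.Agent.H721Light.P_basics
import Pool.Agent.H721Light.P_hits_unique
import Pool.Agent.H721Light.P_T_of_hits
import Pool.Agent.H721Light.P_trichotomy
import Pool.Agent.H721Light.P_isOpen_E0
import Pool.Agent.H721Light.P_om_facts
import Pool.Agent.H721Light.P_sig_bounds
import Pool.Agent.H721Light.P_Tsmooth
import Pool.Agent.H721Light.P_chainT
import Pool.Agent.H721Light.P_kap_facts

set_option autoImplicit false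

open MeasureTheory Set Filter Topology

namespace Pool.Light


variable {n : ℕ}

theorem cut_facts_unfold (C : Cfg n) (ε : ℝ) (N : ℕ) (l : St n) {j : Fin n}
    (h : C.Hits l.1 j l.2.1 l.2.2) :
    C.cut ε (N + 1) l = C.kap ε l * C.cut ε N (C.T l) := by
  classical
  have h1 : ∃ j, C.Hits l.1 j l.2.1 l.2.2 := ⟨j, h⟩
  show (if ∃ j, C.Hits l.1 j l.2.1 l.2.2 then C.kap ε l * C.cut ε N (C.T l) else 0) = _
  rw [if_pos h1]

theorem cut_facts_unfold0 (C : Cfg n) (ε : ℝ) (N : ℕ) (l : St n)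
    (h : ¬ ∃ j, C.Hits l.1 j l.2.1 l.2.2) : C.cut ε (N + 1) l = 0 := by
  classical
  show (if ∃ j, C.Hits l.1 j l.2.1 l.2.2 then C.kap ε l * C.cut ε N (C.T l) else 0) = _
  rw [if_neg h]

theorem cut_facts_unfoldk (C : Cfg n) (ε : ℝ) (N : ℕ) (l : St n)
    (h : C.kap ε l = 0) : C.cut ε (N + 1) l = 0 := by
  by_cases h1 : ∃ j, C.Hits l.1 j l.2.1 l.2.2
  · obtain ⟨j, h2⟩ := h1
    rw [cut_facts_unfold C ε N l h2, h, zero_mul]
  · exact cut_facts_unfold0 C ε N l h1

theorem cut_facts_sig (C : Cfg n) (N : ℕ) (l : St n) {j : Fin n}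
    (h : C.Hits l.1 j l.2.1 l.2.2) :
    C.sig (N + 1) l = C.dv l.1 (C.T l).1 l.2.1 -
      Cfg.gf (C.sig N (C.T l)) (C.hc (C.T l).1 (C.T l).2.2) := by
  classical
  have h1 : ∃ j, C.Hits l.1 j l.2.1 l.2.2 := ⟨j, h⟩
  show (if ∃ j, C.Hits l.1 j l.2.1 l.2.2 then C.dv l.1 (C.T l).1 l.2.1 -
      Cfg.gf (C.sig N (C.T l)) (C.hc (C.T l).1 (C.T l).2.2) else C.K) = _
  rw [if_pos h1]

/-- the iterated cutoff. -/
theorem cut_facts (C : Cfg n) : ∃ ε₀ > 0, ∃ B > 0, ∀ ε, 0 < ε → ε < ε₀ →
    ∀ (N : ℕ) (i : Fin n) (p : ℝ × ℝ), |p.2| < C.r i →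
      (0 ≤ C.cut ε N (i, p) ∧ C.cut ε N (i, p) ≤ 1) ∧
      ContDiffAt ℝ 1 (fun q : ℝ × ℝ => C.cut ε N (i, q)) p ∧
      (((i, p) : St n) ∉ C.Om N → ∀ᶠ q in 𝓝 p, C.cut ε N (i, q) = 0) ∧
      (((i, p) : St n) ∈ C.Om N →
        |fderiv ℝ (fun q : ℝ × ℝ => C.cut ε N (i, q)) p (1, -C.sig N (i, p))| ≤
          ∑ m ∈ Finset.range N, C.lam ^ m * (B / ε *
            (C.Strip ε).indicator 1 ((C.T^[m]) ((i, p) : St n)))) := by
  obtain ⟨ε₀, hε₀, B, hB, hk⟩ := kap_facts C
  refine ⟨ε₀, hε₀, B, hB, ?_⟩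
  intro ε hε hεε N
  induction N with
  | zero =>
    intro i p hp
    refine ⟨⟨zero_le_one, le_rfl⟩, contDiffAt_const, ?_, ?_⟩
    · intro h
      exact absurd hp h
    · intro _
      have h1 : fderiv ℝ (fun q : ℝ × ℝ => C.cut ε 0 (i, q)) p = 0 := by
        show fderiv ℝ (fun _ : ℝ × ℝ => (1:ℝ)) p = 0
        simp
      rw [h1]
      simp
  | succ N ih =>
    intro i p hp
    obtain ⟨⟨k0, k1⟩, k2, k3, k4⟩ := hk ε hε hεε i p hp
    have hM : ((i, p) : St n) ∈ C.M := hp
    by_cases hH : ∃ j, C.Hits i j p.1 p.2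
    · obtain ⟨j, h⟩ := hH
      obtain ⟨t1, t2, t3⟩ := Tsmooth C hp h
      have hT : C.T (i, p) = (j, C.Tj i j p.1 p.2) := T_of_hits C h
      have hp' : |(C.Tj i j p.1 p.2).2| < C.r j := h.2.2.1
      obtain ⟨⟨g0, g1⟩, g2, g3, g4⟩ := ih j (C.Tj i j p.1 p.2) hp'
      have hval : C.cut ε (N + 1) (i, p) = C.kap ε (i, p) * C.cut ε N (j, C.Tj i j p.1 p.2) := by
        rw [cut_facts_unfold C ε N (i, p) h, hT]
      have hev : (fun q : ℝ × ℝ => C.cut ε (N + 1) (i, q)) =ᶠ[𝓝 p]
          fun q => C.kap ε (i, q) * C.cut ε N (j, C.Tj i j q.1 q.2) := by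
        filter_upwards [t1] with q hq
        rw [cut_facts_unfold C ε N (i, q) hq.2.1, hq.2.2]
      have g2' : ContDiffAt ℝ 1 (fun q : ℝ × ℝ => C.cut ε N (j, C.Tj i j q.1 q.2)) p :=
        ContDiffAt.comp (g := fun q' : ℝ × ℝ => C.cut ε N (j, q')) p g2 t2
      refine ⟨⟨?_, ?_⟩, ?_, ?_, ?_⟩
      · rw [hval]
        exact mul_nonneg k0 g0
      · rw [hval]
        exact mul_le_one₀ k1 g0 g1
      · exact (k2.mul g2').congr_of_eventuallyEq hev
      · intro hnot
        have h1 : ((j, C.Tj i j p.1 p.2) : St n) ∉ C.Om N := by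
          intro h2
          apply hnot
          refine ⟨hM, ⟨j, h⟩, ?_⟩
          rw [hT]
          exact h2
        have h2 := t2.continuousAt.eventually (g3 h1)
        filter_upwards [hev, h2] with q hq1 hq2
        rw [hq1, hq2, mul_zero]
      · intro hin
        have hTin : ((j, C.Tj i j p.1 p.2) : St n) ∈ C.Om N := by
          rw [← hT]
          exact hin.2.2
        have hs1 := sig_bounds C (N + 1) (i, p) hM
        have hs0 := sig_bounds C N (j, C.Tj i j p.1 p.2) hp'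
        have hc0 : 0 ≤ C.hc j (C.bp i j p.1 p.2) := Real.sqrt_nonneg _
        have hci : 0 ≤ C.hc i p.2 := Real.sqrt_nonneg _
        have htau := C.htau
        have hs0' : C.hc j (C.bp i j p.1 p.2) + C.tau ≤ C.sig N (j, C.Tj i j p.1 p.2) := hs0.1
        have hs1' : C.hc i p.2 + C.tau ≤ C.sig (N + 1) (i, p) := hs1.1
        have hsabs : |C.sig (N + 1) (i, p)| ≤ C.K := by
          rw [abs_of_nonneg (by linarith)]
          exact hs1.2
        have hsig : C.sig (N + 1) (i, p) = C.dv i j p.1 -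
            Cfg.gf (C.sig N (j, C.Tj i j p.1 p.2)) (C.hc j (C.bp i j p.1 p.2)) := by
          rw [cut_facts_sig C N (i, p) h, hT]
          rfl
        have hch := (chainT C hp h (fun q' : ℝ × ℝ => C.cut ε N (j, q'))
          (g2.differentiableAt (by norm_num)) (C.sig N (j, C.Tj i j p.1 p.2)) (by linarith)).1
        rw [← hsig] at hch
        have hfd : fderiv ℝ (fun q : ℝ × ℝ => C.cut ε (N + 1) (i, q)) p
            (1, -C.sig (N + 1) (i, p)) =
            C.kap ε (i, p) * fderiv ℝ (fun q : ℝ × ℝ => C.cut ε N (j, C.Tj i j q.1 q.2)) p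
              (1, -C.sig (N + 1) (i, p)) +
            C.cut ε N (j, C.Tj i j p.1 p.2) * fderiv ℝ (fun q : ℝ × ℝ => C.kap ε (i, q)) p
              (1, -C.sig (N + 1) (i, p)) := by
          rw [hev.fderiv_eq]
          have h1 := fderiv_fun_mul (k2.differentiableAt (by norm_num))
            (g2'.differentiableAt (by norm_num))
          rw [h1]
          simp only [ContinuousLinearMap.add_apply, ContinuousLinearMap.smul_apply, smul_eq_mul]
        rw [hfd, hch, Finset.sum_range_succ']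
        have hg4 := g4 hTin
        have hk4 := k4 (C.sig (N + 1) (i, p)) hsabs
        have hcoef : C.hc j (C.bp i j p.1 p.2) /
            (2 * C.sig N (j, C.Tj i j p.1 p.2) - C.hc j (C.bp i j p.1 p.2)) ≤ C.lam := by
          unfold Cfg.lam
          have hKpos : 0 < C.K := by linarith [hs0.2]
          rw [div_le_div_iff₀ (by linarith) (by linarith)]
          have h5 : C.hc j (C.bp i j p.1 p.2) ≤ C.K := by linarith [hs0.2]
          have h6 : C.hc j (C.bp i j p.1 p.2) + 2 * C.tau ≤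
              2 * C.sig N (j, C.Tj i j p.1 p.2) - C.hc j (C.bp i j p.1 p.2) := by linarith
          nlinarith [mul_le_mul_of_nonneg_left h6 hKpos.le]
        have hcoef0 : 0 ≤ C.hc j (C.bp i j p.1 p.2) /
            (2 * C.sig N (j, C.Tj i j p.1 p.2) - C.hc j (C.bp i j p.1 p.2)) := by
          apply div_nonneg hc0
          linarith
        have hlam0 : 0 ≤ C.lam := hcoef0.trans hcoef
        have hsum : ∑ m ∈ Finset.range N, C.lam ^ (m + 1) * (B / ε *
            (C.Strip ε).indicator 1 ((C.T^[m + 1]) ((i, p) : St n))) =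
            C.lam * ∑ m ∈ Finset.range N, C.lam ^ m * (B / ε *
            (C.Strip ε).indicator 1 ((C.T^[m]) ((j, C.Tj i j p.1 p.2) : St n))) := by
          rw [Finset.mul_sum]
          apply Finset.sum_congr rfl
          intro m _
          rw [Function.iterate_succ_apply, hT, pow_succ]
          ring
        rw [hsum]
        have hA : |C.kap ε (i, p) * (-(C.hc j (C.bp i j p.1 p.2) /
            (2 * C.sig N (j, C.Tj i j p.1 p.2) - C.hc j (C.bp i j p.1 p.2))) *
            fderiv ℝ (fun q' : ℝ × ℝ => C.cut ε N (j, q')) (C.Tj i j p.1 p.2)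
              (1, -C.sig N (j, C.Tj i j p.1 p.2)))| ≤
            C.lam * ∑ m ∈ Finset.range N, C.lam ^ m * (B / ε *
            (C.Strip ε).indicator 1 ((C.T^[m]) ((j, C.Tj i j p.1 p.2) : St n))) := by
          rw [abs_mul, abs_mul, abs_neg, abs_of_nonneg k0, abs_of_nonneg hcoef0]
          have h7 := mul_le_mul hcoef hg4 (abs_nonneg _) hlam0
          refine le_trans ?_ h7
          exact mul_le_of_le_one_left (mul_nonneg hcoef0 (abs_nonneg _)) k1
        have hBd : |C.cut ε N (j, C.Tj i j p.1 p.2) *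
            fderiv ℝ (fun q : ℝ × ℝ => C.kap ε (i, q)) p (1, -C.sig (N + 1) (i, p))| ≤
            C.lam ^ 0 * (B / ε * (C.Strip ε).indicator 1 ((C.T^[0]) ((i, p) : St n))) := by
          rw [abs_mul, abs_of_nonneg g0, pow_zero, one_mul, Function.iterate_zero, id]
          exact (mul_le_of_le_one_left (abs_nonneg _) g1).trans hk4
        exact (abs_add_le _ _).trans (add_le_add hA hBd)
    · have hev : ∀ᶠ q in 𝓝 p, C.cut ε (N + 1) (i, q) = 0 := by
        rcases trichotomy C hM with h1 | h1 | h1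
        · exact absurd h1 hH
        · have h2 : ∀ᶠ q in 𝓝 p, ((i, q) : St n) ∈ C.E0 := (isOpen_E0 C i).mem_nhds h1
          filter_upwards [h2] with q hq
          apply cut_facts_unfold0
          rintro ⟨j, hj⟩
          have h3 := hq.2 j hj.1.symm hj.2.1
          exact absurd (h3.trans hj.2.2.1) (lt_irrefl _)
        · filter_upwards [k3 h1] with q hq
          exact cut_facts_unfoldk C ε N (i, q) hq
      have hev' : (fun q : ℝ × ℝ => C.cut ε (N + 1) (i, q)) =ᶠ[𝓝 p] fun _ => (0 : ℝ) := hev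
      have hp0 : C.cut ε (N + 1) (i, p) = 0 := hev.self_of_nhds
      refine ⟨⟨hp0.ge, by rw [hp0]; exact zero_le_one⟩, contDiffAt_const.congr_of_eventuallyEq hev',
        fun _ => hev, ?_⟩
      intro hin
      exact absurd hin.2.1 hH

end Pool.Light
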