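import Pool.Agent.H721Light.Defs
import Pool.Agent.H721Light.P_gap
import Pool.Agent.H721Light.P_basics
import Pool.Agent.H721Light.P_hits_unique
import Pool.Agent.H721Light.P_T_of_hits
import Pool.Agent.H721Light.P_om_facts
import Pool.Agent.H721Light.P_sig_bounds
import Pool.Agent.H721Light.P_Tsmooth
import Pool.Agent.H721Light.P_sig_step

set_option autoImplicit false

open MeasureTheory Set Filter Topology

namespace Pool.Light


variable {n : ℕ}

theorem sig_deriv_hits (C : Cfg n) (N : ℕ) {i j : Fin n} {q : ℝ × ℝ} (h : C.Hits i j q.1 q.2)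
    (hT : C.T (i, q) = (j, C.Tj i j q.1 q.2)) :
    C.sig (N + 1) (i, q) = C.dv i j q.1 -
      Cfg.gf (C.sig N (j, C.Tj i j q.1 q.2)) (C.hc j (C.Tj i j q.1 q.2).2) := by
  have hex : ∃ j, C.Hits ((i, q) : St n).1 j ((i, q) : St n).2.1 ((i, q) : St n).2.2 := ⟨j, h⟩
  rw [Cfg.sig]
  simp only [if_pos hex]
  rw [hT]

theorem sig_deriv_bounds (C : Cfg n) {s' c' b' r : ℝ} (hK : 0 < C.K) (hc0 : 0 < c') (hcr : c' ≤ r)
    (hrK : r ≤ C.K) (hb : |b'| ≤ r) (hsc : c' + C.tau ≤ s') :
    0 ≤ c' / (2 * s' - c') ∧ c' / (2 * s' - c') ≤ C.lam ∧ 0 ≤ s' / (2 * s' - c') ∧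
    s' / (2 * s' - c') ≤ 1 ∧ |b'| ≤ C.K ∧ 2 * C.tau ≤ 2 * s' - c' ∧ c' ≤ 2 * s' - c' := by
  have hτ := C.htau
  have h1 : 0 < 2 * s' - c' := by linarith
  refine ⟨by positivity, ?_, ?_, ?_, by linarith, by linarith, by linarith⟩
  · unfold Cfg.lam
    rw [div_le_div_iff₀ h1 (by linarith)]
    nlinarith
  · apply div_nonneg _ h1.le
    linarith
  · rw [div_le_one h1]
    linarith

/-- smoothness and derivative bounds of the slope fields. -/
theorem sig_deriv (C : Cfg n) : ∃ A : ℝ, 0 < A ∧ ∀ (N : ℕ) (i : Fin n) (p : ℝ × ℝ),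
    ((i, p) : St n) ∈ C.Om N →
      ContDiffAt ℝ 1 (fun q : ℝ × ℝ => C.sig N (i, q)) p ∧
      |fderiv ℝ (fun q : ℝ × ℝ => C.sig N (i, q)) p (1, -C.sig N (i, p))| ≤ A ∧
      |fderiv ℝ (fun q : ℝ × ℝ => C.sig N (i, q)) p (0, 1)| ≤
        ∑ m ∈ Finset.range N, C.lam ^ m *
          (A * (1 + 1 / C.hc ((C.T^[m + 1]) (i, p)).1 ((C.T^[m + 1]) (i, p)).2.2)) := by
  rcases isEmpty_or_nonempty (Fin n) with hn | ⟨⟨i0⟩⟩
  · exact ⟨1, one_pos, fun N i => (hn.false i).elim⟩
  have hbas := basics C i0 i0 0 0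
  obtain ⟨-, -, -, -, -, -, -, -, -, -, -, -, hK, hlam0, hlam1⟩ := hbas
  have hτ := C.htau
  set AY : ℝ := 3 * C.K / (1 - C.lam) with hAY
  have h1lam : 0 < 1 - C.lam := by linarith
  have hAY0 : 0 < AY := by positivity
  have hAYe : 3 * C.K + C.lam * AY = AY := by
    rw [hAY]; field_simp; ring
  set A : ℝ := AY + AY / C.tau + 2 * C.K with hA
  have hA0 : 0 < A := by positivity
  have hA1 : AY ≤ A := by
    have : 0 < AY / C.tau := by positivity
    rw [hA]; linarith
  have hA2 : AY / C.tau ≤ A := by rw [hA]; linarith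
  have hA3 : 2 * C.K ≤ A := by
    have : 0 < AY / C.tau := by positivity
    rw [hA]; linarith
  have key : ∀ (N : ℕ) (i : Fin n) (p : ℝ × ℝ), ((i, p) : St n) ∈ C.Om N →
      ContDiffAt ℝ 1 (fun q : ℝ × ℝ => C.sig N (i, q)) p ∧
      |fderiv ℝ (fun q : ℝ × ℝ => C.sig N (i, q)) p (1, -C.sig N (i, p))| ≤ AY ∧
      |fderiv ℝ (fun q : ℝ × ℝ => C.sig N (i, q)) p (0, 1)| ≤
        ∑ m ∈ Finset.range N, C.lam ^ m *
          (A * (1 + 1 / C.hc ((C.T^[m + 1]) (i, p)).1 ((C.T^[m + 1]) (i, p)).2.2)) := by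
    intro N
    induction N with
    | zero =>
      intro i p hp
      have he : (fun q : ℝ × ℝ => C.sig 0 (i, q)) = fun _ => C.K := by
        funext q; rfl
      rw [he]
      refine ⟨contDiffAt_const, ?_, ?_⟩
      · simp [hAY0.le]
      · simp
    | succ N ih =>
      intro i p hp
      obtain ⟨hpM, ⟨j, hj⟩, hTp⟩ := hp
      have hj' : C.Hits i j p.1 p.2 := hj
      have hpM' : |p.2| < C.r i := hpM
      obtain ⟨hev, -, -⟩ := Tsmooth C hpM' hj'
      have hTi : C.T (i, p) = (j, C.Tj i j p.1 p.2) := hev.self_of_nhds.2.2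
      rw [hTi] at hTp
      obtain ⟨ih1, ih2, ih3⟩ := ih j (C.Tj i j p.1 p.2) hTp
      have hM' : ((j, C.Tj i j p.1 p.2) : St n) ∈ C.M := (om_facts C N).2.1 hTp
      have hsb := (sig_bounds C N (j, C.Tj i j p.1 p.2) hM').1
      set f : ℝ × ℝ → ℝ := fun q' => C.sig N (j, q') with hf
      set s' : ℝ := f (C.Tj i j p.1 p.2) with hs'
      set b' : ℝ := C.bp i j p.1 p.2 with hb'
      set c' : ℝ := C.hc j b' with hc'
      have hTj2 : (C.Tj i j p.1 p.2).2 = b' := rfl
      have hsc : c' + C.tau ≤ s' := by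
        have := hsb
        simp only [hTj2] at this
        exact this
      have hbr : |b'| < C.r j := hj'.2.2.1
      have hc0 : 0 < c' := by
        rw [hc']
        unfold Cfg.hc
        apply Real.sqrt_pos.2
        have : b' ^ 2 < C.r j ^ 2 := by
          rw [sq_lt_sq, abs_of_pos (C.hr j)]; exact hbr
        linarith
      have hcr : c' ≤ C.r j := by
        rw [hc']
        unfold Cfg.hc
        apply Real.sqrt_le_iff.2
        exact ⟨(C.hr j).le, by nlinarith [sq_nonneg b']⟩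
      have hrK : C.r j ≤ C.K := by have := C.hK2 j; linarith
      obtain ⟨e1, e2, e3, e4, e5, e6, e7⟩ := sig_deriv_bounds C hK hc0 hcr hrK hbr.le hsc
      obtain ⟨st1, st2, st3⟩ := sig_step C hpM' hj' f ih1 s' c' b' _ _ rfl rfl rfl hsc rfl rfl
      have hEq : (fun q : ℝ × ℝ => C.sig (N + 1) (i, q)) =ᶠ[𝓝 p] (fun q : ℝ × ℝ => C.dv i j q.1 -
          Cfg.gf (f (C.Tj i j q.1 q.2)) (C.hc j (C.Tj i j q.1 q.2).2)) := by
        filter_upwards [hev] with q hq
        exact sig_deriv_hits C N hq.2.1 hq.2.2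
      have hval : C.sig (N + 1) (i, p) = C.dv i j p.1 - Cfg.gf s' c' :=
        sig_deriv_hits C N hj' hTi
      set Y' : ℝ := fderiv ℝ f (C.Tj i j p.1 p.2) (1, -s') with hY'
      set D' : ℝ := fderiv ℝ f (C.Tj i j p.1 p.2) (0, 1) with hD'
      have hY'b : |Y'| ≤ AY := ih2
      have hden : 0 < 2 * s' - c' := by linarith
      refine ⟨st1.congr_of_eventuallyEq hEq, ?_, ?_⟩
      · rw [hEq.fderiv_eq, hval, st2]
        obtain ⟨-, hdn, -⟩ := basics C i j p.1 p.2
        have t1 : |(c' / (2 * s' - c')) ^ 3 * Y'| ≤ C.lam * AY := by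
          rw [abs_mul, abs_of_nonneg (by positivity)]
          apply mul_le_mul _ hY'b (abs_nonneg _) hlam0.le
          calc (c' / (2 * s' - c')) ^ 3 ≤ C.lam ^ 3 := pow_le_pow_left₀ e1 e2 3
            _ ≤ C.lam := pow_le_of_le_one hlam0.le hlam1.le (by norm_num)
        have t2 : |2 * b' * (s' / (2 * s' - c')) ^ 3| ≤ 2 * C.K := by
          rw [abs_mul, abs_mul, abs_of_pos (by norm_num : (0 : ℝ) < 2),
            abs_of_nonneg (pow_nonneg e3 3)]
          calc 2 * |b'| * (s' / (2 * s' - c')) ^ 3 ≤ 2 * C.K * 1 := by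
                apply mul_le_mul (by linarith) (pow_le_one₀ e3 e4) (pow_nonneg e3 3) (by linarith)
            _ = 2 * C.K := by ring
        have t3 := abs_le.1 hdn
        have t1' := abs_le.1 t1
        have t2' := abs_le.1 t2
        rw [abs_le]
        constructor <;> linarith
      · rw [hEq.fderiv_eq, st3, Finset.sum_range_succ']
        have hsum : ∑ k ∈ Finset.range N, C.lam ^ (k + 1) *
            (A * (1 + 1 / C.hc ((C.T^[k + 1 + 1]) (i, p)).1 ((C.T^[k + 1 + 1]) (i, p)).2.2)) =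
            C.lam * ∑ m ∈ Finset.range N, C.lam ^ m *
              (A * (1 + 1 / C.hc ((C.T^[m + 1]) (j, C.Tj i j p.1 p.2)).1
                ((C.T^[m + 1]) (j, C.Tj i j p.1 p.2)).2.2)) := by
          rw [Finset.mul_sum]
          apply Finset.sum_congr rfl
          intro k _
          have : (C.T^[k + 1 + 1]) (i, p) = (C.T^[k + 1]) (j, C.Tj i j p.1 p.2) := by
            rw [Function.iterate_succ_apply, hTi]
          rw [this]
          ring
        rw [hsum]
        have h0 : (C.T^[0 + 1]) (i, p) = (j, C.Tj i j p.1 p.2) := by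
          simp [hTi]
        rw [h0, hTj2, pow_zero, one_mul]
        have t1 : |(2 * c' / (2 * s' - c') ^ 2) * Y'| ≤ AY / C.tau := by
          rw [abs_mul, abs_of_nonneg (by positivity)]
          have : 2 * c' / (2 * s' - c') ^ 2 ≤ 1 / C.tau := by
            rw [div_le_div_iff₀ (by positivity) hτ]
            nlinarith
          calc 2 * c' / (2 * s' - c') ^ 2 * |Y'| ≤ 1 / C.tau * AY :=
                mul_le_mul this hY'b (abs_nonneg _) (by positivity)
            _ = AY / C.tau := by ring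
        have t2 : |(c' / (2 * s' - c')) * D'| ≤ C.lam * ∑ m ∈ Finset.range N, C.lam ^ m *
              (A * (1 + 1 / C.hc ((C.T^[m + 1]) (j, C.Tj i j p.1 p.2)).1
                ((C.T^[m + 1]) (j, C.Tj i j p.1 p.2)).2.2)) := by
          rw [abs_mul, abs_of_nonneg e1]
          exact mul_le_mul e2 ih3 (abs_nonneg _) hlam0.le
        have t3 : |2 * s' ^ 2 * b' / ((2 * s' - c') ^ 2 * c')| ≤ 2 * C.K / c' := by
          have : 2 * s' ^ 2 * b' / ((2 * s' - c') ^ 2 * c') =
              2 * b' * (s' / (2 * s' - c')) ^ 2 / c' := by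
            field_simp
          rw [this, abs_div, abs_of_pos hc0]
          apply div_le_div_of_nonneg_right _ hc0.le
          rw [abs_mul, abs_mul, abs_of_pos (by norm_num : (0 : ℝ) < 2),
            abs_of_nonneg (pow_nonneg e3 2)]
          calc 2 * |b'| * (s' / (2 * s' - c')) ^ 2 ≤ 2 * C.K * 1 := by
                apply mul_le_mul (by linarith) (pow_le_one₀ e3 e4) (pow_nonneg e3 2) (by linarith)
            _ = 2 * C.K := by ring
        have t4 : AY / C.tau + 2 * C.K / c' ≤ A * (1 + 1 / c') := by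
          have h5 : 2 * C.K / c' ≤ A / c' := div_le_div_of_nonneg_right hA3 hc0.le
          have h6 : A * (1 + 1 / c') = A + A / c' := by ring
          rw [h6]; linarith
        have t1' := abs_le.1 t1
        have t2' := abs_le.1 t2
        have t3' := abs_le.1 t3
        rw [abs_le]
        constructor
        · linarith
        · linarith
  refine ⟨A, hA0, fun N i p hp => ?_⟩
  obtain ⟨k1, k2, k3⟩ := key N i p hp
  exact ⟨k1, k2.trans hA1, k3⟩

end Pool.Light
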