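import Pool.Agent.H721Light.Defs
import Pool.Agent.H721Light.P_gap
import Pool.Agent.H721Light.P_basics
import Pool.Agent.H721Light.P_hits_unique
import Pool.Agent.H721Light.P_T_of_hits

set_option autoImplicit false

open MeasureTheory Set Filter Topology

namespace Pool.Light


variable {n : ℕ}

theorem reversal1_hits (C : Cfg n) {i j : Fin n} {θ b : ℝ} (hb : |b| < C.r i)
    (h : C.Hits i j θ b) : C.Hits j i (θ + Real.pi) (-(C.bp i j θ b)) ∧
      C.bp j i (θ + Real.pi) (-(C.bp i j θ b)) = -b := by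
  obtain ⟨hij, hdv, hbp, hmin⟩ := h
  obtain ⟨-, -, a1, a2, a3, a4, -, -, -, -, -, -, -, -, -⟩ := basics C j i θ b
  obtain ⟨-, -, -, -, c3, c4, -, -, -, -, -, -, -, -, -⟩ := basics C i j θ b
  have e1 : C.dv j i (θ + Real.pi) = C.dv i j θ := by rw [a1, c3, neg_neg]
  have e2 : C.bp j i (θ + Real.pi) (-(C.bp i j θ b)) = -b := by
    unfold Cfg.bp
    rw [a2, c4]
    ring
  refine ⟨⟨hij.symm, by rw [e1]; exact hdv, by rw [e2, abs_neg]; exact hb, ?_⟩, e2⟩
  intro k hkj hki hk1 hk2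
  obtain ⟨-, -, b1, b2, -, -, -, -, -, -, -, -, -, -, -⟩ := basics C j k θ b
  obtain ⟨-, -, -, -, -, -, -, -, d1, d2, -, -, -, -, -⟩ := basics C i j θ b
  have e3 : C.bp j k (θ + Real.pi) (-(C.bp i j θ b)) = - C.bp i k θ b := by
    unfold Cfg.bp
    rw [b2, d2 k]
    ring
  rw [e3, abs_neg] at hk2
  have e4 := d1 k
  by_contra hcon
  push Not at hcon
  rw [e1] at hcon
  have hg := gap C hki hb.le hk2
  have hpos : 0 < |C.dv i k θ| := by
    have h1 : 0 ≤ C.hc i b := Real.sqrt_nonneg _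
    have h2 : 0 ≤ C.hc k (C.bp i k θ b) := Real.sqrt_nonneg _
    have h3 := C.htau
    linarith
  have h5 : 0 ≤ C.dv i k θ := by linarith
  rw [abs_of_nonneg h5] at hpos
  have h6 := hmin k hki hkj hpos hk2
  linarith

theorem reversal1 (C : Cfg n) {l : St n} (hl : l ∈ C.Om 1) :
    C.T l ∈ C.M ∧ C.rho (C.T l) ∈ C.Om 1 ∧ C.T (C.rho (C.T l)) = Cfg.sh 1 (C.rho l) := by
  obtain ⟨i, θ, b⟩ := l
  obtain ⟨hM, ⟨j, hj⟩, -⟩ := hl
  have hb : |b| < C.r i := hM
  have hj' : C.Hits i j θ b := hj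
  have hT : C.T (i, θ, b) = (j, C.Tj i j θ b) := T_of_hits C hj'
  obtain ⟨hH, hbp⟩ := reversal1_hits C hb hj'
  have hrho : C.rho (C.T (i, θ, b)) = (j, θ + Real.pi, -(C.bp i j θ b)) := by
    rw [hT]
    unfold Cfg.rho Cfg.Tj
    simp
  have hT2 : C.T (C.rho (C.T (i, θ, b))) = (i, θ + Real.pi + Real.pi - 2 * Real.arcsin (-b / C.r i), -b) := by
    rw [hrho, T_of_hits C hH]
    unfold Cfg.Tj
    rw [hbp]
  refine ⟨?_, ?_, ?_⟩
  · rw [hT]
    exact hj'.2.2.1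
  · refine ⟨?_, ?_, ?_⟩
    · rw [hrho]
      show |-(C.bp i j θ b)| < C.r j
      rw [abs_neg]
      exact hj'.2.2.1
    · rw [hrho]
      exact ⟨i, hH⟩
    · rw [hT2]
      show |-b| < C.r i
      rw [abs_neg]
      exact hb
  · rw [hT2]
    unfold Cfg.sh Cfg.rho
    rw [neg_div, Real.arcsin_neg]
    simp only [Prod.mk.injEq, true_and, and_true]
    push_cast
    ring

end Pool.Light
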