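import Pool.Agent.H721Light.Defs

set_option autoImplicit false

open MeasureTheory Set Filter Topology

namespace Pool.Light


variable {n : ℕ}

/-- tangent curves, reversed, are unstable. -/
theorem ucRho (c d τ : ℝ) (hc : 0 < c) (hτ : 0 < τ) (hd : c + τ ≤ d) :
    UC c (1 - 2 * d / c) d := by
  have hd0 : 0 < d := by linarith
  have e : c * (1 - 2 * d / c) * d = c * d - 2 * d ^ 2 := by
    field_simp
  refine ⟨hd0.ne', Or.inr ⟨?_, ?_⟩⟩
  · rw [e]
    nlinarith [mul_pos hc hd0]
  · rw [e]
    nlinarith [mul_nonneg (by linarith : (0 : ℝ) ≤ d - c) hd0.le]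

end Pool.Light
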