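import Pool.Agent.H721Light.Defs
import Pool.Agent.H721Light.P_gap
import Pool.Agent.H721Light.P_basics
import Pool.Agent.H721Light.P_hits_unique
import Pool.Agent.H721Light.P_T_of_hits
import Pool.Agent.H721Light.P_trichotomy
import Pool.Agent.H721Light.P_isOpen_hits
import Pool.Agent.H721Light.P_isOpen_E0
import Pool.Agent.H721Light.P_reversal
import Pool.Agent.H721Light.P_shift
import Pool.Agent.H721Light.P_om_facts
import Pool.Agent.H721Light.P_meas
import Pool.Agent.H721Light.P_invMeas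
import Pool.Agent.H721Light.P_volSum
import Pool.Agent.H721Light.P_Tsmooth
import Pool.Agent.H721Light.P_tang_null

set_option autoImplicit false

open MeasureTheory Set Filter Topology

namespace Pool.Light


variable {n : ℕ}

/-! ### helper lemmas for `jlim` -/

theorem jlim_dv_cont (C : Cfg n) (k : Fin n) : Continuous (fun l : St n => C.dv l.1 k l.2.1) := by
  unfold Cfg.dv
  have h1 : Continuous (fun l : St n => C.cx l.1) :=
    (continuous_of_discreteTopology (f := C.cx)).comp continuous_fst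
  have h2 : Continuous (fun l : St n => C.cy l.1) :=
    (continuous_of_discreteTopology (f := C.cy)).comp continuous_fst
  have h3 : Continuous (fun l : St n => l.2.1) := continuous_snd.fst
  fun_prop

theorem jlim_dn_cont (C : Cfg n) (k : Fin n) : Continuous (fun l : St n => C.dn l.1 k l.2.1) := by
  unfold Cfg.dn
  have h1 : Continuous (fun l : St n => C.cx l.1) :=
    (continuous_of_discreteTopology (f := C.cx)).comp continuous_fst
  have h2 : Continuous (fun l : St n => C.cy l.1) :=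
    (continuous_of_discreteTopology (f := C.cy)).comp continuous_fst
  have h3 : Continuous (fun l : St n => l.2.1) := continuous_snd.fst
  fun_prop

theorem jlim_r_cont (C : Cfg n) : Continuous (fun l : St n => C.r l.1) :=
  (continuous_of_discreteTopology (f := C.r)).comp continuous_fst

theorem jlim_rho_cont (C : Cfg n) : Continuous C.rho := by
  unfold Cfg.rho
  have h3 : Continuous (fun l : St n => l.2.1) := continuous_snd.fst
  have h4 : Continuous (fun l : St n => l.2.2) := continuous_snd.snd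
  have h5 := jlim_r_cont C
  have h6 : Continuous (fun l : St n => l.2.2 / C.r l.1) := h4.div h5 (fun l => (C.hr l.1).ne')
  have h7 : Continuous (fun l : St n => Real.arcsin (l.2.2 / C.r l.1)) :=
    Real.continuous_arcsin.comp h6
  exact continuous_fst.prodMk ((h3.add (h7.const_mul 2 |> fun h => h)).prodMk h4.neg)

theorem jlim_sh_cont (m : ℤ) : Continuous (Cfg.sh (n := n) m) := by
  unfold Cfg.sh
  have h3 : Continuous (fun l : St n => l.2.1) := continuous_snd.fst
  have h4 : Continuous (fun l : St n => l.2.2) := continuous_snd.snd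
  exact continuous_fst.prodMk ((h3.add continuous_const).prodMk h4)

theorem jlim_isOpen_St {U : Set (St n)} (h : ∀ i, IsOpen {p : ℝ × ℝ | ((i, p) : St n) ∈ U}) :
    IsOpen U := by
  rw [isOpen_iff_mem_nhds]
  rintro ⟨i, p⟩ hp
  rw [nhds_prod_eq, nhds_discrete, Filter.mem_prod_iff]
  refine ⟨{i}, by simp, {p | ((i, p) : St n) ∈ U}, (h i).mem_nhds hp, ?_⟩
  rintro ⟨i', p'⟩ ⟨h1, h2⟩
  simp only [Set.mem_singleton_iff] at h1
  subst h1
  exact h2

theorem jlim_om_open (C : Cfg n) (m : ℕ) : IsOpen (C.Om m) :=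
  jlim_isOpen_St (om_facts C m).2.2.2.1

theorem jlim_E0_open (C : Cfg n) : IsOpen C.E0 := jlim_isOpen_St (isOpen_E0 C)

theorem jlim_M_open (C : Cfg n) : IsOpen C.M := jlim_om_open C 0

theorem jlim_T_contAt (C : Cfg n) {l : St n} (hl : l ∈ C.M)
    (h : ∃ j, C.Hits l.1 j l.2.1 l.2.2) : ContinuousAt C.T l := by
  obtain ⟨i, p⟩ := l
  obtain ⟨j, hj⟩ := h
  have hp : |p.2| < C.r i := hl
  obtain ⟨h1, h2, h3⟩ := Tsmooth C hp hj
  have h4 : ContinuousAt (fun q : ℝ × ℝ => C.Tj i j q.1 q.2) p := h2.continuousAt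
  have h5 : ContinuousAt (fun l : St n => ((j, C.Tj i j l.2.1 l.2.2) : St n)) (i, p) := by
    apply ContinuousAt.prodMk continuousAt_const
    exact ContinuousAt.comp (f := fun l : St n => l.2) (x := ((i, p) : St n)) h4
      continuous_snd.continuousAt
  refine h5.congr ?_
  rw [nhds_prod_eq, nhds_discrete]
  have h6 : ∀ᶠ x : Fin n × ℝ × ℝ in pure i ×ˢ 𝓝 p, x.1 = i ∧
      (|x.2.2| < C.r i ∧ C.Hits i j x.2.1 x.2.2 ∧ C.T (i, x.2) = (j, C.Tj i j x.2.1 x.2.2)) := by
    have ha : ∀ᶠ x : Fin n in pure i, x = i := by simp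
    exact ha.prod_mk h1
  filter_upwards [h6] with x hx
  obtain ⟨i', q⟩ := x
  obtain ⟨rfl, -, -, hx3⟩ := hx
  exact hx3.symm

theorem jlim_om_succ (C : Cfg n) (m : ℕ) (l : St n) :
    l ∈ C.Om (m + 1) ↔ l ∈ C.M ∧ (∃ j, C.Hits l.1 j l.2.1 l.2.2) ∧ C.T l ∈ C.Om m := Iff.rfl

theorem jlim_Tit_contAt (C : Cfg n) (m : ℕ) : ∀ l ∈ C.Om m, ContinuousAt (C.T^[m]) l := by
  induction m with
  | zero => intro l _; simpa using continuousAt_id
  | succ m ih =>
    intro l hl
    rw [jlim_om_succ] at hl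
    rw [Function.iterate_succ]
    exact ContinuousAt.comp (ih _ hl.2.2) (jlim_T_contAt C hl.1 hl.2.1)

theorem jlim_inv_contAt (C : Cfg n) (m : ℕ) {l : St n} (hl : C.rho l ∈ C.Om m) :
    ContinuousAt (C.inv m) l := by
  unfold Cfg.inv
  have h1 : ContinuousAt (fun l => (C.T^[m]) (C.rho l)) l :=
    ContinuousAt.comp (jlim_Tit_contAt C m _ hl) (jlim_rho_cont C).continuousAt
  have h2 : ContinuousAt (fun l => C.rho ((C.T^[m]) (C.rho l))) l :=
    ContinuousAt.comp (jlim_rho_cont C).continuousAt h1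
  exact ContinuousAt.comp (jlim_sh_cont _).continuousAt h2

theorem jlim_om_mono (C : Cfg n) {a b : ℕ} (hab : a ≤ b) : C.Om b ⊆ C.Om a := by
  obtain ⟨k, rfl⟩ := Nat.exists_eq_add_of_le hab
  intro l hl
  exact (((om_facts C a).2.2.1 k l).1 hl).1

theorem jlim_T_M (C : Cfg n) {l : St n} (h : ∃ j, C.Hits l.1 j l.2.1 l.2.2) : C.T l ∈ C.M := by
  obtain ⟨i, θ, b⟩ := l
  obtain ⟨j, hj⟩ := h
  rw [T_of_hits C hj]
  exact hj.2.2.1

/-- escape before `m` reflections, if not in `Om m` and not in `SS` -/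
theorem jlim_escape (C : Cfg n) (m : ℕ) {l : St n} (hl : l ∈ C.M) (h1 : l ∉ C.Om m)
    (h2 : l ∉ C.SS) : ∃ m' < m, l ∈ C.Om m' ∧ (C.T^[m']) l ∈ C.E0 := by
  classical
  have hex : ∃ m, l ∉ C.Om m := ⟨m, h1⟩
  have hle : Nat.find hex ≤ m := Nat.find_min' hex h1
  have hne : Nat.find hex ≠ 0 := by
    intro h0
    have := Nat.find_spec hex
    rw [h0] at this
    exact this hl
  obtain ⟨m', hm'⟩ := Nat.exists_eq_succ_of_ne_zero hne
  have h3 : l ∈ C.Om m' := by
    by_contra h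
    have := Nat.find_min' hex h
    omega
  have h4 : l ∉ C.Om (m' + 1) := by
    have := Nat.find_spec hex
    rw [hm'] at this
    exact this
  refine ⟨m', by omega, h3, ?_⟩
  have h5 : (C.T^[m']) l ∈ C.M := ((reversal C m').1 l h3).1
  have h6 : (C.T^[m']) l ∉ C.Om 1 := fun h => h4 (((om_facts C m').2.2.1 1 l).2 ⟨h3, h⟩)
  rcases trichotomy C h5 with h | h | h
  · exact absurd ⟨h5, h, jlim_T_M C h⟩ h6
  · exact h
  · exact absurd ⟨m', h3, h⟩ h2

theorem jlim_E0_not (C : Cfg n) {l : St n} (h : l ∈ C.E0) : ¬ ∃ j, C.Hits l.1 j l.2.1 l.2.2 := by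
  rintro ⟨j, hj⟩
  have := h.2 j hj.1.symm hj.2.1
  exact absurd hj.2.2.1 (not_lt.2 this.le)

/-- `Om m` is locally constant (as a set) at points outside of `SS`. -/
theorem jlim_not_om_nhds (C : Cfg n) (m : ℕ) {l : St n} (hl : l ∈ C.M) (h1 : l ∉ C.Om m)
    (h2 : l ∉ C.SS) : ∀ᶠ l' in 𝓝 l, l' ∉ C.Om m := by
  obtain ⟨m', hm', h3, h4⟩ := jlim_escape C m hl h1 h2
  have h5 := (jlim_Tit_contAt C m' l h3).eventually ((jlim_E0_open C).mem_nhds h4)
  filter_upwards [h5] with l' h6 h7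
  have h8 : l' ∈ C.Om (m' + 1) := jlim_om_mono C hm' h7
  have h9 := (((om_facts C m').2.2.1 1 l').1 h8).2
  rw [jlim_om_succ] at h9
  exact jlim_E0_not C h6 h9.2.1

open Classical in
/-- the function `φ` on component `i` -/
noncomputable def jlim_ph (i : Fin n) (φ : ℝ × ℝ → ℝ) (l : St n) : ENNReal :=
  if l.1 = i then ENNReal.ofReal |φ l.2| else 0

theorem jlim_ph_cont (i : Fin n) (φ : ℝ × ℝ → ℝ) (hφ : Continuous φ) :
    Continuous (jlim_ph (n := n) i φ) := by
  classical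
  rw [continuous_iff_continuousAt]
  rintro ⟨i', p⟩
  have h1 : ContinuousAt (fun l : St n => if i' = i then ENNReal.ofReal |φ l.2| else 0) (i', p) := by
    by_cases h : i' = i
    · simp only [h, if_true]
      exact (ENNReal.continuous_ofReal.comp (hφ.comp continuous_snd).abs).continuousAt
    · simp only [h, if_false]
      exact continuousAt_const
  refine h1.congr ?_
  rw [nhds_prod_eq, nhds_discrete]
  have ha : ∀ᶠ x : Fin n in pure i', x = i' := by simp
  have hb : ∀ᶠ q : ℝ × ℝ in 𝓝 p, True := by simp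
  filter_upwards [ha.prod_mk hb] with x hx
  obtain ⟨i'', q⟩ := x
  obtain ⟨rfl, -⟩ := hx
  rfl

open Classical in
/-- integrand transported to the image -/
noncomputable def jlim_Psi (C : Cfg n) (m : ℕ) (i : Fin n) (φ : ℝ × ℝ → ℝ) (l : St n) : ENNReal :=
  if l ∈ C.M ∧ C.rho l ∈ C.Om m then jlim_ph i φ (C.inv m l) else 0

theorem jlim_Psi_meas (C : Cfg n) (m : ℕ) (i : Fin n) (φ : ℝ × ℝ → ℝ) (hφ : Continuous φ) :
    Measurable (jlim_Psi C m i φ) := by
  classical
  obtain ⟨hT, hOm, hTr, hM, hS1, hSS, hrho, hinv, -⟩ := meas C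
  unfold jlim_Psi
  refine Measurable.ite ?_ ((jlim_ph_cont i φ hφ).measurable.comp (hinv m)) measurable_const
  exact hM.inter (hrho (hOm m))

/-- continuity of `Psi` along a vertical line at a good tangent state. -/
theorem jlim_Psi_contAt (C : Cfg n) (m : ℕ) (i : Fin n) (φ : ℝ × ℝ → ℝ) (hφ : Continuous φ)
    {l : St n} (hl : |l.2.2| ≠ C.r l.1) (h2 : l ∈ C.M → C.rho l ∉ C.SS) :
    ContinuousAt (jlim_Psi C m i φ) l := by
  classical
  by_cases hM : l ∈ C.M
  · have h3 := h2 hM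
    by_cases hO : C.rho l ∈ C.Om m
    · have h4 : ContinuousAt (fun l => jlim_ph i φ (C.inv m l)) l :=
        ContinuousAt.comp (jlim_ph_cont i φ hφ).continuousAt (jlim_inv_contAt C m hO)
      refine h4.congr ?_
      have h5 := (jlim_rho_cont C).continuousAt.eventually ((jlim_om_open C m).mem_nhds hO)
      filter_upwards [h5, (jlim_M_open C).mem_nhds hM] with x hx hx2
      have hx' : C.rho x ∈ C.Om m := hx
      simp only [jlim_Psi, hx2, hx', and_self, if_true]
    · have hrM : C.rho l ∈ C.M := (((shift C 0 l).2.2.2.2.2.2.2.2.1).1 hM)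
      have h4 := (jlim_rho_cont C).continuousAt.eventually (jlim_not_om_nhds C m hrM hO h3)
      have h5 : ContinuousAt (fun _ : St n => (0 : ENNReal)) l := continuousAt_const
      refine h5.congr ?_
      filter_upwards [h4] with x hx
      simp only [jlim_Psi, hx, and_false, if_false]
  · have h3 : C.r l.1 < |l.2.2| := by
      have : ¬ |l.2.2| < C.r l.1 := hM
      exact lt_of_le_of_ne (not_lt.1 this) (Ne.symm hl)
    have h4 : ∀ᶠ x : St n in 𝓝 l, C.r x.1 < |x.2.2| :=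
      (isOpen_lt (jlim_r_cont C) (continuous_snd.snd.abs)).mem_nhds h3
    have h5 : ContinuousAt (fun _ : St n => (0 : ENNReal)) l := continuousAt_const
    refine h5.congr ?_
    filter_upwards [h4] with x hx
    have : x ∉ C.M := fun h => absurd hx (not_lt.2 (le_of_lt h))
    simp only [jlim_Psi, this, false_and, if_false]

/-- angles -/
theorem jlim_angle (C : Cfg n) (m : ℕ) : ∀ l ∈ C.Om m, l.2.1 ≤ ((C.T^[m]) l).2.1 ∧
    ((C.T^[m]) l).2.1 ≤ l.2.1 + 2 * Real.pi * m := by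
  induction m with
  | zero => intro l _; simp
  | succ m ih =>
    intro l hl
    rw [jlim_om_succ] at hl
    rw [Function.iterate_succ_apply]
    obtain ⟨h1, h2⟩ := ih _ hl.2.2
    obtain ⟨h3, h4⟩ := (shift C 0 l).2.2.2.2.2.2.2.2.2.1 hl.1
    push_cast
    constructor <;> linarith

/-- bound for `Psi`. -/
theorem jlim_Psi_bound (C : Cfg n) (m : ℕ) (i : Fin n) (φ : ℝ × ℝ → ℝ) (hφ : Continuous φ)
    (hφc : HasCompactSupport φ) : ∃ B R : ℝ, 0 ≤ B ∧ ∀ l,
      jlim_Psi C m i φ l ≤ (Set.Icc (-R) R).indicator (fun _ => ENNReal.ofReal B) l.2.1 := by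
  classical
  obtain ⟨B, hB⟩ := hφ.bounded_above_of_compact_support hφc
  obtain ⟨R, hR⟩ := hφc.isCompact.isBounded.subset_closedBall (0 : ℝ × ℝ)
  refine ⟨max B 0, |R| + 2 * Real.pi * m, le_max_right _ _, fun l => ?_⟩
  by_cases h0 : jlim_Psi C m i φ l = 0
  · rw [h0]; exact zero_le
  have h1 : l ∈ C.M ∧ C.rho l ∈ C.Om m := by
    by_contra h
    exact h0 (by simp only [jlim_Psi, h, if_false])
  have h2 : jlim_Psi C m i φ l = jlim_ph i φ (C.inv m l) := by
    simp only [jlim_Psi, h1, and_self, if_true]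
  have h3 : (C.inv m l).1 = i := by
    by_contra h
    exact h0 (by rw [h2]; simp only [jlim_ph, h, if_false])
  have h4 : jlim_ph i φ (C.inv m l) = ENNReal.ofReal |φ (C.inv m l).2| := by
    simp only [jlim_ph, h3, if_true]
  have h5 : φ (C.inv m l).2 ≠ 0 := by
    intro h
    exact h0 (by rw [h2, h4, h]; simp)
  have h6 : (C.inv m l).2 ∈ Metric.closedBall (0 : ℝ × ℝ) R := hR (subset_tsupport _ h5)
  have h7 : |(C.inv m l).2.1| ≤ R := by
    have h8 : ‖(C.inv m l).2‖ ≤ R := by simpa using h6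
    have h9 : ‖(C.inv m l).2.1‖ ≤ ‖(C.inv m l).2‖ := norm_fst_le _
    rw [Real.norm_eq_abs] at h9
    linarith
  obtain ⟨h8, h9⟩ := (reversal C m).2 l h1.2 h1.1
  have h10 := jlim_angle C m _ h8
  rw [h9] at h10
  have h11 := abs_le.1 h7
  have h12 : l.2.1 ∈ Set.Icc (-(|R| + 2 * Real.pi * m)) (|R| + 2 * Real.pi * m) := by
    have h13 : R ≤ |R| := le_abs_self R
    have h14 : 0 ≤ 2 * Real.pi * m := by positivity
    constructor <;> linarith [h11.1, h11.2, h10.1, h10.2]
  rw [Set.indicator_of_mem h12, h2, h4]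
  apply ENNReal.ofReal_le_ofReal
  have := hB (C.inv m l).2
  rw [Real.norm_eq_abs] at this
  exact this.trans (le_max_left _ _)

/-- one strip -/
def jlim_S (C : Cfg n) (k : Fin n) (s ε : ℝ) : Set (St n) :=
  {l | l ∈ C.M ∧ k ≠ l.1 ∧ 0 < C.dv l.1 k l.2.1 ∧ |C.bp l.1 k l.2.1 l.2.2 - s * C.r k| < ε}

theorem jlim_bp_cont (C : Cfg n) (k : Fin n) :
    Continuous (fun l : St n => C.bp l.1 k l.2.1 l.2.2) := by
  unfold Cfg.bp
  exact continuous_snd.snd.sub (jlim_dn_cont C k)

theorem jlim_S_open (C : Cfg n) (k : Fin n) (s ε : ℝ) : IsOpen (jlim_S C k s ε) := by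
  have h1 := jlim_M_open C
  have h2 : IsOpen {l : St n | k ≠ l.1} := by
    have : {l : St n | k ≠ l.1} = Prod.fst ⁻¹' {x : Fin n | k ≠ x} := rfl
    rw [this]
    exact (isOpen_discrete _).preimage continuous_fst
  have h3 : IsOpen {l : St n | 0 < C.dv l.1 k l.2.1} := isOpen_lt continuous_const (jlim_dv_cont C k)
  have h4 : IsOpen {l : St n | |C.bp l.1 k l.2.1 l.2.2 - s * C.r k| < ε} :=
    isOpen_lt ((jlim_bp_cont C k).sub continuous_const).abs continuous_const
  exact h1.inter (h2.inter (h3.inter h4))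

theorem jlim_strip_eq (C : Cfg n) (ε : ℝ) :
    C.Strip ε = ⋃ k, (jlim_S C k 1 ε ∪ jlim_S C k (-1) ε) := by
  ext l
  simp only [Cfg.Strip, jlim_S, Set.mem_iUnion, Set.mem_union, Set.mem_ofPred_eq]
  constructor
  · rintro ⟨h1, k, h2, h3, h4⟩
    refine ⟨k, ?_⟩
    rcases h4 with h4 | h4
    · left; exact ⟨h1, h2, h3, by simpa using h4⟩
    · right; exact ⟨h1, h2, h3, by simpa using h4⟩
  · rintro ⟨k, h | h⟩
    · exact ⟨h.1, k, h.2.1, h.2.2.1, Or.inl (by simpa using h.2.2.2)⟩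
    · exact ⟨h.1, k, h.2.1, h.2.2.1, Or.inr (by simpa using h.2.2.2)⟩

theorem jlim_strip_meas (C : Cfg n) (ε : ℝ) : MeasurableSet (C.Strip ε) := by
  rw [jlim_strip_eq]
  exact MeasurableSet.iUnion fun k =>
    (jlim_S_open C k 1 ε).measurableSet.union (jlim_S_open C k (-1) ε).measurableSet

theorem jlim_scale (H : ℝ → ENNReal) (hH : Measurable H) (β : ℝ) {ε : ℝ} (hε : 0 < ε) :
    ∫⁻ b, H b = ENNReal.ofReal ε * ∫⁻ v, H (β + ε * v) := by
  rw [← lintegral_add_left_eq_self (fun x => H x) β]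
  have h1 := Real.smul_map_volume_mul_left hε.ne'
  have hm : Measurable (fun x : ℝ => ε * x) := by fun_prop
  conv_lhs => rw [← h1]
  rw [lintegral_smul_measure, lintegral_map (by fun_prop) hm, abs_of_pos hε]
  rfl

open Classical in
/-- integrand on the line -/
noncomputable def jlim_F (C : Cfg n) (m : ℕ) (i : Fin n) (φ : ℝ × ℝ → ℝ) (i' k : Fin n)
    (θ b : ℝ) : ENNReal :=
  if k ≠ i' ∧ 0 < C.dv i' k θ then jlim_Psi C m i φ (i', θ, b) else 0

theorem jlim_F_meas (C : Cfg n) (m : ℕ) (i : Fin n) (φ : ℝ × ℝ → ℝ) (hφ : Continuous φ)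
    (i' k : Fin n) : Measurable (fun p : ℝ × ℝ => jlim_F C m i φ i' k p.1 p.2) := by
  classical
  unfold jlim_F
  have h1 : Measurable (fun p : ℝ × ℝ => ((i', p.1, p.2) : St n)) := by fun_prop
  refine Measurable.ite ?_ ((jlim_Psi_meas C m i φ hφ).comp h1) measurable_const
  by_cases hk : k ≠ i'
  · have : {a : ℝ × ℝ | k ≠ i' ∧ 0 < C.dv i' k a.1} =
        (fun p : ℝ × ℝ => ((i', p.1, p.2) : St n)) ⁻¹' {l : St n | 0 < C.dv l.1 k l.2.1} := by
      ext a; simp [hk]
    rw [this]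
    exact h1 (isOpen_lt continuous_const (jlim_dv_cont C k)).measurableSet
  · have : {a : ℝ × ℝ | k ≠ i' ∧ 0 < C.dv i' k a.1} = ∅ := by
      ext a; simp only [Set.mem_ofPred_eq, Set.mem_empty_iff_false, iff_false]
      exact fun h => hk h.1
    rw [this]
    exact MeasurableSet.empty

theorem jlim_ind_eq (C : Cfg n) (m : ℕ) (i : Fin n) (φ : ℝ × ℝ → ℝ) (i' k : Fin n) (s ε : ℝ)
    (θ b : ℝ) : (jlim_S C k s ε).indicator (jlim_Psi C m i φ) ((i', θ, b) : St n) =
      (Set.Ioo (C.dn i' k θ + s * C.r k - ε) (C.dn i' k θ + s * C.r k + ε)).indicator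
        (fun b => jlim_F C m i φ i' k θ b) b := by
  classical
  have key : ((i', θ, b) : St n) ∈ jlim_S C k s ε ↔ ((i', θ, b) : St n) ∈ C.M ∧
      (k ≠ i' ∧ 0 < C.dv i' k θ) ∧
      b ∈ Set.Ioo (C.dn i' k θ + s * C.r k - ε) (C.dn i' k θ + s * C.r k + ε) := by
    simp only [jlim_S, Set.mem_ofPred_eq, Cfg.bp, Set.mem_Ioo, abs_lt]
    constructor
    · rintro ⟨h1, h2, h3, h4, h5⟩
      exact ⟨h1, ⟨h2, h3⟩, by linarith, by linarith⟩
    · rintro ⟨h1, ⟨h2, h3⟩, h4, h5⟩
      exact ⟨h1, h2, h3, by linarith, by linarith⟩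
  by_cases hb : b ∈ Set.Ioo (C.dn i' k θ + s * C.r k - ε) (C.dn i' k θ + s * C.r k + ε)
  · rw [Set.indicator_of_mem hb]
    by_cases hc : k ≠ i' ∧ 0 < C.dv i' k θ
    · by_cases hM : ((i', θ, b) : St n) ∈ C.M
      · rw [Set.indicator_of_mem (key.2 ⟨hM, hc, hb⟩)]
        simp only [jlim_F, hc, and_self, if_true, ne_eq, not_false_eq_true]
      · rw [Set.indicator_of_notMem (fun h => hM (key.1 h).1)]
        have : jlim_Psi C m i φ ((i', θ, b) : St n) = 0 := by
          simp only [jlim_Psi, hM, false_and, if_false]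
        simp only [jlim_F, this, ite_self]
    · rw [Set.indicator_of_notMem (fun h => hc (key.1 h).2.1)]
      simp only [jlim_F, hc, if_false]
  · rw [Set.indicator_of_notMem (fun h => hb (key.1 h).2.2), Set.indicator_of_notMem hb]

/-- rescaled integrand -/
noncomputable def jlim_L (C : Cfg n) (m : ℕ) (i : Fin n) (φ : ℝ × ℝ → ℝ) (i' k : Fin n) (s ε : ℝ)
    (z : ℝ × ℝ) : ENNReal :=
  (Set.Ioo (-1 : ℝ) 1).indicator
    (fun v => jlim_F C m i φ i' k z.1 (C.dn i' k z.1 + s * C.r k + ε * v)) z.2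

theorem jlim_dn_cont' (C : Cfg n) (i' k : Fin n) : Continuous (fun θ : ℝ => C.dn i' k θ) := by
  unfold Cfg.dn
  fun_prop

theorem jlim_dv_cont' (C : Cfg n) (i' k : Fin n) : Continuous (fun θ : ℝ => C.dv i' k θ) := by
  unfold Cfg.dv
  fun_prop

theorem jlim_L_meas (C : Cfg n) (m : ℕ) (i : Fin n) (φ : ℝ × ℝ → ℝ) (hφ : Continuous φ)
    (i' k : Fin n) (s ε : ℝ) : Measurable (jlim_L C m i φ i' k s ε) := by
  have h1 : jlim_L C m i φ i' k s ε = (Prod.snd ⁻¹' (Set.Ioo (-1 : ℝ) 1)).indicator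
      (fun z : ℝ × ℝ => jlim_F C m i φ i' k z.1 (C.dn i' k z.1 + s * C.r k + ε * z.2)) := by
    ext z
    unfold jlim_L
    by_cases hz : z.2 ∈ Set.Ioo (-1 : ℝ) 1
    · rw [Set.indicator_of_mem hz, Set.indicator_of_mem (by exact hz)]
    · rw [Set.indicator_of_notMem hz, Set.indicator_of_notMem (by exact hz)]
  rw [h1]
  refine Measurable.indicator ?_ (measurable_snd measurableSet_Ioo)
  have h2 : Measurable (fun z : ℝ × ℝ => ((z.1, C.dn i' k z.1 + s * C.r k + ε * z.2) : ℝ × ℝ)) := by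
    have := (jlim_dn_cont' C i' k).measurable
    fun_prop
  exact (jlim_F_meas C m i φ hφ i' k).comp h2

theorem jlim_J (C : Cfg n) (m : ℕ) (i : Fin n) (φ : ℝ × ℝ → ℝ) (hφ : Continuous φ)
    (i' k : Fin n) (s : ℝ) {ε : ℝ} (hε : 0 < ε) :
    ∫⁻ p : ℝ × ℝ, (jlim_S C k s ε).indicator (jlim_Psi C m i φ) ((i', p) : St n) =
      ENNReal.ofReal ε * ∫⁻ z, jlim_L C m i φ i' k s ε z := by
  have hm1 : Measurable (fun p : ℝ × ℝ =>
      (jlim_S C k s ε).indicator (jlim_Psi C m i φ) ((i', p) : St n)) := by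
    have h1 : Measurable (fun p : ℝ × ℝ => ((i', p) : St n)) := by fun_prop
    exact ((jlim_Psi_meas C m i φ hφ).indicator (jlim_S_open C k s ε).measurableSet).comp h1
  rw [Measure.volume_eq_prod, lintegral_prod _ hm1.aemeasurable,
    lintegral_prod _ (jlim_L_meas C m i φ hφ i' k s ε).aemeasurable]
  rw [← lintegral_const_mul _ (Measurable.lintegral_prod_right' (jlim_L_meas C m i φ hφ i' k s ε))]
  refine lintegral_congr fun θ => ?_
  have h2 : Measurable (fun b => (jlim_S C k s ε).indicator (jlim_Psi C m i φ) ((i', θ, b) : St n)) := by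
    have h1 : Measurable (fun b : ℝ => ((θ, b) : ℝ × ℝ)) := by fun_prop
    exact hm1.comp h1
  rw [jlim_scale _ h2 (C.dn i' k θ + s * C.r k) hε]
  congr 1
  refine lintegral_congr fun v => ?_
  rw [jlim_ind_eq]
  unfold jlim_L
  by_cases hv : v ∈ Set.Ioo (-1 : ℝ) 1
  · rw [Set.indicator_of_mem (s := Set.Ioo (-1 : ℝ) 1) hv, Set.indicator_of_mem]
    obtain ⟨h3, h4⟩ := hv
    constructor <;> nlinarith
  · rw [Set.indicator_of_notMem (s := Set.Ioo (-1 : ℝ) 1) hv, Set.indicator_of_notMem]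
    rintro ⟨h3, h4⟩
    apply hv
    constructor
    · by_contra h
      have : v ≤ -1 := not_lt.1 h
      nlinarith
    · by_contra h
      have : 1 ≤ v := not_lt.1 h
      nlinarith

theorem jlim_lim (C : Cfg n) (m : ℕ) (i : Fin n) (φ : ℝ × ℝ → ℝ) (hφ : Continuous φ)
    (hφc : HasCompactSupport φ) (i' k : Fin n) (s : ℝ) (hs : s = 1 ∨ s = -1) :
    Tendsto (fun ε => ∫⁻ z, jlim_L C m i φ i' k s ε z) (𝓝[>] (0 : ℝ))
      (𝓝 (∫⁻ z, jlim_L C m i φ i' k s 0 z)) := by
  classical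
  obtain ⟨B, R, hB0, hB⟩ := jlim_Psi_bound C m i φ hφ hφc
  refine tendsto_lintegral_filter_of_dominated_convergence
    ((Set.Icc (-R) R ×ˢ Set.Ioo (-1 : ℝ) 1).indicator (fun _ => ENNReal.ofReal B)) ?_ ?_ ?_ ?_
  · exact Filter.Eventually.of_forall fun ε => jlim_L_meas C m i φ hφ i' k s ε
  · refine Filter.Eventually.of_forall fun ε => Filter.Eventually.of_forall fun z => ?_
    unfold jlim_L
    by_cases hz : z.2 ∈ Set.Ioo (-1 : ℝ) 1
    · rw [Set.indicator_of_mem hz]
      unfold jlim_F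
      split_ifs with h
      · refine (hB _).trans ?_
        by_cases hz1 : z.1 ∈ Set.Icc (-R) R
        · rw [Set.indicator_of_mem (by exact hz1), Set.indicator_of_mem (by exact ⟨hz1, hz⟩)]
        · rw [Set.indicator_of_notMem (by exact hz1)]
          exact zero_le
      · exact zero_le
    · rw [Set.indicator_of_notMem hz]
      exact zero_le
  · rw [lintegral_indicator (measurableSet_Icc.prod measurableSet_Ioo), lintegral_const,
      Measure.restrict_apply_univ, Measure.volume_eq_prod, Measure.prod_prod]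
    simp only [Real.volume_Icc, Real.volume_Ioo]
    exact ENNReal.mul_ne_top ENNReal.ofReal_ne_top
      (ENNReal.mul_ne_top ENNReal.ofReal_ne_top ENNReal.ofReal_ne_top)
  · by_cases hk : k = i'
    · refine Filter.Eventually.of_forall fun z => ?_
      have : ∀ ε, jlim_L C m i φ i' k s ε z = 0 := by
        intro ε
        unfold jlim_L jlim_F
        simp [hk]
      simp only [this]
      exact tendsto_const_nhds
    have h1 := tang_null C i' k hk s hs
    have h2 : ∀ᵐ z : ℝ × ℝ, 0 < C.dv i' k z.1 →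
        |C.dn i' k z.1 + s * C.r k| ≠ C.r i' ∧
          (C.tang i' k s z.1 ∈ C.M → C.rho (C.tang i' k s z.1) ∉ C.SS) := by
      rw [Measure.volume_eq_prod]
      exact Measure.quasiMeasurePreserving_fst.ae h1
    filter_upwards [h2] with z hz
    unfold jlim_L
    by_cases hz2 : z.2 ∈ Set.Ioo (-1 : ℝ) 1
    · simp only [Set.indicator_of_mem hz2]
      unfold jlim_F
      by_cases hd : 0 < C.dv i' k z.1
      · simp only [hd, hk, ne_eq, not_false_eq_true, and_self, if_true]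
        obtain ⟨h3, h4⟩ := hz hd
        have h5 := jlim_Psi_contAt C m i φ hφ (l := C.tang i' k s z.1) h3 h4
        have h6 : Continuous (fun ε : ℝ =>
            ((i', z.1, C.dn i' k z.1 + s * C.r k + ε * z.2) : St n)) := by
          fun_prop
        have h7 : ContinuousAt (fun ε : ℝ => jlim_Psi C m i φ
            ((i', z.1, C.dn i' k z.1 + s * C.r k + ε * z.2) : St n)) 0 := by
          refine ContinuousAt.comp (g := jlim_Psi C m i φ) (f := fun ε : ℝ =>
            ((i', z.1, C.dn i' k z.1 + s * C.r k + ε * z.2) : St n)) ?_ h6.continuousAt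
          have : ((i', z.1, C.dn i' k z.1 + s * C.r k + 0 * z.2) : St n) = C.tang i' k s z.1 := by
            simp [Cfg.tang]
          rw [this]
          exact h5
        exact (h7.tendsto).mono_left nhdsWithin_le_nhds
      · simp only [hd, and_false, if_false]
        exact tendsto_const_nhds
    · simp only [Set.indicator_of_notMem hz2]
      exact tendsto_const_nhds

theorem jlim_L_fin (C : Cfg n) (m : ℕ) (i : Fin n) (φ : ℝ × ℝ → ℝ) (hφ : Continuous φ)
    (hφc : HasCompactSupport φ) (i' k : Fin n) (s ε : ℝ) :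
    ∫⁻ z, jlim_L C m i φ i' k s ε z ≠ ⊤ := by
  classical
  obtain ⟨B, R, hB0, hB⟩ := jlim_Psi_bound C m i φ hφ hφc
  refine ne_top_of_le_ne_top (b := ∫⁻ z : ℝ × ℝ,
    (Set.Icc (-R) R ×ˢ Set.Ioo (-1 : ℝ) 1).indicator (fun _ => ENNReal.ofReal B) z) ?_
    (lintegral_mono fun z => ?_)
  · rw [lintegral_indicator (measurableSet_Icc.prod measurableSet_Ioo), lintegral_const,
      Measure.restrict_apply_univ, Measure.volume_eq_prod, Measure.prod_prod]
    simp only [Real.volume_Icc, Real.volume_Ioo]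
    exact ENNReal.mul_ne_top ENNReal.ofReal_ne_top
      (ENNReal.mul_ne_top ENNReal.ofReal_ne_top ENNReal.ofReal_ne_top)
  · unfold jlim_L
    by_cases hz : z.2 ∈ Set.Ioo (-1 : ℝ) 1
    · rw [Set.indicator_of_mem hz]
      unfold jlim_F
      split_ifs with h
      · refine (hB _).trans ?_
        by_cases hz1 : z.1 ∈ Set.Icc (-R) R
        · rw [Set.indicator_of_mem (by exact hz1), Set.indicator_of_mem (by exact ⟨hz1, hz⟩)]
        · rw [Set.indicator_of_notMem (by exact hz1)]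
          exact zero_le
      · exact zero_le
    · rw [Set.indicator_of_notMem hz]
      exact zero_le

theorem jlim_tang_cont (C : Cfg n) (i' k : Fin n) (s : ℝ) :
    Continuous (fun θ : ℝ => C.tang i' k s θ) := by
  unfold Cfg.tang
  have := jlim_dn_cont' C i' k
  fun_prop

theorem jlim_nuSet_meas (C : Cfg n) (m : ℕ) (i' k : Fin n) (s : ℝ) :
    MeasurableSet (C.nuSet m i' k s) := by
  by_cases hk : k ≠ i'
  · have h1 : IsOpen {θ : ℝ | 0 < C.dv i' k θ} := isOpen_lt continuous_const (jlim_dv_cont' C i' k)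
    have h2 : IsOpen {θ : ℝ | C.tang i' k s θ ∈ C.M} :=
      (jlim_M_open C).preimage (jlim_tang_cont C i' k s)
    have h3 : IsOpen {θ : ℝ | C.rho (C.tang i' k s θ) ∈ C.Om m} :=
      (jlim_om_open C m).preimage ((jlim_rho_cont C).comp (jlim_tang_cont C i' k s))
    have : C.nuSet m i' k s = {θ : ℝ | 0 < C.dv i' k θ} ∩ ({θ : ℝ | C.tang i' k s θ ∈ C.M} ∩
        {θ : ℝ | C.rho (C.tang i' k s θ) ∈ C.Om m}) := by
      ext θ
      simp only [Cfg.nuSet, Set.mem_ofPred_eq, Set.mem_inter_iff]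
      tauto
    rw [this]
    exact (h1.inter (h2.inter h3)).measurableSet
  · have : C.nuSet m i' k s = ∅ := by
      ext θ
      simp only [Cfg.nuSet, Set.mem_ofPred_eq, Set.mem_empty_iff_false, iff_false]
      exact fun h => hk h.1
    rw [this]
    exact MeasurableSet.empty

theorem jlim_L0 (C : Cfg n) (m : ℕ) (i : Fin n) (φ : ℝ × ℝ → ℝ) (hφ : Continuous φ)
    (i' k : Fin n) (s : ℝ) :
    ∫⁻ z, jlim_L C m i φ i' k s 0 z =
      2 * ∫⁻ θ in C.nuSet m i' k s, jlim_ph i φ (C.inv m (C.tang i' k s θ)) := by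
  classical
  rw [Measure.volume_eq_prod, lintegral_prod _ (jlim_L_meas C m i φ hφ i' k s 0).aemeasurable]
  rw [← lintegral_indicator (jlim_nuSet_meas C m i' k s)]
  have hmF : Measurable (fun θ : ℝ => jlim_F C m i φ i' k θ (C.dn i' k θ + s * C.r k)) := by
    have h2 : Measurable (fun θ : ℝ => ((θ, C.dn i' k θ + s * C.r k) : ℝ × ℝ)) := by
      have := (jlim_dn_cont' C i' k).measurable
      fun_prop
    have h3 := Measurable.comp (g := fun p : ℝ × ℝ => jlim_F C m i φ i' k p.1 p.2)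
      (f := fun θ : ℝ => ((θ, C.dn i' k θ + s * C.r k) : ℝ × ℝ)) (jlim_F_meas C m i φ hφ i' k) h2
    have h4 : (fun p : ℝ × ℝ => jlim_F C m i φ i' k p.1 p.2) ∘
        (fun θ : ℝ => ((θ, C.dn i' k θ + s * C.r k) : ℝ × ℝ)) =
        (fun θ : ℝ => jlim_F C m i φ i' k θ (C.dn i' k θ + s * C.r k)) := by
      funext θ
      rfl
    rw [h4] at h3
    exact h3
  have h1 : ∀ θ, (C.nuSet m i' k s).indicator
      (fun θ => jlim_ph i φ (C.inv m (C.tang i' k s θ))) θ =
      jlim_F C m i φ i' k θ (C.dn i' k θ + s * C.r k) := by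
    intro θ
    by_cases h : θ ∈ C.nuSet m i' k s
    · rw [Set.indicator_of_mem h]
      obtain ⟨h2, h3, h4, h5⟩ := h
      have h4' : ((i', θ, C.dn i' k θ + s * C.r k) : St n) ∈ C.M := h4
      have h5' : C.rho ((i', θ, C.dn i' k θ + s * C.r k) : St n) ∈ C.Om m := h5
      unfold jlim_F jlim_Psi
      rw [if_pos ⟨h2, h3⟩, if_pos ⟨h4', h5'⟩]
      rfl
    · rw [Set.indicator_of_notMem h]
      unfold jlim_F jlim_Psi
      by_cases h2 : k ≠ i' ∧ 0 < C.dv i' k θ
      · rw [if_pos h2, if_neg]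
        rintro ⟨h4, h5⟩
        exact h ⟨h2.1, h2.2, h4, h5⟩
      · rw [if_neg h2]
  rw [lintegral_congr h1, ← lintegral_const_mul _ hmF]
  refine lintegral_congr fun θ => ?_
  unfold jlim_L
  simp only [zero_mul, add_zero]
  rw [lintegral_indicator measurableSet_Ioo, lintegral_const, Measure.restrict_apply_univ,
    Real.volume_Ioo, mul_comm]
  norm_num

theorem jlim_num (C : Cfg n) (m : ℕ) (i : Fin n) (φ : ℝ × ℝ → ℝ) (hφ : Continuous φ) :
    ∫⁻ l, jlim_ph i φ l ∂(C.num m) = ∑ i', ∑ k,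
      ((∫⁻ θ in C.nuSet m i' k 1, jlim_ph i φ (C.inv m (C.tang i' k 1 θ))) +
        (∫⁻ θ in C.nuSet m i' k (-1), jlim_ph i φ (C.inv m (C.tang i' k (-1) θ)))) := by
  have hph := (jlim_ph_cont (n := n) i φ hφ).measurable
  have hinv : Measurable (C.inv m) := (meas C).2.2.2.2.2.2.2.1 m
  have ht : ∀ i' k s, Measurable (fun θ => C.inv m (C.tang i' k s θ)) := fun i' k s =>
    hinv.comp (jlim_tang_cont C i' k s).measurable
  unfold Cfg.num
  rw [lintegral_finsetSum_measure]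
  refine Finset.sum_congr rfl fun i' _ => ?_
  rw [lintegral_finsetSum_measure]
  refine Finset.sum_congr rfl fun k _ => ?_
  rw [lintegral_add_measure, lintegral_map hph (ht i' k 1), lintegral_map hph (ht i' k (-1))]

theorem jlim_comap (C : Cfg n) (m : ℕ) (i : Fin n) (φ : ℝ × ℝ → ℝ) :
    ∫⁻ p, ENNReal.ofReal |φ p| ∂(Measure.comap (fun p : ℝ × ℝ => ((i, p) : St n)) (C.num m)) =
      ∫⁻ l, jlim_ph i φ l ∂(C.num m) := by
  classical
  have he : MeasurableEmbedding (fun p : ℝ × ℝ => ((i, p) : St n)) :=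
    measurableEmbedding_prodMk_left i
  have h1 : ∀ p : ℝ × ℝ, ENNReal.ofReal |φ p| = jlim_ph (n := n) i φ ((i, p) : St n) := by
    intro p; simp [jlim_ph]
  simp_rw [h1]
  rw [← he.lintegral_map (fun l => jlim_ph i φ l), he.map_comap,
    ← lintegral_indicator he.measurableSet_range]
  refine lintegral_congr fun l => ?_
  by_cases h : l ∈ Set.range (fun p : ℝ × ℝ => ((i, p) : St n))
  · rw [Set.indicator_of_mem h]
  · rw [Set.indicator_of_notMem h]
    unfold jlim_ph
    rw [if_neg]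
    intro h2
    exact h ⟨l.2, by rw [← h2]⟩

theorem jlim_chain (C : Cfg n) (m : ℕ) (i : Fin n) (φ : ℝ × ℝ → ℝ) (hφ : Continuous φ)
    {ε : ℝ} (hε : 0 < ε) :
    ∫⁻ p : ℝ × ℝ, ENNReal.ofReal (|φ p| *
      (C.Om m ∩ (C.T^[m]) ⁻¹' (C.Strip ε)).indicator 1 ((i, p) : St n)) ≤
      ENNReal.ofReal ε * (∑ i', ∑ k, ((∫⁻ z, jlim_L C m i φ i' k 1 ε z) +
      (∫⁻ z, jlim_L C m i φ i' k (-1) ε z))) := by
  classical
  obtain ⟨hT, hOm, hTr, hM, hS1, hSS, hrho, hinv, -⟩ := meas C
  have hPm := jlim_Psi_meas C m i φ hφ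
  have hph := (jlim_ph_cont (n := n) i φ hφ).measurable
  have hTm : MeasurableSet ((C.T^[m]) ⁻¹' (C.Strip ε)) := (hT.iterate m) (jlim_strip_meas C ε)
  have hset : MeasurableSet (C.Om m ∩ (C.T^[m]) ⁻¹' (C.Strip ε)) := (hOm m).inter hTm
  set A := C.Om m ∩ (C.T^[m]) ⁻¹' (C.Strip ε) with hA
  have hg : Measurable ((C.Strip ε).indicator (jlim_Psi C m i φ)) :=
    hPm.indicator (jlim_strip_meas C ε)
  have e1 : ∀ p : ℝ × ℝ, ENNReal.ofReal (|φ p| * A.indicator 1 ((i, p) : St n)) =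
      A.indicator (jlim_ph i φ) ((i, p) : St n) := by
    intro p
    by_cases h : ((i, p) : St n) ∈ A
    · rw [Set.indicator_of_mem h, Set.indicator_of_mem h]
      simp [jlim_ph]
    · rw [Set.indicator_of_notMem h, Set.indicator_of_notMem h]
      simp
  have e2 : ∫⁻ p : ℝ × ℝ, A.indicator (jlim_ph i φ) ((i, p) : St n) ≤
      ∫⁻ l, A.indicator (jlim_ph i φ) l ∂(Cfg.vol n) := by
    rw [volSum _ (hph.indicator hset)]
    exact Finset.single_le_sum (f := fun i' => ∫⁻ p : ℝ × ℝ,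
      A.indicator (jlim_ph i φ) ((i', p) : St n)) (fun _ _ => zero_le) (Finset.mem_univ i)
  have e3 : ∫⁻ l, A.indicator (jlim_ph i φ) l ∂(Cfg.vol n) =
      ∫⁻ l in C.Om m, (C.Strip ε).indicator (jlim_Psi C m i φ) ((C.T^[m]) l) ∂(Cfg.vol n) := by
    rw [← lintegral_indicator (hOm m)]
    refine lintegral_congr fun l => ?_
    by_cases h : l ∈ C.Om m
    · rw [Set.indicator_of_mem (s := C.Om m) h]
      obtain ⟨h1, h2, h3⟩ := (reversal C m).1 l h
      by_cases h4 : (C.T^[m]) l ∈ C.Strip ε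
      · rw [Set.indicator_of_mem h4, Set.indicator_of_mem (show l ∈ A from ⟨h, h4⟩)]
        unfold jlim_Psi
        rw [if_pos ⟨h1, h2⟩, h3]
      · rw [Set.indicator_of_notMem h4, Set.indicator_of_notMem (fun h5 : l ∈ A => h4 h5.2)]
    · rw [Set.indicator_of_notMem (s := C.Om m) h,
        Set.indicator_of_notMem (fun h5 : l ∈ A => h h5.1)]
  have e4 := invMeas C m _ hg
  have e5 : ∫⁻ l in C.M, (C.Strip ε).indicator (jlim_Psi C m i φ) l ∂(Cfg.vol n) ≤
      ∫⁻ l, (C.Strip ε).indicator (jlim_Psi C m i φ) l ∂(Cfg.vol n) :=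
    lintegral_mono' Measure.restrict_le_self le_rfl
  have e6 : ∀ i' : Fin n, ∫⁻ p : ℝ × ℝ, (C.Strip ε).indicator (jlim_Psi C m i φ) ((i', p) : St n) ≤
      ∑ k, (ENNReal.ofReal ε * (∫⁻ z, jlim_L C m i φ i' k 1 ε z) +
        ENNReal.ofReal ε * (∫⁻ z, jlim_L C m i φ i' k (-1) ε z)) := by
    intro i'
    have hm : ∀ k s, Measurable (fun p : ℝ × ℝ =>
        (jlim_S C k s ε).indicator (jlim_Psi C m i φ) ((i', p) : St n)) := by
      intro k s
      have h1 : Measurable (fun p : ℝ × ℝ => ((i', p) : St n)) := by fun_prop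
      exact (hPm.indicator (jlim_S_open C k s ε).measurableSet).comp h1
    calc ∫⁻ p : ℝ × ℝ, (C.Strip ε).indicator (jlim_Psi C m i φ) ((i', p) : St n)
        ≤ ∫⁻ p : ℝ × ℝ, ∑ k, ((jlim_S C k 1 ε).indicator (jlim_Psi C m i φ) ((i', p) : St n) +
          (jlim_S C k (-1) ε).indicator (jlim_Psi C m i φ) ((i', p) : St n)) := by
          refine lintegral_mono fun p => ?_
          by_cases h : ((i', p) : St n) ∈ C.Strip ε
          · rw [Set.indicator_of_mem h]
            rw [jlim_strip_eq] at h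
            obtain ⟨k, hk⟩ := Set.mem_iUnion.1 h
            refine le_trans ?_ (Finset.single_le_sum (f := fun k =>
              ((jlim_S C k 1 ε).indicator (jlim_Psi C m i φ) ((i', p) : St n) +
          (jlim_S C k (-1) ε).indicator (jlim_Psi C m i φ) ((i', p) : St n)))
              (fun _ _ => zero_le) (Finset.mem_univ k))
            rcases hk with hk | hk
            · rw [Set.indicator_of_mem hk]
              exact le_self_add
            · rw [Set.indicator_of_mem (s := jlim_S C k (-1) ε) hk]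
              exact le_add_self
          · rw [Set.indicator_of_notMem h]
            exact zero_le
      _ = ∑ k, ((∫⁻ p : ℝ × ℝ, (jlim_S C k 1 ε).indicator (jlim_Psi C m i φ) ((i', p) : St n)) +
          ∫⁻ p : ℝ × ℝ, (jlim_S C k (-1) ε).indicator (jlim_Psi C m i φ) ((i', p) : St n)) := by
          rw [lintegral_finsetSum]
          · exact Finset.sum_congr rfl fun k _ => lintegral_add_left (hm k 1) _
          · intro k _
            exact (hm k 1).add (hm k (-1))
      _ = _ := by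
          refine Finset.sum_congr rfl fun k _ => ?_
          rw [jlim_J C m i φ hφ i' k 1 hε, jlim_J C m i φ hφ i' k (-1) hε]
  calc ∫⁻ p : ℝ × ℝ, ENNReal.ofReal (|φ p| * A.indicator 1 ((i, p) : St n))
      = ∫⁻ p : ℝ × ℝ, A.indicator (jlim_ph i φ) ((i, p) : St n) := lintegral_congr e1
    _ ≤ ∫⁻ l, (C.Strip ε).indicator (jlim_Psi C m i φ) l ∂(Cfg.vol n) :=
        e2.trans (e3.le.trans (e4.trans e5))
    _ = ∑ i' : Fin n, ∫⁻ p : ℝ × ℝ, (C.Strip ε).indicator (jlim_Psi C m i φ) ((i', p) : St n) :=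
        volSum _ hg
    _ ≤ ∑ i' : Fin n, ∑ k, (ENNReal.ofReal ε * (∫⁻ z, jlim_L C m i φ i' k 1 ε z) +
        ENNReal.ofReal ε * (∫⁻ z, jlim_L C m i φ i' k (-1) ε z)) :=
        Finset.sum_le_sum fun i' _ => e6 i'
    _ = _ := by
        rw [Finset.mul_sum]
        refine Finset.sum_congr rfl fun i' _ => ?_
        rw [Finset.mul_sum]
        refine Finset.sum_congr rfl fun k _ => ?_
        rw [mul_add]

/-- strips converge to tangent curves. -/
theorem jlim (C : Cfg n) (m : ℕ) (i : Fin n) (φ : ℝ × ℝ → ℝ) (hφ : Continuous φ)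
    (hφc : HasCompactSupport φ) (hφs : tsupport φ ⊆ {p | |p.2| < C.r i}) (κ : ℝ) (hκ : 0 < κ) :
    ∀ᶠ ε in 𝓝[>] (0 : ℝ),
      1 / ε * ∫ p, |φ p| * (C.Om m ∩ (C.T^[m]) ⁻¹' (C.Strip ε)).indicator 1 ((i, p) : St n) ≤
        2 * ∫ p, |φ p| ∂(Measure.comap (fun p : ℝ × ℝ => ((i, p) : St n)) (C.num m)) + κ := by
  classical
  obtain ⟨hT, hOm, hTr, hM, hS1, hSS, hrho, hinv, -⟩ := meas C
  have hPm := jlim_Psi_meas C m i φ hφ
  have hph := (jlim_ph_cont (n := n) i φ hφ).measurable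
  -- total limit
  set N : ENNReal := ∫⁻ l, jlim_ph i φ l ∂(C.num m) with hN
  have hlim : Tendsto (fun ε => ∑ i', ∑ k, ((∫⁻ z, jlim_L C m i φ i' k 1 ε z) +
      (∫⁻ z, jlim_L C m i φ i' k (-1) ε z))) (𝓝[>] (0 : ℝ)) (𝓝 (2 * N)) := by
    have h1 : (2 * N) = ∑ i', ∑ k, ((∫⁻ z, jlim_L C m i φ i' k 1 0 z) +
        (∫⁻ z, jlim_L C m i φ i' k (-1) 0 z)) := by
      rw [hN, jlim_num C m i φ hφ, Finset.mul_sum]
      refine Finset.sum_congr rfl fun i' _ => ?_
      rw [Finset.mul_sum]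
      refine Finset.sum_congr rfl fun k _ => ?_
      rw [mul_add, jlim_L0 C m i φ hφ, jlim_L0 C m i φ hφ]
    rw [h1]
    refine tendsto_finsetSum _ fun i' _ => tendsto_finsetSum _ fun k _ => ?_
    exact (jlim_lim C m i φ hφ hφc i' k 1 (Or.inl rfl)).add
      (jlim_lim C m i φ hφ hφc i' k (-1) (Or.inr rfl))
  have hNfin : 2 * N ≠ ⊤ := by
    have h1 : (2 * N) = ∑ i', ∑ k, ((∫⁻ z, jlim_L C m i φ i' k 1 0 z) +
        (∫⁻ z, jlim_L C m i φ i' k (-1) 0 z)) := by
      rw [hN, jlim_num C m i φ hφ, Finset.mul_sum]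
      refine Finset.sum_congr rfl fun i' _ => ?_
      rw [Finset.mul_sum]
      refine Finset.sum_congr rfl fun k _ => ?_
      rw [mul_add, jlim_L0 C m i φ hφ, jlim_L0 C m i φ hφ]
    rw [h1]
    refine ENNReal.sum_ne_top.2 fun i' _ => ENNReal.sum_ne_top.2 fun k _ => ?_
    exact ENNReal.add_ne_top.2 ⟨jlim_L_fin C m i φ hφ hφc i' k 1 0,
      jlim_L_fin C m i φ hφ hφc i' k (-1) 0⟩
  have hev := hlim.eventually_lt_const
    (ENNReal.lt_add_right hNfin (ENNReal.ofReal_pos.2 hκ).ne')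
  filter_upwards [hev, self_mem_nhdsWithin] with ε hε1 hε0
  have hε : 0 < ε := hε0
  -- the left hand side
  have hset : MeasurableSet (C.Om m ∩ (C.T^[m]) ⁻¹' (C.Strip ε)) :=
    (hOm m).inter ((hT.iterate m) (jlim_strip_meas C ε))
  have hind : Measurable (fun p : ℝ × ℝ => |φ p| *
      (C.Om m ∩ (C.T^[m]) ⁻¹' (C.Strip ε)).indicator 1 ((i, p) : St n)) := by
    have h1 : Measurable (fun p : ℝ × ℝ => ((i, p) : St n)) := by fun_prop
    have h2 : Measurable ((C.Om m ∩ (C.T^[m]) ⁻¹' (C.Strip ε)).indicator (1 : St n → ℝ)) :=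
      measurable_one.indicator hset
    have h3 : Measurable (fun p : ℝ × ℝ => |φ p|) := hφ.abs.measurable
    exact h3.mul (h2.comp h1)
  rw [integral_eq_lintegral_of_nonneg_ae (Filter.Eventually.of_forall fun p => by
    have : (0 : ℝ) ≤ (C.Om m ∩ (C.T^[m]) ⁻¹' (C.Strip ε)).indicator 1 ((i, p) : St n) :=
      Set.indicator_nonneg (fun _ _ => zero_le_one) _
    exact mul_nonneg (abs_nonneg _) this) hind.aestronglyMeasurable]
  rw [integral_eq_lintegral_of_nonneg_ae (Filter.Eventually.of_forall fun p => abs_nonneg _)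
    hφ.abs.aestronglyMeasurable, jlim_comap C m i φ, ← hN]
  have hmain : ∫⁻ p : ℝ × ℝ, ENNReal.ofReal (|φ p| *
      (C.Om m ∩ (C.T^[m]) ⁻¹' (C.Strip ε)).indicator 1 ((i, p) : St n)) ≤
      ENNReal.ofReal ε * (2 * N + ENNReal.ofReal κ) := by
    refine (jlim_chain C m i φ hφ hε).trans ?_
    exact mul_le_mul' le_rfl (le_of_lt hε1)
  have h5 : (∫⁻ p : ℝ × ℝ, ENNReal.ofReal (|φ p| *
      (C.Om m ∩ (C.T^[m]) ⁻¹' (C.Strip ε)).indicator 1 ((i, p) : St n))).toReal ≤
      ε * (2 * N.toReal + κ) := by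
    have h6 := ENNReal.toReal_mono (by
      exact ENNReal.mul_ne_top ENNReal.ofReal_ne_top
        (ENNReal.add_ne_top.2 ⟨hNfin, ENNReal.ofReal_ne_top⟩)) hmain
    rw [ENNReal.toReal_mul, ENNReal.toReal_ofReal hε.le,
      ENNReal.toReal_add hNfin ENNReal.ofReal_ne_top, ENNReal.toReal_ofReal hκ.le,
      ENNReal.toReal_mul] at h6
    simpa using h6
  calc 1 / ε * _ ≤ 1 / ε * (ε * (2 * N.toReal + κ)) :=
        mul_le_mul_of_nonneg_left h5 (by positivity)
    _ = 2 * N.toReal + κ := by field_simp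

end Pool.Light
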