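import Pool.Agent.H721Light.Defs
import Pool.Agent.H721Light.P_gap
import Pool.Agent.H721Light.P_basics
import Pool.Agent.H721Light.P_hits_unique
import Pool.Agent.H721Light.P_T_of_hits
import Pool.Agent.H721Light.P_reversal
import Pool.Agent.H721Light.P_shift
import Pool.Agent.H721Light.P_om_facts
import Pool.Agent.H721Light.P_meas
import Pool.Agent.H721Light.P_transv
import Pool.Agent.H721Light.P_tang_null
import Pool.Agent.H721Light.P_nu_facts

set_option autoImplicit false

open MeasureTheory Set Filter Topology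

namespace Pool.Light


variable {n : ℕ}

theorem nu_curve_tang_meas (C : Cfg n) (i k : Fin n) (s : ℝ) :
    Measurable (fun θ => C.tang i k s θ) := by
  have h : Measurable (fun θ => C.dn i k θ) := by
    unfold Cfg.dn
    fun_prop
  unfold Cfg.tang
  exact measurable_const.prodMk (measurable_id.prodMk (h.add measurable_const))

theorem nu_curve_map_null (C : Cfg n) (m : ℕ) (i k : Fin n) (s : ℝ) (x : St n) :
    Measure.map (fun θ => C.inv m (C.tang i k s θ)) (volume.restrict (C.nuSet m i k s)) {x} = 0 := by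
  have hf : Measurable (fun θ => C.inv m (C.tang i k s θ)) :=
    ((meas C).2.2.2.2.2.2.2.1 m).comp (nu_curve_tang_meas C i k s)
  rw [Measure.map_apply hf (measurableSet_singleton x),
    Measure.restrict_apply (hf (measurableSet_singleton x))]
  have hs : ((fun θ => C.inv m (C.tang i k s θ)) ⁻¹' {x} ∩ C.nuSet m i k s).Subsingleton := by
    have key : ∀ θ ∈ ((fun θ => C.inv m (C.tang i k s θ)) ⁻¹' {x} ∩ C.nuSet m i k s),
        θ = ((C.T^[m]) x).2.1 := by
      intro θ hθ
      obtain ⟨h1, h2⟩ := hθ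
      have h1' : C.inv m (C.tang i k s θ) = x := h1
      have h2' : k ≠ i ∧ 0 < C.dv i k θ ∧ C.tang i k s θ ∈ C.M ∧
        C.rho (C.tang i k s θ) ∈ C.Om m := h2
      have h3 := ((reversal C m).2 (C.tang i k s θ) h2'.2.2.2 h2'.2.2.1).2
      rw [h1'] at h3
      rw [h3]
      rfl
    intro a ha b hb
    rw [key a ha, key b hb]
  exact hs.measure_zero _

theorem nu_curve_point (C : Cfg n) (A : ℝ) (i : Fin n) (p : ℝ × ℝ) :
    C.nui A i {p} = 0 := by
  have h1 : C.nui A i {p} = C.nu A ((fun p : ℝ × ℝ => ((i, p) : St n)) '' {p}) := by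
    unfold Cfg.nui
    exact MeasurableEmbedding.comap_apply (measurableEmbedding_prodMk_left i) _ _
  rw [h1, Set.image_singleton]
  unfold Cfg.nu
  rw [Measure.sum_apply _ (measurableSet_singleton _)]
  simp only [ENNReal.tsum_eq_zero]
  intro m
  rw [Measure.smul_apply]
  have h2 : C.num m {((i, p) : St n)} = 0 := by
    unfold Cfg.num
    simp only [Measure.coe_finsetSum, Finset.sum_apply, Measure.add_apply,
      nu_curve_map_null, add_zero, Finset.sum_const_zero]
  rw [h2, smul_zero]

/-- unstable curves are null for the singular measure. -/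
theorem nu_curve (C : Cfg n) (A : ℝ) (hA : 0 < A) (i : Fin n) (O : Set ℝ) (hO : IsOpen O)
    (th b th' b' : ℝ → ℝ)
    (h : ∀ s ∈ O, HasDerivAt th (th' s) s ∧ HasDerivAt b (b' s) s ∧ |b s| < C.r i ∧
      UC (C.hc i (b s)) (th' s) (b' s)) :
    C.nui A i {p | ∃ s ∈ O, p = (th s, b s)} = 0 := by
  have hc := transv C i O hO th b th' b' h
  have hc2 : ((fun s => (th s, b s)) '' {s | s ∈ O ∧ ((i, th s, b s) : St n) ∈ C.SS}).Countable :=
    hc.image _
  have h0 : C.nui A i ((fun s => (th s, b s)) '' {s | s ∈ O ∧ ((i, th s, b s) : St n) ∈ C.SS}) = 0 := by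
    rw [← Set.biUnion_of_singleton
      ((fun s => (th s, b s)) '' {s | s ∈ O ∧ ((i, th s, b s) : St n) ∈ C.SS})]
    rw [measure_biUnion_null_iff hc2]
    intro p _
    exact nu_curve_point C A i p
  refine measure_mono_null ?_ (measure_union_null (nu_facts C A hA i).2.1 h0)
  intro p hp
  obtain ⟨s, hs, rfl⟩ := hp
  by_cases hS : ((i, th s, b s) : St n) ∈ C.SS
  · right
    exact ⟨s, ⟨hs, hS⟩, rfl⟩
  · left
    exact hS

end Pool.Light
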