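import Pool.Agent.H721Light.Defs
import Pool.Agent.H721Light.P_gap
import Pool.Agent.H721Light.P_basics
import Pool.Agent.H721Light.P_hits_unique
import Pool.Agent.H721Light.P_T_of_hits
import Pool.Agent.H721Light.P_trichotomy
import Pool.Agent.H721Light.P_om_facts
import Pool.Agent.H721Light.P_zeros_countable
import Pool.Agent.H721Light.P_transv
import Pool.Agent.H721Light.P_source
import Pool.Agent.H721Light.XDefs

set_option autoImplicit false

open MeasureTheory Set Filter Topology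

namespace Pool.Light


variable {n : ℕ}

theorem core_sq (C : Cfg n) (x₁ x₂ : ℝ) (k : Fin n) (θ : ℝ) :
    dvx C x₁ x₂ k θ ^ 2 + bx C x₁ x₂ k θ ^ 2 = (C.cx k - x₁) ^ 2 + (C.cy k - x₂) ^ 2 := by
  unfold dvx bx
  have h := Real.sin_sq_add_cos_sq θ
  linear_combination ((C.cx k - x₁) ^ 2 + (C.cy k - x₂) ^ 2) * h

theorem core_sq2 (C : Cfg n) (x₁ x₂ : ℝ) (j k : Fin n) (θ : ℝ) :
    (C.cx k - C.cx j) ^ 2 + (C.cy k - C.cy j) ^ 2 =
      (dvx C x₁ x₂ k θ - dvx C x₁ x₂ j θ) ^ 2 + (bx C x₁ x₂ k θ - bx C x₁ x₂ j θ) ^ 2 := by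
  unfold dvx bx
  have h := Real.sin_sq_add_cos_sq θ
  linear_combination (-((C.cx k - C.cx j) ^ 2 + (C.cy k - C.cy j) ^ 2)) * h

theorem core_bx_deriv (C : Cfg n) (x₁ x₂ : ℝ) (k : Fin n) (θ : ℝ) :
    HasDerivAt (fun t => bx C x₁ x₂ k t) (dvx C x₁ x₂ k θ) θ := by
  have h1 := (Real.hasDerivAt_sin θ).const_mul (C.cx k - x₁)
  have h2 := (Real.hasDerivAt_cos θ).const_mul (C.cy k - x₂)
  have h3 := h1.sub h2
  have h4 : HasDerivAt (fun t => bx C x₁ x₂ k t)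
      ((C.cx k - x₁) * Real.cos θ - (C.cy k - x₂) * -Real.sin θ) θ := h3
  refine h4.congr_deriv ?_
  unfold dvx
  ring

theorem core_cont_bx (C : Cfg n) (x₁ x₂ : ℝ) (k : Fin n) : Continuous (fun t => bx C x₁ x₂ k t) := by
  unfold bx
  fun_prop

theorem core_cont_dvx (C : Cfg n) (x₁ x₂ : ℝ) (k : Fin n) : Continuous (fun t => dvx C x₁ x₂ k t) := by
  unfold dvx
  fun_prop

theorem core_ctble (C : Cfg n) (x₁ x₂ : ℝ) (k : Fin n)
    (hx : (C.r k) ^ 2 < (C.cx k - x₁) ^ 2 + (C.cy k - x₂) ^ 2) (s : ℝ) (hs : s ^ 2 = (C.r k) ^ 2) :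
    {θ | bx C x₁ x₂ k θ = s}.Countable := by
  have h := zeros_countable univ isOpen_univ (fun t => bx C x₁ x₂ k t - s)
    (fun t => dvx C x₁ x₂ k t) (fun t _ => (core_bx_deriv C x₁ x₂ k t).sub_const s) (by
      intro t _ ht h2
      have h1 := core_sq C x₁ x₂ k t
      have h3 : bx C x₁ x₂ k t = s := by
        have ht' : bx C x₁ x₂ k t - s = 0 := ht
        linarith
      have h2' : dvx C x₁ x₂ k t = 0 := h2
      rw [h2', h3, hs] at h1
      linarith)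
  refine h.mono ?_
  intro t ht
  exact ⟨mem_univ _, sub_eq_zero.mpr ht⟩

theorem core_exists (C : Cfg n) (x₁ x₂ : ℝ)
    (hx : ∀ k, (C.r k) ^ 2 < (C.cx k - x₁) ^ 2 + (C.cy k - x₂) ^ 2) :
    ∃ θ0, ∀ k, |bx C x₁ x₂ k θ0| ≠ C.r k := by
  have hc : (⋃ k, ({θ | bx C x₁ x₂ k θ = C.r k} ∪ {θ | bx C x₁ x₂ k θ = -C.r k})).Countable := by
    apply countable_iUnion
    intro k
    exact (core_ctble C x₁ x₂ k (hx k) _ rfl).union (core_ctble C x₁ x₂ k (hx k) _ (by ring))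
  obtain ⟨θ0, hθ0⟩ := (hc.dense_compl ℝ).nonempty
  refine ⟨θ0, fun k hk => ?_⟩
  apply hθ0
  rw [mem_iUnion]
  refine ⟨k, ?_⟩
  rcases (abs_eq (C.hr k).le).mp hk with h | h
  · exact Or.inl h
  · exact Or.inr h

theorem core_min (C : Cfg n) (x₁ x₂ : ℝ) (θ0 : ℝ)
    (hne : ∀ k, |bx C x₁ x₂ k θ0| ≠ C.r k)
    (hex : ∃ k, 0 < dvx C x₁ x₂ k θ0 ∧ |bx C x₁ x₂ k θ0| ≤ C.r k) :
    ∃ j, HitsX C x₁ x₂ j θ0 := by
  classical
  set F : Finset (Fin n) := Finset.univ.filter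
    (fun k => 0 < dvx C x₁ x₂ k θ0 ∧ |bx C x₁ x₂ k θ0| ≤ C.r k) with hF
  have hFne : F.Nonempty := by
    obtain ⟨k, hk⟩ := hex
    exact ⟨k, Finset.mem_filter.mpr ⟨Finset.mem_univ _, hk⟩⟩
  obtain ⟨j, hj, hmin⟩ := Finset.exists_min_image F (fun k => dvx C x₁ x₂ k θ0) hFne
  obtain ⟨-, hj1, hj2⟩ := Finset.mem_filter.mp hj
  refine ⟨j, hj1, lt_of_le_of_ne hj2 (hne j), ?_⟩
  intro k hkj hk1 hk2
  have h1 := hmin k (Finset.mem_filter.mpr ⟨Finset.mem_univ _, hk1, hk2⟩)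
  refine lt_of_le_of_ne h1 ?_
  intro heq
  have h2 := core_sq2 C x₁ x₂ j k θ0
  have h3 := C.hsep j k (Ne.symm hkj)
  rw [h2, heq, sub_self] at h3
  have h4 : Real.sqrt ((0:ℝ) ^ 2 + (bx C x₁ x₂ k θ0 - bx C x₁ x₂ j θ0) ^ 2) ≤ C.r j + C.r k := by
    rw [Real.sqrt_le_iff]
    refine ⟨by have := C.hr j; have := C.hr k; linarith, ?_⟩
    have h5 : |bx C x₁ x₂ k θ0 - bx C x₁ x₂ j θ0| ≤ C.r j + C.r k := by
      have := abs_sub (bx C x₁ x₂ k θ0) (bx C x₁ x₂ j θ0)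
      linarith
    have h6 := pow_le_pow_left₀ (abs_nonneg _) h5 2
    rw [sq_abs] at h6
    linarith
  have := C.htau
  linarith

theorem core_open (C : Cfg n) (x₁ x₂ : ℝ)
    (hx : ∀ k, (C.r k) ^ 2 < (C.cx k - x₁) ^ 2 + (C.cy k - x₂) ^ 2) (j : Fin n) (θ0 : ℝ)
    (h : HitsX C x₁ x₂ j θ0) (hne : ∀ k, |bx C x₁ x₂ k θ0| ≠ C.r k) :
    ∀ᶠ θ in 𝓝 θ0, HitsX C x₁ x₂ j θ := by
  obtain ⟨h1, h2, h3⟩ := h
  have e1 : ∀ᶠ θ in 𝓝 θ0, 0 < dvx C x₁ x₂ j θ :=
    ((core_cont_dvx C x₁ x₂ j).tendsto θ0).eventually (lt_mem_nhds h1)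
  have e2 : ∀ᶠ θ in 𝓝 θ0, |bx C x₁ x₂ j θ| < C.r j :=
    ((core_cont_bx C x₁ x₂ j).abs.tendsto θ0).eventually (gt_mem_nhds h2)
  have e3 : ∀ᶠ θ in 𝓝 θ0, ∀ k, k ≠ j → 0 < dvx C x₁ x₂ k θ → |bx C x₁ x₂ k θ| ≤ C.r k →
      dvx C x₁ x₂ j θ < dvx C x₁ x₂ k θ := by
    rw [eventually_all]
    intro k
    by_cases hkj : k = j
    · exact Eventually.of_forall fun θ h => absurd hkj h
    rcases lt_or_gt_of_ne (hne k) with hb | hb
    · have hd : dvx C x₁ x₂ k θ0 ≠ 0 := by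
        intro h0
        have h4 := core_sq C x₁ x₂ k θ0
        rw [h0] at h4
        have h5 : bx C x₁ x₂ k θ0 ^ 2 < (C.r k) ^ 2 := by
          rw [← sq_abs]
          exact pow_lt_pow_left₀ hb (abs_nonneg _) (by norm_num)
        have h6 := hx k
        linarith
      rcases lt_or_gt_of_ne hd with hd | hd
      · have e4 : ∀ᶠ θ in 𝓝 θ0, dvx C x₁ x₂ k θ < 0 :=
          ((core_cont_dvx C x₁ x₂ k).tendsto θ0).eventually (gt_mem_nhds hd)
        filter_upwards [e4] with θ h4 _ h5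
        exact absurd h5 (not_lt.mpr h4.le)
      · have h4 := h3 k hkj hd hb.le
        have e4 : ∀ᶠ θ in 𝓝 θ0, dvx C x₁ x₂ j θ < dvx C x₁ x₂ k θ :=
          ((core_cont_dvx C x₁ x₂ j).tendsto θ0).eventually_lt
            ((core_cont_dvx C x₁ x₂ k).tendsto θ0) h4
        filter_upwards [e4] with θ h5 _ _ _
        exact h5
    · have e4 : ∀ᶠ θ in 𝓝 θ0, C.r k < |bx C x₁ x₂ k θ| :=
        ((core_cont_bx C x₁ x₂ k).abs.tendsto θ0).eventually (lt_mem_nhds hb)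
      filter_upwards [e4] with θ h4 _ _ h5
      exact absurd h5 (not_le.mpr h4)
  filter_upwards [e1, e2, e3] with θ a1 a2 a3
  exact ⟨a1, a2, a3⟩

theorem core_arcsin (R b : ℝ) (hR : 0 < R) (hb : |b| < R) :
    HasDerivAt (fun b => Real.arcsin (b / R)) (1 / Real.sqrt (R ^ 2 - b ^ 2)) b := by
  have hb' := abs_lt.mp hb
  have h1 : b / R ≠ -1 := by
    intro h
    rw [div_eq_iff hR.ne'] at h
    linarith
  have h2 : b / R ≠ 1 := by
    intro h
    rw [div_eq_iff hR.ne'] at h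
    linarith
  have h3 := Real.hasDerivAt_arcsin h1 h2
  have h4 : HasDerivAt (fun b : ℝ => b / R) (1 / R) b := (hasDerivAt_id b).div_const R
  have h5 := h3.comp b h4
  have h6 : Real.sqrt (R ^ 2 - b ^ 2) = Real.sqrt (1 - (b / R) ^ 2) * R := by
    have h7 : R ^ 2 - b ^ 2 = (1 - (b / R) ^ 2) * R ^ 2 := by
      field_simp
    rw [h7, Real.sqrt_mul' _ (by positivity), Real.sqrt_sq hR.le]
  have h8 : HasDerivAt (fun b => Real.arcsin (b / R)) (1 / √(1 - (b / R) ^ 2) * (1 / R)) b := h5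
  refine h8.congr_deriv ?_
  rw [h6, one_div_mul_one_div]

theorem core_add (C : Cfg n) (x₁ x₂ : ℝ) (j : Fin n) (θ0 φ : ℝ) :
    bx C x₁ x₂ j (θ0 + φ) = Real.cos φ * bx C x₁ x₂ j θ0 + Real.sin φ * dvx C x₁ x₂ j θ0 := by
  unfold bx dvx
  rw [Real.sin_add, Real.cos_add]
  ring

theorem core_trap (C : Cfg n) (l : St n) (hl : l ∈ C.M) (hS : l ∉ C.SS)
    (hE : ∀ m, l ∈ C.Om m → (C.T^[m]) l ∉ C.E0) : l ∈ C.Trap := by
  intro m
  induction m with
  | zero => exact hl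
  | succ m ih =>
    have h1 := (om_facts C m).2.2.1
    have h2 : (C.T^[m]) l ∈ C.M := ((h1 0 l).mp ih).2
    rw [h1 1 l]
    refine ⟨ih, ?_⟩
    rcases trichotomy C h2 with ⟨j, hj⟩ | h3 | h3
    · refine ⟨h2, ⟨j, hj⟩, ?_⟩
      have h4 : C.T ((C.T^[m]) l) = (j, C.Tj ((C.T^[m]) l).1 j ((C.T^[m]) l).2.1 ((C.T^[m]) l).2.2) :=
        T_of_hits C hj
      rw [h4]
      exact hj.2.2.1
    · exact absurd h3 (hE m ih)
    · exact absurd ⟨m, ih, h3⟩ hS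

/-- the core theorem: some ray from `x` escapes after finitely many proper reflections. -/
theorem core (C : Cfg n) (x₁ x₂ : ℝ)
    (hx : ∀ k, (C.r k) ^ 2 < (C.cx k - x₁) ^ 2 + (C.cy k - x₂) ^ 2) :
    ∃ θ : ℝ, (∀ k, 0 < dvx C x₁ x₂ k θ → C.r k < |bx C x₁ x₂ k θ|) ∨
      ∃ j, HitsX C x₁ x₂ j θ ∧ ∃ m, stX C x₁ x₂ j θ ∈ C.Om m ∧
        (C.T^[m]) (stX C x₁ x₂ j θ) ∈ C.E0 := by
  by_contra hcon
  push Not at hcon
  obtain ⟨θ0, hne⟩ := core_exists C x₁ x₂ hx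
  obtain ⟨j, hj⟩ := core_min C x₁ x₂ θ0 hne (hcon θ0).1
  have hopen := core_open C x₁ x₂ hx j θ0 hj hne
  set b0 := bx C x₁ x₂ j θ0 with hb0
  set r := C.r j with hr
  have hr0 : 0 < r := C.hr j
  have hb0r : |b0| < r := hj.2.1
  set D := Real.sqrt ((C.cx j - x₁) ^ 2 + (C.cy j - x₂) ^ 2) with hD
  have hD2 : D ^ 2 = (C.cx j - x₁) ^ 2 + (C.cy j - x₂) ^ 2 := Real.sq_sqrt (by positivity)
  have hrD : r < D := (Real.lt_sqrt hr0.le).mpr (hx j)
  have hD0 : 0 < D := hr0.trans hrD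
  set a0 := Real.arcsin (b0 / D) with ha0
  have hs0 : D * Real.sin a0 = b0 := by
    have h1 := abs_lt.mp (hb0r.trans hrD)
    rw [ha0, Real.sin_arcsin]
    · field_simp
    · rw [le_div_iff₀ hD0]
      linarith
    · rw [div_le_iff₀ hD0]
      linarith
  have hc0 : D * Real.cos a0 = dvx C x₁ x₂ j θ0 := by
    have h1 : 0 ≤ Real.cos a0 := Real.cos_arcsin_nonneg _
    have h2 := core_sq C x₁ x₂ j θ0
    have h3 := Real.sin_sq_add_cos_sq a0
    have h4 : (D * Real.cos a0 - dvx C x₁ x₂ j θ0) * (D * Real.cos a0 + dvx C x₁ x₂ j θ0) = 0 := by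
      have h5 : dvx C x₁ x₂ j θ0 ^ 2 = D ^ 2 - (D * Real.sin a0) ^ 2 := by
        rw [hs0, hD2]
        linarith
      have h6 : (D * Real.cos a0 - dvx C x₁ x₂ j θ0) * (D * Real.cos a0 + dvx C x₁ x₂ j θ0) =
          (D * Real.cos a0) ^ 2 - dvx C x₁ x₂ j θ0 ^ 2 := by ring
      rw [h6, h5]
      linear_combination D ^ 2 * h3
    have h7 : 0 < D * Real.cos a0 + dvx C x₁ x₂ j θ0 :=
      add_pos_of_nonneg_of_pos (mul_nonneg hD0.le h1) hj.1
    rcases mul_eq_zero.mp h4 with h8 | h8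
    · linarith
    · linarith
  set tb : ℝ → ℝ := fun b => θ0 + (Real.arcsin (b / D) - a0) with htb
  have htbx : ∀ b, |b| < r → bx C x₁ x₂ j (tb b) = b := by
    intro b hb
    have h1 := abs_lt.mp (hb.trans hrD)
    rw [htb]
    simp only
    rw [core_add, ← hc0, ← hb0, ← hs0]
    have h2 : Real.cos (Real.arcsin (b / D) - a0) * (D * Real.sin a0) +
        Real.sin (Real.arcsin (b / D) - a0) * (D * Real.cos a0) =
        D * Real.sin ((Real.arcsin (b / D) - a0) + a0) := by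
      rw [Real.sin_add]
      ring
    rw [h2, sub_add_cancel, Real.sin_arcsin]
    · field_simp
    · rw [le_div_iff₀ hD0]
      linarith
    · rw [div_le_iff₀ hD0]
      linarith
  have htbc : Continuous tb := by
    rw [htb]
    exact continuous_const.add ((Real.continuous_arcsin.comp (continuous_id.div_const D)).sub
      continuous_const)
  have htb0 : tb b0 = θ0 := by
    rw [htb]
    simp only
    rw [← ha0]
    ring
  have ev1 : ∀ᶠ b in 𝓝 b0, HitsX C x₁ x₂ j (tb b) := by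
    have h1 := htbc.tendsto b0
    rw [htb0] at h1
    exact h1.eventually hopen
  have ev2 : ∀ᶠ b in 𝓝 b0, |b| < r := (continuous_abs.tendsto b0).eventually (gt_mem_nhds hb0r)
  obtain ⟨ε, hε, hball⟩ := Metric.eventually_nhds_iff.mp (ev1.and ev2)
  set b₁ := b0 - ε / 2 with hb1
  set b₂ := b0 + ε / 2 with hb2
  have hball' : ∀ b, b₁ ≤ b → b ≤ b₂ → HitsX C x₁ x₂ j (tb b) ∧ |b| < r := by
    intro b h1 h2
    apply hball
    rw [Real.dist_eq, abs_lt]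
    constructor <;> linarith
  set th : ℝ → ℝ := fun b => tb b + Real.pi - 2 * Real.arcsin (b / r) with hth
  set th' : ℝ → ℝ := fun b => 1 / Real.sqrt (D ^ 2 - b ^ 2) - 2 * (1 / Real.sqrt (r ^ 2 - b ^ 2))
    with hth'
  have hpos : ∀ b, |b| < r → 0 < Real.sqrt (r ^ 2 - b ^ 2) ∧
      Real.sqrt (r ^ 2 - b ^ 2) ≤ Real.sqrt (D ^ 2 - b ^ 2) := by
    intro b hb
    have h1 : b ^ 2 < r ^ 2 := by
      rw [← sq_abs]
      exact pow_lt_pow_left₀ hb (abs_nonneg _) (by norm_num)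
    have h2 : r ^ 2 ≤ D ^ 2 := pow_le_pow_left₀ hr0.le hrD.le 2
    exact ⟨Real.sqrt_pos.mpr (by linarith), Real.sqrt_le_sqrt (by linarith)⟩
  have hst : ∀ b, |b| < r → stX C x₁ x₂ j (tb b) = (j, th b, b) := by
    intro b hb
    unfold stX
    rw [htbx b hb]
  have hderiv : ∀ b, |b| < r → HasDerivAt th (th' b) b := by
    intro b hb
    have h1 := core_arcsin D b hD0 (hb.trans hrD)
    have h2 := core_arcsin r b hr0 hb
    have h3 : HasDerivAt tb (1 / Real.sqrt (D ^ 2 - b ^ 2)) b := by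
      have h4 := (h1.sub_const a0).const_add θ0
      exact h4
    have h5 := (h3.add_const Real.pi).sub (h2.const_mul 2)
    exact h5
  have hbounds : ∀ b, |b| < r → -2 / C.hc j b ≤ th' b ∧ th' b ≤ -1 / C.hc j b := by
    intro b hb
    obtain ⟨h1, h2⟩ := hpos b hb
    have h3 : C.hc j b = Real.sqrt (r ^ 2 - b ^ 2) := rfl
    rw [h3, hth']
    simp only
    have h4 : 0 < Real.sqrt (D ^ 2 - b ^ 2) := lt_of_lt_of_le h1 h2
    have h5 : 1 / Real.sqrt (D ^ 2 - b ^ 2) ≤ 1 / Real.sqrt (r ^ 2 - b ^ 2) :=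
      one_div_le_one_div_of_le h1 h2
    have h6 : 0 < 1 / Real.sqrt (D ^ 2 - b ^ 2) := by positivity
    have h7 : -2 / Real.sqrt (r ^ 2 - b ^ 2) = -2 * (1 / Real.sqrt (r ^ 2 - b ^ 2)) := by ring
    have h8 : -1 / Real.sqrt (r ^ 2 - b ^ 2) = -1 * (1 / Real.sqrt (r ^ 2 - b ^ 2)) := by ring
    rw [h7, h8]
    constructor <;> linarith
  have hUC : ∀ b, |b| < r → UC (C.hc j b) (th' b) 1 := by
    intro b hb
    obtain ⟨h1, h2⟩ := hpos b hb
    obtain ⟨h3, h4⟩ := hbounds b hb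
    have h5 : 0 < C.hc j b := h1
    refine ⟨one_ne_zero, Or.inr ⟨?_, ?_⟩⟩
    · rw [div_le_iff₀ h5] at h3
      linarith
    · rw [le_div_iff₀ h5] at h4
      linarith
  have hctb := transv C j (Ioo b₁ b₂) isOpen_Ioo th (fun b => b) th' (fun _ => 1) (by
    intro b hb
    have h1 := (hball' b hb.1.le hb.2.le).2
    exact ⟨hderiv b h1, hasDerivAt_id b, h1, hUC b h1⟩)
  have hlt : b₁ < b₂ := by
    rw [hb1, hb2]
    linarith
  refine source C j b₁ b₂ hlt ?_ ?_ th th' ?_ ?_ ?_ ?_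
  · have h1 := abs_lt.mp (hball' b₁ le_rfl hlt.le).2
    exact h1.1
  · have h1 := abs_lt.mp (hball' b₂ hlt.le le_rfl).2
    exact h1.2
  · intro b hb
    exact hderiv b (hball' b hb.1.le hb.2.le).2
  · intro b hb
    have h1 := (hball' b hb.1.le hb.2.le).2
    obtain ⟨h2, h3⟩ := hpos b h1
    apply ContinuousAt.continuousWithinAt
    rw [hth']
    apply ContinuousAt.sub
    · exact continuousAt_const.div (by fun_prop) (lt_of_lt_of_le h2 h3).ne'
    · exact continuousAt_const.mul (continuousAt_const.div (by fun_prop) h2.ne')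
  · intro b hb
    exact hbounds b (hball' b hb.1.le hb.2.le).2
  · have h1 : ∀ᵐ b : ℝ, b ∉ {s | s ∈ Ioo b₁ b₂ ∧ ((j, th s, s) : St n) ∈ C.SS} :=
      measure_eq_zero_iff_ae_notMem.mp (hctb.measure_zero volume)
    filter_upwards [h1] with b hb hbI
    obtain ⟨h2, h3⟩ := hball' b hbI.1.le hbI.2.le
    apply core_trap C
    · exact h3
    · intro h4
      exact hb ⟨hbI, h4⟩
    · intro m hm
      have h4 := (hcon (tb b)).2 j h2 m
      rw [hst b h3] at h4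
      exact h4 hm

end Pool.Light
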