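import Pool.Agent.H721Light.Defs
import Pool.Agent.H721Light.P_gap
import Pool.Agent.H721Light.P_basics
import Pool.Agent.H721Light.P_hits_unique
import Pool.Agent.H721Light.P_T_of_hits
import Pool.Agent.H721Light.P_isOpen_hits
import Pool.Agent.H721Light.P_shift
import Pool.Agent.H721Light.P_om_facts
import Pool.Agent.H721Light.P_meas
import Pool.Agent.H721Light.P_invMeas1
import Pool.Agent.H721Light.P_volSum
import Pool.Agent.H721Light.P_Tsmooth
import Pool.Agent.H721Light.P_zconst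

set_option autoImplicit false

open MeasureTheory Set Filter Topology

namespace Pool.Light


variable {n : ℕ}

theorem hull_Z (C : Cfg n) (l : St n) : C.Z l = 1 ↔ l ∈ C.Trap := by
  unfold Cfg.Z
  split_ifs with h
  · simp [h]
  · simp [h]

theorem hull_nbhd (C : Cfg n) (J : Finset (Fin n)) (i : Fin n)
    (hmax : ∀ k ∈ J, C.cx k + C.r k ≤ C.cx i + C.r i) :
    ∀ᶠ p : ℝ × ℝ in 𝓝 (0, 0), |p.2| < C.r i → ∀ k ∈ J, k ≠ i →
      ¬ (0 < C.dv i k p.1 ∧ |C.bp i k p.1 p.2| ≤ C.r k) := by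
  have key : ∀ k : Fin n, ∀ᶠ p : ℝ × ℝ in 𝓝 (0, 0), |p.2| < C.r i → k ∈ J → k ≠ i →
      ¬ (0 < C.dv i k p.1 ∧ |C.bp i k p.1 p.2| ≤ C.r k) := by
    intro k
    by_cases hk : k ∈ J ∧ k ≠ i
    · obtain ⟨hkJ, hki⟩ := hk
      have hc1 : Continuous fun p : ℝ × ℝ => C.dv i k p.1 := by
        unfold Cfg.dv; fun_prop
      have hc2 : Continuous fun p : ℝ × ℝ => |C.bp i k p.1 p.2| := by
        unfold Cfg.bp Cfg.dn; fun_prop
      have hcl : IsClosed {p : ℝ × ℝ | C.tau ≤ C.dv i k p.1 ∧ |C.bp i k p.1 p.2| ≤ C.r k} :=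
        (isClosed_le continuous_const hc1).inter (isClosed_le hc2 continuous_const)
      have h0 : ((0, 0) : ℝ × ℝ) ∉
          {p : ℝ × ℝ | C.tau ≤ C.dv i k p.1 ∧ |C.bp i k p.1 p.2| ≤ C.r k} := by
        rintro ⟨h1, h2⟩
        have hg := gap C hki (θ := 0) (b := 0) (by simpa using (C.hr i).le) h2
        have hpos : 0 < C.dv i k 0 := lt_of_lt_of_le C.htau h1
        rw [abs_of_pos hpos] at hg
        have e1 : C.dv i k 0 = C.cx k - C.cx i := by simp [Cfg.dv]
        have e2 : C.hc i 0 = C.r i := by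
          simp [Cfg.hc, Real.sqrt_sq (C.hr i).le]
        have e3 : 0 ≤ C.hc k (C.bp i k 0 0) := Real.sqrt_nonneg _
        have h4 := hmax k hkJ
        have h5 := C.htau
        have h6 := C.hr k
        rw [e1, e2] at hg
        linarith
      filter_upwards [hcl.isOpen_compl.mem_nhds h0] with p hp hpi _ _ hcon
      apply hp
      refine ⟨?_, hcon.2⟩
      have hg := gap C hki (θ := p.1) (b := p.2) hpi.le hcon.2
      rw [abs_of_pos hcon.1] at hg
      have e3 : 0 ≤ C.hc k (C.bp i k p.1 p.2) := Real.sqrt_nonneg _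
      have e4 : 0 ≤ C.hc i p.2 := Real.sqrt_nonneg _
      linarith
    · exact Filter.Eventually.of_forall fun p _ h1 h2 => absurd ⟨h1, h2⟩ hk
  have := Filter.eventually_all.2 key
  filter_upwards [this] with p hp hpi k hk hki
  exact hp k hpi hk hki

theorem hull (C : Cfg n) (i : Fin n) : ∀ᵐ p : ℝ × ℝ, |p.2| < C.r i → C.Z (i, p) = 0 := by
  classical
  by_contra hcon
  set J : Finset (Fin n) := Finset.univ.filter
    (fun i => ∀ᵐ p : ℝ × ℝ, |p.2| < C.r i → C.Z (i, p) = 1) with hJ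
  have hiJ : i ∈ J := by
    rw [hJ, Finset.mem_filter]
    exact ⟨Finset.mem_univ _, (zconst C i).resolve_left hcon⟩
  obtain ⟨i0, hi0, hmax⟩ := Finset.exists_max_image J (fun k => C.cx k + C.r k) ⟨i, hiJ⟩
  have hZ1 : ∀ᵐ p : ℝ × ℝ, |p.2| < C.r i0 → C.Z (i0, p) = 1 := (Finset.mem_filter.1 hi0).2
  -- a trapped point near the origin
  have hV := hull_nbhd C J i0 hmax
  have hV2 : ∀ᶠ p : ℝ × ℝ in 𝓝 (0, 0), |p.2| < C.r i0 := by
    have hc : Continuous fun p : ℝ × ℝ => |p.2| := by fun_prop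
    exact hc.continuousAt.eventually_lt continuousAt_const (by simpa using C.hr i0)
  obtain ⟨q, ⟨hq1, hq2⟩, hq3⟩ : ∃ q : ℝ × ℝ, ((|q.2| < C.r i0 → ∀ k ∈ J, k ≠ i0 →
      ¬ (0 < C.dv i0 k q.1 ∧ |C.bp i0 k q.1 q.2| ≤ C.r k)) ∧ |q.2| < C.r i0) ∧
      (|q.2| < C.r i0 → C.Z (i0, q) = 1) := by
    have hmem := hV.and hV2
    obtain ⟨W, hW1, hW2, hW3⟩ := mem_nhds_iff.1 hmem
    have hpos : 0 < volume W := hW2.measure_pos volume ⟨_, hW3⟩
    have hfreq : ∃ᵐ p : ℝ × ℝ ∂(volume : Measure (ℝ × ℝ)), p ∈ W := by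
      rw [frequently_ae_mem_iff]
      exact hpos.ne'
    obtain ⟨q, hq, hq'⟩ := (hfreq.and_eventually hZ1).exists
    exact ⟨q, hW1 hq, hq'⟩
  have hqT : ((i0, q) : St n) ∈ C.Trap := (hull_Z C _).1 (hq3 hq2)
  obtain ⟨-, ⟨j, hj⟩, -⟩ := hqT 1
  have hj' : C.Hits i0 j q.1 q.2 := hj
  have hjJ : j ∉ J := by
    intro h
    exact hq1 hq2 j h hj'.1.symm ⟨hj'.2.1, hj'.2.2.1.le⟩
  have hZ0 : ∀ᵐ p : ℝ × ℝ, |p.2| < C.r j → C.Z (j, p) = 0 := by
    rcases zconst C j with h | h
    · exact h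
    · exact absurd (show j ∈ J by rw [hJ, Finset.mem_filter]; exact ⟨Finset.mem_univ _, h⟩) hjJ
  have hmeas := meas C
  obtain ⟨hTm, hOm, -, -, -, -, -, -, -, -, -, -, hZm⟩ := hmeas
  set V' : Set (ℝ × ℝ) := {p | |p.2| < C.r i0 ∧ C.Hits i0 j p.1 p.2} with hV'
  have hV'o : IsOpen V' := isOpen_hits C i0 j
  have hV'pos : 0 < volume V' := hV'o.measure_pos volume ⟨q, hq2, hj'⟩
  let N : Set (St n) := {l | l.1 = j ∧ |l.2.2| < C.r j ∧ C.Z l = 1}
  have hNm : MeasurableSet N := by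
    have h1 : MeasurableSet {l : St n | l.1 = j} := measurable_fst (measurableSet_singleton j)
    have h2 : MeasurableSet {l : St n | |l.2.2| < C.r j} := by
      refine measurableSet_lt ?_ measurable_const
      exact (measurable_snd.comp measurable_snd).norm
    have h3 : MeasurableSet {l : St n | C.Z l = 1} := hZm (measurableSet_singleton 1)
    exact h1.inter (h2.inter h3)
  let g : St n → ENNReal := N.indicator (fun _ => 1)
  have hgm : Measurable g := measurable_const.indicator hNm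
  have hle := invMeas1 C g hgm
  have hzero : ∫⁻ l, g l ∂(Cfg.vol n) = 0 := by
    rw [volSum g hgm]
    refine Finset.sum_eq_zero fun k _ => ?_
    have hm : Measurable (fun p : ℝ × ℝ => g (k, p)) := hgm.comp measurable_prodMk_left
    refine (lintegral_eq_zero_iff hm).2 ?_
    by_cases hkj : k = j
    · subst hkj
      filter_upwards [hZ0] with p hp
      refine Set.indicator_of_notMem ?_ _
      rintro ⟨-, h1, h2⟩
      rw [hp h1] at h2
      exact zero_ne_one h2
    · refine Filter.Eventually.of_forall fun p => ?_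
      refine Set.indicator_of_notMem ?_ _
      rintro ⟨h1, -⟩
      exact hkj h1
  have hleft : ∫⁻ l in C.Om 1, g (C.T l) ∂(Cfg.vol n) = 0 := by
    refine le_antisymm (hle.trans ?_) bot_le
    rw [← hzero]
    exact setLIntegral_le_lintegral _ _
  rw [← lintegral_indicator (hOm 1)] at hleft
  have hgm2 : Measurable ((C.Om 1).indicator fun l => g (C.T l)) :=
    (hgm.comp hTm).indicator (hOm 1)
  rw [volSum _ hgm2, Finset.sum_eq_zero_iff] at hleft
  have h0 := hleft i0 (Finset.mem_univ _)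
  have hge : volume V' ≤ ∫⁻ p : ℝ × ℝ, ((C.Om 1).indicator fun l => g (C.T l)) (i0, p) := by
    rw [← lintegral_indicator_one hV'o.measurableSet]
    refine lintegral_mono_ae ?_
    filter_upwards [hZ1] with p hp
    by_cases hpV : p ∈ V'
    · have hpT : ((i0, p) : St n) ∈ C.Trap := (hull_Z C _).1 (hp hpV.1)
      have hTT : C.T (i0, p) ∈ C.Trap := (om_facts C 0).2.2.2.2 _ hpT
      have hTe : C.T (i0, p) = (j, C.Tj i0 j p.1 p.2) := T_of_hits C hpV.2
      have hTM : C.T (i0, p) ∈ C.M := hTT 0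
      have hN : C.T (i0, p) ∈ N := by
        refine ⟨by rw [hTe], ?_, (hull_Z C _).2 hTT⟩
        rw [hTe] at hTM ⊢
        exact hTM
      rw [Set.indicator_of_mem hpV, Set.indicator_of_mem (hpT 1)]
      change (1 : ℝ × ℝ → ENNReal) p ≤ N.indicator (fun _ => 1) (C.T (i0, p))
      rw [Set.indicator_of_mem hN]
      rfl
    · rw [Set.indicator_of_notMem hpV]
      exact bot_le
  rw [h0] at hge
  exact absurd hge (not_le.2 hV'pos)

end Pool.Light
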