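import Pool.Agent.H721Light.Defs

set_option autoImplicit false

open MeasureTheory Set Filter Topology

namespace Pool.Light


variable {n : ℕ}

/-- every family of disjoint discs is a configuration. -/
theorem mkCfg (c : Fin n → EuclideanSpace ℝ (Fin 2)) (r : Fin n → ℝ) (hr : ∀ i, 0 < r i)
    (hd : ∀ i j, i ≠ j → r i + r j < dist (c i) (c j)) :
    ∃ C : Cfg n, C.r = r ∧ (∀ i, C.cx i = c i 0) ∧ (∀ i, C.cy i = c i 1) := by
  have hdist : ∀ i j, Real.sqrt ((c j 0 - c i 0) ^ 2 + (c j 1 - c i 1) ^ 2) =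
      dist (c i) (c j) := by
    intro i j
    rw [EuclideanSpace.dist_eq, Fin.sum_univ_two, Real.dist_eq, Real.dist_eq, sq_abs, sq_abs]
    congr 1
    ring
  have h1 : ∀ᶠ τ : ℝ in 𝓝[>] 0, ∀ i j, i ≠ j → r i + r j + τ ≤ dist (c i) (c j) := by
    rw [Filter.eventually_all]
    intro i
    rw [Filter.eventually_all]
    intro j
    by_cases hij : i = j
    · exact Filter.Eventually.of_forall fun τ h => absurd hij h
    · have h2 : (0 : ℝ) < dist (c i) (c j) - r i - r j := by linarith [hd i j hij]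
      have h3 : ∀ᶠ τ : ℝ in 𝓝[>] 0, τ < dist (c i) (c j) - r i - r j :=
        nhdsWithin_le_nhds (Iio_mem_nhds h2)
      filter_upwards [h3] with τ hτ _
      linarith
  obtain ⟨τ, hτ, hτ0⟩ := (h1.and self_mem_nhdsWithin).exists
  have hτ0 : 0 < τ := hτ0
  have h4 : ∀ᶠ K : ℝ in atTop, ∀ i j, dist (c i) (c j) ≤ K := by
    rw [Filter.eventually_all]
    intro i
    rw [Filter.eventually_all]
    intro j
    exact Filter.eventually_ge_atTop _
  have h5 : ∀ᶠ K : ℝ in atTop, ∀ i, r i + τ ≤ K := by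
    rw [Filter.eventually_all]
    intro i
    exact Filter.eventually_ge_atTop _
  obtain ⟨K, hK1, hK2⟩ := (h4.and h5).exists
  refine ⟨⟨fun i => c i 0, fun i => c i 1, r, τ, K, hr, hτ0, ?_, ?_, hK2⟩, rfl, fun _ => rfl,
    fun _ => rfl⟩
  · intro i j hij
    rw [hdist]
    exact hτ i j hij
  · intro i j
    rw [hdist]
    exact hK1 i j

end Pool.Light
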