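import Pool.Agent.H721Light.Defs
import Pool.Agent.H721Light.P_gap
import Pool.Agent.H721Light.P_basics
import Pool.Agent.H721Light.P_hits_unique
import Pool.Agent.H721Light.P_T_of_hits
import Pool.Agent.H721Light.XDefs

set_option autoImplicit false

open MeasureTheory Set Filter Topology

namespace Pool.Light


variable {n : ℕ}

theorem physXE (C : Cfg n) (x₁ x₂ : ℝ)
    (hx : ∀ k, (C.r k) ^ 2 < (C.cx k - x₁) ^ 2 + (C.cy k - x₂) ^ 2) {θ : ℝ}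
    (h : ∀ k, 0 < dvx C x₁ x₂ k θ → C.r k < |bx C x₁ x₂ k θ|) :
    ∀ k, ∀ t, 0 ≤ t → (C.r k) ^ 2 < d2 C (x₁, x₂) θ t k := by
  intro k t ht
  have hcs := Real.sin_sq_add_cos_sq θ
  have h1 : d2 C (x₁, x₂) θ t k = (t - dvx C x₁ x₂ k θ) ^ 2 + (bx C x₁ x₂ k θ) ^ 2 := by
    unfold d2 dvx bx
    simp only
    linear_combination (t ^ 2 - (C.cx k - x₁) ^ 2 - (C.cy k - x₂) ^ 2) * hcs
  have h2 : (C.cx k - x₁) ^ 2 + (C.cy k - x₂) ^ 2 =
      (dvx C x₁ x₂ k θ) ^ 2 + (bx C x₁ x₂ k θ) ^ 2 := by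
    unfold dvx bx
    linear_combination (-(C.cx k - x₁) ^ 2 - (C.cy k - x₂) ^ 2) * hcs
  have hr := C.hr k
  rw [h1]
  rcases lt_or_ge 0 (dvx C x₁ x₂ k θ) with h3 | h3
  · have h4 := h k h3
    have h5 : (C.r k) ^ 2 < (bx C x₁ x₂ k θ) ^ 2 := by
      rw [← sq_abs (bx C x₁ x₂ k θ)]
      exact pow_lt_pow_left₀ h4 hr.le two_ne_zero
    nlinarith [sq_nonneg (t - dvx C x₁ x₂ k θ)]
  · have h4 := hx k
    rw [h2] at h4
    nlinarith

end Pool.Light
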