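import Pool.Agent.H721Light.Defs
import Pool.Agent.H721Light.P_gap
import Pool.Agent.H721Light.P_basics
import Pool.Agent.H721Light.P_hits_unique
import Pool.Agent.H721Light.P_T_of_hits
import Pool.Agent.H721Light.P_shift
import Pool.Agent.H721Light.P_meas
import Pool.Agent.H721Light.P_rhoMeas
import Pool.Agent.H721Light.P_volSum
import Pool.Agent.H721Light.P_poincare
import Pool.Agent.H721Light.P_zfib

set_option autoImplicit false

open MeasureTheory Set Filter Topology

namespace Pool.Light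


variable {n : ℕ}

theorem zconst_slice (A : Set (St n)) (hA : MeasurableSet A) (h0 : Cfg.vol n A = 0) (i : Fin n) :
    ∀ᵐ p : ℝ × ℝ, ((i, p) : St n) ∉ A := by
  have h := volSum (n := n) (A.indicator (fun _ => 1)) (measurable_const.indicator hA)
  rw [lintegral_indicator hA, lintegral_const, Measure.restrict_apply MeasurableSet.univ,
    univ_inter, h0, mul_zero] at h
  have h1 : ∫⁻ p : ℝ × ℝ, A.indicator (fun _ => (1 : ENNReal)) (i, p) = 0 := by
    have := (Finset.sum_eq_zero_iff.mp h.symm) i (Finset.mem_univ i)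
    exact this
  have hm : Measurable (fun p : ℝ × ℝ => A.indicator (fun _ => (1 : ENNReal)) ((i, p) : St n)) :=
    (measurable_const.indicator hA).comp (measurable_const.prodMk measurable_id)
  rw [lintegral_eq_zero_iff hm] at h1
  filter_upwards [h1] with p hp
  intro hpA
  rw [Pi.zero_apply, indicator_of_mem hpA] at hp
  exact one_ne_zero hp

theorem zconst_slice' (A : Set (St n)) (hA : MeasurableSet A)
    (h0 : ∀ i : Fin n, ∀ᵐ p : ℝ × ℝ, ((i, p) : St n) ∉ A) : Cfg.vol n A = 0 := by
  have h := volSum (n := n) (A.indicator (fun _ => 1)) (measurable_const.indicator hA)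
  rw [lintegral_indicator hA, lintegral_const, Measure.restrict_apply MeasurableSet.univ,
    univ_inter, one_mul] at h
  rw [h]
  apply Finset.sum_eq_zero
  intro i _
  have hm : Measurable (fun p : ℝ × ℝ => A.indicator (fun _ => (1 : ENNReal)) ((i, p) : St n)) :=
    (measurable_const.indicator hA).comp (measurable_const.prodMk measurable_id)
  rw [lintegral_eq_zero_iff hm]
  filter_upwards [h0 i] with p hp
  rw [indicator_of_notMem hp]
  rfl

theorem zconst_rho (C : Cfg n) (A : Set (St n)) (hA : MeasurableSet A) (h0 : Cfg.vol n A = 0)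
    (i : Fin n) : ∀ᵐ p : ℝ × ℝ, |p.2| < C.r i → C.rho (i, p) ∉ A := by
  obtain ⟨-, -, -, hM, -, -, hrho, -⟩ := meas C
  have h := rhoMeas C (A.indicator (fun _ => 1)) (measurable_const.indicator hA)
  have h2 : ∫⁻ l in C.M, A.indicator (fun _ => (1 : ENNReal)) l ∂(Cfg.vol n) = 0 := by
    refine nonpos_iff_eq_zero.mp ?_
    refine (lintegral_mono' Measure.restrict_le_self le_rfl).trans ?_
    rw [lintegral_indicator hA, lintegral_const, Measure.restrict_apply MeasurableSet.univ,
      univ_inter, h0, mul_zero]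
  rw [h2] at h
  have hB : MeasurableSet (C.M ∩ C.rho ⁻¹' A) := hM.inter (hrho hA)
  have h3 : Cfg.vol n (C.M ∩ C.rho ⁻¹' A) = 0 := by
    have e : ∫⁻ l in C.M, A.indicator (fun _ => (1 : ENNReal)) (C.rho l) ∂(Cfg.vol n)
        = ∫⁻ l in C.M, (C.rho ⁻¹' A).indicator (fun _ => (1 : ENNReal)) l ∂(Cfg.vol n) := rfl
    rw [e, lintegral_indicator (hrho hA), lintegral_const,
      Measure.restrict_apply MeasurableSet.univ, univ_inter, one_mul,
      Measure.restrict_apply (hrho hA), inter_comm] at h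
    exact h
  filter_upwards [zconst_slice _ hB h3 i] with p hp hpr hpA
  exact hp ⟨hpr, hpA⟩

theorem zconst_Z01 (C : Cfg n) (l : St n) : C.Z l = 0 ∨ C.Z l = 1 := by
  unfold Cfg.Z
  split_ifs
  · exact Or.inr rfl
  · exact Or.inl rfl

theorem zconst_image (r : ℝ) (hr : 0 < r) (g : ℝ → ℝ) (c θ0 : ℝ)
    (h : ∀ᵐ b : ℝ, |b| < r → c = g (θ0 + 2 * Real.arcsin (b / r))) :
    ∀ᵐ t : ℝ, t ∈ Ioo (θ0 - Real.pi) (θ0 + Real.pi) → g t = c := by
  set B : Set ℝ := {b | |b| < r ∧ c ≠ g (θ0 + 2 * Real.arcsin (b / r))} with hB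
  have hB0 : volume B = 0 := by
    rw [ae_iff] at h
    convert h using 2
    ext b
    simp [hB]
  have hd : DifferentiableOn ℝ (fun b => θ0 + 2 * Real.arcsin (b / r)) B := by
    intro b hb
    have hb1 := abs_lt.mp hb.1
    apply DifferentiableAt.differentiableWithinAt
    apply DifferentiableAt.const_add
    apply DifferentiableAt.const_mul
    have : DifferentiableAt ℝ Real.arcsin (b / r) := by
      rw [Real.differentiableAt_arcsin]
      constructor
      · intro h
        rw [div_eq_iff hr.ne'] at h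
        linarith
      · intro h
        rw [div_eq_iff hr.ne'] at h
        linarith
    exact DifferentiableAt.comp (𝕜 := ℝ) (f := fun b : ℝ => b / r) (g := Real.arcsin) b this
      (differentiableAt_id.div_const r)
  have hi := addHaar_image_eq_zero_of_differentiableOn_of_addHaar_eq_zero volume hd hB0
  rw [ae_iff]
  refine measure_mono_null ?_ hi
  intro t ht
  simp only [mem_ofPred_eq, Classical.not_imp] at ht
  obtain ⟨⟨h1, h2⟩, h3⟩ := ht
  have ha : Real.arcsin (Real.sin ((t - θ0) / 2)) = (t - θ0) / 2 := by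
    apply Real.arcsin_sin
    · linarith
    · linarith
  have e : θ0 + 2 * Real.arcsin (r * Real.sin ((t - θ0) / 2) / r) = t := by
    rw [mul_div_cancel_left₀ _ hr.ne', ha]; ring
  refine ⟨r * Real.sin ((t - θ0) / 2), ⟨?_, ?_⟩, e⟩
  · have h4 : |Real.sin ((t - θ0) / 2)| < 1 := by
      rw [abs_lt]
      constructor
      · have := Real.sin_lt_sin_of_lt_of_le_pi_div_two (x := -(Real.pi / 2)) (y := (t - θ0) / 2)
          le_rfl (by linarith) (by linarith)
        rwa [Real.sin_neg, Real.sin_pi_div_two] at this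
      · have := Real.sin_lt_sin_of_lt_of_le_pi_div_two (x := (t - θ0) / 2) (y := Real.pi / 2)
          (by linarith) le_rfl (by linarith)
        rwa [Real.sin_pi_div_two] at this
    rw [abs_mul, abs_of_pos hr]
    nlinarith
  · rw [e]
    exact fun h => h3 h.symm

theorem zconst_periodic (g : ℝ → ℝ) (c θ0 : ℝ) (hg : ∀ (k : ℤ) t, g (t + 2 * Real.pi * k) = g t)
    (h : ∀ᵐ t : ℝ, t ∈ Ioo (θ0 - Real.pi) (θ0 + Real.pi) → g t = c) :
    ∀ᵐ t : ℝ, g t = c := by
  have h1 : ∀ k : ℤ, ∀ᵐ t : ℝ, t + 2 * Real.pi * k ∈ Ioo (θ0 - Real.pi) (θ0 + Real.pi) →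
      g (t + 2 * Real.pi * k) = c := fun k =>
    (measurePreserving_add_right volume (2 * Real.pi * (k : ℝ))).quasiMeasurePreserving.ae h
  have h2 : ∀ k : ℤ, ∀ᵐ t : ℝ, t ≠ θ0 - Real.pi - 2 * Real.pi * k := fun k =>
    Measure.ae_ne volume _
  filter_upwards [ae_all_iff.mpr h1, ae_all_iff.mpr h2] with t ht1 ht2
  obtain ⟨k, hk, -⟩ := existsUnique_add_zsmul_mem_Ico Real.two_pi_pos t (θ0 - Real.pi)
  rw [zsmul_eq_mul] at hk
  have h3 := ht2 k
  rw [← hg k t]
  apply ht1 k
  rw [mul_comm (2 * Real.pi)]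
  refine ⟨lt_of_le_of_ne hk.1 ?_, ?_⟩
  · intro h
    apply h3
    linarith
  · have := hk.2
    linarith

theorem zconst (C : Cfg n) (i : Fin n) :
    (∀ᵐ p : ℝ × ℝ, |p.2| < C.r i → C.Z (i, p) = 0) ∨
    (∀ᵐ p : ℝ × ℝ, |p.2| < C.r i → C.Z (i, p) = 1) := by
  classical
  obtain ⟨-, -, hTrap, hM, -, -, hrho, -, -, -, -, -, hZ⟩ := meas C
  set r := C.r i with hr
  have hr0 : 0 < r := C.hr i
  set f : ℝ × ℝ → ℝ := fun p => C.Z (i, p) with hf
  have hfm : Measurable f := hZ.comp (measurable_const.prodMk measurable_id)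
  set g : ℝ → ℝ := fun θ => (2 * r)⁻¹ * ∫ b in Ioo (-r) r, f (θ, b) with hg
  have hgm : Measurable g :=
    (hfm.stronglyMeasurable.integral_prod_right'
      (ν := volume.restrict (Ioo (-r) r))).measurable.const_mul _
  have hfg : MeasurableSet {p : ℝ × ℝ | |p.2| < r → f p = g p.1} := by
    have h1 : MeasurableSet {p : ℝ × ℝ | |p.2| < r} :=
      measurableSet_lt (continuous_abs.measurable.comp measurable_snd) measurable_const
    have h2 : MeasurableSet {p : ℝ × ℝ | f p = g p.1} :=
      measurableSet_eq_fun hfm (hgm.comp measurable_fst)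
    have : {p : ℝ × ℝ | |p.2| < r → f p = g p.1} = {p : ℝ × ℝ | |p.2| < r}ᶜ ∪
        {p : ℝ × ℝ | f p = g p.1} := by
      ext p
      simp only [mem_ofPred_eq, mem_union, mem_compl_iff]
      tauto
    rw [this]
    exact h1.compl.union h2
  -- step A
  have hA : ∀ᵐ p : ℝ × ℝ, |p.2| < r → f p = g p.1 := by
    rw [Measure.volume_eq_prod, Measure.ae_prod_iff_ae_ae hfg]
    filter_upwards [zfib C i] with θ hθ
    obtain ⟨z, hz⟩ := hθ
    have hgz : g θ = z := by
      have : ∫ b in Ioo (-r) r, f (θ, b) = ∫ b in Ioo (-r) r, z := integral_congr_ae hz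
      rw [hg]
      simp only
      rw [this, setIntegral_const, Real.volume_real_Ioo_of_le (by linarith), smul_eq_mul]
      field_simp
      ring
    rw [ae_restrict_iff' measurableSet_Ioo] at hz
    filter_upwards [hz] with b hb hbr
    show C.Z (i, θ, b) = g θ
    rw [hb (abs_lt.mp hbr)]
    exact hgz.symm
  -- step B
  have hB : ∀ᵐ p : ℝ × ℝ, |p.2| < r → f p = C.Z (C.rho (i, p)) := by
    have h1 := poincare C
    rw [ae_restrict_iff' hM] at h1
    set A : Set (St n) := {l | l ∈ C.M ∧ ¬ (l ∈ C.Trap ↔ C.rho l ∈ C.Trap)} with hAdef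
    have hAm : MeasurableSet A := by
      have : A = C.M ∩ ((C.Trap ∩ (C.rho ⁻¹' C.Trap)ᶜ) ∪ (C.Trapᶜ ∩ (C.rho ⁻¹' C.Trap))) := by
        ext l
        simp only [hAdef, mem_ofPred_eq, mem_inter_iff, mem_union, mem_compl_iff, mem_preimage]
        tauto
      rw [this]
      exact hM.inter ((hTrap.inter (hrho hTrap).compl).union (hTrap.compl.inter (hrho hTrap)))
    have hA0 : Cfg.vol n A = 0 := by
      rw [ae_iff] at h1
      convert h1 using 2
      ext l
      simp [hAdef]
    filter_upwards [zconst_slice A hAm hA0 i] with p hp hpr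
    have h2 : ((i, p) : St n) ∈ C.M := hpr
    have h3 : ((i, p) : St n) ∈ C.Trap ↔ C.rho (i, p) ∈ C.Trap := by
      by_contra h
      exact hp ⟨h2, h⟩
    simp only [hf, Cfg.Z]
    by_cases h4 : ((i, p) : St n) ∈ C.Trap
    · rw [if_pos h4, if_pos (h3.mp h4)]
    · rw [if_neg h4, if_neg (fun h => h4 (h3.mpr h))]
  -- step C
  have hC : ∀ᵐ p : ℝ × ℝ, |p.2| < r → C.Z (C.rho (i, p)) = g (C.rho (i, p)).2.1 := by
    set A : Set (St n) := {l | l.1 = i ∧ ¬ (|l.2.2| < r → f l.2 = g l.2.1)} with hAdef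
    have hAm : MeasurableSet A := by
      have : A = (Prod.fst ⁻¹' {i}) ∩ (Prod.snd ⁻¹' {p : ℝ × ℝ | |p.2| < r → f p = g p.1}ᶜ) := by
        ext l
        simp [hAdef]
      rw [this]
      exact (measurable_fst (measurableSet_singleton i)).inter (measurable_snd hfg.compl)
    have hA0 : Cfg.vol n A = 0 := by
      apply zconst_slice' A hAm
      intro j
      by_cases hji : j = i
      · filter_upwards [hA] with p hp hpA
        exact hpA.2 hp
      · exact Filter.Eventually.of_forall (fun p hp => hji hp.1)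
    filter_upwards [zconst_rho C A hAm hA0 i] with p hp hpr
    have h1 := hp hpr
    have h2 : |(C.rho (i, p)).2.2| < r → f (C.rho (i, p)).2 = g (C.rho (i, p)).2.1 := by
      by_contra h
      exact h1 ⟨rfl, h⟩
    have h3 : |(C.rho (i, p)).2.2| < r := by
      show |(-p.2)| < r
      rwa [abs_neg]
    exact h2 h3
  have hD : ∀ᵐ p : ℝ × ℝ, |p.2| < r → g p.1 = g (p.1 + 2 * Real.arcsin (p.2 / r)) := by
    filter_upwards [hA, hB, hC] with p h1 h2 h3 hpr
    rw [← h1 hpr, h2 hpr, h3 hpr]
    rfl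
  rw [Measure.volume_eq_prod] at hD
  have hE := Measure.ae_ae_of_ae_prod hD
  obtain ⟨θ0, hθ0⟩ := hE.exists
  have hF := zconst_image r hr0 g (g θ0) θ0 hθ0
  have hper : ∀ (k : ℤ) t, g (t + 2 * Real.pi * k) = g t := by
    intro k t
    simp only [hg]
    congr 1
    apply integral_congr_ae
    refine Filter.Eventually.of_forall (fun b => ?_)
    simp only [hf, Cfg.Z]
    have h1 := (shift C k ((i, t, b) : St n)).2.2.2.2.2.1
    have h2 : Cfg.sh k ((i, t, b) : St n) = (i, t + 2 * Real.pi * k, b) := rfl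
    rw [h2] at h1
    by_cases h3 : ((i, t, b) : St n) ∈ C.Trap
    · rw [if_pos h3, if_pos (h1.mpr h3)]
    · rw [if_neg h3, if_neg (fun h => h3 (h1.mp h))]
  have hG := zconst_periodic g (g θ0) θ0 hper hF
  have hH : ∀ᵐ p : ℝ × ℝ, g p.1 = g θ0 := by
    rw [Measure.volume_eq_prod]
    exact Measure.quasiMeasurePreserving_fst.ae hG
  by_cases h1 : g θ0 = 1
  · right
    filter_upwards [hA, hH] with p hp1 hp2 hpr
    have := hp1 hpr
    rw [hp2, h1] at this
    exact this
  · left
    filter_upwards [hA, hH] with p hp1 hp2 hpr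
    have := hp1 hpr
    rw [hp2] at this
    rcases zconst_Z01 C (i, p) with h | h
    · exact h
    · exact absurd (this.symm.trans h) h1

end Pool.Light
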